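import Pool.Agent.H82.OC.Proj


/-!
# OC-A19: closure properties of universally Baire subsets of spaces homeomorphic to `ℕ → ℕ`

* `preimage`, `compl`, `iUnion`, `iInter`, `union`, `inter`, `of_isOpen`, `of_isClosed`: `BaireMeasurableSet` is a σ-algebra containing
  the open sets (Mathlib: `BaireMeasurableSet.compl`, `.iUnion`, `.iInter`, `IsOpen.baireMeasurableSet`, `IsClosed.baireMeasurableSet`,
  or `MeasurableSet` lemmas for `EventuallyMeasurableSpace`).  `const`: `Set.univ`/`∅`.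
* `Bs` instances: `ℕ → ℕ`; `Z × W` (`(ℕ → ℕ) × (ℕ → ℕ) ≃ₜ (ℕ → ℕ)` by interleaving: `ilv` is continuous with continuous inverse
  `x ↦ (x (2i), x (2i+1))`); `ℕ × Z`: `(n, x) ↦ n :: x`; `ℕ → Z`: `x ↦ (fun n => x n.unpair.1 n.unpair.2)`.
* `exists'`: let `eZ : Z ≃ₜ (ℕ → ℕ)`, `eW : W ≃ₜ (ℕ → ℕ)`.  `A' = {x : ℕ → ℕ | (eZ.symm (even half of x), eW.symm (odd half of x)) ∈ A}` is `UB`
  (`preimage`; `UBS` for `Z = ℕ → ℕ` is `UB` by definition), so by `UB_projection` `{z | ∃ y, ilv z y ∈ A'}` is `UB`, and the set in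
  question is its preimage under `eZ`.
* `forall'`: complement.
-/

set_option autoImplicit false
set_option linter.unusedVariables false
set_option linter.unusedSectionVars false
set_option linter.unusedSimpArgs false
set_option linter.deprecated false

universe u v w

open scoped ZFSet

namespace Pool.Agent.H82.OC

open Pool.Agent.H17.Omega

/-- Spaces homeomorphic to the Baire space. -/
class Bs (Z : Type) [TopologicalSpace Z] : Prop where
  out : Nonempty (Z ≃ₜ (ℕ → ℕ))

instance : Bs (ℕ → ℕ) := ⟨⟨Homeomorph.refl _⟩⟩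

/-- Interleaving as a homeomorphism. -/
noncomputable def ilvHomeo : ((ℕ → ℕ) × (ℕ → ℕ)) ≃ₜ (ℕ → ℕ) where
  toFun p := ilv p.1 p.2
  invFun x := (fun i => x (2 * i), fun i => x (2 * i + 1))
  left_inv p := by
    refine Prod.ext ?_ ?_
    · funext i
      show ilv p.1 p.2 (2 * i) = p.1 i
      have h1 : (2 * i) % 2 = 0 := by omega
      have h2 : (2 * i) / 2 = i := by omega
      rw [ilv, if_pos h1, h2]
    · funext i
      show ilv p.1 p.2 (2 * i + 1) = p.2 i
      have h1 : ¬ (2 * i + 1) % 2 = 0 := by omega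
      have h2 : (2 * i + 1) / 2 = i := by omega
      rw [ilv, if_neg h1, h2]
  right_inv x := by
    funext n
    show ilv (fun i => x (2 * i)) (fun i => x (2 * i + 1)) n = x n
    rw [ilv]
    split_ifs with h
    · congr 1
      omega
    · show x (2 * (n / 2) + 1) = x n
      congr 1
      omega
  continuous_toFun := by
    refine continuous_pi fun n => ?_
    by_cases h : n % 2 = 0
    · have e : (fun p : (ℕ → ℕ) × (ℕ → ℕ) => ilv p.1 p.2 n) = fun p => p.1 (n / 2) := by
        funext p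
        rw [ilv, if_pos h]
      rw [e]
      fun_prop
    · have e : (fun p : (ℕ → ℕ) × (ℕ → ℕ) => ilv p.1 p.2 n) = fun p => p.2 (n / 2) := by
        funext p
        rw [ilv, if_neg h]
      rw [e]
      fun_prop
  continuous_invFun := by fun_prop

instance {Z W : Type} [TopologicalSpace Z] [TopologicalSpace W] [Bs Z] [Bs W] : Bs (Z × W) := by
  obtain ⟨eZ⟩ := Bs.out (Z := Z)
  obtain ⟨eW⟩ := Bs.out (Z := W)
  exact ⟨⟨(eZ.prodCongr eW).trans ilvHomeo⟩⟩

/-- Prepending a number as a homeomorphism. -/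
noncomputable def consHomeo : (ℕ × (ℕ → ℕ)) ≃ₜ (ℕ → ℕ) where
  toFun p := fun i => Nat.casesOn i p.1 p.2
  invFun x := (x 0, fun i => x (i + 1))
  left_inv p := rfl
  right_inv x := by
    funext n
    cases n <;> rfl
  continuous_toFun := by
    refine continuous_pi fun n => ?_
    cases n with
    | zero => exact continuous_fst
    | succ n =>
      show Continuous fun p : ℕ × (ℕ → ℕ) => p.2 n
      fun_prop
  continuous_invFun := by fun_prop

/-- Pairing of the coordinates as a homeomorphism. -/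
noncomputable def unpairHomeo : (ℕ → ℕ → ℕ) ≃ₜ (ℕ → ℕ) where
  toFun x := fun n => x n.unpair.1 n.unpair.2
  invFun y := fun a b => y (Nat.pair a b)
  left_inv x := by
    funext a b
    show x (Nat.pair a b).unpair.1 (Nat.pair a b).unpair.2 = x a b
    rw [Nat.unpair_pair]
  right_inv y := by
    funext n
    show y (Nat.pair n.unpair.1 n.unpair.2) = y n
    rw [Nat.pair_unpair]
  continuous_toFun := by fun_prop
  continuous_invFun := by fun_prop

instance {Z : Type} [TopologicalSpace Z] [Bs Z] : Bs (ℕ × Z) := by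
  obtain ⟨eZ⟩ := Bs.out (Z := Z)
  exact ⟨⟨((Homeomorph.refl ℕ).prodCongr eZ).trans consHomeo⟩⟩

instance {Z : Type} [TopologicalSpace Z] [Bs Z] : Bs (ℕ → Z) := by
  obtain ⟨eZ⟩ := Bs.out (Z := Z)
  exact ⟨⟨(Homeomorph.piCongrRight fun _ : ℕ => eZ).trans unpairHomeo⟩⟩

theorem UBS_iff_UB {A : Set (ℕ → ℕ)} : UBS.{u} A ↔ UB.{u} A := Iff.rfl

namespace UBS

variable {Z W : Type} [TopologicalSpace Z] [TopologicalSpace W]

theorem preimage {A : Set W} (hA : UBS.{u} A) {f : Z → W} (hf : Continuous f) : UBS.{u} (f ⁻¹' A) :=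
  fun X _ F hF => hA X (f ∘ F) (hf.comp hF)

theorem compl {A : Set Z} (hA : UBS.{u} A) : UBS.{u} Aᶜ :=
  fun X _ F hF => (hA X F hF).compl

theorem iUnion {ι : Sort*} [Countable ι] {A : ι → Set Z} (hA : ∀ i, UBS.{u} (A i)) :
    UBS.{u} (⋃ i, A i) := by
  intro X _ F hF
  rw [Set.preimage_iUnion]
  exact BaireMeasurableSet.iUnion fun i => hA i X F hF

theorem iInter {ι : Sort*} [Countable ι] {A : ι → Set Z} (hA : ∀ i, UBS.{u} (A i)) :
    UBS.{u} (⋂ i, A i) := by
  intro X _ F hF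
  rw [Set.preimage_iInter]
  exact BaireMeasurableSet.iInter fun i => hA i X F hF

theorem union {A B : Set Z} (hA : UBS.{u} A) (hB : UBS.{u} B) : UBS.{u} (A ∪ B) :=
  fun X _ F hF => (hA X F hF).union (hB X F hF)

theorem inter {A B : Set Z} (hA : UBS.{u} A) (hB : UBS.{u} B) : UBS.{u} (A ∩ B) :=
  fun X _ F hF => (hA X F hF).inter (hB X F hF)

theorem of_isOpen {A : Set Z} (hA : IsOpen A) : UBS.{u} A :=
  fun X _ F hF => (hA.preimage hF).baireMeasurableSet

theorem of_isClosed {A : Set Z} (hA : IsClosed A) : UBS.{u} A := by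
  have h := (of_isOpen (Z := Z) hA.isOpen_compl).compl
  rwa [compl_compl] at h

theorem imp {P P' : Z → Prop} (hP : UBS.{u} {z | P z}) (hP' : UBS.{u} {z | P' z}) :
    UBS.{u} {z | P z → P' z} := by
  have h := hP.compl.union hP'
  have e : {z | P z → P' z} = {z | P z}ᶜ ∪ {z | P' z} := by
    ext z
    simp only [Set.mem_setOf_eq, Set.mem_union, Set.mem_compl_iff]
    tauto
  rw [e]
  exact h

theorem all {ι : Sort*} [Countable ι] {P : ι → Z → Prop} (hP : ∀ i, UBS.{u} {z | P i z}) :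
    UBS.{u} {z | ∀ i, P i z} := by
  have h := UBS.iInter hP
  have e : {z | ∀ i, P i z} = ⋂ i, {z | P i z} := by
    ext z
    simp
  rw [e]
  exact h

theorem ex {ι : Sort*} [Countable ι] {P : ι → Z → Prop} (hP : ∀ i, UBS.{u} {z | P i z}) :
    UBS.{u} {z | ∃ i, P i z} := by
  have h := UBS.iUnion hP
  have e : {z | ∃ i, P i z} = ⋃ i, {z | P i z} := by
    ext z
    simp
  rw [e]
  exact h

/-- Projections. -/
theorem exists' (hW : ManyWoodin.{u}) [Bs Z] [Bs W] {P : Z → W → Prop}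
    (hP : UBS.{u} {a : Z × W | P a.1 a.2}) : UBS.{u} {z | ∃ w, P z w} := by
  obtain ⟨eZ⟩ := Bs.out (Z := Z)
  obtain ⟨eW⟩ := Bs.out (Z := W)
  let f : (ℕ → ℕ) → Z × W := fun x => (eZ.symm (fun i => x (2 * i)), eW.symm (fun i => x (2 * i + 1)))
  have hf : Continuous f := by
    have h1 : Continuous fun x : ℕ → ℕ => fun i => x (2 * i) := by fun_prop
    have h2 : Continuous fun x : ℕ → ℕ => fun i => x (2 * i + 1) := by fun_prop
    exact (eZ.symm.continuous.comp h1).prodMk (eW.symm.continuous.comp h2)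
  have hA : UBS.{u} (f ⁻¹' {a : Z × W | P a.1 a.2}) := hP.preimage hf
  have hB := UB_projection hW (UBS_iff_UB.1 hA)
  have hC : UBS.{u} {z | ∃ y, ilv z y ∈ f ⁻¹' {a : Z × W | P a.1 a.2}} := UBS_iff_UB.2 hB
  have hD := hC.preimage eZ.continuous
  have e : {z | ∃ w, P z w} = eZ ⁻¹' {z | ∃ y, ilv z y ∈ f ⁻¹' {a : Z × W | P a.1 a.2}} := by
    ext z
    have key : ∀ y : ℕ → ℕ, f (ilv (eZ z) y) = (z, eW.symm y) := by
      intro y
      have h := ilvHomeo.symm_apply_apply (eZ z, y)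
      have h1 : (fun i => ilv (eZ z) y (2 * i)) = eZ z := congrArg Prod.fst h
      have h2 : (fun i => ilv (eZ z) y (2 * i + 1)) = y := congrArg Prod.snd h
      show (eZ.symm (fun i => ilv (eZ z) y (2 * i)), eW.symm (fun i => ilv (eZ z) y (2 * i + 1))) = _
      rw [h1, h2, eZ.symm_apply_apply]
    simp only [Set.mem_preimage, Set.mem_setOf_eq]
    constructor
    · rintro ⟨w, hw⟩
      refine ⟨eW w, ?_⟩
      rw [key, eW.symm_apply_apply]
      exact hw
    · rintro ⟨y, hy⟩
      rw [key] at hy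
      exact ⟨_, hy⟩
  rw [e]
  exact hD

theorem forall' (hW : ManyWoodin.{u}) [Bs Z] [Bs W] {P : Z → W → Prop}
    (hP : UBS.{u} {a : Z × W | P a.1 a.2}) : UBS.{u} {z | ∀ w, P z w} := by
  have hQ : UBS.{u} {a : Z × W | ¬ P a.1 a.2} := hP.compl
  have h := (exists' hW (P := fun z w => ¬ P z w) hQ).compl
  have e : {z | ∀ w, P z w} = {z | ∃ w, ¬ P z w}ᶜ := by
    ext z
    simp
  rw [e]
  exact h

end UBS

end Pool.Agent.H82.OC
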