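import Pool.Agent.H82.OC.Meas

/-!
# OC-B9: the iterated measure quantifier

* `mono`, `and`, `em` (ultrafilter: `Ultrafilter.eventually_or`, `Ultrafilter.em`), `exists'` (`AE k P → ∃ l, l.length = k, l over κ, P l`; use `h.lt`), `all` : induction on `k`.
* `const`: induction on `k`.  `k + 1`: for almost all `ζ` there is `c ζ` with `AE k (φ (ζ :: l) = c ζ)` (induction hypothesis for `l ↦ φ (ζ :: l)`), and `c ζ ∈ V_ γ`
  (`and`, `exists'`); `complete` gives `c` with `c ζ = c` for almost all `ζ`.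
* `ordlZ_inj`: induction (`pair_ne_empty`).
* `exists_aeOps`: code of a set of lists: `PZ κ P`.  Operations
  `Ω 0 z = sep (fun w => pair (sn z) w ∈ fs z) (V_ κ)`:  `Ω 0 (pair (PZ κ P) ζ.toZFSet) = PZ κ (fun l => P (ζ :: l))` for `ζ < κ` (`ordlZ_inj`; `κ` is a
  limit, so `ordlZ l ∈ V_ κ` for `l` over `κ` by `rank_pair_lt`);
  `Ω 1 z = sep (fun w => ∃ k P, z = pair (tag k) (PZ κ P) ∧ ∃ ζ, w = ζ.toZFSet ∧ AE 𝒰 k (fun l => P (ζ :: l))) κ.toZFSet`;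
  `Ω (n+2) z = z`.  `AE 𝒰 k P` only depends on the values of `P` on lists over `κ` (`h.lt`), and `PZ κ P = PZ κ P'` implies that `P, P'` agree on
  lists over `κ`; so `ζ.toZFSet ∈ Ω 1 (pair (tag k) (PZ κ P)) ↔ ζ < κ ∧ AE 𝒰 k (fun l => P (ζ :: l))`.
  Claim by induction on `k` (for all `β, P, a`).  `k = 0`: `AE 𝒰 0 P = P []`.  `k + 1`: `A = Ω 1 (pair (tag k) (PZ κ P)) ∈ Y β ⊆ Y (a 0)` is large, so
  `(ξ (a 0)).toZFSet ∈ A` (`large`): `AE 𝒰 k (fun l => P (ξ (a 0) :: l))`.  `PZ κ (fun l => P (ξ (a 0) :: l)) = Ω 0 (..) ∈ Y (a 0 + 1)`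
  (`mem`: `(ξ (a 0)).toZFSet ∈ Y (a 0 + 1)`); apply the induction hypothesis with `β' = a 0 + 1`, `a' i = a (i + 1)` (for `k = 0` of the
  induction hypothesis only `β' < ω₁` is needed).  `List.range_succ_eq_map`.
-/

set_option autoImplicit false
set_option linter.unusedVariables false
set_option linter.unusedSectionVars false
set_option linter.unusedSimpArgs false
set_option linter.deprecated false

universe u v w

open scoped ZFSet Ordinal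

namespace Pool.Agent.H82.OC

open Pool.Agent.H17.Omega Pool.Agent.H17.Omega.T8

section

variable {𝒰 : Ultrafilter Ordinal.{u}} {k : ℕ} {P P' : List Ordinal.{u} → Prop}

theorem AE.mono (h : ∀ l, P l → P' l) (hP : AE 𝒰 k P) : AE 𝒰 k P' := by
  induction k generalizing P P' with
  | zero => exact h _ hP
  | succ k ih =>
    have hP1 : ∀ᶠ ξ in (𝒰 : Filter Ordinal.{u}), AE 𝒰 k fun l => P (ξ :: l) := hP
    exact Filter.Eventually.mono hP1 fun ξ hξ => ih (fun l => h (ξ :: l)) hξ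

theorem AE.and (hP : AE 𝒰 k P) (hP' : AE 𝒰 k P') : AE 𝒰 k fun l => P l ∧ P' l := by
  induction k generalizing P P' with
  | zero => exact ⟨hP, hP'⟩
  | succ k ih =>
    have hP1 : ∀ᶠ ξ in (𝒰 : Filter Ordinal.{u}), AE 𝒰 k fun l => P (ξ :: l) := hP
    have hP2 : ∀ᶠ ξ in (𝒰 : Filter Ordinal.{u}), AE 𝒰 k fun l => P' (ξ :: l) := hP'
    exact (Filter.Eventually.and hP1 hP2).mono fun ξ hξ => ih hξ.1 hξ.2

theorem AE.em (𝒰 : Ultrafilter Ordinal.{u}) (k : ℕ) (P : List Ordinal.{u} → Prop) :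
    AE 𝒰 k P ∨ AE 𝒰 k fun l => ¬ P l := by
  induction k generalizing P with
  | zero => exact Classical.em (P [])
  | succ k ih =>
    rcases Ultrafilter.em 𝒰 (fun ξ => AE 𝒰 k fun l => P (ξ :: l)) with h | h
    · exact Or.inl h
    · exact Or.inr (h.mono fun ξ hξ => (ih fun l => P (ξ :: l)).resolve_left hξ)

theorem AE.exists' {κ : Ordinal.{u}} (h : NormalUF κ 𝒰) (hP : AE 𝒰 k P) :
    ∃ l, l.length = k ∧ (∀ ξ ∈ l, ξ < κ) ∧ P l := by
  induction k generalizing P with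
  | zero => exact ⟨[], rfl, by simp, hP⟩
  | succ k ih =>
    have hP1 : ∀ᶠ ξ in (𝒰 : Filter Ordinal.{u}), AE 𝒰 k fun l => P (ξ :: l) := hP
    obtain ⟨ξ, h1, h2⟩ := (Filter.Eventually.and hP1 h.lt).exists
    obtain ⟨l, hl, hlt, hPl⟩ := ih h1
    refine ⟨ξ :: l, by simp [hl], ?_, hPl⟩
    intro ξ' hξ'
    rcases List.mem_cons.1 hξ' with rfl | h3
    · exact h2
    · exact hlt _ h3

theorem AE.all {κ : Ordinal.{u}} (h : NormalUF κ 𝒰)
    (hP : ∀ l : List Ordinal.{u}, l.length = k → (∀ ξ ∈ l, ξ < κ) → P l) : AE 𝒰 k P := by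
  induction k generalizing P with
  | zero => exact hP [] rfl (by simp)
  | succ k ih =>
    refine Filter.Eventually.mono h.lt fun ξ hξ => ?_
    refine ih fun l hl hlt => hP (ξ :: l) (by simp [hl]) ?_
    intro ξ' hξ'
    rcases List.mem_cons.1 hξ' with rfl | h3
    · exact hξ
    · exact hlt _ h3

theorem AE.const {κ : Ordinal.{u}} (h : NormalUF κ 𝒰) {γ : Ordinal.{u}} (hγ : γ < κ)
    {φ : List Ordinal.{u} → ZFSet.{u}} (hφ : AE 𝒰 k fun l => φ l ∈ V_ γ) :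
    ∃ c ∈ V_ γ, AE 𝒰 k fun l => φ l = c := by
  classical
  induction k generalizing φ with
  | zero => exact ⟨φ [], hφ, rfl⟩
  | succ k ih =>
    have hφ1 : ∀ᶠ ξ in (𝒰 : Filter Ordinal.{u}), AE 𝒰 k fun l => φ (ξ :: l) ∈ V_ γ := hφ
    have h1 : ∀ᶠ ξ in (𝒰 : Filter Ordinal.{u}),
        ∃ c, c ∈ V_ γ ∧ AE 𝒰 k fun l => φ (ξ :: l) = c :=
      hφ1.mono fun ξ hξ => ih hξ
    let f : Ordinal.{u} → ZFSet.{u} := fun ξ =>
      if hh : ∃ c, c ∈ V_ γ ∧ AE 𝒰 k fun l => φ (ξ :: l) = c then hh.choose else ∅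
    have hf : ∀ ξ, (∃ c, c ∈ V_ γ ∧ AE 𝒰 k fun l => φ (ξ :: l) = c) →
        f ξ ∈ V_ γ ∧ AE 𝒰 k fun l => φ (ξ :: l) = f ξ := by
      intro ξ hh
      have : f ξ = hh.choose := by
        show (if hh : ∃ c, c ∈ V_ γ ∧ AE 𝒰 k fun l => φ (ξ :: l) = c then hh.choose else ∅) = _
        rw [dif_pos hh]
      rw [this]
      exact hh.choose_spec
    have h2 : ∀ᶠ ξ in (𝒰 : Filter Ordinal.{u}),
        f ξ ∈ V_ γ ∧ AE 𝒰 k fun l => φ (ξ :: l) = f ξ := h1.mono fun ξ hξ => hf ξ hξ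
    obtain ⟨c, hc⟩ := h.complete γ hγ f (h2.mono fun ξ hξ => hξ.1)
    have h3 := h2.and hc
    obtain ⟨ξ0, h4, h5⟩ := h3.exists
    refine ⟨c, by rw [← h5]; exact h4.1, ?_⟩
    show ∀ᶠ ξ in (𝒰 : Filter Ordinal.{u}), AE 𝒰 k fun l => φ (ξ :: l) = c
    refine h3.mono fun ξ hξ => ?_
    obtain ⟨h6, h7⟩ := hξ
    rw [h7] at h6
    exact h6.2

end

theorem ordlZ_inj {l l' : List Ordinal.{u}} (h : ordlZ l = ordlZ l') : l = l' := by
  induction l generalizing l' with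
  | nil =>
    cases l' with
    | nil => rfl
    | cons o l' => exact (pair_ne_empty _ _ h.symm).elim
  | cons o l ih =>
    cases l' with
    | nil => exact (pair_ne_empty _ _ h).elim
    | cons o' l' =>
      have h1 : ZFSet.pair o.toZFSet (ordlZ l) = ZFSet.pair o'.toZFSet (ordlZ l') := h
      rw [ZFSet.pair_inj] at h1
      rw [Ordinal.toZFSet_injective h1.1, ih h1.2]

/-- The code of a set of lists of ordinals below `κ`. -/
noncomputable def PZ (κ : Ordinal.{u}) (P : List Ordinal.{u} → Prop) : ZFSet.{u} :=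
  ZFSet.sep (fun z => ∃ l : List Ordinal.{u}, (∀ ξ ∈ l, ξ < κ) ∧ P l ∧ z = ordlZ l) (V_ κ)

theorem aeb9_ord_V {ν η : Ordinal.{u}} (h : ν < η) : ν.toZFSet ∈ V_ η := by
  rw [ZFSet.mem_vonNeumann, Ordinal.rank_toZFSet]
  exact h

theorem aeb9_ordlZ_V {κ : Ordinal.{u}} (hκ : Order.IsSuccLimit κ) :
    ∀ l : List Ordinal.{u}, (∀ ξ ∈ l, ξ < κ) → ordlZ l ∈ V_ κ
  | [], _ => by
    show (∅ : ZFSet.{u}) ∈ V_ κ
    rw [ZFSet.mem_vonNeumann, ZFSet.rank_empty]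
    exact hκ.bot_lt
  | o :: l, h => by
    have h1 : o ∈ o :: l := List.mem_cons_self
    refine rank_pair_lt hκ (aeb9_ord_V (h o h1)) (aeb9_ordlZ_V hκ l fun ξ hξ => ?_)
    exact h ξ (List.mem_cons_of_mem _ hξ)

theorem aeb9_mem_PZ {κ : Ordinal.{u}} (hκ : Order.IsSuccLimit κ) {P : List Ordinal.{u} → Prop}
    {l : List Ordinal.{u}} (hl : ∀ ξ ∈ l, ξ < κ) : ordlZ l ∈ PZ κ P ↔ P l := by
  rw [PZ, ZFSet.mem_sep]
  constructor
  · rintro ⟨_, l', _, h2, h3⟩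
    rwa [ordlZ_inj h3]
  · intro h
    exact ⟨aeb9_ordlZ_V hκ l hl, l, hl, h, rfl⟩

open Classical in
/-- The two operations. -/
noncomputable def aeb9_Op (κ : Ordinal.{u}) (𝒰 : Ultrafilter Ordinal.{u}) :
    ℕ → ZFSet.{u} → ZFSet.{u}
  | 0, z => ZFSet.sep (fun w => ZFSet.pair (sn z) w ∈ fs z) (V_ κ)
  | 1, z => ZFSet.sep (fun w => ∃ (k : ℕ) (P : List Ordinal.{u} → Prop),
      z = ZFSet.pair (tag k) (PZ κ P) ∧ ∃ ζ : Ordinal.{u}, w = ζ.toZFSet ∧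
        AE 𝒰 k (fun l => P (ζ :: l))) κ.toZFSet
  | _ + 2, z => z

theorem aeb9_Op0 {κ : Ordinal.{u}} {𝒰 : Ultrafilter Ordinal.{u}} (hκ : Order.IsSuccLimit κ)
    (P : List Ordinal.{u} → Prop) {ζ : Ordinal.{u}} (hζ : ζ < κ) :
    aeb9_Op κ 𝒰 0 (ZFSet.pair (PZ κ P) ζ.toZFSet) = PZ κ (fun l => P (ζ :: l)) := by
  ext w
  have h0 : aeb9_Op κ 𝒰 0 (ZFSet.pair (PZ κ P) ζ.toZFSet) =
      ZFSet.sep (fun w => ZFSet.pair (sn (ZFSet.pair (PZ κ P) ζ.toZFSet)) w ∈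
        fs (ZFSet.pair (PZ κ P) ζ.toZFSet)) (V_ κ) := rfl
  rw [h0, ZFSet.mem_sep, sn_pair, fs_pair]
  constructor
  · rintro ⟨h1, h2⟩
    rw [PZ, ZFSet.mem_sep] at h2
    obtain ⟨h3, l, h4, h5, h6⟩ := h2
    cases l with
    | nil => exact (pair_ne_empty _ _ h6).elim
    | cons o l =>
      have h7 : ZFSet.pair ζ.toZFSet w = ZFSet.pair o.toZFSet (ordlZ l) := h6
      rw [ZFSet.pair_inj] at h7
      obtain ⟨h8, h9⟩ := h7
      have h10 := Ordinal.toZFSet_injective h8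
      subst h10
      subst h9
      have h11 : ∀ ξ ∈ l, ξ < κ := fun ξ hξ => h4 ξ (List.mem_cons_of_mem _ hξ)
      exact (aeb9_mem_PZ hκ h11).2 h5
  · intro h1
    rw [PZ, ZFSet.mem_sep] at h1
    obtain ⟨h2, l, h3, h4, rfl⟩ := h1
    refine ⟨h2, ?_⟩
    have h5 : ∀ ξ ∈ ζ :: l, ξ < κ := by
      intro ξ hξ
      rcases List.mem_cons.1 hξ with rfl | h6
      · exact hζ
      · exact h3 _ h6
    exact (aeb9_mem_PZ hκ h5).2 h4

theorem aeb9_Op1 {κ : Ordinal.{u}} {𝒰 : Ultrafilter Ordinal.{u}} (h : NormalUF κ 𝒰)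
    (hκ : Order.IsSuccLimit κ) (k : ℕ) (P : List Ordinal.{u} → Prop) (ζ : Ordinal.{u}) :
    ζ.toZFSet ∈ aeb9_Op κ 𝒰 1 (ZFSet.pair (tag k) (PZ κ P)) ↔
      ζ < κ ∧ AE 𝒰 k (fun l => P (ζ :: l)) := by
  have h0 : aeb9_Op κ 𝒰 1 (ZFSet.pair (tag k) (PZ κ P)) =
      ZFSet.sep (fun w => ∃ (k' : ℕ) (P' : List Ordinal.{u} → Prop),
      ZFSet.pair (tag k) (PZ κ P) = ZFSet.pair (tag k') (PZ κ P') ∧
        ∃ ζ : Ordinal.{u}, w = ζ.toZFSet ∧ AE 𝒰 k' (fun l => P' (ζ :: l))) κ.toZFSet := rfl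
  rw [h0, ZFSet.mem_sep, Ordinal.toZFSet_mem_toZFSet_iff]
  refine and_congr_right fun hζ => ?_
  constructor
  · rintro ⟨k', P', h1, ζ', h2, h3⟩
    rw [ZFSet.pair_inj] at h1
    obtain ⟨h4, h5⟩ := h1
    have h6 := tag_inj h4
    subst h6
    have h7 := Ordinal.toZFSet_injective h2
    subst h7
    have h8 : AE 𝒰 k (fun l => ∀ ξ ∈ l, ξ < κ) := AE.all h fun l _ hl => hl
    refine AE.mono ?_ (AE.and h3 h8)
    rintro l ⟨h9, h10⟩
    have h11 : ∀ ξ ∈ ζ :: l, ξ < κ := by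
      intro ξ hξ
      rcases List.mem_cons.1 hξ with rfl | h12
      · exact hζ
      · exact h10 _ h12
    refine (aeb9_mem_PZ hκ h11).1 ?_
    rw [h5]
    exact (aeb9_mem_PZ hκ h11).2 h9
  · intro h1
    exact ⟨k, P, rfl, ζ, rfl, h1⟩

theorem exists_aeOps {κ : Ordinal.{u}} {𝒰 : Ultrafilter Ordinal.{u}} (h : NormalUF κ 𝒰)
    (hκ : Order.IsSuccLimit κ) : ∃ Ω : ℕ → ZFSet.{u} → ZFSet.{u},
      ∀ (Φ : ℕ → ZFSet.{u} → ZFSet.{u}) (Y : Ordinal.{u} → Set ZFSet.{u})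
        (ξ : Ordinal.{u} → Ordinal.{u}), IsChn κ 𝒰 Φ Y ξ → (∀ α : Ordinal.{u}, α < ω₁ → Clo Ω (Y α)) →
        ∀ (k : ℕ) (P : List Ordinal.{u} → Prop) (β : Ordinal.{u}), β < ω₁ → PZ κ P ∈ Y β →
          AE 𝒰 k P → ∀ a : ℕ → Ordinal.{u}, (∀ i < k, β ≤ a i ∧ a i < ω₁) →
            (∀ i j, i < j → j < k → a i < a j) → P ((List.range k).map fun i => ξ (a i)) := by
  refine ⟨aeb9_Op κ 𝒰, fun Φ Y ξ hC hO k => ?_⟩
  induction k with
  | zero =>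
    intro P β _ _ hP a _ _
    exact hP
  | succ k ih =>
    intro P β hβ hPY hP a ha hmono
    have ha0 := ha 0 (Nat.succ_pos k)
    have hP1 : ∀ᶠ ζ in (𝒰 : Filter Ordinal.{u}), AE 𝒰 k fun l => P (ζ :: l) := hP
    have h1 : aeb9_Op κ 𝒰 1 (ZFSet.pair (tag k) (PZ κ P)) ∈ Y β :=
      (hO β hβ).op 1 _ ((hO β hβ).pair _ ((hO β hβ).tag k) _ hPY)
    have h2 := hC.sub β (a 0) ha0.1 ha0.2 h1
    have h3 := hC.large (a 0) ha0.2 _ h2
      ((Filter.Eventually.and h.lt hP1).mono fun ζ hζ => (aeb9_Op1 h hκ k P ζ).2 hζ)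
    have h4 := (aeb9_Op1 h hκ k P _).1 h3
    have hβ' : Order.succ (a 0) < ω₁ := (Cardinal.isSuccLimit_omega 1).succ_lt ha0.2
    have h5 : PZ κ P ∈ Y (Order.succ (a 0)) :=
      hC.sub β _ (ha0.1.trans (Order.le_succ _)) hβ' hPY
    have h6 : (ξ (a 0)).toZFSet ∈ Y (Order.succ (a 0)) :=
      hC.mem _ _ (Order.lt_succ _) hβ'
    have h7 : aeb9_Op κ 𝒰 0 (ZFSet.pair (PZ κ P) (ξ (a 0)).toZFSet) ∈ Y (Order.succ (a 0)) :=
      (hO _ hβ').op 0 _ ((hO _ hβ').pair _ h5 _ h6)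
    rw [aeb9_Op0 hκ P h4.1] at h7
    have h8 := ih (fun l => P (ξ (a 0) :: l)) (Order.succ (a 0)) hβ' h7 h4.2
      (fun i => a (i + 1))
      (fun i hi => ⟨Order.succ_le_of_lt (hmono 0 (i + 1) (Nat.succ_pos i) (by omega)),
        (ha (i + 1) (by omega)).2⟩)
      (fun i j hij hj => hmono (i + 1) (j + 1) (by omega) (by omega))
    rw [List.range_succ_eq_map, List.map_cons, List.map_map]
    exact h8

end Pool.Agent.H82.OC
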