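import Pool.Agent.H82.OC.CDefs

/-!
# OC-C3: the iterated measure quantifier for a list of types

All by induction on the list of types (as in `AE.lean`).
`const`: `is = i :: is'`: for almost all `ζ` there is `c ζ` with `AEl is' (φ (ζ :: l) = c ζ)`, and `c ζ ∈ V_ γ` (`and`, `exists'`); `complete` for `𝒰 i`, `γ < κ i`.
-/

set_option autoImplicit false
set_option linter.unusedVariables false
set_option linter.unusedSectionVars false
set_option linter.unusedSimpArgs false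
set_option linter.deprecated false

universe u v w

open scoped ZFSet Ordinal

namespace Pool.Agent.H82.OC

open Pool.Agent.H17.Omega Pool.Agent.H17.Omega.T8

section

variable {𝒰 : ℕ → Ultrafilter Ordinal.{u}} {is js : List ℕ} {P P' : List Ordinal.{u} → Prop}

theorem AEl.mono (h : ∀ l, P l → P' l) (hP : AEl 𝒰 is P) : AEl 𝒰 is P' := by
  induction is generalizing P P' with
  | nil => exact h _ hP
  | cons i is ih =>
    have hP1 : ∀ᶠ ξ in (𝒰 i : Filter Ordinal.{u}), AEl 𝒰 is fun l => P (ξ :: l) := hP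
    exact Filter.Eventually.mono hP1 fun ξ hξ => ih (fun l => h (ξ :: l)) hξ

theorem AEl.mono' (h : ∀ l : List Ordinal.{u}, l.length = is.length → P l → P' l)
    (hP : AEl 𝒰 is P) : AEl 𝒰 is P' := by
  induction is generalizing P P' with
  | nil => exact h _ rfl hP
  | cons i is ih =>
    have hP1 : ∀ᶠ ξ in (𝒰 i : Filter Ordinal.{u}), AEl 𝒰 is fun l => P (ξ :: l) := hP
    exact Filter.Eventually.mono hP1 fun ξ hξ =>
      ih (fun l hl => h (ξ :: l) (by simp [hl])) hξ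

theorem AEl.and (hP : AEl 𝒰 is P) (hP' : AEl 𝒰 is P') : AEl 𝒰 is fun l => P l ∧ P' l := by
  induction is generalizing P P' with
  | nil => exact ⟨hP, hP'⟩
  | cons i is ih =>
    have hP1 : ∀ᶠ ξ in (𝒰 i : Filter Ordinal.{u}), AEl 𝒰 is fun l => P (ξ :: l) := hP
    have hP2 : ∀ᶠ ξ in (𝒰 i : Filter Ordinal.{u}), AEl 𝒰 is fun l => P' (ξ :: l) := hP'
    exact (Filter.Eventually.and hP1 hP2).mono fun ξ hξ => ih hξ.1 hξ.2

theorem AEl.em (𝒰 : ℕ → Ultrafilter Ordinal.{u}) (is : List ℕ) (P : List Ordinal.{u} → Prop) :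
    AEl 𝒰 is P ∨ AEl 𝒰 is fun l => ¬ P l := by
  induction is generalizing P with
  | nil => exact Classical.em (P [])
  | cons i is ih =>
    rcases Ultrafilter.em (𝒰 i) (fun ξ => AEl 𝒰 is fun l => P (ξ :: l)) with h | h
    · exact Or.inl h
    · exact Or.inr (h.mono fun ξ hξ => (ih fun l => P (ξ :: l)).resolve_left hξ)

theorem AEl.const_iff {p : Prop} : (AEl 𝒰 is fun _ => p) ↔ p := by
  induction is with
  | nil => exact Iff.rfl
  | cons i is ih =>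
    have h1 : (AEl 𝒰 (i :: is) fun _ => p) ↔
        ∀ᶠ ξ in (𝒰 i : Filter Ordinal.{u}), AEl 𝒰 is fun _ => p := Iff.rfl
    rw [h1, ih]
    exact Filter.eventually_const

theorem AEl.not_both (hP : AEl 𝒰 is P) (hP' : AEl 𝒰 is fun l => ¬ P l) : False := by
  have h1 : AEl 𝒰 is fun _ => False := AEl.mono (fun l h => h.2 h.1) (AEl.and hP hP')
  exact AEl.const_iff.1 h1

theorem AEl.exists' {κ : ℕ → Ordinal.{u}} (h : ∀ i, NormalUF (κ i) (𝒰 i)) (hP : AEl 𝒰 is P) :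
    ∃ l : List Ordinal.{u}, l.length = is.length ∧ P l := by
  induction is generalizing P with
  | nil => exact ⟨[], rfl, hP⟩
  | cons i is ih =>
    have hP1 : ∀ᶠ ξ in (𝒰 i : Filter Ordinal.{u}), AEl 𝒰 is fun l => P (ξ :: l) := hP
    obtain ⟨ξ, h1⟩ := hP1.exists
    obtain ⟨l, hl, hPl⟩ := ih h1
    exact ⟨ξ :: l, by simp [hl], hPl⟩

theorem AEl.of_const {p : Prop} (hp : p) : AEl 𝒰 is fun _ => p := AEl.const_iff.2 hp

theorem AEl.append : AEl 𝒰 (is ++ js) P ↔ AEl 𝒰 is fun a => AEl 𝒰 js fun b => P (a ++ b) := by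
  induction is generalizing P with
  | nil => exact Iff.rfl
  | cons i is ih =>
    have h1 : AEl 𝒰 (i :: is ++ js) P ↔
        ∀ᶠ ξ in (𝒰 i : Filter Ordinal.{u}), AEl 𝒰 (is ++ js) fun l => P (ξ :: l) := Iff.rfl
    have h2 : (AEl 𝒰 (i :: is) fun a => AEl 𝒰 js fun b => P (a ++ b)) ↔
        ∀ᶠ ξ in (𝒰 i : Filter Ordinal.{u}), AEl 𝒰 is fun a => AEl 𝒰 js fun b =>
          P (ξ :: a ++ b) := Iff.rfl
    rw [h1, h2]
    exact Filter.eventually_congr (Filter.Eventually.of_forall fun ξ => ih)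

theorem AEl.const {κ : ℕ → Ordinal.{u}} (h : ∀ i, NormalUF (κ i) (𝒰 i)) {γ : Ordinal.{u}}
    (hγ : ∀ i ∈ is, γ < κ i) {φ : List Ordinal.{u} → ZFSet.{u}}
    (hφ : AEl 𝒰 is fun l => φ l ∈ V_ γ) : ∃ c ∈ V_ γ, AEl 𝒰 is fun l => φ l = c := by
  classical
  induction is generalizing φ with
  | nil => exact ⟨φ [], hφ, rfl⟩
  | cons i is ih =>
    have hγ' : ∀ j ∈ is, γ < κ j := fun j hj => hγ j (List.mem_cons_of_mem _ hj)
    have hφ1 : ∀ᶠ ξ in (𝒰 i : Filter Ordinal.{u}), AEl 𝒰 is fun l => φ (ξ :: l) ∈ V_ γ := hφ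
    have h1 : ∀ᶠ ξ in (𝒰 i : Filter Ordinal.{u}),
        ∃ c, c ∈ V_ γ ∧ AEl 𝒰 is fun l => φ (ξ :: l) = c :=
      hφ1.mono fun ξ hξ => ih hγ' hξ
    have hf : ∀ ξ, ∃ c, (∃ c, c ∈ V_ γ ∧ AEl 𝒰 is fun l => φ (ξ :: l) = c) →
        c ∈ V_ γ ∧ AEl 𝒰 is fun l => φ (ξ :: l) = c := by
      intro ξ
      by_cases hh : ∃ c, c ∈ V_ γ ∧ AEl 𝒰 is fun l => φ (ξ :: l) = c
      · obtain ⟨c, hc⟩ := hh
        exact ⟨c, fun _ => hc⟩
      · exact ⟨∅, fun h => absurd h hh⟩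
    choose f hf using hf
    have h2 : ∀ᶠ ξ in (𝒰 i : Filter Ordinal.{u}),
        f ξ ∈ V_ γ ∧ AEl 𝒰 is fun l => φ (ξ :: l) = f ξ := h1.mono fun ξ hξ => hf ξ hξ
    obtain ⟨c, hc⟩ := (h i).complete γ (hγ i List.mem_cons_self) f (h2.mono fun ξ hξ => hξ.1)
    have h3 := h2.and hc
    obtain ⟨ξ0, h4, h5⟩ := h3.exists
    refine ⟨c, by rw [← h5]; exact h4.1, ?_⟩
    show ∀ᶠ ξ in (𝒰 i : Filter Ordinal.{u}), AEl 𝒰 is fun l => φ (ξ :: l) = c
    refine h3.mono fun ξ hξ => ?_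
    obtain ⟨h6, h7⟩ := hξ
    rw [h7] at h6
    exact h6.2

end

end Pool.Agent.H82.OC
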