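import Pool.Agent.H82.OC.Semi

/-!
# OC-A8: one step of the construction of self-generic hulls

`cur f` is the curried operation: `cur f (pair E g) = {pair u (f (app g u)) : u ∈ E}`; `curs Φ k n` is the
`k`-fold iteration applied to `Φ n`; `cura Φ` enumerates all of them (`m = Nat.pair k n`).

Proof of `exists_stepOps`.  By `semiproper` choose `kap D β` and `kF D β` (for predense `D`, `β < δ`; arbitrary
otherwise).  The operations `Ω 0, …, Ω 6`: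

  Ω 0 z = sep (fun p => sn p ∈ fs z) (lam (fs z) (fun u => app (sn z) u))      -- truncation of `g = sn z` to `E = fs z`
  Ω 1 z = lam (fs z) (fun _ => sn z)                                        -- constant function
  Ω 2 z = lam (fs z) (fun u => pair (app (fs (sn z)) (pair (fs (fs u)) (sn u)))
                                  (app (sn (sn z)) (pair (sn (fs u)) (sn u))))   -- pairing of two functions
  Ω 3 z = lam z fs          Ω 4 z = lam z sn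
  Ω 5 z = V_ (kap (fs z) (rank (sn z)))
  Ω 6 z = kF (fs (fs z)) (rank (sn (fs z))) (sn z)
  Ω (n+7) z = z.

Let `Y, β, D` be given, `κ = kap D β` (`rank (V_ β) = β`), so `β < κ < δ`, `κ` limit, `V_ κ = Ω 5 (pair D (V_ β)) ∈ Y`.
`X := sep (· ∈ Y) (V_ (κ+ω))`.  `IsX (κ+ω) X` (`rank_pair_lt`) and `X` is closed under `F = kF D β` up to
`V_ (κ+ω)` (`F x = Ω 6 (pair (pair D (V_ β)) x) ∈ Y`).  So `Psi X (V_ κ) (Lev κ) (D ∩ V_ κ)`: there are `d ∈ D ∩ V_ κ`,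
`w ∈ d` with the property (∗): for `w0 ∈ w`, `g ∈ X`, `v ∈ V_ κ`, `App g (pair w0 d) v`:
`(v ∈ ⋃₀ d → v ∈ w) ∧ (v ∈ X ∨ ∀ y ∈ X, y ∈ Lev κ → v ∉ y)`.
`d` is a condition (`hD.cond`), so `w` is countable, contains `∅`, closed under pairing.  `V_ κ` is transitive: `w ∈ V_ κ`,
elements of `w` and of `⋃₀ d` are in `V_ κ`, and `pair w0 d ∈ V_ κ` for `w0 ∈ w`.

  `Y' = {app g (pair w0 d) : g ∈ Y, w0 ∈ w}`,  `β' = κ`.

(`Y.Countable`, `w` countable: `Set.Countable.image2` or so.)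
- Closed under `curs Φ k n`: `curs Φ k n (app g u) = app (curs Φ (k+1) n (pair (V_ κ) g)) u` for `u = pair w0 d ∈ V_ κ`
  (`app_lam`), and `curs Φ (k+1) n (pair (V_ κ) g) ∈ Y`.
- Closed under pairing: `pair (app g1 (pair w0 d)) (app g2 (pair w1 d)) = app g (pair (pair w0 w1) d)` with
  `g = Ω 2 (pair (V_ κ) (pair g1 g2)) ∈ Y`, and `pair w0 w1 ∈ w`.
- `Y ⊆ Y'`: `y = app (Ω 1 (pair (V_ κ) y)) (pair ∅ d)`.  So `∅ ∈ Y'`, `V_ κ ∈ Y'`.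
- `d ∈ Y'` by `Ω 4 (V_ κ)`; `w ⊆ Y'` by `Ω 3 (V_ κ)`.
- Let `v ∈ Y'`, `v ∈ V_ κ`: `v = app g (pair w0 d)`.  `g' := Ω 0 (pair (V_ κ) g) ∈ Y`; `g' ⊆ V_ κ`, so `g' ∈ V_ (κ+1)`,
  `g' ∈ X`.  `App g' (pair w0 d) v`.  By (∗): `v ∈ ⋃₀ d → v ∈ w`, and `v ∈ X ∨ ∀ y ∈ X, y ∈ Lev κ → v ∉ y`.
- So `trc Y' d = w ∈ d` (`⊆` by the above; `⊇`: `w ⊆ ⋃₀ d`, `w ⊆ Y'`).
- If `v ∈ V_ β`, `v ∈ Y'`: `v ∈ V_ κ`; `V_ β ∈ X ∩ Lev κ`, so `v ∈ X`, `v ∈ Y`.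
-/

set_option autoImplicit false
set_option linter.unusedVariables false
set_option linter.unusedSectionVars false
set_option linter.unusedSimpArgs false
set_option linter.deprecated false

universe u v w

open scoped ZFSet

namespace Pool.Agent.H82.OC

open Pool.Agent.H17.Omega

/-- The curried operation. -/
noncomputable def cur (f : ZFSet.{u} → ZFSet.{u}) : ZFSet.{u} → ZFSet.{u} := fun z =>
  lam (fs z) (fun u => f (app (sn z) u))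

/-- Iterated currying. -/
noncomputable def curs (Φ : ℕ → ZFSet.{u} → ZFSet.{u}) : ℕ → ℕ → ZFSet.{u} → ZFSet.{u}
  | 0, n => Φ n
  | k + 1, n => cur (curs Φ k n)

/-- All iterated curried operations. -/
noncomputable def cura (Φ : ℕ → ZFSet.{u} → ZFSet.{u}) (m : ℕ) : ZFSet.{u} → ZFSet.{u} :=
  curs Φ m.unpair.1 m.unpair.2

theorem exists_stepOps {δ : Ordinal.{u}} (hδ : IsWoodin δ) :
    ∃ Ω : ℕ → ZFSet.{u} → ZFSet.{u}, ∀ Φ : ℕ → ZFSet.{u} → ZFSet.{u}, (∀ n, Φ (2 * n) = Ω n) →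
      ∀ Y : Set ZFSet.{u}, Y.Countable → Clo (cura Φ) Y → ∀ β < δ, V_ β ∈ Y →
      ∀ D ∈ Y, Predense δ D → ∃ (Y' : Set ZFSet.{u}) (β' : Ordinal.{u}), Y'.Countable ∧
        Clo (cura Φ) Y' ∧ β' < δ ∧ V_ β' ∈ Y' ∧ Y ⊆ Y' ∧ β ≤ β' ∧ (∀ x ∈ V_ β, x ∈ Y' → x ∈ Y) ∧
        ∃ d ∈ D, d ∈ Y' ∧ d ∈ V_ β' ∧ trc Y' d ∈ d := by
  classical
  have key : ∀ (D : ZFSet.{u}) (β : Ordinal.{u}), ∃ (κ : Ordinal.{u}) (F : ZFSet.{u} → ZFSet.{u}),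
      Predense δ D → β < δ → β < κ ∧ κ < δ ∧ Order.IsSuccLimit κ ∧
      ∀ X : ZFSet.{u}, IsX (κ + Ordinal.omega0) X → ClF (κ + Ordinal.omega0) F X →
        Psi X (V_ κ) (Lev κ) (D ∩ V_ κ) := by
    intro D β
    by_cases h : Predense δ D ∧ β < δ
    · obtain ⟨κ, h1, h2, h3, F, hF⟩ := semiproper hδ h.1 h.2
      exact ⟨κ, F, fun _ _ => ⟨h1, h2, h3, hF⟩⟩
    · exact ⟨0, id, fun h1 h2 => (h ⟨h1, h2⟩).elim⟩
  choose kap kF hk using key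
  let Ω : ℕ → ZFSet.{u} → ZFSet.{u} := fun n z => match n with
    | 0 => ZFSet.sep (fun p => sn p ∈ fs z) (lam (fs z) (fun u => app (sn z) u))
    | 1 => lam (fs z) (fun _ => sn z)
    | 2 => lam (fs z) (fun u => ZFSet.pair (app (fs (sn z)) (ZFSet.pair (fs (fs u)) (sn u)))
        (app (sn (sn z)) (ZFSet.pair (sn (fs u)) (sn u))))
    | 3 => lam z fs
    | 4 => lam z sn
    | 5 => V_ (kap (fs z) (ZFSet.rank (sn z)))
    | 6 => kF (fs (fs z)) (ZFSet.rank (sn (fs z))) (sn z)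
    | _ + 7 => z
  refine ⟨Ω, fun Φ hΦ Y hYc hY β hβ hVβ D hDY hD => ?_⟩
  have hcurs : ∀ k n x, x ∈ Y → curs Φ k n x ∈ Y := fun k n x hx => by
    simpa [cura] using hY.op (Nat.pair k n) x hx
  have hΩ : ∀ n x, x ∈ Y → Ω n x ∈ Y := fun n x hx => by
    have h1 := hcurs 0 (2 * n) x hx
    rwa [curs, hΦ] at h1
  obtain ⟨hβκ, hκδ, hκl, hF⟩ := hk D β hD hβ
  set κ : Ordinal.{u} := kap D β with hκdef
  set F := kF D β with hFdef
  have hlam : Order.IsSuccLimit (κ + Ordinal.omega0) :=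
    Ordinal.isSuccLimit_add κ Ordinal.isSuccLimit_omega0
  have hκle : κ ≤ κ + Ordinal.omega0 := le_self_add
  have hκlt : κ < κ + Ordinal.omega0 := lt_add_of_pos_right κ Ordinal.omega0_pos
  have hVκ : V_ κ ∈ Y := by
    have h1 := hΩ 5 _ (hY.pair _ hDY _ hVβ)
    have h2 : Ω 5 (ZFSet.pair D (V_ β)) = V_ κ := by
      change V_ (kap (fs (ZFSet.pair D (V_ β))) (ZFSet.rank (sn (ZFSet.pair D (V_ β))))) = V_ κ
      rw [fs_pair, sn_pair, ZFSet.rank_vonNeumann]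
    rwa [h2] at h1
  have htr : ∀ {α : Ordinal.{u}} {x y : ZFSet.{u}}, x ∈ y → y ∈ V_ α → x ∈ V_ α := by
    intro α x y hxy hy
    rw [ZFSet.mem_vonNeumann] at *
    exact (ZFSet.rank_lt_of_mem hxy).trans hy
  set X : ZFSet.{u} := ZFSet.sep (fun x => x ∈ Y) (V_ (κ + Ordinal.omega0)) with hXdef
  have hXm : ∀ x, x ∈ X ↔ x ∈ V_ (κ + Ordinal.omega0) ∧ x ∈ Y := fun x => by
    rw [hXdef, ZFSet.mem_sep]
  have hemp : (∅ : ZFSet.{u}) ∈ V_ (κ + Ordinal.omega0) := by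
    rw [ZFSet.mem_vonNeumann, ZFSet.rank_empty]
    exact lt_of_le_of_lt bot_le hκlt
  have hXX : IsX (κ + Ordinal.omega0) X := by
    refine ⟨fun x hx => ((hXm x).1 hx).1, hYc.mono fun x hx => ((hXm x).1 hx).2,
      (hXm _).2 ⟨hemp, hY.emp⟩, fun x hx y hy => ?_⟩
    have hx' := (hXm x).1 hx
    have hy' := (hXm y).1 hy
    exact (hXm _).2 ⟨rank_pair_lt hlam hx'.1 hy'.1, hY.pair _ hx'.2 _ hy'.2⟩
  have hXF : ClF (κ + Ordinal.omega0) F X := by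
    intro x hx hFx
    refine (hXm _).2 ⟨hFx, ?_⟩
    have h1 := hΩ 6 _ (hY.pair _ (hY.pair _ hDY _ hVβ) _ ((hXm x).1 hx).2)
    have h2 : Ω 6 (ZFSet.pair (ZFSet.pair D (V_ β)) x) = F x := by
      change kF (fs (fs (ZFSet.pair (ZFSet.pair D (V_ β)) x)))
        (ZFSet.rank (sn (fs (ZFSet.pair (ZFSet.pair D (V_ β)) x))))
        (sn (ZFSet.pair (ZFSet.pair D (V_ β)) x)) = F x
      rw [fs_pair, sn_pair, fs_pair, sn_pair, ZFSet.rank_vonNeumann]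
    rwa [h2] at h1
  obtain ⟨d, hd, w, hw, hstar⟩ := hF X hXX hXF
  obtain ⟨hdD, hdκ⟩ := ZFSet.mem_inter.1 hd
  obtain ⟨α, hα, hc⟩ := hD.cond d hdD
  have hwκ : w ∈ V_ κ := htr hw hdκ
  have hw0κ : ∀ w0 ∈ w, w0 ∈ V_ κ := fun w0 h => htr h hwκ
  have hpd : ∀ w0 ∈ w, ZFSet.pair w0 d ∈ V_ κ := fun w0 h => rank_pair_lt hκl (hw0κ w0 h) hdκ
  have hwe : (∅ : ZFSet.{u}) ∈ w := hc.emp w hw
  let Y' : Set ZFSet.{u} := {y | ∃ g ∈ Y, ∃ w0 ∈ w, app g (ZFSet.pair w0 d) = y}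
  have hY'c : Y'.Countable := by
    have h1 : (Set.image2 (fun g w0 => app g (ZFSet.pair w0 d)) Y (El w)).Countable :=
      hYc.image2 (hc.cnt w hw) _
    refine h1.mono ?_
    rintro y ⟨g, hg, w0, hw0, rfl⟩
    exact ⟨g, hg, w0, hw0, rfl⟩
  have hYY' : Y ⊆ Y' := by
    intro y hy
    refine ⟨Ω 1 (ZFSet.pair (V_ κ) y), hΩ 1 _ (hY.pair _ hVκ _ hy), ∅, hwe, ?_⟩
    change app (lam (fs (ZFSet.pair (V_ κ) y)) (fun _ => sn (ZFSet.pair (V_ κ) y)))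
      (ZFSet.pair ∅ d) = y
    rw [fs_pair, sn_pair, app_lam (hpd _ hwe)]
  have hdY' : d ∈ Y' := by
    refine ⟨Ω 4 (V_ κ), hΩ 4 _ hVκ, ∅, hwe, ?_⟩
    change app (lam (V_ κ) sn) (ZFSet.pair ∅ d) = d
    rw [app_lam (hpd _ hwe), sn_pair]
  have hwY' : ∀ x ∈ w, x ∈ Y' := by
    intro x hx
    refine ⟨Ω 3 (V_ κ), hΩ 3 _ hVκ, x, hx, ?_⟩
    change app (lam (V_ κ) fs) (ZFSet.pair x d) = x
    rw [app_lam (hpd _ hx), fs_pair]
  have hcl : Clo (cura Φ) Y' := by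
    refine ⟨hYY' hY.emp, ?_, ?_⟩
    · rintro _ ⟨g1, hg1, w1, hw1, rfl⟩ _ ⟨g2, hg2, w2, hw2, rfl⟩
      refine ⟨Ω 2 (ZFSet.pair (V_ κ) (ZFSet.pair g1 g2)),
        hΩ 2 _ (hY.pair _ hVκ _ (hY.pair _ hg1 _ hg2)), ZFSet.pair w1 w2,
        hc.pair w hw w1 hw1 w2 hw2, ?_⟩
      change app (lam (fs (ZFSet.pair (V_ κ) (ZFSet.pair g1 g2))) (fun u => ZFSet.pair
        (app (fs (sn (ZFSet.pair (V_ κ) (ZFSet.pair g1 g2)))) (ZFSet.pair (fs (fs u)) (sn u)))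
        (app (sn (sn (ZFSet.pair (V_ κ) (ZFSet.pair g1 g2)))) (ZFSet.pair (sn (fs u)) (sn u)))))
        (ZFSet.pair (ZFSet.pair w1 w2) d) = _
      rw [fs_pair, app_lam (hpd _ (hc.pair w hw w1 hw1 w2 hw2))]
      simp only [fs_pair, sn_pair]
    · rintro m _ ⟨g, hg, w0, hw0, rfl⟩
      refine ⟨curs Φ (m.unpair.1 + 1) m.unpair.2 (ZFSet.pair (V_ κ) g),
        hcurs _ _ _ (hY.pair _ hVκ _ hg), w0, hw0, ?_⟩
      change app (lam (fs (ZFSet.pair (V_ κ) g)) (fun u => curs Φ m.unpair.1 m.unpair.2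
        (app (sn (ZFSet.pair (V_ κ) g)) u))) (ZFSet.pair w0 d) = _
      rw [fs_pair, app_lam (hpd _ hw0), sn_pair]
      rfl
  have hmain : ∀ v ∈ Y', v ∈ V_ κ → (v ∈ (⋃₀ d : ZFSet.{u}) → v ∈ w) ∧
      (v ∈ X ∨ ∀ y ∈ X, y ∈ Lev κ → v ∉ y) := by
    rintro _ ⟨g, hg, w0, hw0, rfl⟩ hv
    have hg' : Ω 0 (ZFSet.pair (V_ κ) g) =
        ZFSet.sep (fun p => sn p ∈ V_ κ) (lam (V_ κ) (fun u => app g u)) := by
      change ZFSet.sep (fun p => sn p ∈ fs (ZFSet.pair (V_ κ) g))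
        (lam (fs (ZFSet.pair (V_ κ) g)) (fun u => app (sn (ZFSet.pair (V_ κ) g)) u)) = _
      rw [fs_pair, sn_pair]
    have hgY := hΩ 0 _ (hY.pair _ hVκ _ hg)
    rw [hg'] at hgY
    have hgsub : ZFSet.sep (fun p => sn p ∈ V_ κ) (lam (V_ κ) (fun u => app g u)) ⊆ V_ κ := by
      intro p hp
      rw [ZFSet.mem_sep] at hp
      obtain ⟨u, hu, rfl⟩ := mem_lam.1 hp.1
      rw [sn_pair] at hp
      exact rank_pair_lt hκl hu hp.2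
    have hgV : ZFSet.sep (fun p => sn p ∈ V_ κ) (lam (V_ κ) (fun u => app g u)) ∈
        V_ (κ + Ordinal.omega0) := by
      rw [ZFSet.mem_vonNeumann]
      refine lt_of_le_of_lt ?_ hκlt
      have h1 := ZFSet.rank_mono hgsub
      rwa [ZFSet.rank_vonNeumann] at h1
    refine hstar w0 hw0 _ ((hXm _).2 ⟨hgV, hgY⟩) _ hv ⟨?_, ?_⟩
    · rw [ZFSet.mem_sep, sn_pair]
      exact ⟨mem_lam.2 ⟨_, hpd _ hw0, rfl⟩, hv⟩
    · intro v' hv'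
      rw [ZFSet.mem_sep] at hv'
      obtain ⟨u, hu, h2⟩ := mem_lam.1 hv'.1
      rw [ZFSet.pair_inj] at h2
      rw [h2.2, h2.1]
  have htrc : trc Y' d = w := by
    ext x
    rw [mem_trc]
    constructor
    · rintro ⟨h1, h2⟩
      refine (hmain x h2 ?_).1 h1
      obtain ⟨z, hz, hxz⟩ := ZFSet.mem_sUnion.1 h1
      exact htr hxz (htr hz hdκ)
    · intro hx
      exact ⟨ZFSet.mem_sUnion.2 ⟨w, hw, hx⟩, hwY' x hx⟩
  refine ⟨Y', κ, hY'c, hcl, hκδ, hYY' hVκ, hYY', hβκ.le, ?_, d, hdD, hdY', hdκ, ?_⟩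
  · intro x hx hxY'
    rcases (hmain x hxY' (ZFSet.vonNeumann_subset_of_le hβκ.le hx)).2 with h | h
    · exact ((hXm x).1 h).2
    · refine (h (V_ β) ((hXm _).2 ⟨ZFSet.vonNeumann_mem_of_lt (hβκ.trans hκlt), hVβ⟩)
        (mem_Lev.2 ⟨β, hβκ, rfl⟩) hx).elim
  · rw [htrc]
    exact hw

end Pool.Agent.H82.OC
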