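import Pool.Agent.H17.T8.Defs
import Pool.Agent.H82.OC.SelfStep

/-!
# T8, part B: definitions

Document: team-store `helper82_T8.md`, part B.  Terms are those of `Pool.Agent.H17.T8.Defs`.
-/

set_option autoImplicit false
set_option linter.unusedVariables false
set_option linter.unusedSectionVars false
set_option linter.unusedSimpArgs false
set_option linter.deprecated false

universe u v w

open scoped ZFSet Ordinal

namespace Pool.Agent.H82.OC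

open Pool.Agent.H17.Omega Pool.Agent.H17.Omega.T8

/-! ## Terms and well-foundedness -/

/-- The ordinals of the term are in `S`. -/
def TmOn (S : Set Ordinal.{u}) (t : Tm.{u}) : Prop := ∀ p ∈ t.2, p.2 ∈ S

/-- Change of the ordinals of a term. -/
def tmap (ρ : Ordinal.{u} → Ordinal.{u}) (t : Tm.{u}) : Tm.{u} := (t.1, t.2.map fun p => (p.1, ρ p.2))

/-- The coding function is order-invariant. -/
def OInv (cd : Tm.{u} → Tm.{u} → ℕ) : Prop := ∀ (ρ : Ordinal.{u} → Ordinal.{u}) (t t' : Tm.{u}),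
  (∀ p ∈ t.2 ++ t'.2, ∀ q ∈ t.2 ++ t'.2, p.2 < q.2 → ρ p.2 < ρ q.2) →
    cd (tmap ρ t) (tmap ρ t') = cd t t'

/-- The membership relation of terms given by the real `x`. -/
def Et (cd : Tm.{u} → Tm.{u} → ℕ) (x : ℕ → ℕ) (t' t : Tm.{u}) : Prop := x (cd t' t) ≠ 0

/-- There is no infinite descending sequence of terms over `S`. -/
def WFOn (cd : Tm.{u} → Tm.{u} → ℕ) (x : ℕ → ℕ) (S : Set Ordinal.{u}) : Prop :=
  ∀ s : ℕ → Tm.{u}, (∀ n, TmOn S (s n)) → ∃ n, ¬ Et cd x (s (n + 1)) (s n)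

/-- Well-foundedness over all countable ordinals. -/
def WFx (cd : Tm.{u} → Tm.{u} → ℕ) (x : ℕ → ℕ) : Prop :=
  ∀ η : Ordinal.{u}, η < ω₁ → WFOn cd x (Set.Iio η)

section Rk

variable (cd : Tm.{u} → Tm.{u} → ℕ) (x : ℕ → ℕ) (S : Set Ordinal.{u})

/-- The rank of `t` in the membership relation on terms over `S` is at most `ν`. -/
def RkLe (ν : Ordinal.{u}) : Tm.{u} → Prop := fun t =>
  ∀ t', TmOn S t' → Et cd x t' t → ∃ ν' : {ν' : Ordinal.{u} // ν' < ν}, RkLe ν'.1 t'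
termination_by ν
decreasing_by exact ν'.2

/-- The rank of a term. -/
noncomputable def rkT (t : Tm.{u}) : Ordinal.{u} := sInf {ν | RkLe cd x S ν t}

variable {cd x S}

theorem RkLe_iff {ν : Ordinal.{u}} {t : Tm.{u}} : RkLe cd x S ν t ↔
    ∀ t', TmOn S t' → Et cd x t' t → ∃ ν' < ν, RkLe cd x S ν' t' := by
  rw [RkLe]; simp

end Rk

/-! ## The collapse of a set of ordinals -/

/-- The Mostowski collapse with respect to the set `S` of ordinals. -/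
noncomputable def col (S : Set Ordinal.{u}) (o : Ordinal.{u}) : Ordinal.{u} :=
  ⨆ s : {s : Ordinal.{u} // s ∈ S ∧ s < o}, Order.succ (col S s.1)
termination_by o
decreasing_by exact s.2.2

/-! ## Closure points of functions on `ω₁` -/

/-- `h` maps countable ordinals to countable ordinals. -/
def Okh (h : Ordinal.{u} → Ordinal.{u}) : Prop := ∀ ξ : Ordinal.{u}, ξ < ω₁ → h ξ < ω₁

/-- The closure points of `h` below `ω₁`. -/
def Clh (h : Ordinal.{u} → Ordinal.{u}) : Set Ordinal.{u} :=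
  {ζ | 0 < ζ ∧ ζ < ω₁ ∧ ∀ ξ < ζ, h ξ < ζ}

/-! ## Shapes and the comparison of reals -/

/-- A shape of a term: positions instead of ordinals. -/
abbrev Shp : Type := ℕ × List (ℕ × ℕ)

/-- The term with the ordinals `ζ`. -/
def inst (m : Shp) (ζ : ℕ → Ordinal.{u}) : Tm.{u} := (m.1, m.2.map fun p => (p.1, ζ p.2))

/-- A bound for the positions. -/
def bnd (m : Shp) : ℕ := m.2.foldr (fun p k => max (p.2 + 1) k) 0

/-- Increasing sequences of closure points. -/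
structure Adm (h : Ordinal.{u} → Ordinal.{u}) (k : ℕ) (ζ : ℕ → Ordinal.{u}) (η : Ordinal.{u}) :
    Prop where
  mem : ∀ i < k, ζ i ∈ Clh h
  lt : ∀ i < k, ζ i < η
  mono : ∀ i j, i < j → j < k → ζ i < ζ j
  η_mem : η ∈ Clh h

/-- The rank of the term of shape `m` for `x` is (almost everywhere) at most that for `y`. -/
def LEm (cd : Tm.{u} → Tm.{u} → ℕ) (m : Shp) (x y : ℕ → ℕ) : Prop :=
  ∃ h : Ordinal.{u} → Ordinal.{u}, Okh h ∧ ∀ ζ η, Adm h (bnd m) ζ η →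
    rkT cd x (Set.Iio η) (inst m ζ) ≤ rkT cd y (Set.Iio η) (inst m ζ)

/-- The rank of the term of shape `m` for `x` is (almost everywhere) less than that for `y`. -/
def LTm (cd : Tm.{u} → Tm.{u} → ℕ) (m : Shp) (x y : ℕ → ℕ) : Prop :=
  ∃ h : Ordinal.{u} → Ordinal.{u}, Okh h ∧ ∀ ζ η, Adm h (bnd m) ζ η →
    rkT cd x (Set.Iio η) (inst m ζ) < rkT cd y (Set.Iio η) (inst m ζ)

/-! ## Normal measures and chains of hulls -/

/-- `𝒰` is a normal measure on `κ` (`V_γ`-completeness for `γ < κ` includes that `κ` is a strong limit). -/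
structure NormalUF (κ : Ordinal.{u}) (𝒰 : Ultrafilter Ordinal.{u}) : Prop where
  lt : ∀ᶠ ξ in (𝒰 : Filter Ordinal.{u}), ξ < κ
  gt : ∀ μ < κ, ∀ᶠ ξ in (𝒰 : Filter Ordinal.{u}), μ < ξ
  complete : ∀ γ < κ, ∀ f : Ordinal.{u} → ZFSet.{u},
    (∀ᶠ ξ in (𝒰 : Filter Ordinal.{u}), f ξ ∈ V_ γ) →
      ∃ c, ∀ᶠ ξ in (𝒰 : Filter Ordinal.{u}), f ξ = c
  normal : ∀ f : Ordinal.{u} → Ordinal.{u}, (∀ᶠ ξ in (𝒰 : Filter Ordinal.{u}), f ξ < ξ) →
    ∃ c, ∀ᶠ ξ in (𝒰 : Filter Ordinal.{u}), f ξ = c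

/-- A continuous chain of countable hulls of length `ω₁` generated by indiscernibles. -/
structure IsChn (κ : Ordinal.{u}) (𝒰 : Ultrafilter Ordinal.{u}) (Φ : ℕ → ZFSet.{u} → ZFSet.{u})
    (Y : Ordinal.{u} → Set ZFSet.{u}) (ξ : Ordinal.{u} → Ordinal.{u}) : Prop where
  cnt : ∀ α : Ordinal.{u}, α < ω₁ → (Y α).Countable
  clo : ∀ α : Ordinal.{u}, α < ω₁ → Clo Φ (Y α)
  lt : ∀ α : Ordinal.{u}, α < ω₁ → ξ α < κ
  sub : ∀ α β : Ordinal.{u}, α ≤ β → β < ω₁ → Y α ⊆ Y β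
  mem : ∀ α β : Ordinal.{u}, α < β → β < ω₁ → (ξ α).toZFSet ∈ Y β
  init : ∀ α β : Ordinal.{u}, α < β → β < ω₁ → ∀ μ < ξ α, μ.toZFSet ∈ Y β → μ.toZFSet ∈ Y α
  above : ∀ α : Ordinal.{u}, α < ω₁ → ∀ μ < κ, μ.toZFSet ∈ Y α → μ < ξ α
  large : ∀ α : Ordinal.{u}, α < ω₁ → ∀ a ∈ Y α,
    (∀ᶠ ζ in (𝒰 : Filter Ordinal.{u}), ζ.toZFSet ∈ a) → (ξ α).toZFSet ∈ a
  cont : ∀ α : Ordinal.{u}, α < ω₁ → Order.IsSuccLimit α → ∀ x ∈ Y α, ∃ β < α, x ∈ Y β

/-- The ordinals below `κ` in the class `Y`. -/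
def Ords (κ : Ordinal.{u}) (Y : Set ZFSet.{u}) : Set Ordinal.{u} := {μ | μ < κ ∧ μ.toZFSet ∈ Y}

/-! ## Forced ranks -/

section Forced

variable {X : Type u} [TopologicalSpace X]

/-- All points of `U` satisfy `t' E t`. -/
def frc (cd : Tm.{u} → Tm.{u} → ℕ) (F : X → ℕ → ℕ) (U : {U : Set X // IsOpen U ∧ U.Nonempty})
    (t' t : Tm.{u}) : Prop := ∀ x ∈ U.1, Et cd (F x) t' t

/-- `U` forces that the rank of `t` is at most `ν`. -/
def FR (cd : Tm.{u} → Tm.{u} → ℕ) (F : X → ℕ → ℕ) (κ : Ordinal.{u}) (ν : Ordinal.{u}) :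
    {U : Set X // IsOpen U ∧ U.Nonempty} → Tm.{u} → Prop := fun U t =>
  ∀ t', TmOn (Set.Iio κ) t' → ∀ U1 ≤ U, frc cd F U1 t' t →
    ∃ U2 ≤ U1, ∃ ν' : {ν' : Ordinal.{u} // ν' < ν}, FR cd F κ ν'.1 U2 t'
termination_by ν
decreasing_by exact ν'.2

theorem FR_iff {cd : Tm.{u} → Tm.{u} → ℕ} {F : X → ℕ → ℕ} {κ ν : Ordinal.{u}}
    {U : {U : Set X // IsOpen U ∧ U.Nonempty}} {t : Tm.{u}} : FR cd F κ ν U t ↔
    ∀ t', TmOn (Set.Iio κ) t' → ∀ U1 ≤ U, frc cd F U1 t' t →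
      ∃ U2 ≤ U1, ∃ ν' < ν, FR cd F κ ν' U2 t' := by
  rw [FR]; simp

/-- Nothing below `U` decides a bound for the rank of `t`. -/
def Badt (cd : Tm.{u} → Tm.{u} → ℕ) (F : X → ℕ → ℕ) (κ : Ordinal.{u})
    (U : {U : Set X // IsOpen U ∧ U.Nonempty}) (t : Tm.{u}) : Prop :=
  ∀ ν, ∀ U' ≤ U, ¬ FR cd F κ ν U' t

/-- `U` decides that the rank of `t` is exactly `ν`. -/
def Exact (cd : Tm.{u} → Tm.{u} → ℕ) (F : X → ℕ → ℕ) (κ : Ordinal.{u})
    (U : {U : Set X // IsOpen U ∧ U.Nonempty}) (t : Tm.{u}) (ν : Ordinal.{u}) : Prop :=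
  FR cd F κ ν U t ∧ ∀ ν' < ν, ∀ U' ≤ U, ¬ FR cd F κ ν' U' t

/-- Nothing below `p` is bad. -/
def NoBad (cd : Tm.{u} → Tm.{u} → ℕ) (F : X → ℕ → ℕ) (κ : Ordinal.{u})
    (p : {U : Set X // IsOpen U ∧ U.Nonempty}) : Prop :=
  ∀ U ≤ p, ∀ t, TmOn (Set.Iio κ) t → ¬ Badt cd F κ U t

end Forced

/-! ## Codes of terms -/

/-- The code of a list of indices. -/
noncomputable def listZ : List (ℕ × Ordinal.{u}) → ZFSet.{u}
  | [] => ∅
  | p :: l => ZFSet.pair (ZFSet.pair (tag p.1) p.2.toZFSet) (listZ l)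

/-- The code of a term. -/
noncomputable def tmZ (t : Tm.{u}) : ZFSet.{u} := ZFSet.pair (tag t.1) (listZ t.2)

/-- The code of a list of ordinals. -/
noncomputable def ordlZ : List Ordinal.{u} → ZFSet.{u}
  | [] => ∅
  | o :: l => ZFSet.pair o.toZFSet (ordlZ l)

/-- The iterated measure quantifier. -/
def AE (𝒰 : Ultrafilter Ordinal.{u}) : ℕ → (List Ordinal.{u} → Prop) → Prop
  | 0, P => P []
  | k + 1, P => ∀ᶠ ξ in (𝒰 : Filter Ordinal.{u}), AE 𝒰 k fun l => P (ξ :: l)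

end Pool.Agent.H82.OC
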