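import Pool.Agent.H82.OC.Meas
import Pool.Agent.H17.Omega.Collapse

/-!
# T8, part C: definitions

Document: team-store `helper82_T8.md`, part C.  Terms as values: a pair (label, list of pairs (type, ordinal)).
-/

set_option autoImplicit false
set_option linter.unusedVariables false
set_option linter.unusedSectionVars false
set_option linter.unusedSimpArgs false
set_option linter.deprecated false

universe u v w

open scoped ZFSet Ordinal

namespace Pool.Agent.H82.OC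

open Pool.Agent.H17.Omega Pool.Agent.H17.Omega.T8

/-! ## The context -/

/-- A level `δ`, measurable cardinals `κ i` with measures `𝒰 i`, and a real `z`. -/
structure Ctx : Type (u + 1) where
  δ : Ordinal.{u}
  κ : ℕ → Ordinal.{u}
  𝒰 : ℕ → Ultrafilter Ordinal.{u}
  z : ℕ → ℕ

/-- The level `V_δ` as a class. -/
def Ctx.MS (C : Ctx.{u}) : Set ZFSet.{u} := {x | x ∈ V_ C.δ}

/-- The level `V_δ` as a type. -/
abbrev Ctx.M (C : Ctx.{u}) : Type (u + 1) := C.MS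

/-- The membership relation of `V_δ`. -/
def Ctx.Em (C : Ctx.{u}) : C.M → C.M → Prop := fun a b => a.1 ∈ b.1

/-- The assumptions on the context. -/
structure Ctx.Good (C : Ctx.{u}) (φ : Fml) : Prop where
  wo : WOr C.z
  meas : ∀ i, NormalUF (C.κ i) (C.𝒰 i)
  om : ∀ i, Ordinal.omega0 < C.κ i
  klim : ∀ i, Order.IsSuccLimit (C.κ i)
  mono : ∀ i j, Lo C.z j i → C.κ j < C.κ i
  bdd : ∃ μ < C.δ, ∀ i, C.κ i < μ
  lim : Order.IsSuccLimit C.δ
  zfc : ∀ ψ, ZFC ψ → Models C.MS ψ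
  phi : Models C.MS φ

/-! ## Labels -/

/-- Label of the term for `z`. -/
def lbTz : ℕ := Nat.pair 0 0
/-- Label of the term for the sequence of the `κ i`. -/
def lbTK : ℕ := Nat.pair 1 0
/-- Label of the term for the number `n`. -/
def lbNN (n : ℕ) : ℕ := Nat.pair 2 n
/-- Label of the term for `κ i`. -/
def lbKK (i : ℕ) : ℕ := Nat.pair 3 i
/-- Label of the term for an indiscernible of type `i`. -/
def lbCC (i : ℕ) : ℕ := Nat.pair 4 i
/-- Label of a Skolem term. -/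
def lbSK (χ : Fml) (k : ℕ) (args : List (ℕ × ℕ)) : ℕ :=
  Nat.pair 5 (Encodable.encode (χ.code, k, args) + 1)
/-- Label of a limit term. -/
def lbLim (n : ℕ) (bt : List ℕ) (pat : List (Option (ℕ × ℕ))) : ℕ :=
  Nat.pair 6 (Encodable.encode (n, bt, pat) + 1)

/-- The ternary relation coded by `z`, as a set. -/
noncomputable def tzZ (z : ℕ → ℕ) : ZFSet.{u} :=
  ZFSet.range (fun p : ULift.{u} {p : ℕ × ℕ × ℕ // Tern z p.1 p.2.1 p.2.2} =>
    ZFSet.pair (natZ p.down.1.1) (ZFSet.pair (natZ p.down.1.2.1) (natZ p.down.1.2.2)))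

/-- The sequence of the `κ i`, as a set. -/
noncomputable def tKZ (κ : ℕ → Ordinal.{u}) : ZFSet.{u} :=
  ZFSet.range (fun i : ULift.{u} ℕ => ZFSet.pair (natZ i.down) (κ i.down).toZFSet)

/-! ## Values -/

/-- The iterated measure quantifier for a list of types. -/
def AEl (𝒰 : ℕ → Ultrafilter Ordinal.{u}) : List ℕ → (List Ordinal.{u} → Prop) → Prop
  | [], P => P []
  | i :: is, P => ∀ᶠ μ in (𝒰 i : Filter Ordinal.{u}), AEl 𝒰 is fun l => P (μ :: l)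

/-- Fill the gaps of a pattern: `none` = next element of `l`, `some (j, r)` = the pair of `j` and the
`r`-th element of `b`. -/
def fill : List (Option (ℕ × ℕ)) → List (ℕ × Ordinal.{u}) → List Ordinal.{u} →
    List (ℕ × Ordinal.{u})
  | [], _, _ => []
  | none :: pat, [], b => fill pat [] b
  | none :: pat, p :: l, b => p :: fill pat l b
  | some q :: pat, l, b => (q.1, b.getD q.2 0) :: fill pat l b

section

variable {C : Ctx.{u}} (V : ℕ → List (ℕ × Ordinal.{u}) → C.M)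

/-- The assignment given by a list of terms (with real ordinals). -/
def vas (ts : List Tm.{u}) : ℕ → C.M := fun j => V (as ts j).1 (as ts j).2

/-- The value of a term for an interpretation `h` of the indices. -/
def val (h : ℕ × Ordinal.{u} → Ordinal.{u}) (t : Tm.{u}) : C.M :=
  V t.1 (t.2.map fun p => (p.1, h p))

/-- The specification of the value function. -/
structure ValSpec (C : Ctx.{u}) (V : ℕ → List (ℕ × Ordinal.{u}) → C.M) : Prop where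
  tz : ∀ l, (V lbTz l).1 = tzZ C.z
  tK : ∀ l, (V lbTK l).1 = tKZ C.κ
  nn : ∀ n l, (V (lbNN n) l).1 = natZ n
  kk : ∀ i l, (V (lbKK i) l).1 = (C.κ i).toZFSet
  cc : ∀ i μ, μ < C.δ → (V (lbCC i) [(i, μ)]).1 = μ.toZFSet
  sk : ∀ (χ : Fml) (k : ℕ) (ts : List Tm.{u}), (∃ y, Sat C.Em χ (upd (vas V ts) k y)) →
    Sat C.Em χ (upd (vas V ts) k
      (V (lbSK χ k (ts.map fun t => (t.1, t.2.length))) (ts.flatMap Prod.snd)))
  lim : ∀ n bt pat l v, AEl C.𝒰 bt (fun b => V n (fill pat l b) = v) → V (lbLim n bt pat) l = v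

end

/-! ## Sorted lists of indices -/

/-- The lexicographic order of the indices. -/
def Il (z : ℕ → ℕ) (p q : ℕ × Ordinal.{u}) : Prop := Lo z p.1 q.1 ∨ (p.1 = q.1 ∧ p.2 < q.2)

/-- The term of shape `m` with the ordinals from the list `l`. -/
def instL (m : ℕ × List (ℕ × ℕ)) (l : List Ordinal.{u}) : Tm.{u} :=
  (m.1, m.2.map fun p => (p.1, l.getD p.2 0))

open Classical in
/-- The shape of the term `t` with respect to the list `s` of indices. -/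
noncomputable def shpL (s : List (ℕ × Ordinal.{u})) (t : Tm.{u}) : ℕ × List (ℕ × ℕ) :=
  (t.1, t.2.map fun p => (p.1, s.idxOf p))

/-- The predicate that `χ` holds for the terms of shapes `ms`, on lists of ordinals. -/
def Pc {C : Ctx.{u}} (V : ℕ → List (ℕ × Ordinal.{u}) → C.M) (χ : Fml)
    (ms : List (ℕ × List (ℕ × ℕ))) (l : List Ordinal.{u}) : Prop :=
  Sat C.Em χ (vas V (ms.map fun m => instL m l))

/-- `h` is a realisation of the indices in `J`. -/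
structure Rlz (C : Ctx.{u}) (V : ℕ → List (ℕ × Ordinal.{u}) → C.M) (J : Set (ℕ × Ordinal.{u}))
    (h : ℕ × Ordinal.{u} → Ordinal.{u}) : Prop where
  lt : ∀ q ∈ J, h q < C.κ q.1
  ae : ∀ s : List (ℕ × Ordinal.{u}), s.Pairwise (Il C.z) → (∀ q ∈ s, q ∈ J) →
    ∀ (χ : Fml) (ms : List (ℕ × List (ℕ × ℕ))),
      AEl C.𝒰 (s.map Prod.fst) (Pc V χ ms) → Pc V χ ms (s.map h)

/-- Generic truth of `χ` for the terms `ts`. -/
def Gtr (C : Ctx.{u}) (V : ℕ → List (ℕ × Ordinal.{u}) → C.M) (χ : Fml) (ts : List Tm.{u}) : Prop :=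
  ∃ s : List (ℕ × Ordinal.{u}), s.Pairwise (Il C.z) ∧ (∀ q, q ∈ s ↔ ∃ t ∈ ts, q ∈ t.2) ∧
    AEl C.𝒰 (s.map Prod.fst) (Pc V χ (ts.map (shpL s)))

open Classical in
/-- The blueprint given by the context. -/
noncomputable def xC (C : Ctx.{u}) (V : ℕ → List (ℕ × Ordinal.{u}) → C.M) (n : ℕ) : ℕ :=
  if ∃ (χ : Fml) (ts : List Tm.{u}), n = cdL χ ts ∧ Gtr C V χ ts then 1 else 0

/-! ## The closed axioms -/

/-- The term for `z`. -/
def tzt : Tm.{u} := (lbTz, [])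
/-- The term for the sequence of the `κ i`. -/
def tKt : Tm.{u} := (lbTK, [])
/-- The term for the number `n`. -/
def nnt (n : ℕ) : Tm.{u} := (lbNN n, [])
/-- The term for `κ i`. -/
def kkt (i : ℕ) : Tm.{u} := (lbKK i, [])
/-- The indiscernible. -/
def cct (i : ℕ) (ξ : Ordinal.{u}) : Tm.{u} := (lbCC i, [(i, ξ)])

/-- The Skolem term. -/
def skt (χ : Fml) (k : ℕ) (g : ℕ → Tm.{u}) : Tm.{u} :=
  (lbSK χ k (((List.range χ.bd).map g).map fun t => (t.1, t.2.length)),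
    ((List.range χ.bd).map g).flatMap Prod.snd)

open Classical in
/-- The limit term: the indices in `A` are kept, the other indices (listed by `B`) are removed. -/
noncomputable def limt (A : Set (ℕ × Ordinal.{u})) (B : List (ℕ × Ordinal.{u})) (t : Tm.{u}) :
    Tm.{u} :=
  (lbLim t.1 (B.map Prod.fst) (t.2.map fun p => if p ∈ A then none else some (p.1, B.idxOf p)),
    t.2.filter fun p => p ∈ A)

/-- Closed axioms, first part: truth. -/
structure CaxT (φ : Fml) (x : ℕ → ℕ) : Prop where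
  mem : ∀ (i j : ℕ) (g : ℕ → Tm.{u}), Tr8 x (.mem i j) g ↔ E x (g i) (g j)
  eqc : ∀ (i j : ℕ) (g : ℕ → Tm.{u}), Tr8 x (.eq i j) g →
    (∀ t, E x t (g i) ↔ E x t (g j)) ∧ (∀ t, E x (g i) t ↔ E x (g j) t)
  eqr : ∀ (i j i' j' : ℕ) (g g' : ℕ → Tm.{u}), g i = g' i' → g j = g' j' → Tr8 x (.eq i j) g →
    Tr8 x (.eq i' j') g'
  bot : ∀ g : ℕ → Tm.{u}, ¬ Tr8 x .bot g
  imp : ∀ (χ χ' : Fml) (g : ℕ → Tm.{u}), Tr8 x (.imp χ χ') g ↔ (Tr8 x χ g → Tr8 x χ' g)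
  and : ∀ (χ χ' : Fml) (g : ℕ → Tm.{u}), Tr8 x (.and χ χ') g ↔ (Tr8 x χ g ∧ Tr8 x χ' g)
  or : ∀ (χ χ' : Fml) (g : ℕ → Tm.{u}), Tr8 x (.or χ χ') g ↔ (Tr8 x χ g ∨ Tr8 x χ' g)
  all_imp : ∀ (k : ℕ) (χ : Fml) (g : ℕ → Tm.{u}) (t : Tm.{u}), Tr8 x (.all k χ) g →
    Tr8 x χ (upd g k t)
  allw : ∀ (k : ℕ) (χ : Fml) (g : ℕ → Tm.{u}), ¬ Tr8 x (.ex k χ.not) g → Tr8 x (.all k χ) g
  exw : ∀ (k : ℕ) (χ : Fml) (g : ℕ → Tm.{u}), Tr8 x (.ex k χ) g → Tr8 x χ (upd g k (skt χ k g))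
  ex_of : ∀ (k : ℕ) (χ : Fml) (g : ℕ → Tm.{u}) (t : Tm.{u}), Tr8 x χ (upd g k t) →
    Tr8 x (.ex k χ) g
  zfc : ∀ ψ, ZFC ψ → ∀ g : ℕ → Tm.{u}, Tr8 x ψ g
  phi : ∀ g : ℕ → Tm.{u}, Tr8 x φ g

/-- Closed axioms, second part: constants. -/
structure CaxK (z x : ℕ → ℕ) : Prop where
  nn_val : ∀ n, TD (Tr8.{u} x) (fun v : Fin 1 → ZFSet.{u} => v 0 = natZ n) (as [nnt n]) True
  tz_mem : ∀ i j k, TD (Tr8.{u} x) (fun v : Fin 4 → ZFSet.{u} =>
    ZFSet.pair (v 0) (ZFSet.pair (v 1) (v 2)) ∈ v 3) (as [nnt i, nnt j, nnt k, tzt]) (Tern z i j k)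
  tz_sub : TD (Tr8.{u} x) (fun v : Fin 1 → ZFSet.{u} => ∀ p ∈ v 0, ∃ i j k : ℕ,
    p = ZFSet.pair (natZ i) (ZFSet.pair (natZ j) (natZ k))) (as [tzt]) True
  tK_mem : ∀ i, TD (Tr8.{u} x) (fun v : Fin 3 → ZFSet.{u} => ZFSet.pair (v 0) (v 1) ∈ v 2)
    (as [nnt i, kkt i, tKt]) True
  tK_fun : TD (Tr8.{u} x) (fun v : Fin 1 → ZFSet.{u} => ∀ i a b : ZFSet.{u},
    ZFSet.pair i a ∈ v 0 → ZFSet.pair i b ∈ v 0 → a = b) (as [tKt]) True
  kk_ord : ∀ i, TD (Tr8.{u} x) (fun v : Fin 1 → ZFSet.{u} => (v 0).IsOrdinal) (as [kkt i]) True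

/-- Closed axioms, third part: indiscernibles. -/
structure CaxI (x : ℕ → ℕ) : Prop where
  cc_mem : ∀ (i : ℕ) (ξ : Ordinal.{u}), E x (cct i ξ) (kkt i)
  cc_lt : ∀ (i : ℕ) (ξ ξ' : Ordinal.{u}), ξ < ξ' → E x (cct i ξ) (cct i ξ')
  bdd : ∀ (i : ℕ) (ξ : Ordinal.{u}) (t : Tm.{u}), E x t (kkt i) → (∀ p ∈ t.2, p.1 = i → p.2 < ξ) →
    E x t (cct i ξ)

/-- Closed axioms, fourth part: limit terms. -/
def CaxR (z x : ℕ → ℕ) : Prop :=
  ∀ (i : ℕ) (ξ : Ordinal.{u}) (t : Tm.{u}) (A : Set (ℕ × Ordinal.{u}))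
    (B : List (ℕ × Ordinal.{u})), (∀ p ∈ t.2, (p ∈ A ↔ Il z p (i, ξ))) → B.Pairwise (Il z) →
      (∀ p, p ∈ B ↔ p ∈ t.2 ∧ p ∉ A) → E x t (cct i ξ) → ∀ r, (E x r t ↔ E x r (limt A B t))

/-- All closed axioms. -/
structure Cax (φ : Fml) (z x : ℕ → ℕ) : Prop where
  T : CaxT.{u} φ x
  K : CaxK.{u} z x
  I : CaxI.{u} x
  R : CaxR.{u} z x

end Pool.Agent.H82.OC
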