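import Pool.Agent.H82.OC.RlzEx

/-!
# OC-C10: the axioms are closed, and they imply that `x` is a blueprint

* `isClosed_Cax`: every instance of an axiom is a condition on finitely many values of `z` and `x`: for fixed parameters the set of `(z, x)` is clopen; the set defined by all axioms is an
  intersection of such sets (`isClosed_iInter` over all parameters; there is no restriction on the index types).  Basic facts: for every `n`, `{a | a.2 n ≠ 0}`, `{a | a.1 n ≠ 0}` are clopen; so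
  `{a | Tr8 a.2 χ g}`, `{a | E a.2 t t'}`, `{a | Lo a.1 i j}`, `{a | Tern a.1 i j k}`, `{a | Il a.1 p q}` are clopen, and clopen sets are closed under `¬, ∧, ∨, →, ↔` and finite quantifiers
  (`List.Pairwise`, `∀ p ∈ t.2`).  `TD T P g Q`: for all `θ` (with `Defines θ P`, a condition without `z, x`): `T θ g ↔ Q`.
* `bp_of_Cax`: take `T = Tr8 x`, `tz = tzt`, `tK = tKt`, `nn = nnt`, `kk = kkt`, `cc = cct`.
  `all_of`: if `T χ (upd g k t)` for all `t` whose indices are indices of the `g i`, but `¬ T (.all k χ) g`, then `T (.ex k χ.not) g` (`allw`), so `T χ.not (upd g k t)` for `t = skt χ.not k g`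
  (`exw`), whose indices are indices of the `g i`; `χ.not = .imp χ .bot`, so `imp`, `bot`: contradiction.  `ex_imp`: `exw`.
  `red`: `A = {p | Il z p (i, ξ)}`, `B` = sorted enumeration of the indices of `t` not in `A` (`z` codes a well-order, so `Il z` is a strict linear order; e.g. `exists_sorted` in `RlzEx.lean`);
  `t' = limt A B t`.
-/

set_option autoImplicit false
set_option linter.unusedVariables false
set_option linter.unusedSectionVars false
set_option linter.unusedSimpArgs false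
set_option linter.deprecated false

universe u v w

open scoped ZFSet Ordinal

namespace Pool.Agent.H82.OC

open Pool.Agent.H17.Omega Pool.Agent.H17.Omega.T8

section cax_top

variable {X : Type*} [TopologicalSpace X]

theorem cax_all {ι : Sort*} {P : ι → X → Prop} (h : ∀ i, IsClosed {a | P i a}) :
    IsClosed {a | ∀ i, P i a} := by
  have e : {a | ∀ i, P i a} = ⋂ i, {a | P i a} := by ext a; simp
  rw [e]
  exact isClosed_iInter h

theorem cax_imp {P Q : X → Prop} (hP : IsClopen {a | P a}) (hQ : IsClosed {a | Q a}) :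
    IsClosed {a | P a → Q a} := by
  have e : {a | P a → Q a} = {a | P a}ᶜ ∪ {a | Q a} := by
    ext a
    simp only [Set.mem_union, Set.mem_compl_iff]
    exact imp_iff_not_or
  rw [e]
  exact hP.compl.isClosed.union hQ

theorem cax_cand {P Q : X → Prop} (hP : IsClosed {a | P a}) (hQ : IsClosed {a | Q a}) :
    IsClosed {a | P a ∧ Q a} := hP.inter hQ

theorem cax_const (p : Prop) : IsClopen {_a : X | p} := by
  by_cases hp : p
  · have e : {_a : X | p} = Set.univ := by ext a; simp [hp]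
    rw [e]; exact isClopen_univ
  · have e : {_a : X | p} = ∅ := by ext a; simp [hp]
    rw [e]; exact isClopen_empty

theorem cax_not {P : X → Prop} (hP : IsClopen {a | P a}) : IsClopen {a | ¬ P a} := hP.compl

theorem cax_and {P Q : X → Prop} (hP : IsClopen {a | P a}) (hQ : IsClopen {a | Q a}) :
    IsClopen {a | P a ∧ Q a} := hP.inter hQ

theorem cax_or {P Q : X → Prop} (hP : IsClopen {a | P a}) (hQ : IsClopen {a | Q a}) :
    IsClopen {a | P a ∨ Q a} := hP.union hQ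

theorem cax_impc {P Q : X → Prop} (hP : IsClopen {a | P a}) (hQ : IsClopen {a | Q a}) :
    IsClopen {a | P a → Q a} := by
  have e : {a | P a → Q a} = {a | ¬ P a ∨ Q a} := by
    ext a
    exact imp_iff_not_or
  rw [e]
  exact cax_or (cax_not hP) hQ

theorem cax_iff {P Q : X → Prop} (hP : IsClopen {a | P a}) (hQ : IsClopen {a | Q a}) :
    IsClopen {a | P a ↔ Q a} := by
  have e : {a | P a ↔ Q a} = {a | (P a → Q a) ∧ (Q a → P a)} := by
    ext a
    exact iff_iff_implies_and_implies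
  rw [e]
  exact cax_and (cax_impc hP hQ) (cax_impc hQ hP)

theorem cax_list {α : Type*} (l : List α) {R : α → X → Prop}
    (h : ∀ p ∈ l, IsClopen {a | R p a}) : IsClopen {a | ∀ p ∈ l, R p a} := by
  induction l with
  | nil =>
    have e : {a : X | ∀ p ∈ ([] : List α), R p a} = Set.univ := by ext a; simp
    rw [e]; exact isClopen_univ
  | cons b l ih =>
    have e : {a : X | ∀ p ∈ (b :: l), R p a} = {a | R b a ∧ ∀ p ∈ l, R p a} := by
      ext a
      exact List.forall_mem_cons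
    rw [e]
    exact cax_and (h b List.mem_cons_self) (ih fun p hp => h p (List.mem_cons_of_mem _ hp))

theorem cax_pairwise {α : Type*} (l : List α) {R : X → α → α → Prop}
    (h : ∀ p q, IsClopen {a | R a p q}) : IsClopen {a | l.Pairwise (R a)} := by
  induction l with
  | nil =>
    have e : {a : X | ([] : List α).Pairwise (R a)} = Set.univ := by ext a; simp
    rw [e]; exact isClopen_univ
  | cons b l ih =>
    have e : {a : X | (b :: l).Pairwise (R a)} =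
        {a | (∀ q ∈ l, R a b q) ∧ l.Pairwise (R a)} := by
      ext a
      exact List.pairwise_cons
    rw [e]
    exact cax_and (cax_list l fun q _ => h b q) ih

end cax_top

section cax_basic

theorem cax_snd (n : ℕ) : IsClopen {a : (ℕ → ℕ) × (ℕ → ℕ) | a.2 n ≠ 0} := by
  have hc : Continuous fun a : (ℕ → ℕ) × (ℕ → ℕ) => a.2 n :=
    (continuous_apply n).comp continuous_snd
  exact (isClopen_discrete {m : ℕ | m ≠ 0}).preimage hc

theorem cax_fst (n : ℕ) : IsClopen {a : (ℕ → ℕ) × (ℕ → ℕ) | a.1 n ≠ 0} := by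
  have hc : Continuous fun a : (ℕ → ℕ) × (ℕ → ℕ) => a.1 n :=
    (continuous_apply n).comp continuous_fst
  exact (isClopen_discrete {m : ℕ | m ≠ 0}).preimage hc

theorem cax_Tr8 (χ : Fml) (g : ℕ → Tm.{u}) :
    IsClopen {a : (ℕ → ℕ) × (ℕ → ℕ) | Tr8 a.2 χ g} := cax_snd _

theorem cax_E (t t' : Tm.{u}) : IsClopen {a : (ℕ → ℕ) × (ℕ → ℕ) | E a.2 t t'} := cax_snd _

theorem cax_Lo (i j : ℕ) : IsClopen {a : (ℕ → ℕ) × (ℕ → ℕ) | Lo a.1 i j} := cax_fst _

theorem cax_Tern (i j k : ℕ) : IsClopen {a : (ℕ → ℕ) × (ℕ → ℕ) | Tern a.1 i j k} := cax_fst _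

theorem cax_Il (p q : ℕ × Ordinal.{u}) : IsClopen {a : (ℕ → ℕ) × (ℕ → ℕ) | Il a.1 p q} :=
  cax_or (cax_Lo _ _) (cax_const _)

theorem cax_TD {n : ℕ} (P : (Fin n → ZFSet.{u}) → Prop) (g : ℕ → Tm.{u})
    {Q : (ℕ → ℕ) × (ℕ → ℕ) → Prop} (hQ : IsClopen {a | Q a}) :
    IsClosed {a : (ℕ → ℕ) × (ℕ → ℕ) | TD (Tr8.{u} a.2) P g (Q a)} :=
  cax_all fun θ => cax_all fun _ => (cax_iff (cax_Tr8 θ g) hQ).isClosed

theorem cax_T (φ : Fml) : IsClosed {a : (ℕ → ℕ) × (ℕ → ℕ) | CaxT.{u} φ a.2} := by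
  have e : {a : (ℕ → ℕ) × (ℕ → ℕ) | CaxT.{u} φ a.2} = {a : (ℕ → ℕ) × (ℕ → ℕ) |
      (∀ (i j : ℕ) (g : ℕ → Tm.{u}), Tr8 a.2 (.mem i j) g ↔ E a.2 (g i) (g j)) ∧
      (∀ (i j : ℕ) (g : ℕ → Tm.{u}), Tr8 a.2 (.eq i j) g →
        (∀ t, E a.2 t (g i) ↔ E a.2 t (g j)) ∧ (∀ t, E a.2 (g i) t ↔ E a.2 (g j) t)) ∧
      (∀ (i j i' j' : ℕ) (g g' : ℕ → Tm.{u}), g i = g' i' → g j = g' j' → Tr8 a.2 (.eq i j) g →
        Tr8 a.2 (.eq i' j') g') ∧
      (∀ g : ℕ → Tm.{u}, ¬ Tr8 a.2 .bot g) ∧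
      (∀ (χ χ' : Fml) (g : ℕ → Tm.{u}), Tr8 a.2 (.imp χ χ') g ↔
        (Tr8 a.2 χ g → Tr8 a.2 χ' g)) ∧
      (∀ (χ χ' : Fml) (g : ℕ → Tm.{u}), Tr8 a.2 (.and χ χ') g ↔
        (Tr8 a.2 χ g ∧ Tr8 a.2 χ' g)) ∧
      (∀ (χ χ' : Fml) (g : ℕ → Tm.{u}), Tr8 a.2 (.or χ χ') g ↔
        (Tr8 a.2 χ g ∨ Tr8 a.2 χ' g)) ∧
      (∀ (k : ℕ) (χ : Fml) (g : ℕ → Tm.{u}) (t : Tm.{u}), Tr8 a.2 (.all k χ) g →
        Tr8 a.2 χ (upd g k t)) ∧
      (∀ (k : ℕ) (χ : Fml) (g : ℕ → Tm.{u}), ¬ Tr8 a.2 (.ex k χ.not) g →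
        Tr8 a.2 (.all k χ) g) ∧
      (∀ (k : ℕ) (χ : Fml) (g : ℕ → Tm.{u}), Tr8 a.2 (.ex k χ) g →
        Tr8 a.2 χ (upd g k (skt χ k g))) ∧
      (∀ (k : ℕ) (χ : Fml) (g : ℕ → Tm.{u}) (t : Tm.{u}), Tr8 a.2 χ (upd g k t) →
        Tr8 a.2 (.ex k χ) g) ∧
      (∀ ψ, ZFC ψ → ∀ g : ℕ → Tm.{u}, Tr8 a.2 ψ g) ∧
      (∀ g : ℕ → Tm.{u}, Tr8 a.2 φ g)} := by
    ext a
    constructor
    · intro h
      exact ⟨h.mem, h.eqc, h.eqr, h.bot, h.imp, h.and, h.or, h.all_imp, h.allw, h.exw, h.ex_of,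
        h.zfc, h.phi⟩
    · rintro ⟨h1, h2, h3, h4, h5, h6, h7, h8, h9, h10, h11, h12, h13⟩
      exact ⟨h1, h2, h3, h4, h5, h6, h7, h8, h9, h10, h11, h12, h13⟩
  rw [e]
  refine cax_cand ?_ (cax_cand ?_ (cax_cand ?_ (cax_cand ?_ (cax_cand ?_ (cax_cand ?_
    (cax_cand ?_ (cax_cand ?_ (cax_cand ?_ (cax_cand ?_ (cax_cand ?_ (cax_cand ?_ ?_)))))))))))
  · exact cax_all fun i => cax_all fun j => cax_all fun g =>
      (cax_iff (cax_Tr8 _ _) (cax_E _ _)).isClosed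
  · exact cax_all fun i => cax_all fun j => cax_all fun g => cax_imp (cax_Tr8 _ _)
      (cax_cand (cax_all fun t => (cax_iff (cax_E _ _) (cax_E _ _)).isClosed)
        (cax_all fun t => (cax_iff (cax_E _ _) (cax_E _ _)).isClosed))
  · exact cax_all fun i => cax_all fun j => cax_all fun i' => cax_all fun j' => cax_all fun g =>
      cax_all fun g' => cax_all fun _ => cax_all fun _ =>
        cax_imp (cax_Tr8 _ _) (cax_Tr8 _ _).isClosed
  · exact cax_all fun g => (cax_not (cax_Tr8 _ _)).isClosed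
  · exact cax_all fun χ => cax_all fun χ' => cax_all fun g =>
      (cax_iff (cax_Tr8 _ _) (cax_impc (cax_Tr8 _ _) (cax_Tr8 _ _))).isClosed
  · exact cax_all fun χ => cax_all fun χ' => cax_all fun g =>
      (cax_iff (cax_Tr8 _ _) (cax_and (cax_Tr8 _ _) (cax_Tr8 _ _))).isClosed
  · exact cax_all fun χ => cax_all fun χ' => cax_all fun g =>
      (cax_iff (cax_Tr8 _ _) (cax_or (cax_Tr8 _ _) (cax_Tr8 _ _))).isClosed
  · exact cax_all fun k => cax_all fun χ => cax_all fun g => cax_all fun t =>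
      cax_imp (cax_Tr8 _ _) (cax_Tr8 _ _).isClosed
  · exact cax_all fun k => cax_all fun χ => cax_all fun g =>
      cax_imp (cax_not (cax_Tr8 _ _)) (cax_Tr8 _ _).isClosed
  · exact cax_all fun k => cax_all fun χ => cax_all fun g =>
      cax_imp (cax_Tr8 _ _) (cax_Tr8 _ _).isClosed
  · exact cax_all fun k => cax_all fun χ => cax_all fun g => cax_all fun t =>
      cax_imp (cax_Tr8 _ _) (cax_Tr8 _ _).isClosed
  · exact cax_all fun ψ => cax_all fun _ => cax_all fun g => (cax_Tr8 _ _).isClosed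
  · exact cax_all fun g => (cax_Tr8 _ _).isClosed

theorem cax_K : IsClosed {a : (ℕ → ℕ) × (ℕ → ℕ) | CaxK.{u} a.1 a.2} := by
  have e : {a : (ℕ → ℕ) × (ℕ → ℕ) | CaxK.{u} a.1 a.2} = {a : (ℕ → ℕ) × (ℕ → ℕ) |
      (∀ n, TD (Tr8.{u} a.2) (fun v : Fin 1 → ZFSet.{u} => v 0 = natZ n) (as [nnt n]) True) ∧
      (∀ i j k, TD (Tr8.{u} a.2) (fun v : Fin 4 → ZFSet.{u} =>
        ZFSet.pair (v 0) (ZFSet.pair (v 1) (v 2)) ∈ v 3) (as [nnt i, nnt j, nnt k, tzt])
          (Tern a.1 i j k)) ∧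
      (TD (Tr8.{u} a.2) (fun v : Fin 1 → ZFSet.{u} => ∀ p ∈ v 0, ∃ i j k : ℕ,
        p = ZFSet.pair (natZ i) (ZFSet.pair (natZ j) (natZ k))) (as [tzt]) True) ∧
      (∀ i, TD (Tr8.{u} a.2) (fun v : Fin 3 → ZFSet.{u} => ZFSet.pair (v 0) (v 1) ∈ v 2)
        (as [nnt i, kkt i, tKt]) True) ∧
      (TD (Tr8.{u} a.2) (fun v : Fin 1 → ZFSet.{u} => ∀ i a b : ZFSet.{u},
        ZFSet.pair i a ∈ v 0 → ZFSet.pair i b ∈ v 0 → a = b) (as [tKt]) True) ∧
      (∀ i, TD (Tr8.{u} a.2) (fun v : Fin 1 → ZFSet.{u} => (v 0).IsOrdinal) (as [kkt i])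
        True)} := by
    ext a
    constructor
    · intro h
      exact ⟨h.nn_val, h.tz_mem, h.tz_sub, h.tK_mem, h.tK_fun, h.kk_ord⟩
    · rintro ⟨h1, h2, h3, h4, h5, h6⟩
      exact ⟨h1, h2, h3, h4, h5, h6⟩
  rw [e]
  refine cax_cand ?_ (cax_cand ?_ (cax_cand ?_ (cax_cand ?_ (cax_cand ?_ ?_))))
  · exact cax_all fun n => cax_TD _ _ (Q := fun _ => True) (cax_const _)
  · exact cax_all fun i => cax_all fun j => cax_all fun k =>
      cax_TD _ _ (Q := fun a => Tern a.1 i j k) (cax_Tern i j k)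
  · exact cax_TD _ _ (Q := fun _ => True) (cax_const _)
  · exact cax_all fun n => cax_TD _ _ (Q := fun _ => True) (cax_const _)
  · exact cax_TD _ _ (Q := fun _ => True) (cax_const _)
  · exact cax_all fun n => cax_TD _ _ (Q := fun _ => True) (cax_const _)

theorem cax_I : IsClosed {a : (ℕ → ℕ) × (ℕ → ℕ) | CaxI.{u} a.2} := by
  have e : {a : (ℕ → ℕ) × (ℕ → ℕ) | CaxI.{u} a.2} = {a : (ℕ → ℕ) × (ℕ → ℕ) |
      (∀ (i : ℕ) (ξ : Ordinal.{u}), E a.2 (cct i ξ) (kkt i)) ∧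
      (∀ (i : ℕ) (ξ ξ' : Ordinal.{u}), ξ < ξ' → E a.2 (cct i ξ) (cct i ξ')) ∧
      (∀ (i : ℕ) (ξ : Ordinal.{u}) (t : Tm.{u}), E a.2 t (kkt i) →
        (∀ p ∈ t.2, p.1 = i → p.2 < ξ) → E a.2 t (cct i ξ))} := by
    ext a
    constructor
    · intro h
      exact ⟨h.cc_mem, h.cc_lt, h.bdd⟩
    · rintro ⟨h1, h2, h3⟩
      exact ⟨h1, h2, h3⟩
  rw [e]
  refine cax_cand ?_ (cax_cand ?_ ?_)
  · exact cax_all fun i => cax_all fun ξ => (cax_E _ _).isClosed
  · exact cax_all fun i => cax_all fun ξ => cax_all fun ξ' => cax_all fun _ =>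
      (cax_E _ _).isClosed
  · exact cax_all fun i => cax_all fun ξ => cax_all fun t => cax_imp (cax_E _ _)
      (cax_all fun _ => (cax_E _ _).isClosed)

theorem cax_R : IsClosed {a : (ℕ → ℕ) × (ℕ → ℕ) | CaxR.{u} a.1 a.2} := by
  unfold CaxR
  exact cax_all fun i => cax_all fun ξ => cax_all fun t => cax_all fun A => cax_all fun B =>
    cax_imp (cax_list t.2 fun p _ => cax_iff (cax_const _) (cax_Il _ _))
      (cax_imp (cax_pairwise B fun p q => cax_Il p q)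
        (cax_all fun _ => cax_imp (cax_E _ _)
          (cax_all fun r => (cax_iff (cax_E _ _) (cax_E _ _)).isClosed)))

end cax_basic

theorem isClosed_Cax (φ : Fml) : IsClosed {a : (ℕ → ℕ) × (ℕ → ℕ) | Cax.{u} φ a.1 a.2} := by
  have e : {a : (ℕ → ℕ) × (ℕ → ℕ) | Cax.{u} φ a.1 a.2} = {a : (ℕ → ℕ) × (ℕ → ℕ) |
      CaxT.{u} φ a.2 ∧ CaxK.{u} a.1 a.2 ∧ CaxI.{u} a.2 ∧ CaxR.{u} a.1 a.2} := by
    ext a
    constructor
    · intro h
      exact ⟨h.T, h.K, h.I, h.R⟩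
    · rintro ⟨h1, h2, h3, h4⟩
      exact ⟨h1, h2, h3, h4⟩
  rw [e]
  exact cax_cand (cax_T φ) (cax_cand cax_K (cax_cand cax_I cax_R))

theorem cax_skt {χ : Fml} {k : ℕ} {g : ℕ → Tm.{u}} {p : ℕ × Ordinal.{u}}
    (hp : p ∈ (skt χ k g).2) : ∃ i, p ∈ (g i).2 := by
  unfold skt at hp
  obtain ⟨t, ht, hpt⟩ := List.mem_flatMap.1 hp
  obtain ⟨i, _, rfl⟩ := List.mem_map.1 ht
  exact ⟨i, hpt⟩

theorem bp_of_Cax {φ : Fml} {z x : ℕ → ℕ} (hz : WOr z) (h : Cax.{u} φ z x) : Bp.{u} φ z x := by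
  classical
  refine ⟨Tr8 x, tzt, tKt, nnt, kkt, cct, ?_⟩
  refine ⟨?_, h.T.phi, rfl, rfl, fun _ => rfl, fun _ => rfl, fun _ _ => rfl, h.K.nn_val,
    h.K.tz_mem, h.K.tz_sub, h.K.tK_mem, h.K.tK_fun, h.K.kk_ord, h.I.cc_mem, h.I.cc_lt,
    h.I.bdd, ?_⟩
  · refine ⟨h.T.mem, h.T.eqr, h.T.eqc, h.T.bot, h.T.imp, h.T.and, h.T.or, h.T.all_imp, ?_, ?_,
      h.T.ex_of, h.T.zfc⟩
    · intro k χ g hall
      apply h.T.allw
      intro hex
      have h1 := h.T.exw k χ.not g hex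
      have h2 := hall (skt χ.not k g) fun p hp => cax_skt hp
      exact h.T.bot _ ((h.T.imp _ _ _).1 h1 h2)
    · intro k χ g hex
      exact ⟨skt χ k g, fun p hp => cax_skt hp, h.T.exw k χ g hex⟩
  · intro i ξ t hE
    have hfin : {p : ℕ × Ordinal.{u} | p ∈ t.2 ∧ p ∉ {p | Il z p (i, ξ)}}.Finite :=
      (List.finite_toSet t.2).subset fun p hp => hp.1
    obtain ⟨B, hB, hBm⟩ := exists_sorted hz hfin
    refine ⟨limt {p | Il z p (i, ξ)} B t, ?_, ?_⟩
    · intro p hp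
      unfold limt at hp
      have hp' := List.mem_filter.1 hp
      refine ⟨hp'.1, ?_⟩
      have h2 : Il z p (i, ξ) := by simpa using hp'.2
      exact h2
    · exact h.R i ξ t {p | Il z p (i, ξ)} B (fun p _ => Iff.rfl) hB (fun p => hBm p) hE

end Pool.Agent.H82.OC
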