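import Pool.Agent.H82.OC.Inv

/-!
# OC-C8: the blueprint satisfies the axioms for indiscernibles

`x = xC C V`; `val V h (cct i ξ) = V (lbCC i) [(i, h (i, ξ))]` has the value `(h (i, ξ)).toZFSet` (`hV.cc`; `h (i, ξ) < κ i < δ` by `Rlz.lt`, `hC.bdd`).
* `cc_mem`: `J = {(i, ξ)}`; `h (i, ξ) < κ i`.
* `cc_lt`: `J = {(i, ξ), (i, ξ')}`, `s = [(i, ξ), (i, ξ')]` is sorted; `AEl [i, i] (Pc V (.mem 0 1) [(lbCC i, [(i, 0)]), (lbCC i, [(i, 1)])])`: for almost all `μ`, (`μ < κ i`), for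
  almost all `μ'`: `μ < μ' < κ i` (`NormalUF.gt`, `.lt`) and `V (lbCC i) [(i, μ)] = μ.toZFSet` etc.  So `Rlz.ae` gives `h (i, ξ) < h (i, ξ')`.
* `bdd`: let `A` = the indices `p` of `t` with `Il z p (i, ξ)` and `B` = the other indices; all types in `B` are `> i` (if `p.1 = i` then `p.2 < ξ`, so `p ∈ A`; `il_trichot`).
  `a, b` sorted enumerations (`exists_sorted`); `a ++ b` and `s = a ++ (i, ξ) :: b` are sorted.  `J` = indices of `t` and `(i, ξ)`, `h` a realisation.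
  `E x t (kkt i)` means `(val V h t).1 ∈ (κ i).toZFSet`, i.e. `Pc V (.mem 0 1) [shpL (a ++ b) t, (lbKK i, [])] ((a ++ b).map h)`; by `Rlz.iff` it holds `AEl ((a ++ b).map fst)`, so
  (`AEl.append`) `AEl (a.map fst) fun la => AEl (b.map fst) fun lb => (V t.1 (..)).1 ∈ (κ i).toZFSet`.  For such `la`: the value `φ lb` (as a `ZFSet`) is in `V_ (κ i)`, and
  `κ i < κ j` for the types `j` of `b` (`hC.mono`), so by `AEl.const` it is almost constant `= c`, `c ∈ (κ i).toZFSet` (`AEl.exists'`), `c = ν.toZFSet`, `ν < κ i`.  For almost all `μ`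
  (w.r.t. `𝒰 i`): `ν < μ < κ i`; so `AEl ((i, ξ)-part :: b)`: `φ lb ∈ μ.toZFSet`.  Altogether `AEl (s.map fst) (Pc V (.mem 0 1) [shpL s t, (lbCC i, [(i, a.length)])])` (compare the shapes:
  `instL (shpL s t) (la ++ μ :: lb) = instL (shpL (a ++ b) t) (la ++ lb)` for lists of the right lengths, `AEl.mono'`), and `Rlz.ae` gives the claim.
-/

set_option autoImplicit false
set_option linter.unusedVariables false
set_option linter.unusedSectionVars false
set_option linter.unusedSimpArgs false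
set_option linter.deprecated false

universe u v w

open scoped ZFSet Ordinal

namespace Pool.Agent.H82.OC

open Pool.Agent.H17.Omega Pool.Agent.H17.Omega.T8

theorem cx8_Pc {C : Ctx.{u}} (V : ℕ → List (ℕ × Ordinal.{u}) → C.M) (m0 m1 : ℕ × List (ℕ × ℕ))
    (l : List Ordinal.{u}) : Pc V (.mem 0 1) [m0, m1] l ↔
      (V (instL m0 l).1 (instL m0 l).2).1 ∈ (V (instL m1 l).1 (instL m1 l).2).1 := Iff.rfl

theorem cx8_lt {φ : Fml} {C : Ctx.{u}} (hC : C.Good φ) (i : ℕ) : C.κ i < C.δ := by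
  obtain ⟨μ, h1, h2⟩ := hC.bdd
  exact (h2 i).trans h1

theorem cx8_getD_map {α β : Type*} [BEq α] [LawfulBEq α] (s : List α) (h : α → β) (d : β) {p : α}
    (hp : p ∈ s) : (s.map h).getD (s.idxOf p) d = h p := by
  have h1 : s.idxOf p < s.length := List.idxOf_lt_length_iff.2 hp
  rw [List.getD_eq_getElem _ _ (by simpa using h1), List.getElem_map]
  congr 1
  exact List.getElem_idxOf h1

open Classical in
theorem cx8_inst_map (s : List (ℕ × Ordinal.{u})) (h : ℕ × Ordinal.{u} → Ordinal.{u}) (t : Tm.{u})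
    (ht : ∀ q ∈ t.2, q ∈ s) :
    instL (shpL s t) (s.map h) = (t.1, t.2.map fun p => (p.1, h p)) := by
  show (t.1, (t.2.map fun p => (p.1, s.idxOf p)).map fun p => (p.1, (s.map h).getD p.2 0)) = _
  rw [List.map_map]
  congr 1
  refine List.map_congr_left fun p hp => ?_
  show (p.1, (s.map h).getD (s.idxOf p) 0) = (p.1, h p)
  rw [cx8_getD_map s h 0 (ht p hp)]

open Classical in
theorem cx8_inst_eq (a b : List (ℕ × Ordinal.{u})) (r : ℕ × Ordinal.{u}) (t : Tm.{u})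
    (ht : ∀ q ∈ t.2, q ∈ a ∨ (q ∉ a ∧ q ≠ r ∧ q ∈ b)) (la lb : List Ordinal.{u}) (μ : Ordinal.{u})
    (hla : la.length = a.length) :
    instL (shpL (a ++ r :: b) t) (la ++ μ :: lb) = instL (shpL (a ++ b) t) (la ++ lb) := by
  show (t.1, (t.2.map fun p => (p.1, (a ++ r :: b).idxOf p)).map
      fun p => (p.1, (la ++ μ :: lb).getD p.2 0)) =
    (t.1, (t.2.map fun p => (p.1, (a ++ b).idxOf p)).map fun p => (p.1, (la ++ lb).getD p.2 0))
  rw [List.map_map, List.map_map]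
  congr 1
  refine List.map_congr_left fun p hp => ?_
  show (p.1, (la ++ μ :: lb).getD ((a ++ r :: b).idxOf p) 0) =
    (p.1, (la ++ lb).getD ((a ++ b).idxOf p) 0)
  congr 1
  rcases ht p hp with h1 | ⟨h1, h2, h3⟩
  · rw [List.idxOf_append_of_mem h1, List.idxOf_append_of_mem h1]
    have h4 : a.idxOf p < la.length := by
      rw [hla]
      exact List.idxOf_lt_length_iff.2 h1
    rw [List.getD_append _ _ _ _ h4, List.getD_append _ _ _ _ h4]
  · rw [List.idxOf_append_of_notMem h1, List.idxOf_append_of_notMem h1,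
      List.idxOf_cons_ne _ (fun h => h2 h.symm)]
    rw [List.getD_append_right _ _ _ _ (by omega), List.getD_append_right _ _ _ _ (by omega), hla]
    have e1 : a.length + (b.idxOf p).succ - a.length = b.idxOf p + 1 := by omega
    have e2 : a.length + b.idxOf p - a.length = b.idxOf p := by omega
    rw [e1, e2, List.getD_cons_succ]

theorem cx8_mem {φ : Fml} {C : Ctx.{u}} (hC : C.Good φ) {V : ℕ → List (ℕ × Ordinal.{u}) → C.M}
    (hV : ValSpec C V) (i : ℕ) (ξ : Ordinal.{u}) : E (xC C V) (cct i ξ) (kkt i) := by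
  obtain ⟨h, H⟩ := exists_Rlz hC V (J := {(i, ξ)}) (Set.countable_singleton _)
  have h1 : (∀ q ∈ (cct i ξ).2, q ∈ ({(i, ξ)} : Set (ℕ × Ordinal.{u}))) := by
    intro q hq
    simpa [cct] using hq
  have h2 : (∀ q ∈ (kkt.{u} i).2, q ∈ ({(i, ξ)} : Set (ℕ × Ordinal.{u}))) := by
    intro q hq
    simp [kkt] at hq
  rw [E_iff hC.wo H h1 h2]
  have h3 := H.lt (i, ξ) rfl
  have h4 : (val V h (cct i ξ)).1 = (h (i, ξ)).toZFSet := hV.cc i _ (h3.trans (cx8_lt hC i))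
  have h5 : (val V h (kkt i)).1 = (C.κ i).toZFSet := hV.kk i _
  rw [h4, h5]
  exact Ordinal.toZFSet_mem_toZFSet_iff.2 h3

theorem cx8_cclt {φ : Fml} {C : Ctx.{u}} (hC : C.Good φ) {V : ℕ → List (ℕ × Ordinal.{u}) → C.M}
    (hV : ValSpec C V) (i : ℕ) (ξ ξ' : Ordinal.{u}) (hξ : ξ < ξ') :
    E (xC C V) (cct i ξ) (cct i ξ') := by
  obtain ⟨h, H⟩ := exists_Rlz hC V (J := {(i, ξ), (i, ξ')}) (Set.toFinite _).countable
  have h1 : (∀ q ∈ (cct i ξ).2, q ∈ ({(i, ξ), (i, ξ')} : Set (ℕ × Ordinal.{u}))) := by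
    intro q hq
    have : q = (i, ξ) := by simpa [cct] using hq
    exact Or.inl this
  have h2 : (∀ q ∈ (cct i ξ').2, q ∈ ({(i, ξ), (i, ξ')} : Set (ℕ × Ordinal.{u}))) := by
    intro q hq
    have : q = (i, ξ') := by simpa [cct] using hq
    exact Or.inr this
  rw [E_iff hC.wo H h1 h2]
  have hs : [(i, ξ), (i, ξ')].Pairwise (Il C.z) := by
    refine List.pairwise_cons.2 ⟨?_, List.pairwise_singleton _ _⟩
    intro q hq
    rw [List.mem_singleton] at hq
    subst hq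
    exact Or.inr ⟨rfl, hξ⟩
  have hsJ : ∀ q ∈ [(i, ξ), (i, ξ')], q ∈ ({(i, ξ), (i, ξ')} : Set (ℕ × Ordinal.{u})) := by
    intro q hq
    simpa using hq
  have key := H.ae _ hs hsJ (.mem 0 1) [(lbCC i, [(i, 0)]), (lbCC i, [(i, 1)])] (by
    show ∀ᶠ μ in (C.𝒰 i : Filter Ordinal.{u}), ∀ᶠ μ' in (C.𝒰 i : Filter Ordinal.{u}),
      Pc V (.mem 0 1) [(lbCC i, [(i, 0)]), (lbCC i, [(i, 1)])] [μ, μ']
    refine (hC.meas i).lt.mono fun μ hμ => ?_
    refine (((hC.meas i).gt μ hμ).and (hC.meas i).lt).mono fun μ' hμ' => ?_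
    rw [cx8_Pc]
    show (V (lbCC i) [(i, μ)]).1 ∈ (V (lbCC i) [(i, μ')]).1
    rw [hV.cc i _ (hμ.trans (cx8_lt hC i)), hV.cc i _ (hμ'.2.trans (cx8_lt hC i))]
    exact Ordinal.toZFSet_mem_toZFSet_iff.2 hμ'.1)
  exact key

theorem cx8_bdd {φ : Fml} {C : Ctx.{u}} (hC : C.Good φ) {V : ℕ → List (ℕ × Ordinal.{u}) → C.M}
    (hV : ValSpec C V) (i : ℕ) (ξ : Ordinal.{u}) (t : Tm.{u}) (hE : E (xC C V) t (kkt i))
    (ht : ∀ p ∈ t.2, p.1 = i → p.2 < ξ) : E (xC C V) t (cct i ξ) := by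
  classical
  have hwo := hC.wo
  have hfin : {q : ℕ × Ordinal.{u} | q ∈ t.2}.Finite := List.finite_toSet t.2
  obtain ⟨a, ha1, ha2⟩ := exists_sorted hwo
    (S := {q | q ∈ t.2 ∧ Il C.z q (i, ξ)}) (hfin.subset fun q hq => hq.1)
  obtain ⟨b, hb1, hb2⟩ := exists_sorted hwo
    (S := {q | q ∈ t.2 ∧ ¬ Il C.z q (i, ξ)}) (hfin.subset fun q hq => hq.1)
  have hbI : ∀ q ∈ b, Lo C.z i q.1 := by
    intro q hq
    obtain ⟨h1, h2⟩ := (hb2 q).1 hq
    have h3 : q.1 ≠ i := fun h4 => h2 (Or.inr ⟨h4, ht q h1 h4⟩)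
    rcases il_trichot hwo q (i, ξ) with h4 | h4 | h4
    · exact (h2 h4).elim
    · exact (h3 (by rw [h4])).elim
    · rcases h4 with h5 | ⟨h5, _⟩
      · exact h5
      · exact (h3 h5.symm).elim
  have hab : ∀ q ∈ t.2, q ∈ a ∨ (q ∉ a ∧ q ≠ (i, ξ) ∧ q ∈ b) := by
    intro q hq
    by_cases h1 : Il C.z q (i, ξ)
    · exact Or.inl ((ha2 q).2 ⟨hq, h1⟩)
    · refine Or.inr ⟨fun h2 => h1 ((ha2 q).1 h2).2, ?_, (hb2 q).2 ⟨hq, h1⟩⟩
      rintro rfl
      exact lt_irrefl _ (ht _ hq rfl)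
  have hsab : (a ++ b).Pairwise (Il C.z) := by
    refine List.pairwise_append.2 ⟨ha1, hb1, fun p hp q hq => ?_⟩
    exact il_trans hwo ((ha2 p).1 hp).2 (Or.inl (hbI q hq))
  have hss : (a ++ (i, ξ) :: b).Pairwise (Il C.z) := by
    refine List.pairwise_append.2 ⟨ha1, List.pairwise_cons.2 ⟨fun q hq => Or.inl (hbI q hq), hb1⟩,
      fun p hp q hq => ?_⟩
    rcases List.mem_cons.1 hq with rfl | hq
    · exact ((ha2 p).1 hp).2
    · exact il_trans hwo ((ha2 p).1 hp).2 (Or.inl (hbI q hq))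
  obtain ⟨h, H⟩ := exists_Rlz hC V (J := insert (i, ξ) {q : ℕ × Ordinal.{u} | q ∈ t.2})
    ((hfin.insert _).countable)
  have hJ1 : ∀ q ∈ t.2, q ∈ insert (i, ξ) {q : ℕ × Ordinal.{u} | q ∈ t.2} := fun q hq => Or.inr hq
  have hJ2 : (∀ q ∈ (kkt.{u} i).2, q ∈ insert (i, ξ) {q : ℕ × Ordinal.{u} | q ∈ t.2}) := by
    intro q hq
    simp [kkt] at hq
  have hJ3 : (∀ q ∈ (cct i ξ).2, q ∈ insert (i, ξ) {q : ℕ × Ordinal.{u} | q ∈ t.2}) := by
    intro q hq
    have : q = (i, ξ) := by simpa [cct] using hq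
    exact Or.inl this
  have hJab : ∀ q ∈ a ++ b, q ∈ insert (i, ξ) {q : ℕ × Ordinal.{u} | q ∈ t.2} := by
    intro q hq
    rcases List.mem_append.1 hq with h1 | h1
    · exact Or.inr ((ha2 q).1 h1).1
    · exact Or.inr ((hb2 q).1 h1).1
  have hJs : ∀ q ∈ a ++ (i, ξ) :: b, q ∈ insert (i, ξ) {q : ℕ × Ordinal.{u} | q ∈ t.2} := by
    intro q hq
    rcases List.mem_append.1 hq with h1 | h1
    · exact Or.inr ((ha2 q).1 h1).1
    · rcases List.mem_cons.1 h1 with h1 | h1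
      · exact Or.inl h1
      · exact Or.inr ((hb2 q).1 h1).1
  rw [E_iff hwo H hJ1 hJ2] at hE
  rw [E_iff hwo H hJ1 hJ3]
  have htab : ∀ q ∈ t.2, q ∈ a ++ b := by
    intro q hq
    rcases hab q hq with h1 | h1
    · exact List.mem_append_left _ h1
    · exact List.mem_append_right _ h1.2.2
  have hts : ∀ q ∈ t.2, q ∈ a ++ (i, ξ) :: b := by
    intro q hq
    rcases hab q hq with h1 | h1
    · exact List.mem_append_left _ h1
    · exact List.mem_append_right _ (List.mem_cons_of_mem _ h1.2.2)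
  have hP1 : Pc V (.mem 0 1) [shpL (a ++ b) t, (lbKK i, [])] ((a ++ b).map h) := by
    rw [cx8_Pc, cx8_inst_map _ _ _ htab]
    exact hE
  rw [← H.iff hsab hJab] at hP1
  rw [List.map_append, AEl.append] at hP1
  have hP2 : AEl C.𝒰 ((a ++ (i, ξ) :: b).map Prod.fst)
      (Pc V (.mem 0 1) [shpL (a ++ (i, ξ) :: b) t, (lbCC i, [(i, a.length)])]) := by
    rw [List.map_append, AEl.append]
    refine AEl.mono' (fun la hla h1 => ?_) hP1
    rw [List.length_map] at hla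
    rw [List.map_cons]
    show ∀ᶠ μ in (C.𝒰 i : Filter Ordinal.{u}), AEl C.𝒰 (b.map Prod.fst) fun lb =>
      Pc V (.mem 0 1) [shpL (a ++ (i, ξ) :: b) t, (lbCC i, [(i, a.length)])] (la ++ μ :: lb)
    have h2 : AEl C.𝒰 (b.map Prod.fst) fun lb =>
        (V t.1 (instL (shpL (a ++ b) t) (la ++ lb)).2).1 ∈ (C.κ i).toZFSet := by
      refine AEl.mono (fun lb h3 => ?_) h1
      rw [cx8_Pc] at h3
      have h4 : (V (instL (lbKK i, []) (la ++ lb)).1 (instL (lbKK i, []) (la ++ lb)).2).1 =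
        (C.κ i).toZFSet := hV.kk i _
      rw [h4] at h3
      exact h3
    have h3 : AEl C.𝒰 (b.map Prod.fst) fun lb =>
        (V t.1 (instL (shpL (a ++ b) t) (la ++ lb)).2).1 ∈ V_ (C.κ i) := by
      refine AEl.mono (fun lb h4 => ?_) h2
      rw [Ordinal.mem_toZFSet_iff] at h4
      obtain ⟨ν, h5, h6⟩ := h4
      rw [← h6]
      exact StA5.ord_V h5
    obtain ⟨c, hc1, hc2⟩ := AEl.const hC.meas (γ := C.κ i) (by
      intro j hj
      obtain ⟨q, hq, rfl⟩ := List.mem_map.1 hj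
      exact hC.mono _ _ (hbI q hq)) h3
    obtain ⟨lb0, hlb0, h4, h5⟩ := AEl.exists' hC.meas (AEl.and hc2 h2)
    rw [h4, Ordinal.mem_toZFSet_iff] at h5
    obtain ⟨ν, h6, h7⟩ := h5
    refine (((hC.meas i).gt ν h6).and (hC.meas i).lt).mono fun μ hμ => ?_
    refine AEl.mono (fun lb h8 => ?_) hc2
    rw [cx8_Pc, cx8_inst_eq a b (i, ξ) t hab la lb μ hla]
    have h9 : (V (instL (lbCC i, [(i, a.length)]) (la ++ μ :: lb)).1
        (instL (lbCC i, [(i, a.length)]) (la ++ μ :: lb)).2).1 = μ.toZFSet := by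
      have h10 : instL (lbCC i, [(i, a.length)]) (la ++ μ :: lb) = (lbCC i, [(i, μ)]) := by
        show (lbCC i, [(i, (la ++ μ :: lb).getD a.length 0)]) = _
        rw [List.getD_append_right _ _ _ _ (by omega), hla, Nat.sub_self]
        rfl
      rw [h10]
      exact hV.cc i _ (hμ.2.trans (cx8_lt hC i))
    rw [h9]
    show (V t.1 (instL (shpL (a ++ b) t) (la ++ lb)).2).1 ∈ μ.toZFSet
    rw [h8, ← h7]
    exact Ordinal.toZFSet_mem_toZFSet_iff.2 hμ.1
  have hP3 := H.ae _ hss hJs _ _ hP2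
  rw [cx8_Pc, cx8_inst_map _ _ _ hts] at hP3
  have h11 : instL (lbCC i, [(i, a.length)]) ((a ++ (i, ξ) :: b).map h) =
      (lbCC i, [(i, h (i, ξ))]) := by
    show (lbCC i, [(i, ((a ++ (i, ξ) :: b).map h).getD a.length 0)]) = _
    rw [List.map_append, List.getD_append_right _ _ _ _ (by simp), List.length_map, Nat.sub_self]
    rfl
  rw [h11] at hP3
  exact hP3

theorem caxI_xC {φ : Fml} {C : Ctx.{u}} (hC : C.Good φ) {V : ℕ → List (ℕ × Ordinal.{u}) → C.M}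
    (hV : ValSpec C V) : CaxI.{u} (xC C V) :=
  ⟨cx8_mem hC hV, cx8_cclt hC hV, cx8_bdd hC hV⟩

end Pool.Agent.H82.OC
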