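import Pool.Agent.H82.OC.Inv

/-!
# OC-C9: the blueprint satisfies the axiom for limit terms

Let `x = xC C V`, and `i, ξ, t, A, B, r` as in `CaxR`.  `J` = all indices of `t`, `r` and `(i, ξ)`; `h` a realisation.  We show `val V h t = val V h (limt A B t)`; with `E_iff` this
gives the claim (the indices of `limt A B t` are indices of `t`).
`val V h (cct i ξ)` is `(h (i, ξ)).toZFSet`.  Let `a` = sorted enumeration of the indices of `t` in `A` (`exists_sorted`); every element of `a` is `Il`-below `(i, ξ)`, every element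
of `B` is `(i, ξ)` or above it (`il_trichot`), so the types `j` in `B` satisfy `j = i` or `Lo z i j`, hence `κ i ≤ κ j`.  `a ++ B` is sorted and enumerates the indices of `t`.
For lists `la` (length of `a`), `lb` (length of `B`) let `φ la lb = (V t.1 (t.2.map fun p => (p.1, ord p))).1`, `ord p` = the entry of `la ++ lb` at the position of `p` in `a ++ B`
(`= instL (shpL (a ++ B) t) (la ++ lb)`).
Claim: `AEl (a.map fst) fun la => ∃ v, AEl (B.map fst) fun lb => φ la lb = v.1` (`v : C.M`).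
 Case 1: `(i, ξ) ∈ B`: then it is the first element of `B` (sorted): `B = (i, ξ) :: B'`.  The assumption `E x t (cct i ξ)` and `Rlz.iff` for `s = a ++ B`, `χ = .mem 0 1`,
  `ms = [shpL s t, (lbCC i, [(i, a.length)])]` give: `AEl (a.map fst) fun la => ∀ᶠ μ in 𝒰 i, AEl (B'.map fst) fun lb' => φ la (μ :: lb') ∈ μ.toZFSet` (for `μ < κ i`).  For such `la, μ`:
  `μ.toZFSet ⊆ V_ μ`, `μ < κ i ≤ κ j`, so by `AEl.const` `φ la (μ :: lb') = c μ` for almost all `lb'`, `c μ = (ν μ).toZFSet`, `ν μ < μ`.  By `NormalUF.normal` `ν μ = ν` for almost all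
  `μ`.  So `AEl (B.map fst) fun lb => φ la lb = ν.toZFSet`.
 Case 2: `(i, ξ) ∉ B`: `s = a ++ (i, ξ) :: B` is sorted; as above `AEl (a.map fst) fun la => ∀ᶠ μ in 𝒰 i, AEl (B.map fst) fun lb => φ la lb ∈ μ.toZFSet`; take one such `μ < κ i` and apply `AEl.const`.
By the claim and `hV.lim` (`n = t.1`, `bt = B.map fst`, `pat = t.2.map (fun p => if p ∈ A then none else some (p.1, B.idxOf p))`, `l` = the entries of `t` in `A` with the ordinals from
`la`): `fill pat l lb` = the list of `t` with the ordinals from `la ++ lb`, so `AEl (a.map fst) fun la => AEl (B.map fst) fun lb => φ la lb = (V (lbLim ..) l).1 `, i.e.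
`AEl ((a ++ B).map fst) (Pc V (.eq 0 1) [shpL (a ++ B) t, shpL (a ++ B) (limt A B t)])` (`AEl.mono'`).  `Rlz.ae` gives `val V h t = val V h (limt A B t)`.
(The list `B` is given in the statement with `B.idxOf`; `shpL s` also uses `idxOf`; for `p ∈ B`, `p ∉ a`: `(a ++ B).idxOf p = a.length + B.idxOf p`, for `p ∈ a`:
`(a ++ B).idxOf p = a.idxOf p`: `List.idxOf_append`.)
-/

set_option autoImplicit false
set_option linter.unusedVariables false
set_option linter.unusedSectionVars false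
set_option linter.unusedSimpArgs false
set_option linter.deprecated false

universe u v w

open scoped ZFSet Ordinal

namespace Pool.Agent.H82.OC

open Pool.Agent.H17.Omega Pool.Agent.H17.Omega.T8

section caxr_aux

theorem cr_inst {s : List (ℕ × Ordinal.{u})} {h : ℕ × Ordinal.{u} → Ordinal.{u}} {t : Tm.{u}}
    (ht : ∀ q ∈ t.2, q ∈ s) :
    instL (shpL s t) (s.map h) = (t.1, t.2.map fun p => (p.1, h p)) := by
  unfold instL shpL
  refine Prod.ext rfl ?_
  show (t.2.map _).map _ = t.2.map _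
  rw [List.map_map]
  refine List.map_congr_left fun p hp => ?_
  have hps : p ∈ s := ht p hp
  refine Prod.ext rfl ?_
  show (s.map h).getD (s.idxOf p) 0 = h p
  have hlt : s.idxOf p < s.length := List.idxOf_lt_length_iff.2 hps
  rw [List.getD_eq_getElem?_getD, List.getElem?_map, List.getElem?_eq_getElem hlt,
    List.getElem_idxOf hlt]
  rfl

theorem cr_getD_left {a B : List (ℕ × Ordinal.{u})} {p : ℕ × Ordinal.{u}} (hp : p ∈ a)
    {la lb : List Ordinal.{u}} (hla : la.length = a.length) :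
    (la ++ lb).getD ((a ++ B).idxOf p) 0 = la.getD (a.idxOf p) 0 := by
  have hlt : a.idxOf p < a.length := List.idxOf_lt_length_iff.2 hp
  rw [List.idxOf_append_of_mem hp]
  exact List.getD_append _ _ _ _ (by rw [hla]; exact hlt)

theorem cr_getD_right {a B : List (ℕ × Ordinal.{u})} {p : ℕ × Ordinal.{u}} (hp : p ∉ a)
    {la lb : List Ordinal.{u}} (hla : la.length = a.length) :
    (la ++ lb).getD ((a ++ B).idxOf p) 0 = lb.getD (B.idxOf p) 0 := by
  rw [List.idxOf_append_of_notMem hp]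
  rw [List.getD_append_right _ _ _ _ (by rw [hla]; omega)]
  congr 1
  rw [hla]
  omega

theorem cr_fill {A : Set (ℕ × Ordinal.{u})} {a B : List (ℕ × Ordinal.{u})}
    {la lb : List Ordinal.{u}} (hla : la.length = a.length) (l : List (ℕ × Ordinal.{u}))
    (ha : ∀ p ∈ l, (p ∈ a ↔ p ∈ A)) :
    fill (l.map (open Classical in fun p => if p ∈ A then none else some (p.1, B.idxOf p)))
      ((l.filter (open Classical in fun p => p ∈ A)).map fun p => (p.1, la.getD (a.idxOf p) 0))
        lb =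
    l.map fun p => (p.1, (la ++ lb).getD ((a ++ B).idxOf p) 0) := by
  classical
  induction l with
  | nil => rfl
  | cons p l ih =>
    have ih' := ih fun q hq => ha q (List.mem_cons_of_mem _ hq)
    have hpa := ha p List.mem_cons_self
    by_cases hp : p ∈ A
    · rw [List.map_cons, List.map_cons, List.filter_cons_of_pos (by simpa using hp),
        List.map_cons, if_pos hp]
      show (p.1, la.getD (a.idxOf p) 0) :: fill _ _ _ = _
      rw [ih', cr_getD_left (hpa.2 hp) hla]
    · rw [List.map_cons, List.map_cons, List.filter_cons_of_neg (by simpa using hp), if_neg hp]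
      show (p.1, lb.getD (B.idxOf p) 0) :: fill _ _ _ = _
      rw [ih', cr_getD_right (fun h => hp (hpa.1 h)) hla]

variable {C : Ctx.{u}} {V : ℕ → List (ℕ × Ordinal.{u}) → C.M}

/-- The claim that the value is independent of the upper indices. -/
theorem cr_claim {φ : Fml} (hC : C.Good φ) (hV : ValSpec C V) {J : Set (ℕ × Ordinal.{u})}
    {h : ℕ × Ordinal.{u} → Ordinal.{u}} (H : Rlz C V J h) {i : ℕ} {ξ : Ordinal.{u}}
    {t : Tm.{u}} {a B : List (ℕ × Ordinal.{u})} (htJ : ∀ q ∈ t.2, q ∈ J) (hiJ : (i, ξ) ∈ J)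
    (ha : ∀ q ∈ a, q ∈ t.2 ∧ Il C.z q (i, ξ)) (hB : ∀ q ∈ B, q ∈ t.2 ∧ ¬ Il C.z q (i, ξ))
    (haB : ∀ q ∈ t.2, q ∈ a ∨ q ∈ B) (has : a.Pairwise (Il C.z)) (hBs : B.Pairwise (Il C.z))
    (hE : (val V h t).1 ∈ (val V h (cct i ξ)).1) :
    AEl C.𝒰 (a.map Prod.fst) fun la => ∃ v : C.M, AEl C.𝒰 (B.map Prod.fst) fun lb =>
      V t.1 (instL (shpL (a ++ B) t) (la ++ lb)).2 = v := by
  classical
  have hz := hC.wo
  -- the common part
  have main : ∀ B' : List (ℕ × Ordinal.{u}), ((i, ξ) :: B').Pairwise (Il C.z) →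
      (∀ q ∈ B', q ∈ t.2) → (∀ q ∈ t.2, q ∈ a ++ (i, ξ) :: B') →
      (∀ q ∈ B', C.κ i ≤ C.κ q.1) ∧
      AEl C.𝒰 (a.map Prod.fst) fun la => ∀ᶠ μ in (C.𝒰 i : Filter Ordinal.{u}), μ < C.κ i ∧
        AEl C.𝒰 (B'.map Prod.fst) fun lb =>
          (V t.1 (instL (shpL (a ++ (i, ξ) :: B') t) (la ++ μ :: lb)).2).1 ∈ μ.toZFSet := by
    intro B' hs1 hB' ht
    refine ⟨?_, ?_⟩
    · intro q hq
      have h1 : Il C.z (i, ξ) q := (List.pairwise_cons.1 hs1).1 q hq
      rcases h1 with h1 | ⟨h1, _⟩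
      · exact (hC.mono _ _ h1).le
      · exact le_of_eq (congrArg C.κ h1)
    · have hsort : (a ++ (i, ξ) :: B').Pairwise (Il C.z) := by
        rw [List.pairwise_append]
        refine ⟨has, hs1, ?_⟩
        intro p hp q hq
        rcases List.mem_cons.1 hq with rfl | hq
        · exact (ha p hp).2
        · exact il_trans hz (ha p hp).2 ((List.pairwise_cons.1 hs1).1 q hq)
      have hsJ : ∀ q ∈ a ++ (i, ξ) :: B', q ∈ J := by
        intro q hq
        rcases List.mem_append.1 hq with hq | hq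
        · exact htJ q (ha q hq).1
        · rcases List.mem_cons.1 hq with rfl | hq
          · exact hiJ
          · exact htJ q (hB' q hq)
      have h1 : Pc V (.mem 0 1) [shpL (a ++ (i, ξ) :: B') t, shpL (a ++ (i, ξ) :: B') (cct i ξ)]
          ((a ++ (i, ξ) :: B').map h) := by
        show (V (instL (shpL (a ++ (i, ξ) :: B') t) ((a ++ (i, ξ) :: B').map h)).1
          (instL (shpL (a ++ (i, ξ) :: B') t) ((a ++ (i, ξ) :: B').map h)).2).1 ∈
          (V (instL (shpL (a ++ (i, ξ) :: B') (cct i ξ)) ((a ++ (i, ξ) :: B').map h)).1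
          (instL (shpL (a ++ (i, ξ) :: B') (cct i ξ)) ((a ++ (i, ξ) :: B').map h)).2).1
        rw [cr_inst ht, cr_inst (t := cct i ξ) (by
          intro q hq
          have hq' : q = (i, ξ) := by simpa [cct] using hq
          rw [hq']
          exact List.mem_append_right _ List.mem_cons_self)]
        exact hE
      rw [← H.iff hsort hsJ] at h1
      rw [List.map_append, List.map_cons] at h1
      have h2 := AEl.append.1 h1
      refine AEl.mono' (fun la hla h3 => ?_) h2
      have hla' : la.length = a.length := by rw [hla, List.length_map]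
      have h3' : ∀ᶠ μ in (C.𝒰 i : Filter Ordinal.{u}), AEl C.𝒰 (B'.map Prod.fst) fun lb =>
        Pc V (.mem 0 1) [shpL (a ++ (i, ξ) :: B') t, shpL (a ++ (i, ξ) :: B') (cct i ξ)]
          (la ++ μ :: lb) := h3
      refine (h3'.and (hC.meas i).lt).mono fun μ hμ => ⟨hμ.2, ?_⟩
      refine AEl.mono (fun lb h4 => ?_) hμ.1
      have h5 : (V (instL (shpL (a ++ (i, ξ) :: B') t) (la ++ μ :: lb)).1
          (instL (shpL (a ++ (i, ξ) :: B') t) (la ++ μ :: lb)).2).1 ∈
          (V (instL (shpL (a ++ (i, ξ) :: B') (cct i ξ)) (la ++ μ :: lb)).1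
          (instL (shpL (a ++ (i, ξ) :: B') (cct i ξ)) (la ++ μ :: lb)).2).1 := h4
      have hia : (i, ξ) ∉ a := fun hh => il_irrefl hz _ (ha _ hh).2
      have e1 : instL (shpL (a ++ (i, ξ) :: B') (cct i ξ)) (la ++ μ :: lb) =
          (lbCC i, [(i, μ)]) := by
        show (lbCC i, [(i, (la ++ μ :: lb).getD ((a ++ (i, ξ) :: B').idxOf (i, ξ)) 0)]) = _
        rw [cr_getD_right hia hla', List.idxOf_cons_self]
        rfl
      rw [e1] at h5
      obtain ⟨μ', h6, h7⟩ := hC.bdd
      rw [hV.cc i μ (hμ.2.trans ((h7 i).trans h6))] at h5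
      exact h5
  have hVm : ∀ μ : Ordinal.{u}, ∀ y ∈ μ.toZFSet, y ∈ V_ μ := by
    intro μ y hy
    obtain ⟨ν, hν, rfl⟩ := Ordinal.mem_toZFSet_iff.1 hy
    rw [ZFSet.mem_vonNeumann]
    rw [Ordinal.rank_toZFSet]
    exact hν
  by_cases hi : (i, ξ) ∈ B
  · -- case 1
    obtain ⟨B', rfl⟩ : ∃ B', B = (i, ξ) :: B' := by
      rcases B with _ | ⟨b, B'⟩
      · exact absurd hi List.not_mem_nil
      · rcases List.mem_cons.1 hi with h1 | h1
        · exact ⟨B', by rw [h1]⟩
        · exact absurd ((List.pairwise_cons.1 hBs).1 _ h1) (hB b List.mem_cons_self).2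
    obtain ⟨h1, h2⟩ := main B' hBs (fun q hq => (hB q (List.mem_cons_of_mem _ hq)).1)
      (fun q hq => List.mem_append.2 (haB q hq))
    refine AEl.mono (fun la h3 => ?_) h2
    have h4 : ∀ᶠ μ in (C.𝒰 i : Filter Ordinal.{u}), ∃ ν : Ordinal.{u}, ν < μ ∧
        AEl C.𝒰 (B'.map Prod.fst) fun lb =>
          (V t.1 (instL (shpL (a ++ (i, ξ) :: B') t) (la ++ μ :: lb)).2).1 = ν.toZFSet := by
      refine h3.mono fun μ hμ => ?_
      obtain ⟨h5, h6⟩ := hμ
      obtain ⟨c, hc, h7⟩ := AEl.const (κ := C.κ) hC.meas (γ := μ) (fun j hj => by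
        obtain ⟨q, hq, rfl⟩ := List.mem_map.1 hj
        exact h5.trans_le (h1 q hq)) (AEl.mono (fun lb h8 => hVm μ _ h8) h6)
      obtain ⟨lb, _, h8, h9⟩ := AEl.exists' (κ := C.κ) hC.meas (h6.and h7)
      rw [h9] at h8
      obtain ⟨ν, h10, rfl⟩ := Ordinal.mem_toZFSet_iff.1 h8
      exact ⟨ν, h10, h7⟩
    have hf : ∀ μ : Ordinal.{u}, ∃ ν : Ordinal.{u}, (∃ ν : Ordinal.{u}, ν < μ ∧
        AEl C.𝒰 (B'.map Prod.fst) fun lb =>
          (V t.1 (instL (shpL (a ++ (i, ξ) :: B') t) (la ++ μ :: lb)).2).1 = ν.toZFSet) →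
        ν < μ ∧ AEl C.𝒰 (B'.map Prod.fst) fun lb =>
          (V t.1 (instL (shpL (a ++ (i, ξ) :: B') t) (la ++ μ :: lb)).2).1 = ν.toZFSet := by
      intro μ
      by_cases hh : ∃ ν : Ordinal.{u}, ν < μ ∧
        AEl C.𝒰 (B'.map Prod.fst) fun lb =>
          (V t.1 (instL (shpL (a ++ (i, ξ) :: B') t) (la ++ μ :: lb)).2).1 = ν.toZFSet
      · obtain ⟨ν, hν⟩ := hh
        exact ⟨ν, fun _ => hν⟩
      · exact ⟨0, fun h => absurd h hh⟩
    choose f hf using hf
    have h5 := h4.mono fun μ hμ => hf μ hμ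
    obtain ⟨c, hc⟩ := (hC.meas i).normal f (h5.mono fun μ hμ => hμ.1)
    have h6 : AEl C.𝒰 (((i, ξ) :: B').map Prod.fst) fun lb =>
        (V t.1 (instL (shpL (a ++ (i, ξ) :: B') t) (la ++ lb)).2).1 = c.toZFSet := by
      show ∀ᶠ μ in (C.𝒰 i : Filter Ordinal.{u}), AEl C.𝒰 (B'.map Prod.fst) fun lb =>
        (V t.1 (instL (shpL (a ++ (i, ξ) :: B') t) (la ++ μ :: lb)).2).1 = c.toZFSet
      refine (h5.and hc).mono fun μ hμ => ?_
      rw [← hμ.2]
      exact hμ.1.2
    obtain ⟨lb0, _, h7⟩ := AEl.exists' (κ := C.κ) hC.meas h6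
    refine ⟨V t.1 (instL (shpL (a ++ (i, ξ) :: B') t) (la ++ lb0)).2, ?_⟩
    refine AEl.mono (fun lb h8 => Subtype.ext ?_) h6
    rw [h8, h7]
  · -- case 2
    have hia : (i, ξ) ∉ a := fun hh => il_irrefl hz _ (ha _ hh).2
    have hit : (i, ξ) ∉ t.2 := fun hh => (haB _ hh).elim hia hi
    have hs1 : ((i, ξ) :: B).Pairwise (Il C.z) := by
      rw [List.pairwise_cons]
      refine ⟨fun q hq => ?_, hBs⟩
      rcases il_trichot hz q (i, ξ) with h1 | h1 | h1
      · exact absurd h1 (hB q hq).2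
      · exact absurd (h1 ▸ hq) hi
      · exact h1
    obtain ⟨h1, h2⟩ := main B hs1 (fun q hq => (hB q hq).1) (fun q hq => by
      rcases haB q hq with h | h
      · exact List.mem_append_left _ h
      · exact List.mem_append_right _ (List.mem_cons_of_mem _ h))
    refine AEl.mono' (fun la hla h3 => ?_) h2
    have hla' : la.length = a.length := by rw [hla, List.length_map]
    obtain ⟨μ, h4, h5⟩ := h3.exists
    have e1 : ∀ lb : List Ordinal.{u}, instL (shpL (a ++ (i, ξ) :: B) t) (la ++ μ :: lb) =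
        instL (shpL (a ++ B) t) (la ++ lb) := by
      intro lb
      unfold instL shpL
      refine Prod.ext rfl ?_
      show (t.2.map _).map _ = (t.2.map _).map _
      rw [List.map_map, List.map_map]
      refine List.map_congr_left fun p hp => ?_
      refine Prod.ext rfl ?_
      show (la ++ μ :: lb).getD ((a ++ (i, ξ) :: B).idxOf p) 0 =
        (la ++ lb).getD ((a ++ B).idxOf p) 0
      by_cases hpa : p ∈ a
      · rw [cr_getD_left hpa hla', cr_getD_left hpa hla']
      · rw [cr_getD_right hpa hla', cr_getD_right hpa hla']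
        have hne : (i, ξ) ≠ p := fun hh => hit (hh ▸ hp)
        rw [List.idxOf_cons_ne _ hne]
        rfl
    have h6 : AEl C.𝒰 (B.map Prod.fst) fun lb =>
        (V t.1 (instL (shpL (a ++ B) t) (la ++ lb)).2).1 ∈ V_ μ :=
      AEl.mono (fun lb h7 => by
        rw [e1] at h7
        exact hVm μ _ h7) h5
    obtain ⟨c, hc, h7⟩ := AEl.const (κ := C.κ) hC.meas (γ := μ) (fun j hj => by
      obtain ⟨q, hq, rfl⟩ := List.mem_map.1 hj
      exact h4.trans_le (h1 q hq)) h6
    obtain ⟨lb0, _, h8⟩ := AEl.exists' (κ := C.κ) hC.meas h7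
    refine ⟨V t.1 (instL (shpL (a ++ B) t) (la ++ lb0)).2, ?_⟩
    refine AEl.mono (fun lb h9 => Subtype.ext ?_) h7
    rw [h9, h8]

end caxr_aux

theorem caxR_xC {φ : Fml} {C : Ctx.{u}} (hC : C.Good φ) {V : ℕ → List (ℕ × Ordinal.{u}) → C.M}
    (hV : ValSpec C V) : CaxR.{u} C.z (xC C V) := by
  classical
  intro i ξ t A B hA hBs hB hE r
  have hz := hC.wo
  let J : Set (ℕ × Ordinal.{u}) := {p | p ∈ t.2 ++ r.2 ++ [(i, ξ)]}
  have hJ : J.Countable := (List.finite_toSet _).countable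
  obtain ⟨h, H⟩ := exists_Rlz hC V hJ
  have htJ : ∀ q ∈ t.2, q ∈ J := fun q hq =>
    List.mem_append_left _ (List.mem_append_left _ hq)
  have hrJ : ∀ q ∈ r.2, q ∈ J := fun q hq =>
    List.mem_append_left _ (List.mem_append_right _ hq)
  have hiJ : (i, ξ) ∈ J := List.mem_append_right _ List.mem_cons_self
  have hlJ : ∀ q ∈ (limt A B t).2, q ∈ J := fun q hq => htJ q (List.mem_of_mem_filter hq)
  have hE' : (val V h t).1 ∈ (val V h (cct i ξ)).1 :=
    (E_iff hz H htJ (fun q hq => by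
      have hq' : q = (i, ξ) := by simpa [cct] using hq
      rw [hq']
      exact hiJ)).1 hE
  obtain ⟨a, has, ha⟩ := exists_sorted hz (S := {q | q ∈ t.2 ∧ q ∈ A})
    ((List.finite_toSet t.2).subset fun q hq => hq.1)
  have ha1 : ∀ q ∈ a, q ∈ t.2 ∧ Il C.z q (i, ξ) := fun q hq =>
    ⟨((ha q).1 hq).1, (hA q ((ha q).1 hq).1).1 ((ha q).1 hq).2⟩
  have hB1 : ∀ q ∈ B, q ∈ t.2 ∧ ¬ Il C.z q (i, ξ) := fun q hq =>
    ⟨((hB q).1 hq).1, fun hh => ((hB q).1 hq).2 ((hA q ((hB q).1 hq).1).2 hh)⟩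
  have haB : ∀ q ∈ t.2, q ∈ a ∨ q ∈ B := fun q hq => by
    by_cases h1 : q ∈ A
    · exact Or.inl ((ha q).2 ⟨hq, h1⟩)
    · exact Or.inr ((hB q).2 ⟨hq, h1⟩)
  have hsort : (a ++ B).Pairwise (Il C.z) := by
    rw [List.pairwise_append]
    refine ⟨has, hBs, ?_⟩
    intro p hp q hq
    rcases il_trichot hz q (i, ξ) with h1 | h1 | h1
    · exact absurd h1 (hB1 q hq).2
    · rw [h1]
      exact (ha1 p hp).2
    · exact il_trans hz (ha1 p hp).2 h1
  have hsJ : ∀ q ∈ a ++ B, q ∈ J := by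
    intro q hq
    rcases List.mem_append.1 hq with hq | hq
    · exact htJ q (ha1 q hq).1
    · exact htJ q (hB1 q hq).1
  have hcl := cr_claim hC hV H htJ hiJ ha1 hB1 haB has hBs hE'
  have hae : AEl C.𝒰 ((a ++ B).map Prod.fst)
      (Pc V (.eq 0 1) [shpL (a ++ B) t, shpL (a ++ B) (limt A B t)]) := by
    rw [List.map_append, AEl.append]
    refine AEl.mono' (fun la hla h1 => ?_) hcl
    have hla' : la.length = a.length := by rw [hla, List.length_map]
    obtain ⟨v, hv⟩ := h1
    have h2 : V (limt A B t).1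
        ((t.2.filter (fun p => p ∈ A)).map fun p => (p.1, la.getD (a.idxOf p) 0)) = v := by
      refine hV.lim _ _ _ _ _ ?_
      refine AEl.mono (fun lb h3 => ?_) hv
      rw [cr_fill hla' t.2 (fun p hp => by
        rw [ha p]
        exact ⟨fun h => h.2, fun h => ⟨hp, h⟩⟩)]
      have e1 : (instL (shpL (a ++ B) t) (la ++ lb)).2 =
          t.2.map fun p => (p.1, (la ++ lb).getD ((a ++ B).idxOf p) 0) := by
        unfold instL shpL
        show (t.2.map _).map _ = t.2.map _
        rw [List.map_map]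
        rfl
      rw [e1] at h3
      exact h3
    refine AEl.mono (fun lb h3 => ?_) hv
    show V t.1 (instL (shpL (a ++ B) t) (la ++ lb)).2 =
      V (limt A B t).1 (instL (shpL (a ++ B) (limt A B t)) (la ++ lb)).2
    rw [h3, ← h2]
    congr 1
    unfold instL shpL
    show _ = ((t.2.filter fun p => p ∈ A).map _).map _
    rw [List.map_map]
    refine List.map_congr_left fun p hp => ?_
    refine Prod.ext rfl ?_
    show la.getD (a.idxOf p) 0 = (la ++ lb).getD ((a ++ B).idxOf p) 0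
    rw [cr_getD_left _ hla']
    rw [ha p]
    exact ⟨List.mem_of_mem_filter hp, by simpa using List.of_mem_filter hp⟩
  have h1 := H.ae (a ++ B) hsort hsJ _ _ hae
  have h2 : V (instL (shpL (a ++ B) t) ((a ++ B).map h)).1
      (instL (shpL (a ++ B) t) ((a ++ B).map h)).2 =
    V (instL (shpL (a ++ B) (limt A B t)) ((a ++ B).map h)).1
      (instL (shpL (a ++ B) (limt A B t)) ((a ++ B).map h)).2 := h1
  rw [cr_inst (fun q hq => List.mem_append.2 (haB q hq)),
    cr_inst (t := limt A B t) (fun q hq => List.mem_append.2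
      (haB q (List.mem_of_mem_filter hq)))] at h2
  have hval : val V h t = val V h (limt A B t) := h2
  rw [E_iff hz H hrJ htJ, E_iff hz H hrJ hlJ, hval]

end Pool.Agent.H82.OC
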