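import Pool.Agent.H82.OC.Defs

/-!
# OC-A1: elementary embeddings `j : V → M` and `Δ₀` predicates

Library: `Pool.Agent.H17.Omega` (`Fml`, `Sat`, `Fml.Delta0`, `D0` = `Δ₀` predicates with closure
lemmas `D0.mem`, `D0.and`, `D0.ballZ`, `D0.bexZ`, `D0.isPair`, `D0.pairMem`, ...; examples of use:
`D0.isPair` in `H17/Omega/D0.lean`).

Status: complete (proofs by helper26).

Proofs.

* `delta0_abs`: induction on `Fml.Delta0`.  In the case of a bounded quantifier a witness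
  `x ∈ f j` is in `M` by transitivity (`f j ∈ M`); use `upd`, `upd_comp` (Base.lean) to commute the
  coercion `M → V` with `upd`.
* `d0`: take `θ` from `D0 P`; extend `v : Fin n → V` by `∅` to `f : ℕ → V`.
  `P v ↔ Sat_V θ f ↔ Sat_M θ (j ∘ f)` (`h.elem`) `↔ Sat_V θ (j ∘ f)` (`delta0_abs`) `↔ P (j ∘ v)`.
* `mem_iff`, `inj`, `sub_iff`, `pair_eq`, `empty`, `app_iff`: special cases of `d0` (with
  `v = ![x, y]` etc.; e.g. for `pair_eq` apply `d0` to the predicate `v 2 = pair (v 0) (v 1)` at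
  `![x, y, pair x y]`).  For `insert`: `z = insert x y ↔ x ∈ z ∧ y ⊆ z ∧ ∀ t ∈ z, t = x ∨ t ∈ y`.
* `natZ_eq`: induction (`natZ 0 = ∅`, `natZ (n+1) = insert (natZ n) (natZ n)`).
* `omZ_eq`: `natZ n = j (natZ n) ∈ j omZ`.  Conversely the `Δ₀` statement
  `∀ x ∈ omZ, x = ∅ ∨ ∃ y ∈ omZ, x = insert y y` transfers to `j omZ`, and `∈`-induction shows that
  all elements of `j omZ` are numerals.
* `countable_image`: `X` countable: if `X = ∅` trivial.  Otherwise `X = {e n : n}`, let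
  `g = {pair (natZ n) (e n)}` (a `ZFSet.range`).  `Δ₀` statements
  `∀ x ∈ X ∃ n ∈ omZ, pair n x ∈ g`  and, for each `n`, `App g (natZ n) (e n)`.  Transfer: for
  `y ∈ j X` there is `m ∈ j omZ = omZ`, `m = natZ n`, `pair (natZ n) y ∈ j g`, and
  `App (j g) (natZ n) (j (e n))`, so `y = j (e n)`.
* `fix`: let `κ` be such that `j α.toZFSet = α.toZFSet` for all `α < κ`.  Claim: for `α < κ`:
  `j x = x` for all `x ⊆ V_ α`, and `j (V_ α) = V_ α`.  Induction on `α`.  Assume the claim below `α`.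
  (i) `j x = x` for all `x ∈ V_ α`, since `x ⊆ V_ β` for some `β < α` (`ZFSet.mem_vonNeumann'`).
  (ii) `j (V_ α) = V_ α`: `⊇` by (i).  `⊆`: let `g = {pair β (V_ β) : β < α}` (a `ZFSet`;
  `β` coded by `β.toZFSet`).  `Δ₀` statement:
  `∀ z ∈ V_ α, ∃ b ∈ α.toZFSet, ∃ p ∈ g, ∃ q ∈ p, ∃ V' ∈ q, p = pair b V' ∧ z ⊆ V'`
  (note `V' ∈ {b, V'} ∈ pair b V'`).
  Transfer: `z ∈ j (V_ α)`, `b ∈ j α.toZFSet = α.toZFSet`, `b = β.toZFSet`, `pair b V' ∈ j g`; since
  `App g β.toZFSet (V_ β)` transfers to `App (j g) β.toZFSet (j (V_ β))` and `j (V_ β) = V_ β`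
  by induction, `V' = V_ β`, so `z ⊆ V_ β`, `z ∈ V_ α`.
  (iii) `x ⊆ V_ α`: `j x ⊆ j (V_ α) = V_ α` (`sub_iff`); `z ∈ j x` implies `z ∈ V_ α`, `j z = z` by (i), so
  `j z ∈ j x`, `z ∈ x`; conversely `z ∈ x` gives `z = j z ∈ j x`.
  Finally `x ∈ V_ κ` is a subset of some `V_ α`, `α < κ`.
* `omega_lt`: if `κ ≤ ω` then `κ.toZFSet` is a numeral or `omZ` (`natZ_eq`: `natZ n = (n).toZFSet`,
  CtmD.lean), so `j κ.toZFSet = κ.toZFSet` contradicts `κ.toZFSet ∈ j κ.toZFSet` (`ZFSet.mem_irrefl`).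
-/

set_option autoImplicit false
set_option linter.unusedVariables false
set_option linter.unusedSectionVars false
set_option linter.unusedSimpArgs false
set_option linter.deprecated false

universe u v w

open scoped ZFSet

namespace Pool.Agent.H82.OC

open Pool.Agent.H17.Omega

theorem delta0_abs {M : Set ZFSet.{u}} (hM : ∀ x ∈ M, ∀ y ∈ x, y ∈ M) {φ : Fml} (hφ : φ.Delta0)
    (f : ℕ → M) : Sat (fun a b : M => a.1 ∈ b.1) φ f ↔
      Sat (fun a b : ZFSet.{u} => a ∈ b) φ (fun n => (f n).1) := by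
  induction hφ generalizing f with
  | mem i j => exact Iff.rfl
  | eq i j => exact Subtype.ext_iff
  | bot => exact Iff.rfl
  | imp _ _ ih1 ih2 => exact imp_congr (ih1 f) (ih2 f)
  | and _ _ ih1 ih2 => exact and_congr (ih1 f) (ih2 f)
  | or _ _ ih1 ih2 => exact or_congr (ih1 f) (ih2 f)
  | ball k j hkj _ ih =>
    have hc : ∀ x : M, (fun n => (upd f k x n).1) = upd (fun n => (f n).1) k x.1 :=
      fun x => upd_comp _ f k x
    constructor
    · intro h x hx
      have hx' : x ∈ (f j).1 := by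
        have h0 : upd (fun n => (f n).1) k x k ∈ upd (fun n => (f n).1) k x j := hx
        rwa [upd_same, upd_ne _ _ hkj.symm] at h0
      have hxM : x ∈ M := hM _ (f j).2 x hx'
      have h1 := h ⟨x, hxM⟩ (by
        show (upd f k ⟨x, hxM⟩ k).1 ∈ (upd f k ⟨x, hxM⟩ j).1
        rw [upd_same, upd_ne _ _ hkj.symm]; exact hx')
      rw [ih, hc] at h1
      exact h1
    · intro h x hx
      rw [ih, hc]
      refine h x.1 ?_
      show upd (fun n => (f n).1) k x.1 k ∈ upd (fun n => (f n).1) k x.1 j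
      rw [upd_same, upd_ne _ _ hkj.symm]
      have h0 : (upd f k x k).1 ∈ (upd f k x j).1 := hx
      rwa [upd_same, upd_ne _ _ hkj.symm] at h0
  | bex k j hkj _ ih =>
    have hc : ∀ x : M, (fun n => (upd f k x n).1) = upd (fun n => (f n).1) k x.1 :=
      fun x => upd_comp _ f k x
    constructor
    · rintro ⟨x, hx, h⟩
      rw [ih, hc] at h
      refine ⟨x.1, ?_, h⟩
      show upd (fun n => (f n).1) k x.1 k ∈ upd (fun n => (f n).1) k x.1 j
      rw [upd_same, upd_ne _ _ hkj.symm]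
      have h0 : (upd f k x k).1 ∈ (upd f k x j).1 := hx
      rwa [upd_same, upd_ne _ _ hkj.symm] at h0
    · rintro ⟨x, hx, h⟩
      have hx' : x ∈ (f j).1 := by
        have h0 : upd (fun n => (f n).1) k x k ∈ upd (fun n => (f n).1) k x j := hx
        rwa [upd_same, upd_ne _ _ hkj.symm] at h0
      have hxM : x ∈ M := hM _ (f j).2 x hx'
      refine ⟨⟨x, hxM⟩, ?_, ?_⟩
      · show (upd f k ⟨x, hxM⟩ k).1 ∈ (upd f k ⟨x, hxM⟩ j).1
        rw [upd_same, upd_ne _ _ hkj.symm]; exact hx'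
      · rw [ih, hc]
        exact h

theorem emb_D0_insert {n : ℕ} {r s t : (Fin n → ZFSet.{u}) → ZFSet.{u}} (hr : D0T r) (hs : D0T s)
    (ht : D0T t) : D0 (fun v => r v = insert (s v) (t v)) := by
  refine (((D0.mem hs hr).and (D0.subset ht hr)).and
    (D0.ballZ (p := fun v z => z = s v ∨ z ∈ t v) hr
      ((D0.eqv D0T.last hs.lift).or (D0.mem D0T.last ht.lift)))).congr fun v => ?_
  constructor
  · rintro ⟨⟨h1, h2⟩, h3⟩
    ext z
    rw [ZFSet.mem_insert_iff]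
    constructor
    · exact h3 z
    · rintro (rfl | h)
      · exact h1
      · exact h2 h
  · intro h
    rw [h]
    exact ⟨⟨ZFSet.mem_insert _ _, fun z hz => ZFSet.mem_insert_of_mem _ hz⟩,
      fun z hz => ZFSet.mem_insert_iff.1 hz⟩

theorem emb_mem_pair_right (a b : ZFSet.{u}) : ({a, b} : ZFSet.{u}) ∈ ZFSet.pair a b := by
  rw [ZFSet.pair, ZFSet.mem_pair]; exact Or.inr rfl

theorem emb_D0_app {n : ℕ} {g s t : (Fin n → ZFSet.{u}) → ZFSet.{u}} (hg : D0T g) (hs : D0T s)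
    (ht : D0T t) : D0 (fun v => App (g v) (s v) (t v)) := by
  refine ((D0.pairMem hs ht hg).and
    (D0.ballZ (p := fun v p => ∀ q ∈ p, ∀ v' ∈ q, p = ZFSet.pair (s v) v' → v' = t v) hg
      (D0.ballZ (p := fun v q => ∀ v' ∈ q, v (Fin.last n) =
          ZFSet.pair (s (fun i => v i.castSucc)) v' → v' = t (fun i => v i.castSucc)) D0T.last
        (D0.ballZ (p := fun v v' => v (Fin.last n).castSucc =
          ZFSet.pair (s (fun i => v i.castSucc.castSucc)) v' →
            v' = t (fun i => v i.castSucc.castSucc)) D0T.last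
          ((D0.isPair (D0T.var _) hs.lift.lift.lift D0T.last).imp
            (D0.eqv D0T.last ht.lift.lift.lift)))))).congr fun v => ?_
  constructor
  · rintro ⟨h1, h2⟩
    refine ⟨h1, fun v' hv' => ?_⟩
    exact h2 _ hv' _ (emb_mem_pair_right _ _) v' (by rw [ZFSet.mem_pair]; exact Or.inr rfl) rfl
  · rintro ⟨h1, h2⟩
    refine ⟨h1, fun p hp q hq v' hv' e => ?_⟩
    rw [e] at hp
    exact h2 v' hp

namespace ElemEmb

variable {M : Set ZFSet.{u}} {j : ZFSet.{u} → ZFSet.{u}} (h : ElemEmb M j)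

include h

theorem d0 {n : ℕ} {P : (Fin n → ZFSet.{u}) → Prop} (hP : D0 P) (v : Fin n → ZFSet.{u}) :
    P v ↔ P (fun i => j (v i)) := by
  obtain ⟨θ, h1, h2, h3⟩ := hP
  let f : ℕ → ZFSet.{u} := fun k => if hk : k < n then v ⟨k, hk⟩ else ∅
  have e1 : (fun i : Fin n => f i) = v := by
    funext i; simp [f]
  have e2 : (fun i : Fin n => j (f i)) = fun i => j (v i) := by
    funext i; simp [f]
  have a1 := h3 f
  rw [e1] at a1
  have a2 := h.elem θ f
  have a3 := delta0_abs h.trans h1 (fun k => (⟨j (f k), h.maps (f k)⟩ : M))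
  have a4 := h3 (fun k => j (f k))
  rw [e2] at a4
  exact a1.symm.trans (a2.trans (a3.trans a4))

theorem mem_iff {x y : ZFSet.{u}} : j x ∈ j y ↔ x ∈ y :=
  (h.d0 (D0.mem (D0T.var 0) (D0T.var 1)) ![x, y]).symm

theorem inj {x y : ZFSet.{u}} (hxy : j x = j y) : x = y :=
  (h.d0 (D0.eqv (D0T.var 0) (D0T.var 1)) ![x, y]).2 hxy

theorem sub_iff {x y : ZFSet.{u}} : j x ⊆ j y ↔ x ⊆ y :=
  (h.d0 (D0.subset (D0T.var 0) (D0T.var 1)) ![x, y]).symm

theorem pair_eq (x y : ZFSet.{u}) : j (ZFSet.pair x y) = ZFSet.pair (j x) (j y) :=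
  (h.d0 (D0.isPair (D0T.var 2) (D0T.var 0) (D0T.var 1)) ![x, y, ZFSet.pair x y]).1 rfl

theorem empty : j ∅ = ∅ :=
  (h.d0 (D0.isEmpty (D0T.var 0)) ![∅]).1 rfl

theorem insert_eq (x y : ZFSet.{u}) : j (insert x y) = insert (j x) (j y) :=
  (h.d0 (emb_D0_insert (D0T.var 2) (D0T.var 0) (D0T.var 1)) ![x, y, insert x y]).1 rfl

theorem app_iff {g x v : ZFSet.{u}} : App (j g) (j x) (j v) ↔ App g x v :=
  (h.d0 (emb_D0_app (D0T.var 0) (D0T.var 1) (D0T.var 2)) ![g, x, v]).symm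

theorem natZ_eq (n : ℕ) : j (natZ n) = natZ n := by
  induction n with
  | zero => exact h.empty
  | succ n ih =>
    show j (insert (natZ n) (natZ n)) = insert (natZ n) (natZ n)
    rw [h.insert_eq, ih]

theorem omZ_eq : j omZ = omZ := by
  have h0 : D0 (fun v : Fin 1 → ZFSet.{u} => ∀ x ∈ v 0, x = ∅ ∨ ∃ y ∈ v 0, x = insert y y) :=
    D0.ballZ (p := fun v x => x = ∅ ∨ ∃ y ∈ v 0, x = insert y y) (D0T.var 0)
      ((D0.isEmpty D0T.last).or
        (D0.bexZ (p := fun v y => v (Fin.last 1) = insert y y) (D0T.var 0)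
          (emb_D0_insert (D0T.var _) D0T.last D0T.last)))
  have h1 : ∀ x ∈ omZ.{u}, x = ∅ ∨ ∃ y ∈ omZ.{u}, x = insert y y := by
    intro x hx
    obtain ⟨n, rfl⟩ := mem_omZ.1 hx
    cases n with
    | zero => exact Or.inl rfl
    | succ n => exact Or.inr ⟨natZ n, natZ_mem_omZ n, rfl⟩
  have h2 : ∀ x ∈ j omZ.{u}, x = ∅ ∨ ∃ y ∈ j omZ.{u}, x = insert y y :=
    (h.d0 h0 ![omZ.{u}]).1 h1
  ext z
  constructor
  · intro hz
    rw [mem_omZ]
    induction z using ZFSet.inductionOn with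
    | _ z ih =>
      rcases h2 z hz with rfl | ⟨y, hy, rfl⟩
      · exact ⟨0, rfl⟩
      · obtain ⟨n, hn⟩ := ih y (ZFSet.mem_insert _ _) hy
        exact ⟨n + 1, by rw [hn]; rfl⟩
  · intro hz
    obtain ⟨n, rfl⟩ := mem_omZ.1 hz
    rw [← h.natZ_eq n]
    exact h.mem_iff.2 (natZ_mem_omZ n)

/-- `j(X) = j[X]` for countable `X`. -/
theorem countable_image {X : ZFSet.{u}} (hX : (El X).Countable) {y : ZFSet.{u}} (hy : y ∈ j X) :
    ∃ x ∈ X, y = j x := by
  rcases (El X).eq_empty_or_nonempty with he | hne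
  · have hX0 : X = ∅ := by
      rw [ZFSet.eq_empty]
      intro z hz
      have : z ∈ El X := hz
      rw [he] at this
      exact this
    rw [hX0, h.empty] at hy
    exact (ZFSet.notMem_empty _ hy).elim
  · obtain ⟨e, he⟩ := hX.exists_eq_range hne
    let g : ZFSet.{u} := ZFSet.range (fun n : ULift.{u} ℕ => ZFSet.pair (natZ n.down) (e n.down))
    have hg : ∀ z, z ∈ g ↔ ∃ n : ℕ, z = ZFSet.pair (natZ n) (e n) := by
      intro z
      simp only [g, ZFSet.mem_range]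
      constructor
      · rintro ⟨n, rfl⟩; exact ⟨n.down, rfl⟩
      · rintro ⟨n, rfl⟩; exact ⟨⟨n⟩, rfl⟩
    have happ : ∀ n : ℕ, App g (natZ n) (e n) := by
      intro n
      refine ⟨(hg _).2 ⟨n, rfl⟩, fun v' hv' => ?_⟩
      obtain ⟨m, hm⟩ := (hg _).1 hv'
      rw [ZFSet.pair_inj] at hm
      have := natZ_inj.1 hm.1
      rw [hm.2, this]
    have hcov : ∀ x ∈ X, ∃ n ∈ omZ.{u}, ZFSet.pair n x ∈ g := by
      intro x hx
      have hx' : x ∈ Set.range e := by rw [← he]; exact hx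
      obtain ⟨n, rfl⟩ := hx'
      exact ⟨natZ n, natZ_mem_omZ n, (hg _).2 ⟨n, rfl⟩⟩
    have hD : D0 (fun v : Fin 3 → ZFSet.{u} => ∀ x ∈ v 0, ∃ n ∈ v 1, ZFSet.pair n x ∈ v 2) :=
      D0.ballZ (p := fun v x => ∃ n ∈ v 1, ZFSet.pair n x ∈ v 2) (D0T.var 0)
        (D0.bexZ (p := fun v n => ZFSet.pair n (v (Fin.last 3)) ∈ v 2) (D0T.var 1)
          (D0.pairMem D0T.last (D0T.var _) (D0T.var 2)))
    have hcov' : ∀ x ∈ j X, ∃ n ∈ j omZ.{u}, ZFSet.pair n x ∈ j g :=
      (h.d0 hD ![X, omZ.{u}, g]).1 hcov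
    obtain ⟨m, hm, hmy⟩ := hcov' y hy
    rw [h.omZ_eq] at hm
    obtain ⟨n, rfl⟩ := mem_omZ.1 hm
    have h3 : App (j g) (natZ n) (j (e n)) := by
      have := h.app_iff.2 (happ n)
      rwa [h.natZ_eq] at this
    refine ⟨e n, ?_, h3.2 y hmy⟩
    have : e n ∈ El X := by rw [he]; exact ⟨n, rfl⟩
    exact this

/-- `j(x) = x` below the critical point. -/
theorem fix {κ : Ordinal.{u}} (hκ : ∀ α < κ, j α.toZFSet = α.toZFSet) {x : ZFSet.{u}}
    (hx : x ∈ V_ κ) : j x = x := by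
  have main : ∀ α < κ, j (V_ α) = V_ α ∧ ∀ x : ZFSet.{u}, x ⊆ V_ α → j x = x := by
    intro α
    induction α using WellFoundedLT.induction with
    | ind α ih =>
      intro hα
      have i1 : ∀ x ∈ V_ α, j x = x := by
        intro x hx
        obtain ⟨β, hβ, hxβ⟩ := ZFSet.mem_vonNeumann'.1 hx
        exact (ih β hβ (hβ.trans hα)).2 x hxβ
      have i2 : j (V_ α) = V_ α := by
        let g : ZFSet.{u} := ZFSet.range (fun b : Shrink.{u} (Set.Iio α) =>
          ZFSet.pair ((equivShrink _).symm b).1.toZFSet (V_ ((equivShrink _).symm b).1))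
        have hg : ∀ z, z ∈ g ↔ ∃ b < α, z = ZFSet.pair b.toZFSet (V_ b) := by
          intro z
          simp only [g, ZFSet.mem_range]
          constructor
          · rintro ⟨b, rfl⟩; exact ⟨_, ((equivShrink _).symm b).2, rfl⟩
          · rintro ⟨b, hb, rfl⟩; exact ⟨equivShrink _ ⟨b, hb⟩, by simp⟩
        have happ : ∀ b < α, App g b.toZFSet (V_ b) := by
          intro b hb
          refine ⟨(hg _).2 ⟨b, hb, rfl⟩, fun v' hv' => ?_⟩
          obtain ⟨c, hc, hc'⟩ := (hg _).1 hv'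
          rw [ZFSet.pair_inj] at hc'
          have := Ordinal.toZFSet_injective hc'.1
          rw [hc'.2, this]
        have hcov : ∀ z ∈ V_ α, ∃ b ∈ α.toZFSet, ∃ p ∈ g, ∃ q ∈ p, ∃ W ∈ q,
            p = ZFSet.pair b W ∧ z ⊆ W := by
          intro z hz
          obtain ⟨β, hβ, hzβ⟩ := ZFSet.mem_vonNeumann'.1 hz
          exact ⟨β.toZFSet, Ordinal.toZFSet_mem_toZFSet_iff.2 hβ, _, (hg _).2 ⟨β, hβ, rfl⟩,
            _, emb_mem_pair_right _ _, V_ β, by rw [ZFSet.mem_pair]; exact Or.inr rfl, rfl, hzβ⟩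
        have hD : D0 (fun v : Fin 3 → ZFSet.{u} => ∀ z ∈ v 0, ∃ b ∈ v 1, ∃ p ∈ v 2, ∃ q ∈ p,
            ∃ W ∈ q, p = ZFSet.pair b W ∧ z ⊆ W) :=
          D0.ballZ (p := fun v z => ∃ b ∈ v 1, ∃ p ∈ v 2, ∃ q ∈ p,
              ∃ W ∈ q, p = ZFSet.pair b W ∧ z ⊆ W) (D0T.var 0)
            (D0.bexZ (p := fun v b => ∃ p ∈ v 2, ∃ q ∈ p,
                ∃ W ∈ q, p = ZFSet.pair b W ∧ v 3 ⊆ W) (D0T.var 1)
              (D0.bexZ (p := fun v p => ∃ q ∈ p,
                  ∃ W ∈ q, p = ZFSet.pair (v 4) W ∧ v 3 ⊆ W) (D0T.var 2)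
                (D0.bexZ (p := fun v q => ∃ W ∈ q, v 5 = ZFSet.pair (v 4) W ∧ v 3 ⊆ W)
                  D0T.last
                  (D0.bexZ (p := fun v W => v 5 = ZFSet.pair (v 4) W ∧ v 3 ⊆ W)
                    D0T.last
                    ((D0.isPair (D0T.var _) (D0T.var _) D0T.last).and
                      (D0.subset (D0T.var _) D0T.last))))))
        have hcov' : ∀ z ∈ j (V_ α), ∃ b ∈ j α.toZFSet, ∃ p ∈ j g, ∃ q ∈ p, ∃ W ∈ q,
            p = ZFSet.pair b W ∧ z ⊆ W := (h.d0 hD ![V_ α, α.toZFSet, g]).1 hcov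
        ext z
        constructor
        · intro hz
          obtain ⟨b, hb, p, hp, q, hq, W, hW, hpW, hzW⟩ := hcov' z hz
          rw [hκ α hα] at hb
          obtain ⟨β, hβ, rfl⟩ := Ordinal.mem_toZFSet_iff.1 hb
          rw [hpW] at hp
          have h3 : App (j g) β.toZFSet (V_ β) := by
            have := h.app_iff.2 (happ β hβ)
            rwa [hκ β (hβ.trans hα), (ih β hβ (hβ.trans hα)).1] at this
          have h4 := h3.2 W hp
          rw [h4] at hzW
          exact ZFSet.mem_vonNeumann'.2 ⟨β, hβ, hzW⟩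
        · intro hz
          rw [← i1 z hz]
          exact h.mem_iff.2 hz
      refine ⟨i2, fun x hx => ?_⟩
      have h5 : j x ⊆ V_ α := by
        have := h.sub_iff.2 hx
        rwa [i2] at this
      ext z
      constructor
      · intro hz
        have h6 := h5 hz
        rw [← i1 z h6] at hz
        exact h.mem_iff.1 hz
      · intro hz
        rw [← i1 z (hx hz)]
        exact h.mem_iff.2 hz
  obtain ⟨α, hα, hxα⟩ := ZFSet.mem_vonNeumann'.1 hx
  exact (main α hα).2 x hxα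

theorem omega_lt {κ : Ordinal.{u}} (hκ : ∀ α < κ, j α.toZFSet = α.toZFSet)
    (hκ' : κ.toZFSet ∈ j κ.toZFSet) : Ordinal.omega0 < κ := by
  by_contra hlt
  rw [not_lt] at hlt
  have key : j κ.toZFSet = κ.toZFSet := by
    rcases hlt.lt_or_eq with hlt | heq
    · obtain ⟨n, rfl⟩ := Ordinal.lt_omega0.1 hlt
      rw [← Pool.Agent.H17.Omega.natZ_eq, h.natZ_eq]
    · have : κ.toZFSet = omZ := by
        rw [heq]
        ext z
        rw [Ordinal.mem_toZFSet_iff, mem_omZ]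
        constructor
        · rintro ⟨a, ha, rfl⟩
          obtain ⟨n, rfl⟩ := Ordinal.lt_omega0.1 ha
          exact ⟨n, (Pool.Agent.H17.Omega.natZ_eq n).symm⟩
        · rintro ⟨n, rfl⟩
          exact ⟨n, Ordinal.nat_lt_omega0 n, (Pool.Agent.H17.Omega.natZ_eq n).symm⟩
      rw [this, h.omZ_eq]
  rw [key] at hκ'
  exact ZFSet.mem_irrefl _ hκ'

end ElemEmb

end Pool.Agent.H82.OC
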