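import Pool.Agent.H82.OC.Inv
import Pool.Agent.H82.OC.Emb

/-!
# OC-C7: the blueprint satisfies the axioms for truth and constants

Let `x = xC C V`.  For every instance of an axiom let `J` be the countable set of all indices of all terms that occur (`⋃ k, (g k).2`, `t.2`, `(skt χ k g).2` (a subset of the
indices of the `g j`)), `h` a realisation (`exists_Rlz`), and use `Tr8_iff`, `E_iff`: `Tr8 x χ g ↔ Sat C.Em χ (fun k => val V h (g k))`.
* `mem, bot, imp, and, or, all_imp, ex_of`: definition of `Sat`, `fun j => val V h (upd g k t j) = upd (fun j => val V h (g j)) k (val V h t)`.  `eqc`: `val V h (g i) = val V h (g j)`.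
* `allw`: if `Sat (.all k χ)` fails there is `y` with `Sat χ.not (upd .. k y)`, so `Sat (.ex k χ.not)`.
* `exw`: `Sat (.ex k χ) (val ∘ g)`.  Let `ts = ((range χ.bd).map g).map (fun t => (t.1, t.2.map fun p => (p.1, h p)))`.  `vas V ts` agrees with `val ∘ g` below `χ.bd`, so
  (`Sat.congr`) `∃ y, Sat χ (upd (vas V ts) k y)`; `hV.sk` gives `Sat χ (upd (vas V ts) k y0)` with
  `y0 = V (lbSK χ k (ts.map fun t => (t.1, t.2.length))) (ts.flatMap Prod.snd) = val V h (skt χ k g)` (`map` does not change the lengths; `List.flatMap_map`, `List.map_flatMap`).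
* `zfc`, `phi`: `hC.zfc`, `hC.phi`.
* `CaxK`: let `θ` define the `Δ₀` predicate `P`.  `Tr8 x θ (as l) ↔ Sat C.Em θ (val ∘ as l) ↔ Sat (∈) θ (fun k => (val V h (as l k)).1)` (`delta0_abs` in `Emb.lean` for the transitive
  class `C.MS`) `↔ P (fun i => (val V h (as l i)).1)`.  Values: `hV.nn`, `hV.tz`, `hV.tK`, `hV.kk`.
  `tz_mem`: `pair (natZ i) (pair (natZ j) (natZ k)) ∈ tzZ z ↔ Tern z i j k` (`natZ_inj`, `ZFSet.pair_inj`).  `tK_fun`: `natZ_inj`.  `kk_ord`: `isOrdinal_toZFSet`.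
-/

set_option autoImplicit false
set_option linter.unusedVariables false
set_option linter.unusedSectionVars false
set_option linter.unusedSimpArgs false
set_option linter.deprecated false

universe u v w

open scoped ZFSet Ordinal

namespace Pool.Agent.H82.OC

open Pool.Agent.H17.Omega Pool.Agent.H17.Omega.T8

section tk_aux

variable {φ : Fml} {C : Ctx.{u}} {V : ℕ → List (ℕ × Ordinal.{u}) → C.M}

/-- A realisation of the indices of countably many terms. -/
theorem tk_real (hC : C.Good φ) (V : ℕ → List (ℕ × Ordinal.{u}) → C.M) (g : ℕ → Tm.{u})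
    (t : Tm.{u}) : ∃ (J : Set (ℕ × Ordinal.{u})) (h : ℕ × Ordinal.{u} → Ordinal.{u}),
      Rlz C V J h ∧ (∀ k, ∀ q ∈ (g k).2, q ∈ J) ∧ ∀ q ∈ t.2, q ∈ J := by
  have hJ : ((⋃ k, {q | q ∈ (g k).2}) ∪ {q | q ∈ t.2} : Set (ℕ × Ordinal.{u})).Countable := by
    refine Set.Countable.union (Set.countable_iUnion fun k => ?_) ?_
    · exact (List.finite_toSet _).countable
    · exact (List.finite_toSet _).countable
  obtain ⟨h, hh⟩ := exists_Rlz hC V hJ
  exact ⟨_, h, hh, fun k q hq => Or.inl (Set.mem_iUnion.2 ⟨k, hq⟩), fun q hq => Or.inr hq⟩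

theorem tk_upd_mem {J : Set (ℕ × Ordinal.{u})} {g : ℕ → Tm.{u}} {t : Tm.{u}} {k : ℕ}
    (hg : ∀ k, ∀ q ∈ (g k).2, q ∈ J) (ht : ∀ q ∈ t.2, q ∈ J) :
    ∀ j, ∀ q ∈ (upd g k t j).2, q ∈ J := by
  intro j q hq
  unfold upd at hq
  split_ifs at hq with hj
  · exact ht q hq
  · exact hg j q hq

theorem tk_val_upd {h : ℕ × Ordinal.{u} → Ordinal.{u}} {g : ℕ → Tm.{u}} {t : Tm.{u}} {k : ℕ} :
    (fun j => val V h (upd g k t j)) = upd (fun j => val V h (g j)) k (val V h t) :=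
  upd_comp _ g k t

theorem tk_skt_mem {J : Set (ℕ × Ordinal.{u})} {g : ℕ → Tm.{u}} {χ : Fml} {k : ℕ}
    (hg : ∀ k, ∀ q ∈ (g k).2, q ∈ J) : ∀ q ∈ (skt χ k g).2, q ∈ J := by
  intro q hq
  unfold skt at hq
  obtain ⟨t, ht, hqt⟩ := List.mem_flatMap.1 hq
  obtain ⟨j, _, rfl⟩ := List.mem_map.1 ht
  exact hg j q hqt

theorem tk_val_skt {h : ℕ × Ordinal.{u} → Ordinal.{u}} {g : ℕ → Tm.{u}} {χ : Fml} {k : ℕ} :
    val V h (skt χ k g) =
      V (lbSK χ k ((((List.range χ.bd).map g).map fun t => (t.1, t.2.map fun p => (p.1, h p))).map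
        fun t => (t.1, t.2.length)))
        ((((List.range χ.bd).map g).map fun t => (t.1, t.2.map fun p => (p.1, h p))).flatMap
          Prod.snd) := by
  unfold val skt
  have e1 : ((((List.range χ.bd).map g).map fun t => (t.1, t.2.map fun p => (p.1, h p))).map
        fun t => (t.1, t.2.length)) = ((List.range χ.bd).map g).map fun t => (t.1, t.2.length) := by
    rw [List.map_map]
    refine List.map_congr_left fun t _ => ?_
    show (t.1, (t.2.map fun p => (p.1, h p)).length) = (t.1, t.2.length)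
    rw [List.length_map]
  have e2 : ((((List.range χ.bd).map g).map fun t => (t.1, t.2.map fun p => (p.1, h p))).flatMap
          Prod.snd) = (((List.range χ.bd).map g).flatMap Prod.snd).map fun p => (p.1, h p) := by
    rw [List.flatMap_map, List.map_flatMap]
  rw [e1, e2]

theorem tk_vas {h : ℕ × Ordinal.{u} → Ordinal.{u}} {g : ℕ → Tm.{u}} {n j : ℕ} (hj : j < n) :
    vas V (((List.range n).map g).map fun t => (t.1, t.2.map fun p => (p.1, h p))) j =
      val V h (g j) := by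
  unfold vas val as
  have e : (((List.range n).map g).map fun t => (t.1, t.2.map fun p => (p.1, h p))).getD j
      (0, []) = ((g j).1, (g j).2.map fun p => (p.1, h p)) := by
    rw [List.getD_eq_getElem?_getD, List.getElem?_map, List.getElem?_map,
      List.getElem?_range hj]
    rfl
  rw [e]

end tk_aux

theorem caxT_xC {φ : Fml} {C : Ctx.{u}} (hC : C.Good φ) {V : ℕ → List (ℕ × Ordinal.{u}) → C.M}
    (hV : ValSpec C V) : CaxT.{u} φ (xC C V) := by
  refine ⟨?_, ?_, ?_, ?_, ?_, ?_, ?_, ?_, ?_, ?_, ?_, ?_, ?_⟩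
  · intro i j g
    obtain ⟨J, h, H, hg, _⟩ := tk_real hC V g (0, [])
    rw [Tr8_iff hC.wo H hg, E_iff hC.wo H (hg i) (hg j)]
    exact Iff.rfl
  · intro i j g hT
    refine ⟨fun t => ?_, fun t => ?_⟩
    · obtain ⟨J, h, H, hg, ht⟩ := tk_real hC V g t
      rw [Tr8_iff hC.wo H hg] at hT
      have he : val V h (g i) = val V h (g j) := hT
      rw [E_iff hC.wo H ht (hg i), E_iff hC.wo H ht (hg j), he]
    · obtain ⟨J, h, H, hg, ht⟩ := tk_real hC V g t
      rw [Tr8_iff hC.wo H hg] at hT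
      have he : val V h (g i) = val V h (g j) := hT
      rw [E_iff hC.wo H (hg i) ht, E_iff hC.wo H (hg j) ht, he]
  · intro i j i' j' g g' h1 h2 hT
    have hJ : ((⋃ k, {q | q ∈ (g k).2}) ∪ ⋃ k, {q | q ∈ (g' k).2} :
        Set (ℕ × Ordinal.{u})).Countable :=
      (Set.countable_iUnion fun k => (List.finite_toSet _).countable).union
        (Set.countable_iUnion fun k => (List.finite_toSet _).countable)
    obtain ⟨h, H⟩ := exists_Rlz hC V hJ
    have hg : ∀ k, ∀ q ∈ (g k).2, q ∈ ((⋃ k, {q | q ∈ (g k).2}) ∪ ⋃ k, {q | q ∈ (g' k).2} :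
        Set (ℕ × Ordinal.{u})) := fun k q hq => Or.inl (Set.mem_iUnion.2 ⟨k, hq⟩)
    have hg' : ∀ k, ∀ q ∈ (g' k).2, q ∈ ((⋃ k, {q | q ∈ (g k).2}) ∪ ⋃ k, {q | q ∈ (g' k).2} :
        Set (ℕ × Ordinal.{u})) := fun k q hq => Or.inr (Set.mem_iUnion.2 ⟨k, hq⟩)
    rw [Tr8_iff hC.wo H hg] at hT
    rw [Tr8_iff hC.wo H hg']
    have hT' : val V h (g i) = val V h (g j) := hT
    show val V h (g' i') = val V h (g' j')
    rw [← h1, ← h2]
    exact hT'
  · intro g hT
    obtain ⟨J, h, H, hg, _⟩ := tk_real hC V g (0, [])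
    rw [Tr8_iff hC.wo H hg] at hT
    exact hT
  · intro χ χ' g
    obtain ⟨J, h, H, hg, _⟩ := tk_real hC V g (0, [])
    rw [Tr8_iff hC.wo H hg, Tr8_iff hC.wo H hg, Tr8_iff hC.wo H hg]
    exact Iff.rfl
  · intro χ χ' g
    obtain ⟨J, h, H, hg, _⟩ := tk_real hC V g (0, [])
    rw [Tr8_iff hC.wo H hg, Tr8_iff hC.wo H hg, Tr8_iff hC.wo H hg]
    exact Iff.rfl
  · intro χ χ' g
    obtain ⟨J, h, H, hg, _⟩ := tk_real hC V g (0, [])
    rw [Tr8_iff hC.wo H hg, Tr8_iff hC.wo H hg, Tr8_iff hC.wo H hg]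
    exact Iff.rfl
  · intro k χ g t hT
    obtain ⟨J, h, H, hg, ht⟩ := tk_real hC V g t
    rw [Tr8_iff hC.wo H hg] at hT
    rw [Tr8_iff hC.wo H (tk_upd_mem hg ht), tk_val_upd]
    exact hT (val V h t)
  · intro k χ g hT
    obtain ⟨J, h, H, hg, _⟩ := tk_real hC V g (0, [])
    rw [Tr8_iff hC.wo H hg] at hT
    rw [Tr8_iff hC.wo H hg]
    intro y
    by_contra hy
    exact hT ⟨y, fun hc => hy hc⟩
  · intro k χ g hT
    obtain ⟨J, h, H, hg, _⟩ := tk_real hC V g (0, [])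
    rw [Tr8_iff hC.wo H hg] at hT
    rw [Tr8_iff hC.wo H (tk_upd_mem hg (tk_skt_mem hg)), tk_val_upd, tk_val_skt]
    have hcg : ∀ y : C.M, ∀ i < χ.bd, upd (fun j => val V h (g j)) k y i =
        upd (vas V (((List.range χ.bd).map g).map fun t => (t.1, t.2.map fun p => (p.1, h p))))
          k y i := by
      intro y i hi
      unfold upd
      split_ifs with hik
      · rfl
      · exact (tk_vas hi).symm
    obtain ⟨y, hy⟩ := hT
    rw [Sat.congr (hcg _)]
    exact hV.sk χ k _ ⟨y, (Sat.congr (hcg y)).1 hy⟩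
  · intro k χ g t hT
    obtain ⟨J, h, H, hg, ht⟩ := tk_real hC V g t
    rw [Tr8_iff hC.wo H (tk_upd_mem hg ht), tk_val_upd] at hT
    rw [Tr8_iff hC.wo H hg]
    exact ⟨_, hT⟩
  · intro ψ hψ g
    obtain ⟨J, h, H, hg, _⟩ := tk_real hC V g (0, [])
    rw [Tr8_iff hC.wo H hg]
    exact hC.zfc ψ hψ _
  · intro g
    obtain ⟨J, h, H, hg, _⟩ := tk_real hC V g (0, [])
    rw [Tr8_iff hC.wo H hg]
    exact hC.phi _

theorem tk_TD {φ : Fml} {C : Ctx.{u}} (hC : C.Good φ) {V : ℕ → List (ℕ × Ordinal.{u}) → C.M}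
    {l : List Tm.{u}} (hl : ∀ t ∈ l, t.2 = []) {n : ℕ} {P : (Fin n → ZFSet.{u}) → Prop} {Q : Prop}
    (hPQ : P (fun i => (V (as l i).1 []).1) ↔ Q) : TD (Tr8.{u} (xC C V)) P (as l) Q := by
  intro θ hθ
  have h0 : ∀ k, (as l k).2 = [] := by
    intro k
    unfold as
    rw [List.getD_eq_getElem?_getD]
    rcases h1 : l[k]? with _ | t
    · rfl
    · exact hl t (List.mem_iff_getElem?.2 ⟨k, h1⟩)
  obtain ⟨J, h, H, hg, _⟩ := tk_real hC V (as l) (0, [])
  rw [Tr8_iff hC.wo H hg, ← hPQ]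
  have hval : ∀ k, val V h (as l k) = V (as l k).1 [] := by
    intro k
    unfold val
    rw [h0 k]
    rfl
  simp only [hval]
  have htr : ∀ x ∈ C.MS, ∀ y ∈ x, y ∈ C.MS := fun x hx y hy =>
    (ZFSet.isTransitive_vonNeumann C.δ).mem_trans hy hx
  exact (delta0_abs htr hθ.1 _).trans (hθ.2.2 _)

theorem caxK_xC {φ : Fml} {C : Ctx.{u}} (hC : C.Good φ) {V : ℕ → List (ℕ × Ordinal.{u}) → C.M}
    (hV : ValSpec C V) : CaxK.{u} C.z (xC C V) := by
  refine ⟨?_, ?_, ?_, ?_, ?_, ?_⟩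
  · intro n
    refine tk_TD hC (by simp [nnt]) ?_
    show (V (lbNN n) []).1 = natZ n ↔ True
    rw [hV.nn]
    simp
  · intro i j k
    refine tk_TD hC (by simp [nnt, tzt]) ?_
    show ZFSet.pair (V (lbNN i) []).1 (ZFSet.pair (V (lbNN j) []).1 (V (lbNN k) []).1) ∈
      (V lbTz []).1 ↔ Tern C.z i j k
    rw [hV.nn, hV.nn, hV.nn, hV.tz]
    unfold tzZ
    rw [ZFSet.mem_range]
    constructor
    · rintro ⟨⟨⟨⟨a, b, c⟩, hp⟩⟩, he⟩
      simp only [ZFSet.pair_inj, natZ_inj] at he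
      obtain ⟨rfl, rfl, rfl⟩ := he
      exact hp
    · intro hT
      exact ⟨⟨⟨(i, j, k), hT⟩⟩, rfl⟩
  · refine tk_TD hC (by simp [tzt]) ?_
    show (∀ p ∈ (V lbTz []).1, ∃ i j k : ℕ,
      p = ZFSet.pair (natZ i) (ZFSet.pair (natZ j) (natZ k))) ↔ True
    rw [hV.tz]
    refine iff_true_intro fun p hp => ?_
    unfold tzZ at hp
    rw [ZFSet.mem_range] at hp
    obtain ⟨⟨⟨⟨a, b, c⟩, hq⟩⟩, he⟩ := hp
    exact ⟨a, b, c, he.symm⟩
  · intro i
    refine tk_TD hC (by simp [nnt, kkt, tKt]) ?_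
    show ZFSet.pair (V (lbNN i) []).1 (V (lbKK i) []).1 ∈ (V lbTK []).1 ↔ True
    rw [hV.nn, hV.kk, hV.tK]
    refine iff_true_intro ?_
    unfold tKZ
    rw [ZFSet.mem_range]
    exact ⟨⟨i⟩, rfl⟩
  · refine tk_TD hC (by simp [tKt]) ?_
    show (∀ i a b : ZFSet.{u}, ZFSet.pair i a ∈ (V lbTK []).1 → ZFSet.pair i b ∈ (V lbTK []).1 →
      a = b) ↔ True
    rw [hV.tK]
    refine iff_true_intro fun i a b ha hb => ?_
    unfold tKZ at ha hb
    rw [ZFSet.mem_range] at ha hb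
    obtain ⟨⟨m⟩, hm⟩ := ha
    obtain ⟨⟨n⟩, hn⟩ := hb
    simp only [ZFSet.pair_inj] at hm hn
    have : m = n := natZ_inj.1 (hm.1.trans hn.1.symm)
    subst this
    exact hm.2.symm.trans hn.2
  · intro i
    refine tk_TD hC (by simp [kkt]) ?_
    show ((V (lbKK i) []).1).IsOrdinal ↔ True
    rw [hV.kk]
    exact iff_true_intro (ZFSet.isOrdinal_toZFSet _)

end Pool.Agent.H82.OC
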