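import Mathlib

/-!
# OC-A7: chains with bookkeeping

Proof of `exists_chain`.  For every `s` choose `e s : ℕ → Option Z` enumerating `Y s` (`none` allowed, so that
also the empty set can be enumerated; `Set.Countable`).  Choose `nxt s D` for `D ∈ Y s` with `R s (nxt s D)`, `G (nxt s D) D`.
Define recursively finite histories (lists of states, or functions `Fin (n+1) → St`): at stage `n` with
`(a, b) = Nat.unpair n`, `a ≤ n`: take the state `s a` of the history and `D = e (s a) b`; if `D = some D'` with
`D' ∈ Y (s a) ⊆ Y (s n)` let `s (n+1) = nxt (s n) D'`, otherwise `s (n+1) = s n`.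
If `D ∈ Y (s a)`, `D = e (s a) b`, let `m = Nat.pair a b ≥ a`: `G (s (m+1)) D`.
(`R (s a) (s n)` for `a ≤ n` by induction, `hrefl`, `htrans`; then `hmono`.)
-/

set_option autoImplicit false
set_option linter.unusedVariables false

universe u v w

namespace Pool.Agent.H82.OC

/-- The histories. -/
private noncomputable def chainHist {St : Type v} (stp : ℕ → (ℕ → St) → St) (s0 : St) : ℕ → (ℕ → St)
  | 0 => fun _ => s0
  | n + 1 => Function.update (chainHist stp s0 n) (n + 1) (stp n (chainHist stp s0 n))

private theorem chainHist_le {St : Type v} (stp : ℕ → (ℕ → St) → St) (s0 : St) (m : ℕ) :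
    ∀ n, m ≤ n → chainHist stp s0 n m = chainHist stp s0 m m := by
  intro n hn
  induction n, hn using Nat.le_induction with
  | base => rfl
  | succ n hmn ih =>
    rw [chainHist, Function.update_of_ne (by omega), ih]

theorem exists_chain {St : Type v} {Z : Type w} (Y : St → Set Z) (hc : ∀ s, (Y s).Countable)
    (R : St → St → Prop) (hrefl : ∀ s, R s s) (htrans : ∀ a b c, R a b → R b c → R a c)
    (hmono : ∀ s s', R s s' → Y s ⊆ Y s') (G : St → Z → Prop)
    (hstep : ∀ s, ∀ D ∈ Y s, ∃ s', R s s' ∧ G s' D) (s0 : St) :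
    ∃ s : ℕ → St, s 0 = s0 ∧ (∀ n m, n ≤ m → R (s n) (s m)) ∧
      ∀ n, ∀ D ∈ Y (s n), ∃ m, n ≤ m ∧ G (s (m + 1)) D := by
  classical
  -- enumerations
  have he : ∀ s, ∃ e : ℕ → Option Z, ∀ D ∈ Y s, ∃ b, e b = some D := by
    intro s
    rcases (Y s).eq_empty_or_nonempty with h | h
    · exact ⟨fun _ => none, fun D hD => by rw [h] at hD; exact absurd hD (Set.notMem_empty _)⟩
    · obtain ⟨f, hf⟩ := (hc s).exists_eq_range h
      refine ⟨fun n => some (f n), fun D hD => ?_⟩
      rw [hf] at hD
      obtain ⟨b, rfl⟩ := hD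
      exact ⟨b, rfl⟩
  choose e he using he
  -- next states
  have hn : ∀ (s : St) (o : Option Z), ∃ s', R s s' ∧ ∀ D ∈ Y s, o = some D → G s' D := by
    intro s o
    cases o with
    | none => exact ⟨s, hrefl s, fun D _ h => by simp at h⟩
    | some D =>
      by_cases hD : D ∈ Y s
      · obtain ⟨s', h1, h2⟩ := hstep s D hD
        refine ⟨s', h1, fun D' _ h => ?_⟩
        have : D = D' := by simpa using h
        rw [← this]
        exact h2
      · refine ⟨s, hrefl s, fun D' hD' h => ?_⟩
        have : D = D' := by simpa using h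
        rw [this] at hD
        exact absurd hD' hD
  choose nxt hn1 hn2 using hn
  let stp : ℕ → (ℕ → St) → St := fun n h => nxt (h n) (e (h (Nat.unpair n).1) (Nat.unpair n).2)
  let s : ℕ → St := fun n => chainHist stp s0 n n
  have hs : ∀ n, s (n + 1) = nxt (s n) (e (s (Nat.unpair n).1) (Nat.unpair n).2) := by
    intro n
    show chainHist stp s0 (n + 1) (n + 1) = _
    rw [chainHist, Function.update_self]
    show nxt (chainHist stp s0 n n) (e (chainHist stp s0 n (Nat.unpair n).1) (Nat.unpair n).2) = _
    rw [chainHist_le stp s0 _ n (Nat.unpair_left_le n)]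
  have hR : ∀ n m, n ≤ m → R (s n) (s m) := by
    intro n m hnm
    induction m, hnm using Nat.le_induction with
    | base => exact hrefl _
    | succ m _ ih =>
      refine htrans _ _ _ ih ?_
      rw [hs m]
      exact hn1 _ _
  refine ⟨s, rfl, hR, fun n D hD => ?_⟩
  obtain ⟨b, hb⟩ := he (s n) D hD
  refine ⟨Nat.pair n b, Nat.left_le_pair n b, ?_⟩
  rw [hs, Nat.unpair_pair]
  exact hn2 _ _ D (hmono _ _ (hR _ _ (Nat.left_le_pair n b)) hD) hb

end Pool.Agent.H82.OC
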