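import Pool.Agent.H82.OC.BDefs

/-!
# OC-B1: ranks of terms

* `mono`: from `RkLe_iff`.
* `exists_RkLe`: the relation `Et` on the terms over `S` is well-founded (`hw`: no infinite descending sequence;
  `wellFounded_iff_isEmpty_descending_chain` on the subtype `{t // TmOn S t}`).  By induction every term over `S` has a `ν`; the
  set of terms over `S ⊆ Iio θ` is small (`List (ℕ × Iio θ)`), so one can take the supremum of `ν' + 1` over all `t'` over `S`; the
  same supremum works for an arbitrary `t` (not nec. over `S`).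
* `RkLe_rkT`, `rkT_le`: `csInf_mem`, `csInf_le'`.
* `rkT_lt`: `RkLe_iff` for `RkLe (rkT t) t`.
* `rkT_le_of`: `RkLe (v t) t` by induction on `v t`.
* `WFOn_of`: a descending sequence would give a descending sequence of ordinals.
* `rkT_eq_of`: `≤`: `rkT_le_of`.  `≥`: by well-founded induction on `v t`: if `ν < v t` there is `t'` over `S`, `Et t' t`, `ν ≤ v t'`;
  `v t' ≤ rkT t'` by induction (`v t' < v t`), `rkT t' < rkT t` (`rkT_lt` or `RkLe_iff` directly, `WFOn_of`), so `ν < rkT t`.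
* `rkT_map`: for terms over `S` prove `RkLe x S ν t ↔ RkLe x S' ν (tmap ρ t)` by induction on `ν`: a term `s` over `S' = ρ '' S` is
  `tmap ρ t'` for some `t'` over `S`, and `Et (tmap ρ t') (tmap ρ t) ↔ Et t' t` by `OInv`.
* `WFOn.of_map`: the image of a descending sequence over `S` is descending over `S'`.
-/

set_option autoImplicit false
set_option linter.unusedVariables false
set_option linter.unusedSectionVars false
set_option linter.unusedSimpArgs false
set_option linter.deprecated false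

universe u v w

open scoped ZFSet Ordinal

namespace Pool.Agent.H82.OC

open Pool.Agent.H17.Omega Pool.Agent.H17.Omega.T8

section

variable {cd : Tm.{u} → Tm.{u} → ℕ} {x : ℕ → ℕ} {S S' : Set Ordinal.{u}}

theorem RkLe.mono {ν ν' : Ordinal.{u}} (h : ν ≤ ν') {t : Tm.{u}} (hR : RkLe cd x S ν t) :
    RkLe cd x S ν' t := by
  rw [RkLe_iff] at hR ⊢
  intro t' ht' he
  obtain ⟨μ, hμ, hR'⟩ := hR t' ht' he
  exact ⟨μ, hμ.trans_le h, hR'⟩

theorem RkLe_rkT {t : Tm.{u}} (h : ∃ ν, RkLe cd x S ν t) : RkLe cd x S (rkT cd x S t) t := by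
  have h' : ({ν | RkLe cd x S ν t} : Set Ordinal.{u}).Nonempty := h
  exact csInf_mem h'

theorem rkT_le {ν : Ordinal.{u}} {t : Tm.{u}} (h : RkLe cd x S ν t) : rkT cd x S t ≤ ν :=
  csInf_le' h

theorem rk_small_TmOn {θ : Ordinal.{u}} (hS : S ⊆ Set.Iio θ) : Small.{u} {t : Tm.{u} // TmOn S t} := by
  have hx : ∀ t : {t : Tm.{u} // TmOn S t}, ∀ p ∈ t.1.2, p.2 ∈ Set.Iio θ :=
    fun t p hp => hS (t.2 p hp)
  refine small_of_injective (β := ℕ × List (ℕ × Set.Iio θ))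
    (f := fun t => (t.1.1, t.1.2.attach.map fun p => (p.1.1, ⟨p.1.2, hx t p.1 p.2⟩))) ?_
  intro t t' h
  rw [Prod.mk.injEq] at h
  have h2 := congrArg (List.map fun q : ℕ × Set.Iio θ => (q.1, q.2.1)) h.2
  rw [List.map_map, List.map_map] at h2
  have h3 : ∀ l : List (ℕ × Ordinal.{u}), ∀ hl : ∀ p ∈ l, p.2 ∈ Set.Iio θ,
      l.attach.map ((fun q : ℕ × Set.Iio θ => (q.1, q.2.1)) ∘
        fun p => (p.1.1, ⟨p.1.2, hl p.1 p.2⟩)) = l := by
    intro l hl
    have : ((fun q : ℕ × Set.Iio θ => (q.1, q.2.1)) ∘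
        fun p : {p // p ∈ l} => (p.1.1, (⟨p.1.2, hl p.1 p.2⟩ : Set.Iio θ))) =
        fun p : {p // p ∈ l} => p.1 := by
      funext p; rfl
    rw [this]
    exact List.attach_map_subtype_val l
  rw [h3 _ (hx t), h3 _ (hx t')] at h2
  exact Subtype.ext (Prod.ext h.1 h2)

theorem rk_exists_step {θ : Ordinal.{u}} (hS : S ⊆ Set.Iio θ) {t : Tm.{u}}
    (h : ∀ t', TmOn S t' → Et cd x t' t → ∃ ν, RkLe cd x S ν t') : ∃ ν, RkLe cd x S ν t := by
  have := rk_small_TmOn hS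
  obtain ⟨b, hb⟩ := Ordinal.bddAbove_of_small
    (s := Set.range fun t' : {t : Tm.{u} // TmOn S t} => rkT cd x S t'.1)
  refine ⟨Order.succ b, ?_⟩
  rw [RkLe_iff]
  intro t' ht' he
  exact ⟨rkT cd x S t', Order.lt_succ_of_le (hb ⟨⟨t', ht'⟩, rfl⟩), RkLe_rkT (h t' ht' he)⟩

theorem exists_RkLe {θ : Ordinal.{u}} (hS : S ⊆ Set.Iio θ) (hw : WFOn cd x S) (t : Tm.{u}) :
    ∃ ν, RkLe cd x S ν t := by
  have hwf : WellFounded fun t' t : {t : Tm.{u} // TmOn S t} => Et cd x t'.1 t.1 := by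
    rw [wellFounded_iff_isEmpty_descending_chain]
    refine ⟨fun f => ?_⟩
    obtain ⟨n, hn⟩ := hw (fun n => (f.1 n).1) fun n => (f.1 n).2
    exact hn (f.2 n)
  have h : ∀ t : {t : Tm.{u} // TmOn S t}, ∃ ν, RkLe cd x S ν t.1 := by
    intro t
    induction t using hwf.induction with
    | _ t ih => exact rk_exists_step hS fun t' ht' he => ih ⟨t', ht'⟩ he
  exact rk_exists_step hS fun t' ht' _ => h ⟨t', ht'⟩

theorem rkT_lt {θ : Ordinal.{u}} (hS : S ⊆ Set.Iio θ) (hw : WFOn cd x S) {t t' : Tm.{u}}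
    (ht' : TmOn S t') (h : Et cd x t' t) : rkT cd x S t' < rkT cd x S t := by
  have h1 := RkLe_rkT (exists_RkLe hS hw t)
  rw [RkLe_iff] at h1
  obtain ⟨ν, hν, h2⟩ := h1 t' ht' h
  exact (rkT_le h2).trans_lt hν

theorem WFOn_of (v : Tm.{u} → Ordinal.{u})
    (hv : ∀ t t', TmOn S t → TmOn S t' → Et cd x t' t → v t' < v t) : WFOn cd x S := by
  intro s hs
  by_contra hc
  push Not at hc
  obtain ⟨n, hn⟩ := WellFounded.not_rel_apply_succ (r := fun a b : Ordinal.{u} => a < b)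
    fun n => v (s n)
  exact hn (hv _ _ (hs n) (hs (n + 1)) (hc n))

theorem rk_RkLe_of (v : Tm.{u} → Ordinal.{u})
    (hv : ∀ t t', TmOn S t → TmOn S t' → Et cd x t' t → v t' < v t) {t : Tm.{u}} (ht : TmOn S t) :
    RkLe cd x S (v t) t := by
  have key : ∀ o : Ordinal.{u}, ∀ t, TmOn S t → v t = o → RkLe cd x S o t := by
    intro o
    induction o using WellFoundedLT.induction with
    | _ o ih =>
      intro t ht ho
      rw [RkLe_iff]
      intro t' ht' he
      have h1 : v t' < o := ho ▸ hv t t' ht ht' he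
      exact ⟨v t', h1, ih _ h1 t' ht' rfl⟩
  exact key _ t ht rfl

theorem rkT_le_of (v : Tm.{u} → Ordinal.{u})
    (hv : ∀ t t', TmOn S t → TmOn S t' → Et cd x t' t → v t' < v t) {t : Tm.{u}} (ht : TmOn S t) :
    rkT cd x S t ≤ v t := rkT_le (rk_RkLe_of v hv ht)

theorem rkT_eq_of (v : Tm.{u} → Ordinal.{u})
    (hv : ∀ t t', TmOn S t → TmOn S t' → Et cd x t' t → v t' < v t)
    (hv' : ∀ t, TmOn S t → ∀ ν < v t, ∃ t', TmOn S t' ∧ Et cd x t' t ∧ ν ≤ v t') {t : Tm.{u}}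
    (ht : TmOn S t) : rkT cd x S t = v t := by
  refine le_antisymm (rkT_le_of v hv ht) ?_
  have key : ∀ o : Ordinal.{u}, ∀ t, TmOn S t → RkLe cd x S o t → v t ≤ o := by
    intro o
    induction o using WellFoundedLT.induction with
    | _ o ih =>
      intro t ht ho
      by_contra hlt
      rw [not_le] at hlt
      obtain ⟨t', h1, h2, h3⟩ := hv' t ht o hlt
      rw [RkLe_iff] at ho
      obtain ⟨ν, hν, h4⟩ := ho t' h1 h2
      exact absurd (h3.trans (ih ν hν t' h1 h4)) (not_le.2 hν)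
  exact key _ t ht (RkLe_rkT ⟨_, rk_RkLe_of v hv ht⟩)

theorem rk_Et_tmap (hc : OInv cd) {ρ : Ordinal.{u} → Ordinal.{u}} (hρ : StrictMonoOn ρ S)
    {t t' : Tm.{u}} (ht : TmOn S t) (ht' : TmOn S t') :
    Et cd x (tmap ρ t') (tmap ρ t) ↔ Et cd x t' t := by
  have h1 : ∀ p ∈ t'.2 ++ t.2, p.2 ∈ S := by
    intro p hp
    rcases List.mem_append.1 hp with h | h
    · exact ht' p h
    · exact ht p h
  rw [Et, Et, hc ρ t' t fun p hp q hq hpq => hρ (h1 p hp) (h1 q hq) hpq]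

theorem rk_TmOn_tmap {ρ : Ordinal.{u} → Ordinal.{u}} (hS : Set.MapsTo ρ S S') {t : Tm.{u}}
    (ht : TmOn S t) : TmOn S' (tmap ρ t) := by
  intro p hp
  obtain ⟨q, hq, rfl⟩ := List.mem_map.1 hp
  exact hS (ht q hq)

theorem rk_exists_tmap {ρ : Ordinal.{u} → Ordinal.{u}} (hS : ρ '' S = S') {s : Tm.{u}}
    (hs : TmOn S' s) : ∃ t, TmOn S t ∧ tmap ρ t = s := by
  have h1 : ∀ p ∈ s.2, ∃ a ∈ S, ρ a = p.2 := by
    intro p hp
    have h2 := hs p hp
    rw [← hS] at h2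
    exact h2
  refine ⟨(s.1, s.2.map fun p => (p.1, Function.invFunOn ρ S p.2)), ?_, ?_⟩
  · intro p hp
    obtain ⟨q, hq, rfl⟩ := List.mem_map.1 hp
    exact Function.invFunOn_mem (h1 q hq)
  · rw [Pool.Agent.H82.OC.tmap]
    refine Prod.ext rfl ?_
    show List.map _ (List.map _ s.2) = s.2
    rw [List.map_map]
    conv_rhs => rw [← List.map_id s.2]
    refine List.map_congr_left fun p hp => ?_
    exact Prod.ext rfl (Function.invFunOn_eq (h1 p hp))

theorem rkT_map (hc : OInv cd) {ρ : Ordinal.{u} → Ordinal.{u}} (hρ : StrictMonoOn ρ S)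
    (hS : ρ '' S = S') {t : Tm.{u}} (ht : TmOn S t) :
    rkT cd x S' (tmap ρ t) = rkT cd x S t := by
  have hm : Set.MapsTo ρ S S' := fun a ha => hS ▸ Set.mem_image_of_mem ρ ha
  have key : ∀ ν : Ordinal.{u}, ∀ t, TmOn S t →
      (RkLe cd x S' ν (tmap ρ t) ↔ RkLe cd x S ν t) := by
    intro ν
    induction ν using WellFoundedLT.induction with
    | _ ν ih =>
      intro t ht
      rw [RkLe_iff, RkLe_iff]
      constructor
      · intro h t' ht' he
        obtain ⟨μ, hμ, h1⟩ := h (tmap ρ t') (rk_TmOn_tmap hm ht') ((rk_Et_tmap hc hρ ht ht').2 he)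
        exact ⟨μ, hμ, (ih μ hμ t' ht').1 h1⟩
      · intro h s hs he
        obtain ⟨t', ht', rfl⟩ := rk_exists_tmap hS hs
        obtain ⟨μ, hμ, h1⟩ := h t' ht' ((rk_Et_tmap hc hρ ht ht').1 he)
        exact ⟨μ, hμ, (ih μ hμ t' ht').2 h1⟩
  rw [rkT, rkT]
  congr 1
  ext ν
  exact key ν t ht

theorem WFOn.of_map (hc : OInv cd) {ρ : Ordinal.{u} → Ordinal.{u}} (hρ : StrictMonoOn ρ S)
    (hS : Set.MapsTo ρ S S') (h : WFOn cd x S') : WFOn cd x S := by
  intro s hs
  obtain ⟨n, hn⟩ := h (fun n => tmap ρ (s n)) fun n => rk_TmOn_tmap hS (hs n)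
  exact ⟨n, fun he => hn ((rk_Et_tmap hc hρ (hs n) (hs (n + 1))).2 he)⟩

theorem WFOn.mono (hSS : S ⊆ S') (h : WFOn cd x S') : WFOn cd x S :=
  fun s hs => h s fun n p hp => hSS (hs n p hp)

end

end Pool.Agent.H82.OC
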