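import Pool.Agent.H82.OC.BDefs
import Pool.Agent.H82.OC.Rk

/-!
# OC-B2: collapses and closure points

* `col_lt`, `exists_of_lt_col`: as `colp_lt`, `exists_of_lt_colp` in `H17/Omega/Tree.lean` (the index set
  `{s // s ∈ S ∧ s < o}` is small: a subtype of `Iio o`).
* `col_mono`, `col_congr` (the value only depends on `S ∩ Iio o`; induction), `col_le_self` (induction).
* `col_lt_omega1`: `S ∩ Iio o` countable: `Ordinal.iSup_lt_omega_one` and induction on `o`.
* `countable_of_col`: `col S` is injective on `S ∩ Iio o` with values below `col S o < ω₁`, and `Iio` of a countable ordinal is countable.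
* `col_image`: `col S '' {s ∈ S | s < o} = Iio (col S o)` (`col_lt`, `exists_of_lt_col`).
* `WFx.wfOn`: let `s` be a descending sequence over `S`; `S' =` the countable set of all ordinals that occur in the `s n`.  `ρ = col S'` is
  strictly monotone on `S'`, with values `< η := col S' o < ω₁` (`o` a bound of `S'`), so `tmap ρ (s n)` is descending over `Iio η` (`OInv`).
* `exists_mem_Clh`: `ζ = sup a_n`, `a_0 = α + 1`, `a_{n+1} = max (a_n + 1) (sup {h ξ + 1 : ξ < a_n})` (`< ω₁`: `Iio a_n` is countable).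
* `exists_Okh_sup`: `h' ξ = ⨆ n, h n ξ` (`Ordinal.iSup_lt_omega_one`, `Ordinal.le_iSup`).
* `exists_fix`: for `ξ < ω₁` there is `s ∈ Clh h` with `col (Clh h) s ≥ ξ`: otherwise `col (Clh h) ω₁ ≤ ξ + 1 < ω₁`, so `Clh h` would be countable
  (`countable_of_col`), hence bounded below `ω₁`, contradicting `exists_mem_Clh`.  Let `e ξ` be such an `s` (`< ω₁`) and
  `h' ξ = max (h ξ) (e ξ)`.  If `ζ ∈ Clh h'`: `ζ ∈ Clh h`, and for `ξ < ζ`: `e ξ < ζ`, `ξ ≤ col (e ξ) < col ζ` (`e ξ ∈ Clh h`), so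
  `ζ ≤ col (Clh h) ζ ≤ ζ`.
* `WF_iff`: `Pool.Agent.H17.Omega.T8.WF x` is `WFx` for `cd t t' = cdL (.mem 0 1) [t, t']` (`E x = Et ..` by definition).  For a countable
  ordinal (`η.card ≤ ℵ₀ ↔ η < ω₁`) compare `WellFounded` of the restricted relation with the absence of descending
  sequences (`wellFounded_iff_isEmpty_descending_chain`; a descending sequence of the restricted relation consists of terms over
  `Iio η`, `Over (fun _ => η) t ↔ TmOn (Iio η) t`).
* `OInv_E`: `OInv (fun t t' => cdL (.mem 0 1) [t, t'])`: `lb (tmap ρ t) = lb t`, `os (tmap ρ t) = (os t).map ρ`, and `pat` only depends on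
  the comparisons `ξ < η` between entries (`ρ a < ρ b ↔ a < b` for occurring `a`, `b`, since `ρ` is strictly increasing on them).
-/

set_option autoImplicit false
set_option linter.unusedVariables false
set_option linter.unusedSectionVars false
set_option linter.unusedSimpArgs false
set_option linter.deprecated false

universe u v w

open scoped ZFSet Ordinal

namespace Pool.Agent.H82.OC

open Pool.Agent.H17.Omega Pool.Agent.H17.Omega.T8

section

variable {S S' : Set Ordinal.{u}} {s o o' : Ordinal.{u}}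

instance col_small : Small.{u} {s : Ordinal.{u} // s ∈ S ∧ s < o} :=
  small_of_injective (β := Set.Iio o) (f := fun s => ⟨s.1, s.2.2⟩) fun a b h => by
    simp only [Subtype.mk.injEq] at h
    exact Subtype.ext h

theorem col_eq : col S o = ⨆ s : {s : Ordinal.{u} // s ∈ S ∧ s < o}, Order.succ (col S s.1) := by
  rw [col]

theorem col_lt (hs : s ∈ S) (h : s < o) : col S s < col S o := by
  rw [col_eq (o := o)]
  exact (Order.lt_succ _).trans_le
    (Ordinal.le_iSup (fun s : {s : Ordinal.{u} // s ∈ S ∧ s < o} => Order.succ (col S s.1))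
      ⟨s, hs, h⟩)

theorem exists_of_lt_col (h : o' < col S o) : ∃ s ∈ S, s < o ∧ col S s = o' := by
  induction o using WellFoundedLT.induction generalizing o' with
  | ind o ih =>
    rw [col_eq (o := o), Ordinal.lt_iSup_iff] at h
    obtain ⟨⟨n, hn, hno⟩, h⟩ := h
    rcases (Order.lt_succ_iff.1 h).lt_or_eq with h1 | h1
    · obtain ⟨m, hm, hmn, h2⟩ := ih _ hno h1
      exact ⟨m, hm, hmn.trans hno, h2⟩
    · exact ⟨n, hn, hno, h1.symm⟩

theorem col_mono (h : o ≤ o') : col S o ≤ col S o' := by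
  rw [col_eq (o := o)]
  refine Ordinal.iSup_le ?_
  rintro ⟨s, hs, hso⟩
  exact Order.succ_le_of_lt (col_lt hs (hso.trans_le h))

theorem col_le_self : col S o ≤ o := by
  induction o using WellFoundedLT.induction with
  | ind o ih =>
    rw [col_eq (o := o)]
    refine Ordinal.iSup_le ?_
    rintro ⟨s, hs, hso⟩
    exact Order.succ_le_of_lt ((ih s hso).trans_lt hso)

theorem col_congr (h : ∀ s < o, s ∈ S ↔ s ∈ S') : col S o = col S' o := by
  induction o using WellFoundedLT.induction with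
  | ind o ih =>
    have ih' : ∀ s < o, col S s = col S' s := fun s hs => ih s hs fun r hr => h r (hr.trans hs)
    apply le_antisymm
    · rw [col_eq (o := o)]
      refine Ordinal.iSup_le ?_
      rintro ⟨s, hs, hso⟩
      rw [ih' s hso]
      exact Order.succ_le_of_lt (col_lt ((h s hso).1 hs) hso)
    · rw [col_eq (o := o)]
      refine Ordinal.iSup_le ?_
      rintro ⟨s, hs, hso⟩
      rw [← ih' s hso]
      exact Order.succ_le_of_lt (col_lt ((h s hso).2 hs) hso)

theorem col_lt_omega1 (h : {s | s ∈ S ∧ s < o}.Countable) : col S o < ω₁ := by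
  induction o using WellFoundedLT.induction with
  | ind o ih =>
    rw [col_eq (o := o)]
    have : Countable {s : Ordinal.{u} // s ∈ S ∧ s < o} := h.to_subtype
    refine Ordinal.iSup_lt_omega_one ?_
    rintro ⟨s, hs, hso⟩
    have h1 : {r | r ∈ S ∧ r < s}.Countable := by
      refine h.mono ?_
      rintro r ⟨hr, hrs⟩
      exact ⟨hr, lt_trans hrs hso⟩
    exact (Cardinal.isSuccLimit_omega 1).succ_lt (ih s hso h1)

theorem col_lt_omega1_iff {η : Ordinal.{u}} : η < ω₁ ↔ η.card ≤ Cardinal.aleph0 := by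
  rw [← Cardinal.ord_aleph, Cardinal.lt_ord, ← Cardinal.succ_aleph0, Order.lt_succ_iff]

theorem col_countable_iff {η : Ordinal.{u}} :
    (Set.Iio η).Countable ↔ η.card ≤ Cardinal.aleph0 := by
  rw [← Cardinal.le_aleph0_iff_set_countable, Cardinal.mk_Iio_ordinal, Cardinal.lift_le_aleph0]

theorem countable_Iio {η : Ordinal.{u}} (h : η < ω₁) : (Set.Iio η).Countable :=
  col_countable_iff.2 (col_lt_omega1_iff.1 h)

theorem lt_omega1_of_countable {η : Ordinal.{u}} (h : (Set.Iio η).Countable) : η < ω₁ :=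
  col_lt_omega1_iff.2 (col_countable_iff.1 h)

theorem countable_of_col (h : col S o < ω₁) : {s | s ∈ S ∧ s < o}.Countable := by
  have h1 : Set.MapsTo (col S) {s | s ∈ S ∧ s < o} (Set.Iio (col S o)) := fun s hs =>
    col_lt hs.1 hs.2
  refine h1.countable_of_injOn ?_ (countable_Iio h)
  intro a ha b hb hab
  rcases lt_trichotomy a b with h2 | h2 | h2
  · exact absurd hab (col_lt ha.1 h2).ne
  · exact h2
  · exact absurd hab (col_lt hb.1 h2).ne'

theorem col_image : col S '' {s | s ∈ S ∧ s < o} = Set.Iio (col S o) := by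
  ext r
  constructor
  · rintro ⟨s, ⟨hs, hso⟩, rfl⟩
    exact col_lt hs hso
  · intro hr
    obtain ⟨s, hs, hso, h⟩ := exists_of_lt_col hr
    exact ⟨s, ⟨hs, hso⟩, h⟩

end

theorem WFx.wfOn {cd : Tm.{u} → Tm.{u} → ℕ} (hc : OInv cd) {x : ℕ → ℕ} (h : WFx cd x)
    (S : Set Ordinal.{u}) : WFOn cd x S := by
  intro s hs
  by_contra hcon
  push Not at hcon
  obtain ⟨S', hS'⟩ : ∃ S' : Set Ordinal.{u}, S' = ⋃ n, {o | o ∈ (s n).2.map Prod.snd} := ⟨_, rfl⟩
  have hcnt : S'.Countable := by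
    rw [hS']
    refine Set.countable_iUnion fun n => ?_
    exact (List.finite_toSet _).countable
  have : Countable S' := hcnt.to_subtype
  obtain ⟨b, hb⟩ : BddAbove S' := Ordinal.bddAbove_of_small
  have hlt : ∀ r ∈ S', r < Order.succ b := fun r hr => Order.lt_succ_iff.2 (hb hr)
  have hη : col S' (Order.succ b) < ω₁ := col_lt_omega1 (hcnt.mono fun r hr => hr.1)
  have hmono : StrictMonoOn (col S') S' := fun r hr r' _ hrr' => col_lt hr hrr'
  have hmap : Set.MapsTo (col S') S' (Set.Iio (col S' (Order.succ b))) := fun r hr =>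
    col_lt hr (hlt r hr)
  obtain ⟨n, hn⟩ := WFOn.of_map hc hmono hmap (h _ hη) s (by
    intro n p hp
    rw [hS']
    exact Set.mem_iUnion.2 ⟨n, List.mem_map_of_mem hp⟩)
  exact hn (hcon n)

theorem exists_mem_Clh {h : Ordinal.{u} → Ordinal.{u}} (hh : Okh h) {α : Ordinal.{u}} (hα : α < ω₁) :
    ∃ ζ ∈ Clh h, α < ζ := by
  have hlim : Order.IsSuccLimit (ω₁ : Ordinal.{u}) := Cardinal.isSuccLimit_omega 1
  obtain ⟨a, ha0, hasucc⟩ : ∃ a : ℕ → Ordinal.{u}, a 0 = Order.succ α ∧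
      ∀ n, a (n + 1) = max (Order.succ (a n)) (⨆ ξ : Set.Iio (a n), Order.succ (h ξ.1)) :=
    ⟨fun n => Nat.rec (Order.succ α)
      (fun _ b => max (Order.succ b) (⨆ ξ : Set.Iio b, Order.succ (h ξ.1))) n, rfl, fun n => rfl⟩
  have hlt : ∀ n, a n < ω₁ := by
    intro n
    induction n with
    | zero => rw [ha0]; exact hlim.succ_lt hα
    | succ n ih =>
      rw [hasucc]
      refine max_lt (hlim.succ_lt ih) ?_
      have : Countable (Set.Iio (a n)) := (countable_Iio ih).to_subtype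
      refine Ordinal.iSup_lt_omega_one ?_
      rintro ⟨ξ, hξ⟩
      exact hlim.succ_lt (hh ξ (lt_trans hξ ih))
  have hle : ∀ n, a n ≤ ⨆ n, a n := fun n => Ordinal.le_iSup a n
  have h0 : α < ⨆ n, a n := by
    refine lt_of_lt_of_le ?_ (hle 0)
    rw [ha0]
    exact Order.lt_succ α
  refine ⟨⨆ n, a n, ⟨lt_of_le_of_lt (zero_le (a := α)) h0, Ordinal.iSup_lt_omega_one hlt, ?_⟩, h0⟩
  intro ξ hξ
  rw [Ordinal.lt_iSup_iff] at hξ
  obtain ⟨n, hn⟩ := hξ
  refine lt_of_lt_of_le (Order.lt_succ _) (le_trans ?_ (hle (n + 1)))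
  rw [hasucc]
  refine le_trans ?_ (le_max_right _ _)
  exact Ordinal.le_iSup (fun ξ : Set.Iio (a n) => Order.succ (h ξ.1)) ⟨ξ, hn⟩

theorem exists_Okh_sup {h : ℕ → Ordinal.{u} → Ordinal.{u}} (hh : ∀ n, Okh (h n)) :
    ∃ h' : Ordinal.{u} → Ordinal.{u}, Okh h' ∧ ∀ n, Clh h' ⊆ Clh (h n) := by
  refine ⟨fun ξ => ⨆ n, h n ξ, ?_, ?_⟩
  · intro ξ hξ
    exact Ordinal.iSup_lt_omega_one fun n => hh n ξ hξ
  · rintro n ζ ⟨h0, h1, h2⟩
    refine ⟨h0, h1, fun ξ hξ => lt_of_le_of_lt ?_ (h2 ξ hξ)⟩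
    exact Ordinal.le_iSup (fun n => h n ξ) n

theorem exists_fix {h : Ordinal.{u} → Ordinal.{u}} (hh : Okh h) :
    ∃ h' : Ordinal.{u} → Ordinal.{u}, Okh h' ∧ Clh h' ⊆ Clh h ∧
      ∀ ζ ∈ Clh h', col (Clh h) ζ = ζ := by
  have key : ∀ ξ : Ordinal.{u}, ξ < ω₁ → ∃ s, s ∈ Clh h ∧ ξ ≤ col (Clh h) s := by
    intro ξ hξ
    by_contra hcon
    push Not at hcon
    have h1 : col (Clh h) ω₁ ≤ ξ := by
      rw [col_eq]
      refine Ordinal.iSup_le ?_
      rintro ⟨s, hs, hso⟩
      exact Order.succ_le_of_lt (hcon s hs)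
    have h2 : {s | s ∈ Clh h ∧ s < ω₁}.Countable := countable_of_col (lt_of_le_of_lt h1 hξ)
    have : Countable {s : Ordinal.{u} // s ∈ Clh h ∧ s < ω₁} := h2.to_subtype
    have h3 : (⨆ s : {s : Ordinal.{u} // s ∈ Clh h ∧ s < ω₁}, s.1) < ω₁ :=
      Ordinal.iSup_lt_omega_one fun s => s.2.2
    obtain ⟨ζ, hζ, hlt⟩ := exists_mem_Clh hh h3
    have h4 := Ordinal.le_iSup (fun s : {s : Ordinal.{u} // s ∈ Clh h ∧ s < ω₁} => s.1)
      ⟨ζ, hζ, hζ.2.1⟩
    exact absurd hlt (not_lt.2 h4)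
  choose! e he using key
  refine ⟨fun ξ => max (h ξ) (e ξ), ?_, ?_, ?_⟩
  · intro ξ hξ
    exact max_lt (hh ξ hξ) (he ξ hξ).1.2.1
  · rintro ζ ⟨h0, h1, h2⟩
    exact ⟨h0, h1, fun ξ hξ => lt_of_le_of_lt (le_max_left _ _) (h2 ξ hξ)⟩
  · rintro ζ ⟨h0, h1, h2⟩
    refine le_antisymm col_le_self (le_of_forall_lt fun ξ hξ => ?_)
    have h3 := he ξ (hξ.trans h1)
    have h4 : e ξ < ζ := lt_of_le_of_lt (le_max_right _ _) (h2 ξ hξ)
    exact lt_of_le_of_lt h3.2 (col_lt h3.1 h4)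

theorem WF_iff {x : ℕ → ℕ} : Pool.Agent.H17.Omega.T8.WF.{u} x ↔
    WFx (fun t t' : Tm.{u} => cdL (.mem 0 1) [t, t']) x := by
  constructor
  · intro h η hη s hs
    have h1 := h η (col_lt_omega1_iff.1 hη)
    rw [wellFounded_iff_isEmpty_descending_chain] at h1
    by_contra hcon
    push Not at hcon
    exact h1.false ⟨s, fun n => ⟨hs (n + 1), hs n, hcon n⟩⟩
  · intro h η hη
    rw [wellFounded_iff_isEmpty_descending_chain]
    refine ⟨?_⟩
    rintro ⟨s, hs⟩
    obtain ⟨n, hn⟩ := h η (col_lt_omega1_iff.2 hη) s (fun n => (hs n).2.1)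
    exact hn (hs n).2.2

theorem ltAt_map {ρ : Ordinal.{u} → Ordinal.{u}} {l : List (List Ordinal.{u})}
    (hρ : ∀ la ∈ l, ∀ ξ ∈ la, ∀ lb ∈ l, ∀ η ∈ lb, ξ < η → ρ ξ < ρ η) (p q : ℕ × ℕ) :
    ltAt (l.map (List.map ρ)) p q ↔ ltAt l p q := by
  unfold ltAt
  simp only [List.getElem?_map, Option.map_eq_some_iff]
  constructor
  · rintro ⟨_, ξ', _, η', ⟨la, h1, rfl⟩, h2, ⟨lb, h3, rfl⟩, h4, h5⟩
    rw [List.getElem?_map, Option.map_eq_some_iff] at h2 h4
    obtain ⟨ξ, h2, rfl⟩ := h2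
    obtain ⟨η, h4, rfl⟩ := h4
    refine ⟨la, ξ, lb, η, h1, h2, h3, h4, ?_⟩
    have m1 := List.mem_of_getElem? h1
    have m2 := List.mem_of_getElem? h2
    have m3 := List.mem_of_getElem? h3
    have m4 := List.mem_of_getElem? h4
    rcases lt_trichotomy ξ η with h6 | h6 | h6
    · exact h6
    · rw [h6] at h5
      exact absurd h5 (lt_irrefl _)
    · exact absurd h5 (not_lt.2 (hρ lb m3 η m4 la m1 ξ m2 h6).le)
  · rintro ⟨la, ξ, lb, η, h1, h2, h3, h4, h5⟩
    refine ⟨la.map ρ, ρ ξ, lb.map ρ, ρ η, ⟨la, h1, rfl⟩, ?_, ⟨lb, h3, rfl⟩, ?_, ?_⟩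
    · rw [List.getElem?_map, h2]
      rfl
    · rw [List.getElem?_map, h4]
      rfl
    · exact hρ la (List.mem_of_getElem? h1) ξ (List.mem_of_getElem? h2) lb
        (List.mem_of_getElem? h3) η (List.mem_of_getElem? h4) h5

theorem pat_map {ρ : Ordinal.{u} → Ordinal.{u}} {l : List (List Ordinal.{u})}
    (hρ : ∀ la ∈ l, ∀ ξ ∈ la, ∀ lb ∈ l, ∀ η ∈ lb, ξ < η → ρ ξ < ρ η) :
    pat (l.map (List.map ρ)) = pat l := by
  have h1 : posL (l.map (List.map ρ)) = posL l := by
    unfold posL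
    rw [List.length_map, List.map_map]
    congr 3
    apply List.map_congr_left
    intro a _
    simp
  classical
  unfold pat
  rw [h1]
  ext q
  rw [Finset.mem_filter, Finset.mem_filter, ltAt_map hρ q.1 q.2]

theorem OInv_E : OInv (fun t t' : Tm.{u} => cdL (.mem 0 1) [t, t']) := by
  intro ρ t t' h
  have hlb : ∀ t : Tm.{u}, lb (tmap ρ t) = lb t := by
    intro t
    unfold lb tmap
    simp [List.map_map, Function.comp_def]
  have hos : ∀ t : Tm.{u}, os (tmap ρ t) = (os t).map ρ := by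
    intro t
    unfold os tmap
    simp [List.map_map, Function.comp_def]
  have h2 : pat [os (tmap ρ t), os (tmap ρ t')] = pat [os t, os t'] := by
    rw [hos, hos]
    refine pat_map (l := [os t, os t']) ?_
    have hmem : ∀ la ∈ [os t, os t'], ∀ ξ ∈ la, ∃ p ∈ t.2 ++ t'.2, p.2 = ξ := by
      intro la hla ξ hξ
      simp only [List.mem_cons, List.not_mem_nil, or_false] at hla
      rcases hla with rfl | rfl
      · obtain ⟨p, hp, rfl⟩ := List.mem_map.1 hξ
        exact ⟨p, List.mem_append_left _ hp, rfl⟩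
      · obtain ⟨p, hp, rfl⟩ := List.mem_map.1 hξ
        exact ⟨p, List.mem_append_right _ hp, rfl⟩
    intro la hla ξ hξ lb hlb η hη hlt
    obtain ⟨p, hp, rfl⟩ := hmem la hla ξ hξ
    obtain ⟨q, hq, rfl⟩ := hmem lb hlb η hη
    exact h p hp q hq hlt
  show cdL (.mem 0 1) [tmap ρ t, tmap ρ t'] = cdL (.mem 0 1) [t, t']
  unfold cdL
  simp only [List.map_cons, List.map_nil]
  rw [hlb, hlb, h2]

end Pool.Agent.H82.OC
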