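import Pool.Agent.H82.OC.ChnStep
import Pool.Agent.H82.OC.Col

/-!
# OC-B5: chains of length `ω₁`

`exists_chn`.  Let `Ω` be as in `exists_chnStep`, `Φ0 (2n) = Ω n`, `Φ0 (2n+1) = Φ n`, `Φ' = cura Φ0`.  Choose functions `nx`, `xi` with the properties of
`exists_chnStep` for every countable `Y` with `Clo Φ' Y`.  Define by well-founded recursion
`Y α = Y0 ∪ ⋃ β < α, nx (Y β)`, `ξ α = xi (Y α)`.  By induction on `α < ω₁`: (I_α) `Y α` is countable (`countable_Iio`), `Clo Φ' (Y α)`, and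
`Y β ⊆ nx (Y β) ⊆ Y α` for `β < α`.  (`α = 0`: `Y0`; successor: `Y (β+1) = nx (Y β)`, because `nx (Y β') ⊆ Y β ⊆ nx (Y β)` for `β' < β`;
limit: `Y α = ⋃ β < α, Y β`, a directed union, because `nx (Y β) ⊆ Y (β+1)`.)
`init`: `μ < ξ α`, `μ ∈ Y β`, `α < β` implies `μ ∈ Y α`: induction on `β`.  `β = β' + 1`: `μ ∈ nx (Y β')`, and `ξ α ≤ ξ β'` (if `α < β'`: `ξ α ∈ Y β'`, and
`above` for `Y β'`), so `μ ∈ Y β'`.  Limit: `μ ∈ Y β''`.  `low`: the same induction for `x ∈ V_ γ`.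
`Clo Φ (Y α)` from `Clo Φ' (Y α)`: `Φ n = Φ0 (2n+1) = cura Φ0 (Nat.pair 0 (2n+1))`.

`IsChn.exists_h`.  Let `S α = Ords κ (Y α)`, `kb α = col (S α) κ` (`α < ω₁`).  `S β ∩ ξ α = S α` for `α < β` (`init`, `above`, `sub`), so
`col (S β) (ξ α) = col (S α) (ξ α) = kb α` (`col_congr`; `col (S α) (ξ α) = col (S α) κ` because all elements of `S α` are `< ξ α`: both are
determined by `S α`; show `≤` by `col_mono` and `≥` by `exists_of_lt_col`).  `ξ α ∈ S β`, so `kb α < kb β` (`col_lt`).  `kb α < ω₁` (`col_lt_omega1`).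
If `α` is a limit and `o < kb α` there is `s ∈ S α`, `col (S α) s = o` (`exists_of_lt_col`), `s ∈ Y β` for some `β < α` (`cont`), so `s < ξ β` and
`o = col (S α) s ≤ col (S α) (ξ β) = kb β`: so `kb α = sup_{β<α} kb β`.  `β ≤ kb β` for all `β` (strictly increasing).
Let `g ξ = kb (ξ + 1)`.  `Okh g`.  If `η ∈ Clh g`: `η` is a limit (`ξ < η → ξ + 1 ≤ kb (ξ+1) = g ξ < η`) and `kb η = η`.
So `col (S η) '' S η = Iio (kb η) = Iio η` (`col_image` with `o = κ`), and for `ζ ∈ Clh g`, `ζ < η`: `ξ ζ ∈ S η`, `col (S η) (ξ ζ) = kb ζ = ζ`.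
-/

set_option autoImplicit false
set_option linter.unusedVariables false
set_option linter.unusedSectionVars false
set_option linter.unusedSimpArgs false
set_option linter.deprecated false

universe u v w

open scoped ZFSet Ordinal

namespace Pool.Agent.H82.OC

open Pool.Agent.H17.Omega Pool.Agent.H17.Omega.T8

/-- The recursion of `exists_chn`. -/
noncomputable def chnY (nx : Set ZFSet.{u} → Set ZFSet.{u}) (Y0 : Set ZFSet.{u})
    (α : Ordinal.{u}) : Set ZFSet.{u} :=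
  Y0 ∪ ⋃ β : {β : Ordinal.{u} // β < α}, nx (chnY nx Y0 β.1)
termination_by α
decreasing_by exact β.2

theorem mem_chnY {nx : Set ZFSet.{u} → Set ZFSet.{u}} {Y0 : Set ZFSet.{u}} {α : Ordinal.{u}}
    {x : ZFSet.{u}} : x ∈ chnY nx Y0 α ↔ x ∈ Y0 ∨ ∃ β < α, x ∈ nx (chnY nx Y0 β) := by
  rw [chnY]; simp

theorem chnY_mono {nx : Set ZFSet.{u} → Set ZFSet.{u}} {Y0 : Set ZFSet.{u}} {α β : Ordinal.{u}}
    (h : α ≤ β) : chnY nx Y0 α ⊆ chnY nx Y0 β := by
  intro x hx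
  rw [mem_chnY] at hx ⊢
  rcases hx with hx | ⟨γ, hγ, hx⟩
  · exact Or.inl hx
  · exact Or.inr ⟨γ, hγ.trans_le h, hx⟩

theorem chnY_base {nx : Set ZFSet.{u} → Set ZFSet.{u}} {Y0 : Set ZFSet.{u}} {α : Ordinal.{u}} :
    Y0 ⊆ chnY nx Y0 α := fun x hx => mem_chnY.2 (Or.inl hx)

theorem nx_sub_chnY {nx : Set ZFSet.{u} → Set ZFSet.{u}} {Y0 : Set ZFSet.{u}}
    {α β : Ordinal.{u}} (h : β < α) : nx (chnY nx Y0 β) ⊆ chnY nx Y0 α :=
  fun x hx => mem_chnY.2 (Or.inr ⟨β, h, hx⟩)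

theorem chn_succ_lt {α : Ordinal.{u}} (h : α < ω₁) : α + 1 < ω₁ := by
  have := (Cardinal.isSuccLimit_omega 1).succ_lt h
  simpa using this

theorem exists_chn {κ : Ordinal.{u}} {𝒰 : Ultrafilter Ordinal.{u}} (h : NormalUF κ 𝒰)
    (hω : Ordinal.omega0 < κ) {γ : Ordinal.{u}} (hγ : γ < κ) (Φ : ℕ → ZFSet.{u} → ZFSet.{u}) :
    ∃ Φ' : ℕ → ZFSet.{u} → ZFSet.{u}, ∀ Y0 : Set ZFSet.{u}, Y0.Countable → Clo Φ' Y0 →
      ∃ (Y : Ordinal.{u} → Set ZFSet.{u}) (ξ : Ordinal.{u} → Ordinal.{u}), IsChn κ 𝒰 Φ Y ξ ∧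
        Y 0 = Y0 ∧ ∀ α : Ordinal.{u}, α < ω₁ → ∀ x ∈ V_ γ, x ∈ Y α → x ∈ Y0 := by
  obtain ⟨Om, hOm⟩ := exists_chnStep h hω hγ
  obtain ⟨Φ0, hΦ0⟩ : ∃ Φ0 : ℕ → ZFSet.{u} → ZFSet.{u},
      Φ0 = fun m => if m % 2 = 0 then Om (m / 2) else Φ (m / 2) := ⟨_, rfl⟩
  have he : ∀ n, Φ0 (2 * n) = Om n := by
    intro n
    rw [hΦ0]
    have h1 : (2 * n) % 2 = 0 := by omega
    have h2 : (2 * n) / 2 = n := by omega
    simp only [h1, h2, if_true]
  have ho : ∀ n, Φ0 (2 * n + 1) = Φ n := by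
    intro n
    rw [hΦ0]
    have h1 : (2 * n + 1) % 2 = 1 := by omega
    have h2 : (2 * n + 1) / 2 = n := by omega
    simp only [h1, h2]
    rw [if_neg (by norm_num)]
  have hstep := hOm Φ0 he
  have hstep' : ∀ Y : Set ZFSet.{u}, ∃ (Y' : Set ZFSet.{u}) (ξ : Ordinal.{u}), Y.Countable →
      Clo (cura Φ0) Y → 
        Y'.Countable ∧ Clo (cura Φ0) Y' ∧ ξ < κ ∧ Y ⊆ Y' ∧ ξ.toZFSet ∈ Y' ∧
        (∀ μ < κ, μ.toZFSet ∈ Y → μ < ξ) ∧ (∀ μ < ξ, μ.toZFSet ∈ Y' → μ.toZFSet ∈ Y) ∧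
        (∀ x ∈ V_ γ, x ∈ Y' → x ∈ Y) ∧
        ∀ a ∈ Y, (∀ᶠ ζ in (𝒰 : Filter Ordinal.{u}), ζ.toZFSet ∈ a) → ξ.toZFSet ∈ a := by
    intro Y
    by_cases hY : Y.Countable ∧ Clo (cura Φ0) Y
    · obtain ⟨Y', ξ, hh⟩ := hstep Y hY.1 hY.2
      exact ⟨Y', ξ, fun _ _ => hh⟩
    · exact ⟨∅, 0, fun h1 h2 => absurd ⟨h1, h2⟩ hY⟩
  choose nx xi hnx using hstep'
  refine ⟨cura Φ0, fun Y0 hc0 hcl0 => ?_⟩
  have key : ∀ α : Ordinal.{u}, α < ω₁ →
      (chnY nx Y0 α).Countable ∧ Clo (cura Φ0) (chnY nx Y0 α) := by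
    intro α
    induction α using WellFoundedLT.induction with
    | ind α ih =>
      intro hα
      have ihc : ∀ β < α, (chnY nx Y0 β).Countable ∧ Clo (cura Φ0) (chnY nx Y0 β) :=
        fun β hβ => ih β hβ (hβ.trans hα)
      have hn := fun β (hβ : β < α) => hnx _ (ihc β hβ).1 (ihc β hβ).2
      have hmono : ∀ β β' : Ordinal.{u}, β ≤ β' → β' < α →
          nx (chnY nx Y0 β) ⊆ nx (chnY nx Y0 β') := by
        intro β β' hb hb'
        rcases hb.eq_or_lt with rfl | hb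
        · exact fun _ h => h
        · exact (nx_sub_chnY hb).trans (hn β' hb').2.2.2.1
      refine ⟨?_, ?_, ?_, ?_⟩
      · rw [chnY]
        have : Countable {β : Ordinal.{u} // β < α} := (countable_Iio hα).to_subtype
        exact hc0.union (Set.countable_iUnion fun β => (hn β.1 β.2).1)
      · exact chnY_base hcl0.emp
      · intro x hx y hy
        rw [mem_chnY] at hx hy ⊢
        rcases hx with hx | ⟨β, hβ, hx⟩ <;> rcases hy with hy | ⟨β', hβ', hy⟩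
        · exact Or.inl (hcl0.pair x hx y hy)
        · exact Or.inr ⟨β', hβ', (hn β' hβ').2.1.pair x
            ((hn β' hβ').2.2.2.1 (chnY_base hx)) y hy⟩
        · exact Or.inr ⟨β, hβ, (hn β hβ).2.1.pair x hx y
            ((hn β hβ).2.2.2.1 (chnY_base hy))⟩
        · have hm : max β β' < α := max_lt hβ hβ'
          exact Or.inr ⟨max β β', hm, (hn _ hm).2.1.pair x
            (hmono β _ (le_max_left _ _) hm hx) y (hmono β' _ (le_max_right _ _) hm hy)⟩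
      · intro n x hx
        rw [mem_chnY] at hx ⊢
        rcases hx with hx | ⟨β, hβ, hx⟩
        · exact Or.inl (hcl0.op n x hx)
        · exact Or.inr ⟨β, hβ, (hn β hβ).2.1.op n x hx⟩
  have hn := fun β (hβ : β < ω₁) => hnx _ (key β hβ).1 (key β hβ).2
  have hmem : ∀ α β : Ordinal.{u}, α < β → β < ω₁ →
      (xi (chnY nx Y0 α)).toZFSet ∈ chnY nx Y0 β := by
    intro α β hab hb
    exact nx_sub_chnY hab (hn α (hab.trans hb)).2.2.2.2.1
  have hinit : ∀ β : Ordinal.{u}, ∀ α : Ordinal.{u}, α < β → β < ω₁ →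
      ∀ μ < xi (chnY nx Y0 α), μ.toZFSet ∈ chnY nx Y0 β → μ.toZFSet ∈ chnY nx Y0 α := by
    intro β
    induction β using WellFoundedLT.induction with
    | ind β ih =>
      intro α hab hb μ hμ hm
      rw [mem_chnY] at hm
      rcases hm with hm | ⟨β', hβ', hm⟩
      · exact chnY_base hm
      · rcases lt_trichotomy β' α with h1 | h1 | h1
        · exact nx_sub_chnY h1 hm
        · subst h1
          exact (hn β' (hβ'.trans hb)).2.2.2.2.2.2.1 μ hμ hm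
        · have h2 : xi (chnY nx Y0 α) < xi (chnY nx Y0 β') :=
            (hn β' (hβ'.trans hb)).2.2.2.2.2.1 _ (hn α (hab.trans hb)).2.2.1
              (hmem α β' h1 (hβ'.trans hb))
          have h3 := (hn β' (hβ'.trans hb)).2.2.2.2.2.2.1 μ (hμ.trans h2) hm
          exact ih β' hβ' α h1 (hβ'.trans hb) μ hμ h3
  refine ⟨chnY nx Y0, fun α => xi (chnY nx Y0 α), ?_, ?_, ?_⟩
  · refine ⟨fun α hα => (key α hα).1, fun α hα => ?_, fun α hα => (hn α hα).2.2.1,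
      fun α β hab hb => chnY_mono hab, hmem, fun α β => hinit β α, 
      fun α hα => (hn α hα).2.2.2.2.2.1, fun α hα => (hn α hα).2.2.2.2.2.2.2.2, ?_⟩
    · have hcl := (key α hα).2
      refine ⟨hcl.emp, hcl.pair, fun n x hx => ?_⟩
      have h1 := hcl.op (Nat.pair 0 (2 * n + 1)) x hx
      have e : cura Φ0 (Nat.pair 0 (2 * n + 1)) = Φ n := by
        rw [cura, Nat.unpair_pair]
        show Φ0 (2 * n + 1) = Φ n
        exact ho n
      rw [e] at h1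
      exact h1
    · intro α hα hlim x hx
      rw [mem_chnY] at hx
      rcases hx with hx | ⟨β, hβ, hx⟩
      · exact ⟨0, hlim.bot_lt, chnY_base hx⟩
      · exact ⟨Order.succ β, hlim.succ_lt hβ, nx_sub_chnY (Order.lt_succ β) hx⟩
  · ext x
    rw [mem_chnY]
    constructor
    · rintro (hx | ⟨β, hβ, -⟩)
      · exact hx
      · exact absurd hβ (not_lt_bot)
    · exact Or.inl
  · intro α
    induction α using WellFoundedLT.induction with
    | ind α ih =>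
      intro hα x hxγ hx
      rw [mem_chnY] at hx
      rcases hx with hx | ⟨β, hβ, hx⟩
      · exact hx
      · exact ih β hβ (hβ.trans hα) x hxγ
          ((hn β (hβ.trans hα)).2.2.2.2.2.2.2.1 x hxγ hx)

theorem IsChn.exists_h {κ : Ordinal.{u}} {𝒰 : Ultrafilter Ordinal.{u}}
    {Φ : ℕ → ZFSet.{u} → ZFSet.{u}} {Y : Ordinal.{u} → Set ZFSet.{u}}
    {ξ : Ordinal.{u} → Ordinal.{u}} (h : IsChn κ 𝒰 Φ Y ξ) :
    ∃ g : Ordinal.{u} → Ordinal.{u}, Okh g ∧ ∀ η ∈ Clh g,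
      col (Ords κ (Y η)) '' Ords κ (Y η) = Set.Iio η ∧
      ∀ ζ ∈ Clh g, ζ < η → ξ ζ ∈ Ords κ (Y η) ∧ col (Ords κ (Y η)) (ξ ζ) = ζ := by
  obtain ⟨kb, hkb⟩ : ∃ kb : Ordinal.{u} → Ordinal.{u},
      ∀ α, kb α = col (Ords κ (Y α)) κ := ⟨_, fun _ => rfl⟩
  have hself : ∀ α : Ordinal.{u}, α < ω₁ → col (Ords κ (Y α)) (ξ α) = kb α := by
    intro α hα
    rw [hkb]
    refine le_antisymm (col_mono (h.lt α hα).le) ?_
    by_contra hc
    rw [not_le] at hc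
    obtain ⟨s, hs, hsκ, hse⟩ := exists_of_lt_col hc
    have h1 : s < ξ α := h.above α hα s hs.1 hs.2
    exact absurd (col_lt hs h1) (by rw [hse]; exact lt_irrefl _)
  have hcol : ∀ α β : Ordinal.{u}, α < β → β < ω₁ → col (Ords κ (Y β)) (ξ α) = kb α := by
    intro α β hab hb
    rw [← hself α (hab.trans hb)]
    refine col_congr fun s hs => ?_
    constructor
    · exact fun hh => ⟨hh.1, h.init α β hab hb s hs hh.2⟩
    · exact fun hh => ⟨hh.1, h.sub α β hab.le hb hh.2⟩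
  have hξmem : ∀ α β : Ordinal.{u}, α < β → β < ω₁ → ξ α ∈ Ords κ (Y β) :=
    fun α β hab hb => ⟨h.lt α (hab.trans hb), h.mem α β hab hb⟩
  have hlt : ∀ α β : Ordinal.{u}, α < β → β < ω₁ → kb α < kb β := by
    intro α β hab hb
    rw [← hcol α β hab hb, hkb β]
    exact col_lt (hξmem α β hab hb) (h.lt α (hab.trans hb))
  have hω1 : ∀ α : Ordinal.{u}, α < ω₁ → kb α < ω₁ := by
    intro α hα
    rw [hkb]
    apply col_lt_omega1
    have h1 : (Ordinal.toZFSet ⁻¹' (Y α)).Countable :=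
      (h.cnt α hα).preimage_of_injOn Ordinal.toZFSet_injective.injOn
    exact h1.mono fun s hs => hs.1.2
  have hle : ∀ β : Ordinal.{u}, β < ω₁ → β ≤ kb β := by
    intro β
    induction β using WellFoundedLT.induction with
    | ind β ih =>
      intro hb
      refine le_of_forall_lt fun a ha => ?_
      exact (ih a ha (ha.trans hb)).trans_lt (hlt a β ha hb)
  have hlim : ∀ α : Ordinal.{u}, α < ω₁ → Order.IsSuccLimit α → ∀ o < kb α, ∃ β < α,
      o < kb β := by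
    intro α hα hl o hoα
    rw [hkb] at hoα
    obtain ⟨s, hs, hsκ, hse⟩ := exists_of_lt_col hoα
    obtain ⟨β, hβ, hsβ⟩ := h.cont α hα hl _ hs.2
    refine ⟨β, hβ, ?_⟩
    rw [← hcol β α hβ hα, ← hse]
    exact col_lt hs (h.above β (hβ.trans hα) s hs.1 hsβ)
  refine ⟨fun ζ => kb (ζ + 1), fun ζ hζ => hω1 _ (chn_succ_lt hζ), ?_⟩
  have hfix : ∀ η ∈ Clh (fun ζ => kb (ζ + 1)), kb η = η := by
    rintro η ⟨h0, hη, hcl⟩
    refine le_antisymm ?_ (hle η hη)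
    by_contra hc
    rw [not_le] at hc
    have hl : Order.IsSuccLimit η := by
      refine ⟨fun hm => ?_, ?_⟩
      · exact absurd (hm (bot_le : (⊥ : Ordinal.{u}) ≤ η)) (not_le.2 h0)
      · refine Order.isSuccPrelimit_of_succ_lt fun a ha => ?_
        have h1 : a + 1 < ω₁ := chn_succ_lt (ha.trans hη)
        have h2 := (hle (a + 1) h1).trans_lt (hcl a ha)
        simpa using h2
    obtain ⟨β, hβ, hlt'⟩ := hlim η hη hl η hc
    have h1 : β < β + 1 := by simp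
    have h3 : β + 1 < ω₁ := chn_succ_lt (hβ.trans hη)
    exact absurd (hlt'.trans ((hlt β (β + 1) h1 h3).trans (hcl β hβ))) (lt_irrefl _)
  intro η hη
  refine ⟨?_, fun ζ hζ hζη => ⟨hξmem ζ η hζη hη.2.1, ?_⟩⟩
  · have h1 : {s | s ∈ Ords κ (Y η) ∧ s < κ} = Ords κ (Y η) := by
      ext s
      exact ⟨fun hs => hs.1, fun hs => ⟨hs, hs.1⟩⟩
    have h2 := col_image (S := Ords κ (Y η)) (o := κ)
    rw [h1, ← hkb, hfix η hη] at h2
    exact h2
  · rw [hcol ζ η hζη hη.2.1, hfix ζ hζ]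

end Pool.Agent.H82.OC
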