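import Pool.Agent.H82.OC.Emb

/-!
# OC-A5: the embedding given by a Woodin cardinal

`exists_strong`.  Proof.  Let

  `A = {pair (tag 0) x : x ∈ D} ∪ {pair (tag 1) (pair ν.toZFSet (V_ ν)) : ν < δ} ∪ {pair (tag 2) β.toZFSet}`

(`ZFSet.range` over small types, or `ZFSet.sep` of `V_ δ`: `A = sep (fun z => (∃ x ∈ D, z = pair (tag 0) x) ∨
(∃ ν < δ, z = pair (tag 1) (pair ν.toZFSet (V_ ν))) ∨ z = pair (tag 2) β.toZFSet) (V_ δ)`).
`δ` is a limit ordinal and `α + ω < δ` for `α < δ` (`δ` is an uncountable initial ordinal: `hδ.ord`,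
`hδ.inacc`).  For a limit ordinal `η ≥ ω`: `tag n ∈ V_ η`, `ν.toZFSet ∈ V_ η` (`ν < η`), `V_ ν ∈ V_ η`, and `V_ η` is closed
under `pair` (`rank_pair_lt`).  `j (tag n) = tag n` (`h.empty`, `h.pair_eq`).

Let `κ < δ` be as in `hδ.strong A`.
1. `κ` is a limit ordinal: `κ ≠ 0` since `j ∅ = ∅`; if `κ = μ + 1` then `κ.toZFSet = insert μ.toZFSet μ.toZFSet`
   (`Ordinal.toZFSet_add_one`), `j κ = κ` by `h.insert_eq`: contradiction to `κ ∈ j κ`.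
2. `β < κ`: otherwise take a limit `η` with `β < η < δ` (`η = β + ω`) and `M, j`.
   `z = pair (tag 2) β ∈ A ∩ V_ η`, so `z ∈ j A`.  The `Δ₀` statement
   `∀ z ∈ A, ∀ q ∈ z, ∀ x ∈ q, z = pair t x → x = b` (`t = tag 2`, `b = β.toZFSet`; true in `V` by `tag_inj`) transfers by
   `h.d0`: for the same `z` we get `β.toZFSet = j β.toZFSet`.  Since `κ ≤ β`, `κ.toZFSet ⊆ β.toZFSet`, so
   `j κ ⊆ j β = β`, and `η ∈ j κ` gives `η < β`: contradiction.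
3. Let `d ∈ D`.  Let `ν < δ` with `d ∈ V_ ν`, `η = max ν β + ω < δ`, and `M, j` for `η`.
   (a) `d ∈ j D`: `pair (tag 0) d ∈ A ∩ V_ η` so it is in `j A`; transfer
       `∀ z ∈ A, ∀ q ∈ z, ∀ x ∈ q, z = pair t x → x ∈ D` (`t = tag 0`).
   (b) `V_ ν ⊆ j (V_ κ)`: `pair (tag 1) (pair ν (V_ ν)) ∈ A ∩ V_ η`, so in `j A`; transfer
       `∀ z ∈ A, ∀ q ∈ z, ∀ y ∈ q, z = pair t y → ∀ q' ∈ y, ∀ n ∈ q', ∀ W ∈ q', y = pair n W → n ∈ k → W ⊆ B`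
       (`t = tag 1`, `k = κ.toZFSet`, `B = V_ κ`), and `ν ∈ j κ` since `ν ∈ η ∈ j κ` and `j κ` is transitive (`D0.isTrans`).
   (c) transfer `∀ x ∈ D, x ∈ B → x ∈ D ∩ B`.
-/

set_option autoImplicit false
set_option linter.unusedVariables false
set_option linter.unusedSectionVars false
set_option linter.unusedSimpArgs false
set_option linter.deprecated false

universe u v w

open scoped ZFSet

namespace Pool.Agent.H82.OC

open Pool.Agent.H17.Omega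

theorem IsWoodin.isSuccLimit {δ : Ordinal.{u}} (hδ : IsWoodin δ) : Order.IsSuccLimit δ := by
  rw [← hδ.ord]
  exact Cardinal.isSuccLimit_ord hδ.inacc.aleph0_lt.le

theorem IsWoodin.add_omega_lt {δ : Ordinal.{u}} (hδ : IsWoodin δ) {α : Ordinal.{u}} (hα : α < δ) :
    α + Ordinal.omega0 < δ := by
  have h0 := hδ.inacc.aleph0_lt
  have h1 : Ordinal.omega0 < δ := by
    rw [← hδ.ord, ← Cardinal.ord_aleph0]
    exact Cardinal.ord_lt_ord.2 h0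
  have h2 : Ordinal.IsPrincipal (· + ·) δ := by
    rw [← hδ.ord]
    exact Ordinal.isPrincipal_add_ord h0.le
  exact h2 hα h1

namespace StA5

/-! ### The `Δ₀` statements -/

theorem d0_eq : D0 (fun v : Fin 3 → ZFSet.{u} => ∀ z ∈ v 0, ∀ q ∈ z, ∀ x ∈ q,
    z = ZFSet.pair (v 1) x → x = v 2) :=
  D0.ballZ (D0T.var _) (D0.ballZ D0T.last (D0.ballZ D0T.last
    ((D0.isPair (D0T.var (n := 6) 3) (D0T.var (n := 6) 1) (D0T.var (n := 6) 5)).imp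
      (D0.eqv (D0T.var (n := 6) 5) (D0T.var (n := 6) 2)))))

theorem d0_mem : D0 (fun v : Fin 3 → ZFSet.{u} => ∀ z ∈ v 0, ∀ q ∈ z, ∀ x ∈ q,
    z = ZFSet.pair (v 1) x → x ∈ v 2) :=
  D0.ballZ (D0T.var _) (D0.ballZ D0T.last (D0.ballZ D0T.last
    ((D0.isPair (D0T.var (n := 6) 3) (D0T.var (n := 6) 1) (D0T.var (n := 6) 5)).imp
      (D0.mem (D0T.var (n := 6) 5) (D0T.var (n := 6) 2)))))

theorem d0_lev : D0 (fun v : Fin 4 → ZFSet.{u} => ∀ z ∈ v 0, ∀ q ∈ z, ∀ y ∈ q,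
    z = ZFSet.pair (v 1) y → ∀ q' ∈ y, ∀ n ∈ q', ∀ W ∈ q', y = ZFSet.pair n W → n ∈ v 2 → W ⊆ v 3) :=
  D0.ballZ (D0T.var _) (D0.ballZ D0T.last (D0.ballZ D0T.last
    ((D0.isPair (D0T.var (n := 7) 4) (D0T.var (n := 7) 1) (D0T.var (n := 7) 6)).imp
      (D0.ballZ (D0T.var (n := 7) 6) (D0.ballZ D0T.last (D0.ballZ (D0T.var (n := 9) 7)
        ((D0.isPair (D0T.var (n := 10) 6) (D0T.var (n := 10) 8) (D0T.var (n := 10) 9)).imp
          ((D0.mem (D0T.var (n := 10) 8) (D0T.var (n := 10) 2)).imp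
            (D0.subset (D0T.var (n := 10) 9) (D0T.var (n := 10) 3))))))))))

theorem d0_cap : D0 (fun v : Fin 3 → ZFSet.{u} => ∀ x ∈ v 0, x ∈ v 1 → x ∈ v 2) :=
  D0.ballZ (D0T.var _) ((D0.mem (D0T.var (n := 4) 3) (D0T.var (n := 4) 1)).imp
    (D0.mem (D0T.var (n := 4) 3) (D0T.var (n := 4) 2)))

/-! ### Ranks -/

theorem tag_V {η : Ordinal.{u}} (hη : Order.IsSuccLimit η) : ∀ n, tag.{u} n ∈ V_ η
  | 0 => by
    show (∅ : ZFSet.{u}) ∈ V_ η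
    rw [ZFSet.mem_vonNeumann, ZFSet.rank_empty]
    exact hη.bot_lt
  | n + 1 => rank_pair_lt hη (tag_V hη 0) (tag_V hη n)

theorem ord_V {ν η : Ordinal.{u}} (h : ν < η) : ν.toZFSet ∈ V_ η := by
  rw [ZFSet.mem_vonNeumann, Ordinal.rank_toZFSet]
  exact h

theorem mem_upair (a b : ZFSet.{u}) : ({a, b} : ZFSet.{u}) ∈ ZFSet.pair a b := by
  rw [ZFSet.pair]
  simp

theorem mem_upair_left (a b : ZFSet.{u}) : a ∈ ({a, b} : ZFSet.{u}) := by simp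

theorem mem_upair_right (a b : ZFSet.{u}) : b ∈ ({a, b} : ZFSet.{u}) := by simp

/-- The set that codes `D`, `β` and the levels. -/
noncomputable def cA (δ : Ordinal.{u}) (D : ZFSet.{u}) (β : Ordinal.{u}) : ZFSet.{u} :=
  ZFSet.sep (fun z => (∃ x ∈ D, z = ZFSet.pair (tag 0) x) ∨
    (∃ ν < δ, z = ZFSet.pair (tag 1) (ZFSet.pair ν.toZFSet (V_ ν))) ∨
    z = ZFSet.pair (tag 2) β.toZFSet) (V_ δ)

theorem mem_cA {δ : Ordinal.{u}} (hδ : Order.IsSuccLimit δ) {D : ZFSet.{u}} (hD : D ⊆ V_ δ)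
    {β : Ordinal.{u}} (hβ : β < δ) {z : ZFSet.{u}} : z ∈ cA δ D β ↔
      (∃ x ∈ D, z = ZFSet.pair (tag 0) x) ∨
    (∃ ν < δ, z = ZFSet.pair (tag 1) (ZFSet.pair ν.toZFSet (V_ ν))) ∨
    z = ZFSet.pair (tag 2) β.toZFSet := by
  rw [cA, ZFSet.mem_sep]
  refine ⟨fun h => h.2, fun h => ⟨?_, h⟩⟩
  rcases h with ⟨x, hx, rfl⟩ | ⟨ν, hν, rfl⟩ | rfl
  · exact rank_pair_lt hδ (tag_V hδ 0) (hD hx)
  · exact rank_pair_lt hδ (tag_V hδ 1)
      (rank_pair_lt hδ (ord_V hν) (ZFSet.vonNeumann_mem_of_lt hν))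
  · exact rank_pair_lt hδ (tag_V hδ 2) (ord_V hβ)

theorem tag_ne {m n : ℕ} (h : m ≠ n) : tag.{u} m ≠ tag n := fun e => h (tag_inj e)

theorem j_tag {M : Set ZFSet.{u}} {j : ZFSet.{u} → ZFSet.{u}} (h : ElemEmb M j) :
    ∀ n, j (tag n) = tag n
  | 0 => h.empty
  | n + 1 => by
    show j (ZFSet.pair ∅ (tag n)) = ZFSet.pair ∅ (tag n)
    rw [h.pair_eq, h.empty, j_tag h n]

theorem crit_lim {M : Set ZFSet.{u}} {j : ZFSet.{u} → ZFSet.{u}} (h : ElemEmb M j)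
    {κ : Ordinal.{u}} (hκ : ∀ α < κ, j α.toZFSet = α.toZFSet) (hκ' : κ.toZFSet ∈ j κ.toZFSet) :
    Order.IsSuccLimit κ := by
  rcases Ordinal.zero_or_succ_or_isSuccLimit κ with h0 | ⟨μ, hμ⟩ | hl
  · exfalso
    rw [h0, Ordinal.toZFSet_zero, h.empty] at hκ'
    exact ZFSet.notMem_empty _ hκ'
  · exfalso
    have h1 : j κ.toZFSet = κ.toZFSet := by
      rw [← hμ, Ordinal.toZFSet_succ, h.insert_eq, hκ μ (by rw [← hμ]; exact Order.lt_succ μ)]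
    rw [h1] at hκ'
    exact ZFSet.mem_irrefl _ hκ'
  · exact hl

end StA5

open StA5 in
theorem exists_strong {δ : Ordinal.{u}} (hδ : IsWoodin δ) {D : ZFSet.{u}} (hD : D ⊆ V_ δ)
    {β : Ordinal.{u}} (hβ : β < δ) : ∃ κ, β < κ ∧ κ < δ ∧ Order.IsSuccLimit κ ∧ ∀ d ∈ D,
      ∃ (M : Set ZFSet.{u}) (j : ZFSet.{u} → ZFSet.{u}), ElemEmb M j ∧
        (∀ α < κ, j α.toZFSet = α.toZFSet) ∧ κ.toZFSet ∈ j κ.toZFSet ∧ d ∈ j (D ∩ V_ κ) := by
  have hlim := hδ.isSuccLimit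
  have hA : ∀ {z : ZFSet.{u}}, z ∈ cA δ D β ↔ _ := mem_cA hlim hD hβ
  obtain ⟨κ, hκδ, hκ⟩ := hδ.strong (cA δ D β) (by
    intro z hz
    rw [cA, ZFSet.mem_sep] at hz
    exact hz.1)
  have hlimω : ∀ ν : Ordinal.{u}, Order.IsSuccLimit (ν + Ordinal.omega0) := fun ν =>
    Ordinal.isSuccLimit_add ν Ordinal.isSuccLimit_omega0
  have hltω : ∀ ν : Ordinal.{u}, ν < ν + Ordinal.omega0 := fun ν =>
    lt_add_of_pos_right ν Ordinal.omega0_pos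
  have hκlim : Order.IsSuccLimit κ := by
    obtain ⟨M, j, h, h1, h2, -⟩ := hκ 0 hlim.bot_lt
    exact crit_lim h h1 h2
  refine ⟨κ, ?_, hκδ, hκlim, ?_⟩
  · by_contra hle
    rw [not_lt] at hle
    obtain ⟨M, j, h, h1, h2, h3, h4, h5⟩ := hκ _ (hδ.add_omega_lt hβ)
    have hz : ZFSet.pair (tag 2) β.toZFSet ∈ j (cA δ D β) :=
      (h5 _ (rank_pair_lt (hlimω β) (tag_V (hlimω β) 2) (ord_V (hltω β)))).2
        (hA.2 (Or.inr (Or.inr rfl)))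
    have hV : ∀ z ∈ cA δ D β, ∀ q ∈ z, ∀ x ∈ q, z = ZFSet.pair (tag 2) x → x = β.toZFSet := by
      intro z hz q _ x _ e
      rcases hA.1 hz with ⟨x', _, e'⟩ | ⟨ν, _, e'⟩ | e'
      · rw [e', ZFSet.pair_inj] at e
        exact absurd e.1 (tag_ne (by norm_num))
      · rw [e', ZFSet.pair_inj] at e
        exact absurd e.1 (tag_ne (by norm_num))
      · rw [e', ZFSet.pair_inj] at e
        exact e.2.symm
    have hM : ∀ z ∈ j (cA δ D β), ∀ q ∈ z, ∀ x ∈ q, z = ZFSet.pair (j (tag 2)) x → x = j β.toZFSet :=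
      (h.d0 d0_eq ![cA δ D β, tag 2, β.toZFSet]).1 hV
    have e1 := hM _ hz _ (mem_upair _ _) _ (mem_upair_right _ _) (by rw [j_tag h])
    have h6 : j κ.toZFSet ⊆ β.toZFSet := by
      rw [e1, h.sub_iff]
      exact Ordinal.toZFSet_monotone hle
    have h7 := h6 h3
    rw [Ordinal.toZFSet_mem_toZFSet_iff] at h7
    exact absurd h7 (not_lt.2 (hltω β).le)
  · intro d hd
    have hdδ := hD hd
    rw [ZFSet.mem_vonNeumann] at hdδ
    have hν : Order.succ (ZFSet.rank d) < δ := hlim.succ_lt hdδ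
    set ν := Order.succ (ZFSet.rank d) with hνdef
    have hdν : d ∈ V_ ν := ZFSet.mem_vonNeumann_succ d
    obtain ⟨M, j, h, h1, h2, h3, h4, h5⟩ := hκ _ (hδ.add_omega_lt hν)
    refine ⟨M, j, h, h1, h2, ?_⟩
    have hη := hlimω ν
    -- (a)
    have hza : ZFSet.pair (tag 0) d ∈ j (cA δ D β) :=
      (h5 _ (rank_pair_lt hη (tag_V hη 0) (ZFSet.vonNeumann_subset_of_le (hltω ν).le hdν))).2
        (hA.2 (Or.inl ⟨d, hd, rfl⟩))
    have hVa : ∀ z ∈ cA δ D β, ∀ q ∈ z, ∀ x ∈ q, z = ZFSet.pair (tag 0) x → x ∈ D := by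
      intro z hz q _ x _ e
      rcases hA.1 hz with ⟨x', hx', e'⟩ | ⟨ν, _, e'⟩ | e'
      · rw [e', ZFSet.pair_inj] at e
        rw [← e.2]
        exact hx'
      · rw [e', ZFSet.pair_inj] at e
        exact absurd e.1 (tag_ne (by norm_num))
      · rw [e', ZFSet.pair_inj] at e
        exact absurd e.1 (tag_ne (by norm_num))
    have hMa : ∀ z ∈ j (cA δ D β), ∀ q ∈ z, ∀ x ∈ q, z = ZFSet.pair (j (tag 0)) x → x ∈ j D :=
      (h.d0 d0_mem ![cA δ D β, tag 0, D]).1 hVa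
    have ha : d ∈ j D := hMa _ hza _ (mem_upair _ _) _ (mem_upair_right _ _) (by rw [j_tag h])
    -- (b)
    have hzb : ZFSet.pair (tag 1) (ZFSet.pair ν.toZFSet (V_ ν)) ∈ j (cA δ D β) :=
      (h5 _ (rank_pair_lt hη (tag_V hη 1) (rank_pair_lt hη (ord_V (hltω ν))
        (ZFSet.vonNeumann_mem_of_lt (hltω ν))))).2 (hA.2 (Or.inr (Or.inl ⟨ν, hν, rfl⟩)))
    have hVb : ∀ z ∈ cA δ D β, ∀ q ∈ z, ∀ y ∈ q, z = ZFSet.pair (tag 1) y → ∀ q' ∈ y, ∀ n ∈ q',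
        ∀ W ∈ q', y = ZFSet.pair n W → n ∈ κ.toZFSet → W ⊆ V_ κ := by
      intro z hz q _ y _ e q' _ n _ W _ e2 hn
      rcases hA.1 hz with ⟨x', hx', e'⟩ | ⟨ν', _, e'⟩ | e'
      · rw [e', ZFSet.pair_inj] at e
        exact absurd e.1 (tag_ne (by norm_num))
      · rw [e', ZFSet.pair_inj] at e
        rw [← e.2, ZFSet.pair_inj] at e2
        rw [← e2.1, Ordinal.toZFSet_mem_toZFSet_iff] at hn
        rw [← e2.2]
        exact ZFSet.vonNeumann_subset_of_le hn.le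
      · rw [e', ZFSet.pair_inj] at e
        exact absurd e.1 (tag_ne (by norm_num))
    have hMb : ∀ z ∈ j (cA δ D β), ∀ q ∈ z, ∀ y ∈ q, z = ZFSet.pair (j (tag 1)) y → ∀ q' ∈ y,
        ∀ n ∈ q', ∀ W ∈ q', y = ZFSet.pair n W → n ∈ j κ.toZFSet → W ⊆ j (V_ κ) :=
      (h.d0 d0_lev ![cA δ D β, tag 1, κ.toZFSet, V_ κ]).1 hVb
    have htr : (j κ.toZFSet).IsTransitive :=
      (h.d0 (D0.isTrans (D0T.var (0 : Fin 1))) ![κ.toZFSet]).1
        (ZFSet.isOrdinal_toZFSet κ).isTransitive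
    have hνκ : ν.toZFSet ∈ j κ.toZFSet :=
      htr _ h3 (Ordinal.toZFSet_mem_toZFSet_iff.2 (hltω ν))
    have hb : V_ ν ⊆ j (V_ κ) := hMb _ hzb _ (mem_upair _ _) _ (mem_upair_right _ _)
      (by rw [j_tag h]) _ (mem_upair _ _) _ (mem_upair_left _ _) _ (mem_upair_right _ _) rfl hνκ
    -- (c)
    have hMc : ∀ x ∈ j D, x ∈ j (V_ κ) → x ∈ j (D ∩ V_ κ) :=
      (h.d0 d0_cap ![D, V_ κ, D ∩ V_ κ]).1 fun x hx hx' => ZFSet.mem_inter.2 ⟨hx, hx'⟩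
    exact hMc d ha (hb hdν)

end Pool.Agent.H82.OC
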