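import Pool.Agent.H82.OC.BDefs
import Pool.Agent.H82.OC.Strong

/-!
# OC-B3: normal measures

* `exists_normalUF`: take `κ` and (for `D = {∅}`, `d = ∅`) `M, j` from `exists_strong` (`α < κ < δ`).  Let `cdA A = ZFSet.sep (fun z => ∃ ξ ∈ A, z = ξ.toZFSet) κ.toZFSet`
  for `A : Set Ordinal`, and `𝒰 = {A | κ.toZFSet ∈ j (cdA A)}`.  It is an ultrafilter (`Ultrafilter.ofComplNotMemIff` or build the filter):
  `j` commutes with `∩` and with relative complement in `κ` (`Δ₀` facts via `ElemEmb.d0`), `cdA univ = κ.toZFSet`, `κ ∈ j κ`, `j ∅ = ∅`.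
  `lt`: `cdA (Iio κ) = κ.toZFSet`.  `gt`: `μ < κ`: `{ξ ∈ κ : μ ∈ ξ}`: transfer of `∀ ξ ∈ K, μ ∈ ξ → ξ ∈ A` with `μ = j μ ∈ κ`, `κ ∈ j K`.
  General principle: for `f : Ordinal → V` let `g = lam κ.toZFSet (f ∘ rank)` (a function on `κ`); `j g` is a function on `j κ` (`Δ₀`); let
  `c` be its value at `κ` (`∀ u ∈ K, ∃ p ∈ g, ..`: transfer of [for all `u ∈ K` there is exactly one `v` with `pair u v ∈ g`]).  If `j c = c`
  then `∀ᶠ ξ, f ξ = c`: transfer of `∀ ξ ∈ K, pair ξ c ∈ g → ξ ∈ A` with `A = cdA {ξ | f ξ = c}`.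
  `complete`: `∀ᶠ ξ, f ξ ∈ V_ γ` implies `c ∈ j (V_ γ) = V_ γ` (transfer of `∀ ξ ∈ A', ∃ v ∈ W, pair ξ v ∈ g` with `W = V_ γ ∈ V_ κ`,
  `ElemEmb.fix`), so `j c = c`.  `normal`: `c ∈ κ` (transfer of `∀ ξ ∈ A', ∀ v, pair ξ v ∈ g → v ∈ ξ`, for `g = lam κ (toZFSet ∘ f ∘ rank)`), so `c = μ.toZFSet`,
  `j c = c`.
* `countable_inter`: otherwise for almost all `ξ` there is a least `n` with `ξ ∉ A n`; let `f ξ = tag n ∈ V_ ω` (`gt` shows `ω < κ`: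
  if `κ ≤ ω`, `κ` is infinite by `gt`/`lt`, and for `κ = ω` `f ξ = ξ.toZFSet`... use instead `hω : ω < κ`).
* `small_inter`: for a family `A a ∈ 𝒰` indexed by `a ∈ V_ γ`, `γ < κ`: otherwise let `f ξ` be some `a ∈ V_ γ` with `ξ ∉ A a`; constant on a
  large set: contradiction.
* `bounded`: a countable subset `B` of `κ` is bounded below `κ`: by `countable_inter` and `gt`, `lt` there is `ξ < κ` with `μ < ξ` for all
  `μ ∈ B`.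
-/

set_option autoImplicit false
set_option linter.unusedVariables false
set_option linter.unusedSectionVars false
set_option linter.unusedSimpArgs false
set_option linter.deprecated false

universe u v w

open scoped ZFSet Ordinal

namespace Pool.Agent.H82.OC

open Pool.Agent.H17.Omega Pool.Agent.H17.Omega.T8

namespace MsB3

/-- The set of ordinals below `κ` in `A`, as a set. -/
noncomputable def cdA (κ : Ordinal.{u}) (A : Set Ordinal.{u}) : ZFSet.{u} :=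
  ZFSet.sep (fun z => ∃ ξ ∈ A, z = ξ.toZFSet) κ.toZFSet

theorem mem_cdA {κ : Ordinal.{u}} {A : Set Ordinal.{u}} {z : ZFSet.{u}} :
    z ∈ cdA κ A ↔ ∃ ξ ∈ A, ξ < κ ∧ z = ξ.toZFSet := by
  rw [cdA, ZFSet.mem_sep]
  constructor
  · rintro ⟨h1, ξ, h2, rfl⟩
    exact ⟨ξ, h2, Ordinal.toZFSet_mem_toZFSet_iff.1 h1, rfl⟩
  · rintro ⟨ξ, h1, h2, rfl⟩
    exact ⟨Ordinal.toZFSet_mem_toZFSet_iff.2 h2, ξ, h1, rfl⟩

theorem ord_mem_cdA {κ : Ordinal.{u}} {A : Set Ordinal.{u}} {ξ : Ordinal.{u}} (h : ξ < κ) :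
    ξ.toZFSet ∈ cdA κ A ↔ ξ ∈ A := by
  rw [mem_cdA]
  constructor
  · rintro ⟨ξ', h1, _, h3⟩
    rwa [Ordinal.toZFSet_injective h3]
  · exact fun h1 => ⟨ξ, h1, h, rfl⟩

theorem mem_K {κ : Ordinal.{u}} {z : ZFSet.{u}} (h : z ∈ κ.toZFSet) : ∃ ξ < κ, z = ξ.toZFSet := by
  obtain ⟨ξ, h1, h2⟩ := Ordinal.mem_toZFSet_iff.1 h
  exact ⟨ξ, h1, h2.symm⟩

theorem cdA_of_iff {κ : Ordinal.{u}} {A : Set Ordinal.{u}} (h : ∀ ξ < κ, ξ ∈ A) :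
    cdA κ A = κ.toZFSet := by
  ext z
  rw [mem_cdA]
  constructor
  · rintro ⟨ξ, _, h2, rfl⟩
    exact Ordinal.toZFSet_mem_toZFSet_iff.2 h2
  · intro hz
    obtain ⟨ξ, h1, rfl⟩ := mem_K hz
    exact ⟨ξ, h ξ h1, h1, rfl⟩

theorem d0_or : D0 (fun v : Fin 3 → ZFSet.{u} => ∀ x ∈ v 0, x ∈ v 1 ∨ x ∈ v 2) :=
  D0.ballZ (D0T.var _) ((D0.mem (D0T.var (n := 4) 3) (D0T.var (n := 4) 1)).or
    (D0.mem (D0T.var (n := 4) 3) (D0T.var (n := 4) 2)))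

theorem d0_dis : D0 (fun v : Fin 2 → ZFSet.{u} => ∀ x ∈ v 0, x ∈ v 1 → False) :=
  D0.ballZ (D0T.var _) ((D0.mem (D0T.var (n := 3) 2) (D0T.var (n := 3) 1)).imp D0.false')

theorem d0_gt : D0 (fun v : Fin 3 → ZFSet.{u} => ∀ x ∈ v 0, v 1 ∈ x → x ∈ v 2) :=
  D0.ballZ (D0T.var _) ((D0.mem (D0T.var (n := 4) 1) (D0T.var (n := 4) 3)).imp
    (D0.mem (D0T.var (n := 4) 3) (D0T.var (n := 4) 2)))

theorem d0_val : D0 (fun v : Fin 2 → ZFSet.{u} => ∀ x ∈ v 0, ∃ p ∈ v 1, ∃ q ∈ p, ∃ w ∈ q,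
    p = ZFSet.pair x w) :=
  D0.ballZ (D0T.var _) (D0.bexZ (D0T.var (n := 3) 1) (D0.bexZ D0T.last (D0.bexZ D0T.last
    (D0.isPair (D0T.var (n := 6) 3) (D0T.var (n := 6) 2) (D0T.var (n := 6) 5)))))

theorem d0_los {Q : ZFSet.{u} → ZFSet.{u} → ZFSet.{u} → Prop}
    (hQ : D0 (fun v : Fin 8 → ZFSet.{u} => Q (v 4) (v 7) (v 3))) :
    D0 (fun v : Fin 4 → ZFSet.{u} => ∀ x ∈ v 0, ∀ p ∈ v 1, ∀ q ∈ p, ∀ w ∈ q,
      p = ZFSet.pair x w → (x ∈ v 2 ↔ Q x w (v 3))) :=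
  D0.ballZ (D0T.var _) (D0.ballZ (D0T.var (n := 5) 1) (D0.ballZ D0T.last (D0.ballZ D0T.last
    ((D0.isPair (D0T.var (n := 8) 5) (D0T.var (n := 8) 4) (D0T.var (n := 8) 7)).imp
      ((D0.mem (D0T.var (n := 8) 4) (D0T.var (n := 8) 2)).iff hQ)))))

variable {M : Set ZFSet.{u}} {j : ZFSet.{u} → ZFSet.{u}} {κ : Ordinal.{u}}

/-- The ultrafilter. -/
def UF (h : ElemEmb M j) (hκ : κ.toZFSet ∈ j κ.toZFSet) : Ultrafilter Ordinal.{u} :=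
  Ultrafilter.ofComplNotMemIff
    { sets := {A | κ.toZFSet ∈ j (cdA κ A)}
      univ_sets := by
        show κ.toZFSet ∈ j (cdA κ Set.univ)
        rw [cdA_of_iff fun _ _ => Set.mem_univ _]
        exact hκ
      sets_of_superset := by
        intro A B hA hAB
        have h1 : cdA κ A ⊆ cdA κ B := by
          intro z hz
          obtain ⟨ξ, h1, h2, rfl⟩ := mem_cdA.1 hz
          exact mem_cdA.2 ⟨ξ, hAB h1, h2, rfl⟩
        have hA' : κ.toZFSet ∈ j (cdA κ A) := hA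
        exact (h.sub_iff.2 h1) hA'
      inter_sets := by
        intro A B hA hB
        have h1 : ∀ x ∈ cdA κ A, x ∈ cdA κ B → x ∈ cdA κ (A ∩ B) := by
          intro z hz hz'
          obtain ⟨ξ, h1, h2, rfl⟩ := mem_cdA.1 hz
          rw [ord_mem_cdA h2] at hz'
          exact (ord_mem_cdA h2).2 ⟨h1, hz'⟩
        have hA' : κ.toZFSet ∈ j (cdA κ A) := hA
        have hB' : κ.toZFSet ∈ j (cdA κ B) := hB
        exact (h.d0 StA5.d0_cap ![cdA κ A, cdA κ B, cdA κ (A ∩ B)]).1 h1 _ hA' hB' }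
    (by
      intro A
      change κ.toZFSet ∉ j (cdA κ Aᶜ) ↔ κ.toZFSet ∈ j (cdA κ A)
      constructor
      · intro hn
        have h1 : ∀ x ∈ κ.toZFSet, x ∈ cdA κ A ∨ x ∈ cdA κ Aᶜ := by
          intro z hz
          obtain ⟨ξ, h2, rfl⟩ := mem_K hz
          rw [ord_mem_cdA h2, ord_mem_cdA h2]
          exact Classical.em _
        exact ((h.d0 d0_or ![κ.toZFSet, cdA κ A, cdA κ Aᶜ]).1 h1 _ hκ).resolve_right hn
      · intro hA hn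
        have h1 : ∀ x ∈ cdA κ A, x ∈ cdA κ Aᶜ → False := by
          intro z hz hz'
          obtain ⟨ξ, h1, h2, rfl⟩ := mem_cdA.1 hz
          rw [ord_mem_cdA h2] at hz'
          exact hz' h1
        exact (h.d0 d0_dis ![cdA κ A, cdA κ Aᶜ]).1 h1 _ hA hn)

theorem mem_UF (h : ElemEmb M j) (hκ : κ.toZFSet ∈ j κ.toZFSet) {A : Set Ordinal.{u}} :
    (∀ᶠ ξ in (UF h hκ : Filter Ordinal.{u}), ξ ∈ A) ↔ κ.toZFSet ∈ j (cdA κ A) := Iff.rfl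

/-- The function `f` on `κ` as a set. -/
noncomputable def gf (κ : Ordinal.{u}) (f : Ordinal.{u} → ZFSet.{u}) : ZFSet.{u} :=
  lam κ.toZFSet (fun z => f z.rank)

theorem mem_gf {f : Ordinal.{u} → ZFSet.{u}} {p : ZFSet.{u}} :
    p ∈ gf κ f ↔ ∃ ξ < κ, p = ZFSet.pair ξ.toZFSet (f ξ) := by
  rw [gf, mem_lam]
  constructor
  · rintro ⟨z, hz, rfl⟩
    obtain ⟨ξ, h1, rfl⟩ := mem_K hz
    exact ⟨ξ, h1, by rw [Ordinal.rank_toZFSet]⟩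
  · rintro ⟨ξ, h1, rfl⟩
    exact ⟨ξ.toZFSet, Ordinal.toZFSet_mem_toZFSet_iff.2 h1, by rw [Ordinal.rank_toZFSet]⟩

theorem exists_val (h : ElemEmb M j) (hκ : κ.toZFSet ∈ j κ.toZFSet) (f : Ordinal.{u} → ZFSet.{u}) :
    ∃ c, ZFSet.pair κ.toZFSet c ∈ j (gf κ f) := by
  have h1 : ∀ x ∈ κ.toZFSet, ∃ p ∈ gf κ f, ∃ q ∈ p, ∃ w ∈ q, p = ZFSet.pair x w := by
    intro x hx
    obtain ⟨ξ, h2, rfl⟩ := mem_K hx
    exact ⟨_, mem_gf.2 ⟨ξ, h2, rfl⟩, _, StA5.mem_upair _ _, _, StA5.mem_upair_right _ _, rfl⟩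
  obtain ⟨p, hp, q, _, w, _, rfl⟩ := (h.d0 d0_val ![κ.toZFSet, gf κ f]).1 h1 _ hκ
  exact ⟨w, hp⟩

theorem los (h : ElemEmb M j) (hκ : κ.toZFSet ∈ j κ.toZFSet) {f : Ordinal.{u} → ZFSet.{u}}
    {c : ZFSet.{u}} (hc : ZFSet.pair κ.toZFSet c ∈ j (gf κ f))
    {Q : ZFSet.{u} → ZFSet.{u} → ZFSet.{u} → Prop}
    (hQ : D0 (fun v : Fin 8 → ZFSet.{u} => Q (v 4) (v 7) (v 3))) (b : ZFSet.{u}) :
    (∀ᶠ ξ in (UF h hκ : Filter Ordinal.{u}), Q ξ.toZFSet (f ξ) b) ↔ Q κ.toZFSet c (j b) := by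
  have h1 : ∀ x ∈ κ.toZFSet, ∀ p ∈ gf κ f, ∀ q ∈ p, ∀ w ∈ q, p = ZFSet.pair x w →
      (x ∈ cdA κ {ξ | Q ξ.toZFSet (f ξ) b} ↔ Q x w b) := by
    intro x hx p hp q _ w _ hpw
    obtain ⟨ξ, h2, rfl⟩ := mem_K hx
    obtain ⟨ξ', h3, h4⟩ := mem_gf.1 hp
    rw [hpw, ZFSet.pair_inj] at h4
    rw [ord_mem_cdA h2, h4.2, ← Ordinal.toZFSet_injective h4.1]
    rfl
  have h2 : ∀ x ∈ j κ.toZFSet, ∀ p ∈ j (gf κ f), ∀ q ∈ p, ∀ w ∈ q, p = ZFSet.pair x w →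
      (x ∈ j (cdA κ {ξ | Q ξ.toZFSet (f ξ) b}) ↔ Q x w (j b)) :=
    (h.d0 (d0_los hQ) ![κ.toZFSet, gf κ f, cdA κ {ξ | Q ξ.toZFSet (f ξ) b}, b]).1 h1
  exact h2 _ hκ _ hc _ (StA5.mem_upair _ _) _ (StA5.mem_upair_right _ _) rfl

theorem normalUF_UF (h : ElemEmb M j) (hκ' : ∀ α < κ, j α.toZFSet = α.toZFSet)
    (hκ : κ.toZFSet ∈ j κ.toZFSet) : NormalUF κ (UF h hκ) where
  lt := by
    have h0 : cdA κ {ξ : Ordinal.{u} | ξ < κ} = κ.toZFSet := cdA_of_iff fun ξ hξ => hξ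
    have h1 := (mem_UF h hκ (A := {ξ : Ordinal.{u} | ξ < κ})).2 (by
      rw [h0]
      exact hκ)
    exact h1
  gt μ hμ := by
    have h1 : ∀ x ∈ κ.toZFSet, μ.toZFSet ∈ x → x ∈ cdA κ {ξ | μ < ξ} := by
      intro x hx hμx
      obtain ⟨ξ, h2, rfl⟩ := mem_K hx
      rw [ord_mem_cdA h2]
      exact Ordinal.toZFSet_mem_toZFSet_iff.1 hμx
    have h2 := (h.d0 d0_gt ![κ.toZFSet, μ.toZFSet, cdA κ {ξ | μ < ξ}]).1 h1
    refine (mem_UF h hκ (A := {ξ | μ < ξ})).2 (h2 _ hκ ?_)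
    change j μ.toZFSet ∈ _
    rw [hκ' μ hμ]
    exact Ordinal.toZFSet_mem_toZFSet_iff.2 hμ
  complete γ hγ f hf := by
    obtain ⟨c, hc⟩ := exists_val h hκ f
    have h1 := (los h hκ hc (Q := fun _ w b => w ∈ b)
      (D0.mem (D0T.var (n := 8) 7) (D0T.var (n := 8) 3)) (V_ γ)).1 hf
    rw [h.fix hκ' (ZFSet.vonNeumann_mem_of_lt hγ)] at h1
    have h2 : j c = c := h.fix hκ' (ZFSet.vonNeumann_subset_of_le hγ.le h1)
    refine ⟨c, (los h hκ hc (Q := fun _ w b => w = b)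
      (D0.eqv (D0T.var (n := 8) 7) (D0T.var (n := 8) 3)) c).2 h2.symm⟩
  normal f hf := by
    obtain ⟨c, hc⟩ := exists_val h hκ (fun ξ => (f ξ).toZFSet)
    have h1 := (los h hκ hc (Q := fun x w _ => w ∈ x)
      (D0.mem (D0T.var (n := 8) 7) (D0T.var (n := 8) 4)) ∅).1 (by
        filter_upwards [hf] with ξ hξ
        exact Ordinal.toZFSet_mem_toZFSet_iff.2 hξ)
    obtain ⟨μ, hμ, rfl⟩ := mem_K h1
    have h2 := (los h hκ hc (Q := fun _ w b => w = b)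
      (D0.eqv (D0T.var (n := 8) 7) (D0T.var (n := 8) 3)) μ.toZFSet).2 (hκ' μ hμ).symm
    refine ⟨μ, ?_⟩
    filter_upwards [h2] with ξ hξ
    exact Ordinal.toZFSet_injective hξ

end MsB3

open MsB3

theorem exists_normalUF {δ : Ordinal.{u}} (hδ : IsWoodin δ) {α : Ordinal.{u}} (hα : α < δ) :
    ∃ (κ : Ordinal.{u}) (𝒰 : Ultrafilter Ordinal.{u}), α < κ ∧ Ordinal.omega0 < κ ∧ κ < δ ∧
      Order.IsSuccLimit κ ∧ NormalUF κ 𝒰 := by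
  have hD : ({∅} : ZFSet.{u}) ⊆ V_ δ := by
    intro z hz
    rw [ZFSet.mem_singleton] at hz
    rw [hz]
    exact StA5.tag_V hδ.isSuccLimit 0
  obtain ⟨κ, h1, h2, h3, h4⟩ := exists_strong hδ hD hα
  obtain ⟨M, j, h, h5, h6, -⟩ := h4 ∅ (ZFSet.mem_singleton.2 rfl)
  exact ⟨κ, UF h h6, h1, h.omega_lt h5 h6, h2, h3, normalUF_UF h h5 h6⟩

theorem NormalUF.small_inter {κ : Ordinal.{u}} {𝒰 : Ultrafilter Ordinal.{u}} (h : NormalUF κ 𝒰)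
    {γ : Ordinal.{u}} (hγ : γ < κ) {A : ZFSet.{u} → Set Ordinal.{u}}
    (hA : ∀ a ∈ V_ γ, ∀ᶠ ξ in (𝒰 : Filter Ordinal.{u}), ξ ∈ A a) :
    ∀ᶠ ξ in (𝒰 : Filter Ordinal.{u}), ∀ a ∈ V_ γ, ξ ∈ A a := by
  classical
  by_contra hn
  rw [← Ultrafilter.eventually_not] at hn
  let f : Ordinal.{u} → ZFSet.{u} := fun ξ =>
    if hx : ∃ a ∈ V_ γ, ξ ∉ A a then hx.choose else ∅
  have hf : ∀ ξ, (¬ ∀ a ∈ V_ γ, ξ ∈ A a) → f ξ ∈ V_ γ ∧ ξ ∉ A (f ξ) := by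
    intro ξ hξ
    push Not at hξ
    have e : f ξ = hξ.choose := dif_pos hξ
    rw [e]
    exact hξ.choose_spec
  obtain ⟨c, hc⟩ := h.complete γ hγ f (hn.mono fun ξ hξ => (hf ξ hξ).1)
  obtain ⟨ξ, h1, h2⟩ := (hn.and hc).exists
  have hcV : c ∈ V_ γ := by
    rw [← h2]
    exact (hf ξ h1).1
  obtain ⟨ξ', ⟨h3, h4⟩, h5⟩ := ((hn.and hc).and (hA c hcV)).exists
  have h6 := (hf ξ' h3).2
  rw [h4] at h6
  exact h6 h5

theorem NormalUF.countable_inter {κ : Ordinal.{u}} {𝒰 : Ultrafilter Ordinal.{u}}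
    (h : NormalUF κ 𝒰) (hω : Ordinal.omega0 < κ) {A : ℕ → Set Ordinal.{u}}
    (hA : ∀ n, ∀ᶠ ξ in (𝒰 : Filter Ordinal.{u}), ξ ∈ A n) :
    ∀ᶠ ξ in (𝒰 : Filter Ordinal.{u}), ∀ n, ξ ∈ A n := by
  have h1 := h.small_inter hω (A := fun a => {ξ | ∀ n, a = tag n → ξ ∈ A n}) (by
    intro a _
    by_cases hx : ∃ n, a = tag n
    · obtain ⟨n, rfl⟩ := hx
      filter_upwards [hA n] with ξ hξ m hm
      rwa [← tag_inj hm]
    · exact Filter.Eventually.of_forall fun ξ n hn => (hx ⟨n, hn⟩).elim)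
  filter_upwards [h1] with ξ hξ n
  exact hξ (tag n) (StA5.tag_V Ordinal.isSuccLimit_omega0 n) n rfl

theorem NormalUF.bounded {κ : Ordinal.{u}} {𝒰 : Ultrafilter Ordinal.{u}} (h : NormalUF κ 𝒰)
    (hω : Ordinal.omega0 < κ) {B : Set Ordinal.{u}} (hB : B.Countable) (hBκ : ∀ μ ∈ B, μ < κ) :
    ∃ ξ < κ, ∀ μ ∈ B, μ < ξ := by
  rcases B.eq_empty_or_nonempty with rfl | hne
  · obtain ⟨ξ, hξ⟩ := h.lt.exists
    exact ⟨ξ, hξ, fun μ hμ => hμ.elim⟩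
  · obtain ⟨e, rfl⟩ := hB.exists_eq_range hne
    have h1 := h.countable_inter hω (A := fun n => {ξ | e n < ξ})
      (fun n => h.gt _ (hBκ _ ⟨n, rfl⟩))
    obtain ⟨ξ, h2, h3⟩ := (h1.and h.lt).exists
    refine ⟨ξ, h3, ?_⟩
    rintro _ ⟨n, rfl⟩
    exact h2 n

end Pool.Agent.H82.OC
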