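import Pool.Agent.H82.OC.BDefs
import Pool.Agent.H82.OC.Meas

/-!
# OC-B4: one step of the chain

Notation: `K = κ.toZFSet`, `CV z` = the `c` with `∀ᶠ ζ in 𝒰, app z ζ.toZFSet = c` if it exists, otherwise `∅`.  Operations:

  Ω 0 z = K                     Ω 1 z = lam K (fun _ => z)              Ω 2 z = lam K (fun u => u)
  Ω 3 z = lam K (fun u => pair (app (fs z) u) (app (sn z) u))           Ω 4 z = CV z
  Ω 5 z = sep (fun u => app z u = CV z) K        Ω 6 z = sep (fun u => app z u ∉ u) K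
  Ω 7 z = sep (fun u => app z u ∉ V_ γ) K        Ω 8 z = sep (fun u => z ∈ u) K        Ω (n+9) z = z

Let `Y` be countable, `Clo (cura Φ) Y`, `Φ (2n) = Ω n` (`Φ n = cura Φ (Nat.pair 0 n)`).  By `NormalUF.countable_inter` (the sets
`{ζ | ζ.toZFSet ∈ a}` for `a ∈ Y` which are large, and `{ζ | ζ < κ}`) there is `ξ < κ` with `ξ.toZFSet ∈ a` for all `a ∈ Y` such that
`∀ᶠ ζ, ζ.toZFSet ∈ a`.  Let `Y' = {app g ξ.toZFSet : g ∈ Y}`.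
- countable; `Y ⊆ Y'` (`Ω 1`, `app_lam`); `ξ.toZFSet ∈ Y'` (`Ω 2`).
- `Clo (cura Φ) Y'`: pairing by `Ω 3` and `App_lam`; `curs Φ k n (app g ξ) = app (curs Φ (k+1) n (pair K g)) ξ` (`ξ.toZFSet ∈ K`, `app_lam`), and
  `curs Φ (k+1) n (pair K g) ∈ Y` since `K ∈ Y`.
- `above`: if `μ.toZFSet ∈ Y`, `μ < κ`: `Ω 8 μ.toZFSet ∈ Y` is large (`gt`), so `μ < ξ`.
- `init`: let `μ.toZFSet = app g ξ`, `μ < ξ`, `g ∈ Y`.  If `∀ᶠ ζ, app g ζ ∉ ζ` then `Ω 6 g ∈ Y` is large, so `app g ξ ∉ ξ`: contradiction.  So (ultrafilter)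
  `∀ᶠ ζ, app g ζ ∈ ζ.toZFSet`, i.e. `rank (app g ζ) < ζ` and `app g ζ = (rank ..).toZFSet`; by `normal` it is almost constant: `= CV g`.
  `Ω 5 g ∈ Y` is large, so `app g ξ = CV g = Ω 4 g ∈ Y`.
- `low`: `x = app g ξ ∈ V_ γ`: the same with `Ω 7` and `complete`.
-/

set_option autoImplicit false
set_option linter.unusedVariables false
set_option linter.unusedSectionVars false
set_option linter.unusedSimpArgs false
set_option linter.deprecated false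

universe u v w

open scoped ZFSet Ordinal

namespace Pool.Agent.H82.OC

open Pool.Agent.H17.Omega Pool.Agent.H17.Omega.T8

open Classical in
/-- The almost constant value. -/
noncomputable def chsCV (𝒰 : Ultrafilter Ordinal.{u}) (z : ZFSet.{u}) : ZFSet.{u} :=
  if h : ∃ c, ∀ᶠ ζ in (𝒰 : Filter Ordinal.{u}), app z ζ.toZFSet = c then h.choose else ∅

theorem chsCV_spec {𝒰 : Ultrafilter Ordinal.{u}} {z : ZFSet.{u}}
    (h : ∃ c, ∀ᶠ ζ in (𝒰 : Filter Ordinal.{u}), app z ζ.toZFSet = c) :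
    ∀ᶠ ζ in (𝒰 : Filter Ordinal.{u}), app z ζ.toZFSet = chsCV 𝒰 z := by
  rw [chsCV, dif_pos h]
  exact h.choose_spec

/-- The operations of the step. -/
noncomputable def chsOm (κ : Ordinal.{u}) (𝒰 : Ultrafilter Ordinal.{u}) (γ : Ordinal.{u}) :
    ℕ → ZFSet.{u} → ZFSet.{u}
  | 0, _ => κ.toZFSet
  | 1, z => lam κ.toZFSet (fun _ => z)
  | 2, _ => lam κ.toZFSet (fun u => u)
  | 3, z => lam κ.toZFSet (fun u => ZFSet.pair (app (fs z) u) (app (sn z) u))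
  | 4, z => chsCV 𝒰 z
  | 5, z => ZFSet.sep (fun u => app z u = chsCV 𝒰 z) κ.toZFSet
  | 6, z => ZFSet.sep (fun u => app z u ∉ u) κ.toZFSet
  | 7, z => ZFSet.sep (fun u => app z u ∉ V_ γ) κ.toZFSet
  | 8, z => ZFSet.sep (fun u => z ∈ u) κ.toZFSet
  | _ + 9, z => z

theorem chsOm5 {κ : Ordinal.{u}} {𝒰 : Ultrafilter Ordinal.{u}} {γ : Ordinal.{u}}
    {z x : ZFSet.{u}} : x ∈ chsOm κ 𝒰 γ 5 z ↔ x ∈ κ.toZFSet ∧ app z x = chsCV 𝒰 z := by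
  simp only [chsOm, ZFSet.mem_sep]

theorem chsOm6 {κ : Ordinal.{u}} {𝒰 : Ultrafilter Ordinal.{u}} {γ : Ordinal.{u}}
    {z x : ZFSet.{u}} : x ∈ chsOm κ 𝒰 γ 6 z ↔ x ∈ κ.toZFSet ∧ app z x ∉ x := by
  simp only [chsOm, ZFSet.mem_sep]

theorem chsOm7 {κ : Ordinal.{u}} {𝒰 : Ultrafilter Ordinal.{u}} {γ : Ordinal.{u}}
    {z x : ZFSet.{u}} : x ∈ chsOm κ 𝒰 γ 7 z ↔ x ∈ κ.toZFSet ∧ app z x ∉ V_ γ := by
  simp only [chsOm, ZFSet.mem_sep]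

theorem chsOm8 {κ : Ordinal.{u}} {𝒰 : Ultrafilter Ordinal.{u}} {γ : Ordinal.{u}}
    {z x : ZFSet.{u}} : x ∈ chsOm κ 𝒰 γ 8 z ↔ x ∈ κ.toZFSet ∧ z ∈ x := by
  simp only [chsOm, ZFSet.mem_sep]

theorem chsOm1 {κ : Ordinal.{u}} {𝒰 : Ultrafilter Ordinal.{u}} {γ : Ordinal.{u}}
    {z x : ZFSet.{u}} (hx : x ∈ κ.toZFSet) : app (chsOm κ 𝒰 γ 1 z) x = z := by
  have h1 := app_lam (f := fun _ => z) hx
  exact h1

theorem chsOm2 {κ : Ordinal.{u}} {𝒰 : Ultrafilter Ordinal.{u}} {γ : Ordinal.{u}}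
    {z x : ZFSet.{u}} (hx : x ∈ κ.toZFSet) : app (chsOm κ 𝒰 γ 2 z) x = x := by
  have h1 := app_lam (f := fun u => u) hx
  exact h1

theorem chsOm3 {κ : Ordinal.{u}} {𝒰 : Ultrafilter Ordinal.{u}} {γ : Ordinal.{u}}
    {g1 g2 x : ZFSet.{u}} (hx : x ∈ κ.toZFSet) :
    app (chsOm κ 𝒰 γ 3 (ZFSet.pair g1 g2)) x = ZFSet.pair (app g1 x) (app g2 x) := by
  have h1 := app_lam (f := fun u => ZFSet.pair (app (fs (ZFSet.pair g1 g2)) u)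
    (app (sn (ZFSet.pair g1 g2)) u)) hx
  rw [fs_pair, sn_pair] at h1
  rw [chsOm, fs_pair, sn_pair]
  exact h1

theorem chsCur {κ : Ordinal.{u}} {f : ZFSet.{u} → ZFSet.{u}} {g x : ZFSet.{u}}
    (hx : x ∈ κ.toZFSet) : app (cur f (ZFSet.pair κ.toZFSet g)) x = f (app g x) := by
  have h1 := app_lam (f := fun u => f (app g u)) hx
  rw [cur, fs_pair, sn_pair]
  exact h1

theorem chs_pos {𝒰 : Ultrafilter Ordinal.{u}} {P : Ordinal.{u} → Prop}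
    (h : ¬ ∀ᶠ ζ in (𝒰 : Filter Ordinal.{u}), ¬ P ζ) : ∀ᶠ ζ in (𝒰 : Filter Ordinal.{u}), P ζ := by
  rw [Ultrafilter.eventually_not] at h
  exact not_not.1 h

theorem exists_chnStep {κ : Ordinal.{u}} {𝒰 : Ultrafilter Ordinal.{u}} (h : NormalUF κ 𝒰)
    (hω : Ordinal.omega0 < κ) {γ : Ordinal.{u}} (hγ : γ < κ) :
    ∃ Ω : ℕ → ZFSet.{u} → ZFSet.{u}, ∀ Φ : ℕ → ZFSet.{u} → ZFSet.{u}, (∀ n, Φ (2 * n) = Ω n) →
      ∀ Y : Set ZFSet.{u}, Y.Countable → Clo (cura Φ) Y → ∃ (Y' : Set ZFSet.{u}) (ξ : Ordinal.{u}),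
        Y'.Countable ∧ Clo (cura Φ) Y' ∧ ξ < κ ∧ Y ⊆ Y' ∧ ξ.toZFSet ∈ Y' ∧
        (∀ μ < κ, μ.toZFSet ∈ Y → μ < ξ) ∧ (∀ μ < ξ, μ.toZFSet ∈ Y' → μ.toZFSet ∈ Y) ∧
        (∀ x ∈ V_ γ, x ∈ Y' → x ∈ Y) ∧
        ∀ a ∈ Y, (∀ᶠ ζ in (𝒰 : Filter Ordinal.{u}), ζ.toZFSet ∈ a) → ξ.toZFSet ∈ a := by
  classical
  refine ⟨chsOm κ 𝒰 γ, ?_⟩
  intro Φ hΦ Y hYc hY
  have hop : ∀ n, ∀ z ∈ Y, chsOm κ 𝒰 γ n z ∈ Y := by
    intro n z hz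
    have h1 := hY.op (Nat.pair 0 (2 * n)) z hz
    have h2 : cura Φ (Nat.pair 0 (2 * n)) = chsOm κ 𝒰 γ n := by
      rw [cura, Nat.unpair_pair]
      show Φ (2 * n) = _
      exact hΦ n
    rwa [h2] at h1
  have hKY : κ.toZFSet ∈ Y := hop 0 ∅ hY.emp
  obtain ⟨y, hy⟩ := hYc.exists_eq_range ⟨_, hY.emp⟩
  have hbig := h.countable_inter hω
    (A := fun n => {ζ | (∀ᶠ ζ' in (𝒰 : Filter Ordinal.{u}), ζ'.toZFSet ∈ y n) → ζ.toZFSet ∈ y n}) (by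
      intro n
      by_cases hn : ∀ᶠ ζ' in (𝒰 : Filter Ordinal.{u}), ζ'.toZFSet ∈ y n
      · exact hn.mono fun ζ hζ _ => hζ
      · exact Filter.Eventually.of_forall fun ζ hc => (hn hc).elim)
  obtain ⟨ξ, hξ1, hξκ⟩ := (hbig.and h.lt).exists
  have hlarge : ∀ a ∈ Y, (∀ᶠ ζ in (𝒰 : Filter Ordinal.{u}), ζ.toZFSet ∈ a) → ξ.toZFSet ∈ a := by
    intro a ha hev
    rw [hy] at ha
    obtain ⟨n, rfl⟩ := ha
    exact hξ1 n hev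
  have hξK : ξ.toZFSet ∈ κ.toZFSet := Ordinal.toZFSet_mem_toZFSet_iff.2 hξκ
  have hKev : ∀ᶠ ζ in (𝒰 : Filter Ordinal.{u}), ζ.toZFSet ∈ κ.toZFSet :=
    h.lt.mono fun ζ hζ => Ordinal.toZFSet_mem_toZFSet_iff.2 hζ
  -- almost constant functions
  have hconst : ∀ g ∈ Y, (∃ c, ∀ᶠ ζ in (𝒰 : Filter Ordinal.{u}), app g ζ.toZFSet = c) →
      app g ξ.toZFSet ∈ Y := by
    intro g hg hc
    have h1 := chsCV_spec hc
    have h2 : ξ.toZFSet ∈ chsOm κ 𝒰 γ 5 g := by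
      apply hlarge _ (hop 5 g hg)
      filter_upwards [h1, hKev] with ζ h3 h4
      exact chsOm5.2 ⟨h4, h3⟩
    have h3 : app g ξ.toZFSet = chsCV 𝒰 g := (chsOm5.1 h2).2
    rw [h3]
    exact hop 4 g hg
  have hsub : Y ⊆ (fun g => app g ξ.toZFSet) '' Y := by
    intro z hz
    exact ⟨chsOm κ 𝒰 γ 1 z, hop 1 z hz, chsOm1 hξK⟩
  refine ⟨(fun g => app g ξ.toZFSet) '' Y, ξ, hYc.image _, ⟨hsub hY.emp, ?_, ?_⟩, hξκ, hsub,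
    ⟨chsOm κ 𝒰 γ 2 ∅, hop 2 ∅ hY.emp, chsOm2 hξK⟩, ?_, ?_, ?_, hlarge⟩
  · rintro _ ⟨g1, hg1, rfl⟩ _ ⟨g2, hg2, rfl⟩
    exact ⟨chsOm κ 𝒰 γ 3 (ZFSet.pair g1 g2), hop 3 _ (hY.pair g1 hg1 g2 hg2), chsOm3 hξK⟩
  · rintro m _ ⟨g, hg, rfl⟩
    have h1 := hY.op (Nat.pair (m.unpair.1 + 1) m.unpair.2) _ (hY.pair _ hKY _ hg)
    have h2 : cura Φ (Nat.pair (m.unpair.1 + 1) m.unpair.2) =
        cur (curs Φ m.unpair.1 m.unpair.2) := by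
      rw [cura, Nat.unpair_pair]
      rfl
    rw [h2] at h1
    exact ⟨_, h1, chsCur hξK⟩
  · intro μ hμ hμY
    have h2 : ξ.toZFSet ∈ chsOm κ 𝒰 γ 8 μ.toZFSet := by
      apply hlarge _ (hop 8 _ hμY)
      filter_upwards [h.gt μ hμ, hKev] with ζ h3 h4
      exact chsOm8.2 ⟨h4, Ordinal.toZFSet_mem_toZFSet_iff.2 h3⟩
    exact Ordinal.toZFSet_mem_toZFSet_iff.1 (chsOm8.1 h2).2
  · rintro μ hμ ⟨g, hg, hgμ⟩
    have hgμ' : app g ξ.toZFSet = μ.toZFSet := hgμ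
    rw [← hgμ']
    apply hconst g hg
    have h1 : ¬ ∀ᶠ ζ in (𝒰 : Filter Ordinal.{u}), app g ζ.toZFSet ∉ ζ.toZFSet := by
      intro hc
      have h2 : ξ.toZFSet ∈ chsOm κ 𝒰 γ 6 g := by
        apply hlarge _ (hop 6 g hg)
        filter_upwards [hc, hKev] with ζ h3 h4
        exact chsOm6.2 ⟨h4, h3⟩
      have h3 : app g ξ.toZFSet ∉ ξ.toZFSet := (chsOm6.1 h2).2
      rw [hgμ'] at h3
      exact h3 (Ordinal.toZFSet_mem_toZFSet_iff.2 hμ)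
    have h2 : ∀ᶠ ζ in (𝒰 : Filter Ordinal.{u}), app g ζ.toZFSet ∈ ζ.toZFSet := chs_pos h1
    obtain ⟨c, hc⟩ := h.normal (fun ζ => (app g ζ.toZFSet).rank) (by
      filter_upwards [h2] with ζ h3
      obtain ⟨a, ha, h4⟩ := Ordinal.mem_toZFSet_iff.1 h3
      rw [← h4, Ordinal.rank_toZFSet]
      exact ha)
    refine ⟨c.toZFSet, ?_⟩
    filter_upwards [h2, hc] with ζ h3 h5
    obtain ⟨a, ha, h4⟩ := Ordinal.mem_toZFSet_iff.1 h3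
    rw [← h5, ← h4, Ordinal.rank_toZFSet]
  · rintro x hx ⟨g, hg, hgx⟩
    have hgx' : app g ξ.toZFSet = x := hgx
    rw [← hgx']
    apply hconst g hg
    have h1 : ¬ ∀ᶠ ζ in (𝒰 : Filter Ordinal.{u}), app g ζ.toZFSet ∉ V_ γ := by
      intro hc
      have h2 : ξ.toZFSet ∈ chsOm κ 𝒰 γ 7 g := by
        apply hlarge _ (hop 7 g hg)
        filter_upwards [hc, hKev] with ζ h3 h4
        exact chsOm7.2 ⟨h4, h3⟩
      have h3 : app g ξ.toZFSet ∉ V_ γ := (chsOm7.1 h2).2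
      rw [hgx'] at h3
      exact h3 hx
    have h2 : ∀ᶠ ζ in (𝒰 : Filter Ordinal.{u}), app g ζ.toZFSet ∈ V_ γ := chs_pos h1
    exact h.complete γ hγ (fun ζ => app g ζ.toZFSet) h2

end Pool.Agent.H82.OC
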