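import Pool.Agent.H82.OC.CDefs

/-!
# OC-C2: contexts exist

`δ` is a regular uncountable cardinal (`hδ.inacc`, `hδ.ord`), so the supremum of countably many ordinals `< δ` is `< δ`
(`countable_sup_lt`).  By well-founded recursion on `Lo z` (`hz : IsWellOrder ℕ (Lo z)`) choose `κ i` with `κ j < κ i` for all `j` with `Lo z j i`
(`exists_normalUF` above the supremum of these `κ j`; prove by induction that a function `κ` on `{j | Lo z j i or j = i}` exists, or define
`κ` by `WellFounded.fix` as `if h : .. then choose .. else 0` and prove the properties by induction), and `𝒰 i` with `NormalUF (κ i) (𝒰 i)`.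
-/

set_option autoImplicit false
set_option linter.unusedVariables false
set_option linter.unusedSectionVars false
set_option linter.unusedSimpArgs false
set_option linter.deprecated false

universe u v w

open scoped ZFSet Ordinal

namespace Pool.Agent.H82.OC

open Pool.Agent.H17.Omega Pool.Agent.H17.Omega.T8

theorem IsWoodin.countable_sup_lt {δ : Ordinal.{u}} (hδ : IsWoodin δ) {ι : Type} [Countable ι]
    {f : ι → Ordinal.{u}} (hf : ∀ i, f i < δ) : ∃ μ < δ, ∀ i, f i < μ := by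
  have hc : Cardinal.aleph0 < δ.cof := by
    rw [← hδ.ord]
    exact hδ.inacc.aleph0_lt.trans_le hδ.inacc.le_cof_ord
  have h1 : Cardinal.lift.{u} (Cardinal.mk ι) < (Ordinal.lift.{0} δ).cof := by
    rw [Ordinal.lift_uzero]
    refine lt_of_le_of_lt ?_ hc
    rw [← Cardinal.lift_aleph0.{u, 0}, Cardinal.lift_le]
    exact Cardinal.mk_le_aleph0
  exact ⟨⨆ i, f i + 1, Ordinal.lift_iSup_add_one_lt_of_lt_cof h1 hf, fun i =>
    (Ordinal.lt_iSup_add_one f i)⟩

theorem exists_ctx {δ : Ordinal.{u}} (hδ : IsWoodin δ) {φ : Fml}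
    (hzfc : ∀ ψ, ZFC ψ → Models {x : ZFSet.{u} | x ∈ V_ δ} ψ)
    (hφ : Models {x : ZFSet.{u} | x ∈ V_ δ} φ) {z : ℕ → ℕ} (hz : WOr z) :
    ∃ C : Ctx.{u}, C.Good φ ∧ C.z = z := by
  have wf : WellFounded (Lo z) := hz.toIsWellFounded.wf
  have step : ∀ (i : ℕ) (g : ∀ j, Lo z j i → {κ : Ordinal.{u} // κ < δ}),
      ∃ κ : {κ : Ordinal.{u} // κ < δ}, (∀ j h, (g j h).1 < κ.1) ∧ Ordinal.omega0 < κ.1 ∧
        Order.IsSuccLimit κ.1 ∧ ∃ 𝒰 : Ultrafilter Ordinal.{u}, NormalUF κ.1 𝒰 := by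
    intro i g
    obtain ⟨μ, hμ, h1⟩ := hδ.countable_sup_lt (ι := {j : ℕ // Lo z j i})
      (f := fun j => (g j.1 j.2).1) (fun j => (g j.1 j.2).2)
    obtain ⟨κ, 𝒰, h2, h3, h4, h5, h6⟩ := exists_normalUF hδ hμ
    exact ⟨⟨κ, h4⟩, fun j h => (h1 ⟨j, h⟩).trans h2, h3, h5, 𝒰, h6⟩
  choose F hF1 hF2 hF3 U hU using step
  let κ : ℕ → {κ : Ordinal.{u} // κ < δ} := wf.fix F
  have hκ : ∀ i, κ i = F i (fun j _ => κ j) := fun i => wf.fix_eq F i
  refine ⟨⟨δ, fun i => (κ i).1, fun i => U i (fun j _ => κ j), z⟩, ?_, rfl⟩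
  constructor
  · exact hz
  · intro i
    show NormalUF (κ i).1 _
    rw [hκ i]
    exact hU i _
  · intro i
    show _ < (κ i).1
    rw [hκ i]
    exact hF2 i _
  · intro i
    show Order.IsSuccLimit (κ i).1
    rw [hκ i]
    exact hF3 i _
  · intro i j h
    show (κ j).1 < (κ i).1
    rw [hκ i]
    exact hF1 i (fun j _ => κ j) j h
  · exact hδ.countable_sup_lt (fun i => (κ i).2)
  · exact hδ.isSuccLimit
  · exact hzfc
  · exact hφ

end Pool.Agent.H82.OC
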