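import Pool.Agent.H17.Omega.D0
import Pool.Agent.H17.Omega.Meager
import Pool.Agent.H17.Omega.Alive

/-!
# T8, part A: definitions

Document: team-store `helper82_T8.md`, part A.
-/

set_option autoImplicit false
set_option linter.unusedVariables false
set_option linter.unusedSectionVars false
set_option linter.unusedSimpArgs false
set_option linter.deprecated false

universe u v w

open scoped ZFSet

namespace Pool.Agent.H82.OC

open Pool.Agent.H17.Omega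

/-! ## Woodin cardinals -/

/-- `j : V → M` is an elementary embedding of the universe into the transitive class `M`
(for all formulas of `{∈, =}`). -/
structure ElemEmb (M : Set ZFSet.{u}) (j : ZFSet.{u} → ZFSet.{u}) : Prop where
  trans : ∀ x ∈ M, ∀ y ∈ x, y ∈ M
  maps : ∀ x, j x ∈ M
  elem : ∀ (φ : Fml) (f : ℕ → ZFSet.{u}), Sat (fun a b : ZFSet.{u} => a ∈ b) φ f ↔
    Sat (fun a b : M => a.1 ∈ b.1) φ (fun n => ⟨j (f n), maps (f n)⟩)

/-- `δ` is a Woodin cardinal: `δ` is strongly inaccessible and for every `A ⊆ V_δ` there is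
`κ < δ` which is `η`-strong for `A` for all `η < δ`: there is an elementary embedding `j : V → M`
with critical point `κ`, `η < j(κ)`, `V_η ⊆ M` and `j(A) ∩ V_η = A ∩ V_η`. -/
structure IsWoodin (δ : Ordinal.{u}) : Prop where
  inacc : δ.card.IsInaccessible
  ord : δ.card.ord = δ
  strong : ∀ A : ZFSet.{u}, A ⊆ V_ δ → ∃ κ < δ, ∀ η < δ,
    ∃ (M : Set ZFSet.{u}) (j : ZFSet.{u} → ZFSet.{u}), ElemEmb M j ∧
      (∀ α < κ, j α.toZFSet = α.toZFSet) ∧ κ.toZFSet ∈ j κ.toZFSet ∧ η.toZFSet ∈ j κ.toZFSet ∧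
      (∀ x ∈ V_ η, x ∈ M) ∧ ∀ x ∈ V_ η, (x ∈ j A ↔ x ∈ A)

/-- There is a proper class of Woodin cardinals. -/
def ManyWoodin : Prop := ∀ α : Ordinal.{u}, ∃ δ : Ordinal.{u}, α < δ ∧ IsWoodin δ

/-! ## Functions as sets -/

/-- The set of elements. -/
def El (X : ZFSet.{u}) : Set ZFSet.{u} := {x | x ∈ X}

@[simp] theorem mem_El {X x : ZFSet.{u}} : x ∈ El X ↔ x ∈ X := Iff.rfl

/-- `g` has the single value `v` at `x`. -/
def App (g x v : ZFSet.{u}) : Prop := ZFSet.pair x v ∈ g ∧ ∀ v', ZFSet.pair x v' ∈ g → v' = v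

open Classical in
/-- The value of `g` at `x` (`∅` if there is not exactly one value). -/
noncomputable def app (g x : ZFSet.{u}) : ZFSet.{u} := if h : ∃ v, App g x v then h.choose else ∅

theorem App.uniq {g x v v' : ZFSet.{u}} (h : App g x v) (h' : App g x v') : v = v' :=
  h'.2 v h.1

theorem app_eq {g x v : ZFSet.{u}} (h : App g x v) : app g x = v := by
  have h1 : ∃ v, App g x v := ⟨v, h⟩
  rw [app, dif_pos h1]
  exact h1.choose_spec.uniq h

/-- The function `f` restricted to the set `E`. -/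
noncomputable def lam (E : ZFSet.{u}) (f : ZFSet.{u} → ZFSet.{u}) : ZFSet.{u} :=
  ZFSet.range (fun u : Shrink.{u} {u : ZFSet.{u} // u ∈ E} =>
    ZFSet.pair ((equivShrink _).symm u).1 (f ((equivShrink _).symm u).1))

theorem mem_lam {E : ZFSet.{u}} {f : ZFSet.{u} → ZFSet.{u}} {z : ZFSet.{u}} :
    z ∈ lam E f ↔ ∃ u ∈ E, z = ZFSet.pair u (f u) := by
  rw [lam, ZFSet.mem_range]
  constructor
  · rintro ⟨u, rfl⟩
    exact ⟨_, ((equivShrink _).symm u).2, rfl⟩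
  · rintro ⟨u, hu, rfl⟩
    exact ⟨equivShrink _ ⟨u, hu⟩, by simp⟩

theorem App_lam {E : ZFSet.{u}} {f : ZFSet.{u} → ZFSet.{u}} {u : ZFSet.{u}} (h : u ∈ E) :
    App (lam E f) u (f u) := by
  refine ⟨mem_lam.2 ⟨u, h, rfl⟩, fun v' hv' => ?_⟩
  obtain ⟨u', _, h2⟩ := mem_lam.1 hv'
  rw [ZFSet.pair_inj] at h2
  rw [h2.2, h2.1]

theorem app_lam {E : ZFSet.{u}} {f : ZFSet.{u} → ZFSet.{u}} {u : ZFSet.{u}} (h : u ∈ E) :
    app (lam E f) u = f u := app_eq (App_lam h)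

open Classical in
/-- First component. -/
noncomputable def fs (x : ZFSet.{u}) : ZFSet.{u} :=
  if h : ∃ a b, x = ZFSet.pair a b then h.choose else ∅

open Classical in
/-- Second component. -/
noncomputable def sn (x : ZFSet.{u}) : ZFSet.{u} :=
  if h : ∃ b a, x = ZFSet.pair a b then h.choose else ∅

@[simp] theorem fs_pair (a b : ZFSet.{u}) : fs (ZFSet.pair a b) = a := by
  have h : ∃ a' b', ZFSet.pair a b = ZFSet.pair a' b' := ⟨a, b, rfl⟩
  rw [fs, dif_pos h]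
  obtain ⟨b', hb'⟩ := h.choose_spec
  exact (ZFSet.pair_inj.1 hb').1.symm

@[simp] theorem sn_pair (a b : ZFSet.{u}) : sn (ZFSet.pair a b) = b := by
  have h : ∃ b' a', ZFSet.pair a b = ZFSet.pair a' b' := ⟨b, a, rfl⟩
  rw [sn, dif_pos h]
  obtain ⟨a', ha'⟩ := h.choose_spec
  exact (ZFSet.pair_inj.1 ha').2.symm

/-- Tags. -/
noncomputable def tag : ℕ → ZFSet.{u}
  | 0 => ∅
  | n + 1 => ZFSet.pair ∅ (tag n)

theorem pair_ne_empty (a b : ZFSet.{u}) : ZFSet.pair a b ≠ ∅ := by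
  intro h
  have h2 : ({a} : ZFSet.{u}) ∈ ZFSet.pair a b := by rw [ZFSet.pair]; exact ZFSet.mem_insert _ _
  rw [h] at h2
  exact ZFSet.notMem_empty _ h2

theorem tag_inj : ∀ {m n : ℕ}, tag.{u} m = tag n → m = n
  | 0, 0, _ => rfl
  | 0, n + 1, h => (pair_ne_empty _ _ h.symm).elim
  | m + 1, 0, h => (pair_ne_empty _ _ h).elim
  | m + 1, n + 1, h => congrArg _ (tag_inj (ZFSet.pair_inj.1 h).2)

theorem rank_pair_lt {α : Ordinal.{u}} (hα : Order.IsSuccLimit α) {a b : ZFSet.{u}}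
    (ha : a ∈ V_ α) (hb : b ∈ V_ α) : ZFSet.pair a b ∈ V_ α := by
  rw [ZFSet.mem_vonNeumann] at *
  have h1 := hα.succ_lt ha
  have h2 := hα.succ_lt hb
  have h3 := hα.succ_lt h1
  have h4 := hα.succ_lt h2
  simp only [ZFSet.pair, ZFSet.rank_pair, ZFSet.rank_singleton, max_lt_iff]
  refine ⟨h3, hα.succ_lt (max_lt h1 h2)⟩

/-! ## Conditions -/

/-- The set `x` is closed under the class function `F` as far as the values belong to `V_α`. -/
def ClF (α : Ordinal.{u}) (F : ZFSet.{u} → ZFSet.{u}) (X : ZFSet.{u}) : Prop :=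
  ∀ x ∈ X, F x ∈ V_ α → F x ∈ X

/-- `X` is a countable subset of `V_α` that contains `∅` and is closed under pairing. -/
structure IsX (α : Ordinal.{u}) (X : ZFSet.{u}) : Prop where
  sub : X ⊆ V_ α
  cnt : (El X).Countable
  emp : ∅ ∈ X
  pair : ∀ x ∈ X, ∀ y ∈ X, ZFSet.pair x y ∈ X

/-- `a` is a condition of level `α`: a stationary set of countable subsets of `V_α` (`α` a limit
ordinal) that contain `∅` and are closed under pairing. -/
structure IsCond (a : ZFSet.{u}) (α : Ordinal.{u}) : Prop where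
  lim : Order.IsSuccLimit α
  sub : ∀ X ∈ a, X ⊆ V_ α
  cnt : ∀ X ∈ a, (El X).Countable
  emp : ∀ X ∈ a, ∅ ∈ X
  pair : ∀ X ∈ a, ∀ x ∈ X, ∀ y ∈ X, ZFSet.pair x y ∈ X
  stat : ∀ F : ZFSet.{u} → ZFSet.{u}, ∃ X ∈ a, ClF α F X

/-- The trace of the class `Y` on the condition `a`. -/
noncomputable def trc (Y : Set ZFSet.{u}) (a : ZFSet.{u}) : ZFSet.{u} :=
  ZFSet.sep (fun x => x ∈ Y) (⋃₀ a : ZFSet.{u})

theorem mem_trc {Y : Set ZFSet.{u}} {a x : ZFSet.{u}} :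
    x ∈ trc Y a ↔ x ∈ (⋃₀ a : ZFSet.{u}) ∧ x ∈ Y := by
  rw [trc, ZFSet.mem_sep]

/-- The order of conditions: `b` is stronger than `a`. -/
structure CLe (b a : ZFSet.{u}) : Prop where
  sub : (⋃₀ a : ZFSet.{u}) ⊆ (⋃₀ b : ZFSet.{u})
  tr : ∀ Z ∈ b, trc (El Z) a ∈ a

/-- Compatibility of conditions. -/
def Compat (a b : ZFSet.{u}) : Prop := ∃ c γ, IsCond c γ ∧ CLe c a ∧ CLe c b

/-- `D` is a predense set of conditions of level below `δ`. -/
structure Predense (δ : Ordinal.{u}) (D : ZFSet.{u}) : Prop where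
  cond : ∀ d ∈ D, ∃ α < δ, IsCond d α
  pre : ∀ a α, α < δ → IsCond a α → ∃ d ∈ D, Compat a d

/-- The class `Y` contains `∅` and is closed under pairing and the operations `Φ n`. -/
structure Clo (Φ : ℕ → ZFSet.{u} → ZFSet.{u}) (Y : Set ZFSet.{u}) : Prop where
  emp : ∅ ∈ Y
  pair : ∀ x ∈ Y, ∀ y ∈ Y, ZFSet.pair x y ∈ Y
  op : ∀ n, ∀ x ∈ Y, Φ n x ∈ Y

theorem Clo.tag {Φ : ℕ → ZFSet.{u} → ZFSet.{u}} {Y : Set ZFSet.{u}} (h : Clo Φ Y) :
    ∀ n, tag n ∈ Y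
  | 0 => h.emp
  | n + 1 => h.pair _ h.emp _ (h.tag n)

theorem tag_mem {X : ZFSet.{u}} (h0 : ∅ ∈ X) (hp : ∀ x ∈ X, ∀ y ∈ X, ZFSet.pair x y ∈ X) :
    ∀ n, tag n ∈ X
  | 0 => h0
  | n + 1 => hp _ h0 _ (tag_mem h0 hp n)

/-! ## The formula of the semiproperness lemma -/

/-- The formula `Ψ(X; B, L, D)`. -/
def Psi (X B L D : ZFSet.{u}) : Prop :=
  ∃ d ∈ D, ∃ w ∈ d, ∀ w0 ∈ w, ∀ g ∈ X, ∀ v ∈ B, App g (ZFSet.pair w0 d) v →
    (v ∈ (⋃₀ d : ZFSet.{u}) → v ∈ w) ∧ (v ∈ X ∨ ∀ y ∈ X, y ∈ L → v ∉ y)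

/-- The levels `V_ν`, `ν < κ`. -/
noncomputable def Lev (κ : Ordinal.{u}) : ZFSet.{u} :=
  ZFSet.sep (fun y => ∃ ν < κ, y = V_ ν) (V_ κ)

theorem mem_Lev {κ : Ordinal.{u}} {y : ZFSet.{u}} : y ∈ Lev κ ↔ ∃ ν < κ, y = V_ ν := by
  rw [Lev, ZFSet.mem_sep]
  refine ⟨fun h => h.2, ?_⟩
  rintro ⟨ν, hν, rfl⟩
  exact ⟨ZFSet.vonNeumann_mem_of_lt hν, ν, hν, rfl⟩

/-! ## Trees and dead nodes -/

section Tree

variable {P : Type u} [Preorder P] {K : Type u}

/-- The condition `r` is good for the node `t`: `t` is in the tree and `r` decides the name `bb`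
according to the first components of `t`. -/
def OKt (T : Set (List (ℕ × K))) (bb : ℕ → ℕ → P → Prop) (r : P) (t : List (ℕ × K)) : Prop :=
  t ∈ T ∧ ∀ (i : ℕ) (h : i < t.length), bb i (t[i]).1 r

/-- Dead nodes of rank `ξ`. -/
def Deadt (T : Set (List (ℕ × K))) (bb : ℕ → ℕ → P → Prop) (ξ : Ordinal.{u}) :
    P → List (ℕ × K) → Prop := fun r t =>
  ∀ r1 ≤ r, ∃ r2 ≤ r1, (∀ r3 ≤ r2, ¬ OKt T bb r3 t) ∨
    ∀ a, ∃ η : {η : Ordinal.{u} // η < ξ}, Deadt T bb η.1 r2 (t ++ [a])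
termination_by ξ
decreasing_by exact η.2

theorem deadt_iff {T : Set (List (ℕ × K))} {bb : ℕ → ℕ → P → Prop} {ξ : Ordinal.{u}} {r : P}
    {t : List (ℕ × K)} : Deadt T bb ξ r t ↔ ∀ r1 ≤ r, ∃ r2 ≤ r1, (∀ r3 ≤ r2, ¬ OKt T bb r3 t) ∨
    ∀ a, ∃ η < ξ, Deadt T bb η r2 (t ++ [a]) := by
  rw [Deadt]; simp

/-- Alive nodes. -/
def Alivet (T : Set (List (ℕ × K))) (bb : ℕ → ℕ → P → Prop) (r : P) (t : List (ℕ × K)) : Prop :=
  ∀ ξ : Ordinal.{u}, ∀ r' ≤ r, ¬ Deadt T bb ξ r' t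

/-- Flattening of nodes of the projected tree. -/
def flat : List (ℕ × (ℕ × K × K)) → List (ℕ × K)
  | [] => []
  | a :: t => (a.1, a.2.2.1) :: (a.2.1, a.2.2.2) :: flat t

/-- The projected tree. -/
def prT (T : Set (List (ℕ × K))) : Set (List (ℕ × (ℕ × K × K))) := {t | flat t ∈ T}

/-- The even half of a name of a real. -/
def evn (bb : ℕ → ℕ → P → Prop) : ℕ → ℕ → P → Prop := fun i j r => bb (2 * i) j r

end Tree

/-- Interleaving of two reals. -/
def ilv (z y : ℕ → ℕ) : ℕ → ℕ := fun n => if n % 2 = 0 then z (n / 2) else y (n / 2)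

/-! ## Generic points -/

section Gen

variable {X : Type u} [TopologicalSpace X]

/-- The point `x` is generic over the class `Y` (`c1`, `c2`: codes of open sets and of families of
open sets): for every dense family of open sets with code in `Y`, `x` belongs to a member with code
in `Y`. -/
def Gen (c1 : Set X → ZFSet.{u}) (c2 : Set (Set X) → ZFSet.{u}) (Y : Set ZFSet.{u}) (x : X) :
    Prop :=
  ∀ 𝒰 : Set (Set X), (∀ U ∈ 𝒰, IsOpen U) → Dense (⋃₀ 𝒰) → c2 𝒰 ∈ Y → ∃ U ∈ 𝒰, c1 U ∈ Y ∧ x ∈ U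

end Gen

/-- The name of `F x` over the partial order of nonempty open sets. -/
def spn {X : Type u} [TopologicalSpace X] (F : X → ℕ → ℕ) :
    ℕ → ℕ → {U : Set X // IsOpen U ∧ U.Nonempty} → Prop := fun i j U => ∀ x ∈ U.1, F x i = j

/-! ## The partial order of conditions below `δ` -/

/-- The conditions of level below `δ`. -/
def CondSet (δ : Ordinal.{u}) : Set ZFSet.{u} := {a | ∃ α < δ, IsCond a α}

theorem IsCond.mem_vonNeumann {a : ZFSet.{u}} {α : Ordinal.{u}} (h : IsCond a α) :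
    a ∈ V_ (α + 1 + 1) := by
  rw [ZFSet.vonNeumann_add_one, ZFSet.mem_powerset]
  intro X hX
  rw [ZFSet.vonNeumann_add_one, ZFSet.mem_powerset]
  exact h.sub X hX

instance small_CondSet (δ : Ordinal.{u}) : Small.{u} (CondSet δ) := by
  have hm : ∀ a : CondSet δ, a.1 ∈ V_ (δ + 1 + 1) := by
    intro a
    obtain ⟨α, hα, h⟩ := a.2
    exact ZFSet.vonNeumann_subset_of_le (by gcongr) h.mem_vonNeumann
  have hs : Small.{u} {z : ZFSet.{u} // z ∈ V_ (δ + 1 + 1)} := ZFSet.small_coe _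
  refine small_of_injective (β := {z : ZFSet.{u} // z ∈ V_ (δ + 1 + 1)})
    (f := fun a => ⟨a.1, hm a⟩) ?_
  intro a b hab
  simp only [Subtype.mk.injEq] at hab
  exact Subtype.ext hab

/-- The type of conditions of level below `δ`. -/
def CQ (δ : Ordinal.{u}) : Type u := Shrink.{u} (CondSet δ)

/-- The condition as a set. -/
noncomputable def CQ.val {δ : Ordinal.{u}} (q : CQ δ) : ZFSet.{u} := ((equivShrink (CondSet δ)).symm q).1

theorem CQ.val_mem {δ : Ordinal.{u}} (q : CQ δ) : ∃ α < δ, IsCond q.val α :=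
  ((equivShrink (CondSet δ)).symm q).2

theorem CQ.val_inj {δ : Ordinal.{u}} {q q' : CQ δ} (h : q.val = q'.val) : q = q' :=
  (equivShrink (CondSet δ)).symm.injective (Subtype.ext h)

/-- The element of `CQ δ` given by a condition. -/
noncomputable def CQ.of {δ : Ordinal.{u}} (a : ZFSet.{u}) (h : ∃ α < δ, IsCond a α) : CQ δ :=
  equivShrink (CondSet δ) ⟨a, h⟩

@[simp] theorem CQ.val_of {δ : Ordinal.{u}} (a : ZFSet.{u}) (h : ∃ α < δ, IsCond a α) :
    (CQ.of a h).val = a := by simp [CQ.of, CQ.val]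

theorem CLe.refl {a : ZFSet.{u}} (h : ∀ X ∈ a, trc (El X) a ∈ a) : CLe a a := ⟨fun _ h => h, h⟩

theorem trc_self {a Z : ZFSet.{u}} (h : Z ∈ a) : trc (El Z) a = Z := by
  ext x
  rw [mem_trc, ZFSet.mem_sUnion]
  exact ⟨fun h => h.2, fun hx => ⟨⟨Z, h, hx⟩, hx⟩⟩

theorem CLe.rfl' {a : ZFSet.{u}} : CLe a a := .refl fun X hX => by rwa [trc_self hX]

theorem IsCond.isX {a : ZFSet.{u}} {α : Ordinal.{u}} (h : IsCond a α) {X : ZFSet.{u}} (hX : X ∈ a) :
    IsX α X := ⟨h.sub X hX, h.cnt X hX, h.emp X hX, h.pair X hX⟩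

theorem trc_trc {a b : ZFSet.{u}} (h : (⋃₀ a : ZFSet.{u}) ⊆ (⋃₀ b : ZFSet.{u})) (Y : Set ZFSet.{u}) :
    trc (El (trc Y b)) a = trc Y a := by
  ext x
  rw [mem_trc, mem_trc, mem_El, mem_trc]
  exact ⟨fun h => ⟨h.1, h.2.2⟩, fun h' => ⟨h'.1, h h'.1, h'.2⟩⟩

theorem CLe.trans' {a b c : ZFSet.{u}} (h : CLe c b) (h' : CLe b a) : CLe c a := by
  refine ⟨fun x hx => h.sub (h'.sub hx), fun Z hZ => ?_⟩
  rw [← trc_trc h'.sub]
  exact h'.tr _ (h.tr Z hZ)

/-- A class whose trace on the stronger condition is in it also has its trace in the weaker one. -/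
theorem CLe.trc_mem {a b : ZFSet.{u}} (h : CLe b a) {Y : Set ZFSet.{u}} (hY : trc Y b ∈ b) :
    trc Y a ∈ a := by
  rw [← trc_trc h.sub]
  exact h.tr _ hY

instance (δ : Ordinal.{u}) : Preorder (CQ δ) where
  le q q' := CLe q.val q'.val
  le_refl q := CLe.rfl'
  le_trans a b c h h' := CLe.trans' h h'

theorem CQ.le_iff {δ : Ordinal.{u}} {q q' : CQ δ} : q ≤ q' ↔ CLe q.val q'.val := Iff.rfl

/-! ## Universally Baire subsets of arbitrary spaces -/

/-- Universally Baire subsets of a topological space `Z`. -/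
def UBS {Z : Type} [TopologicalSpace Z] (A : Set Z) : Prop :=
  ∀ (X : Type u) [TopologicalSpace X] (F : X → Z), Continuous F → BaireMeasurableSet (F ⁻¹' A)

end Pool.Agent.H82.OC
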