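import Pool.Agent.H82.OC.UnifA

/-!
# OC-B14: uniformisation by a universally Baire function

`f z` = the best solution of `C z` if there is a solution (`exists_best`; for fixed `z` the set `{x | C z x}` is closed), otherwise `0`.
`G = {a : (ℕ → ℕ) × (ℕ → ℕ) | f a.1 = a.2}` is `UBS`: `f z = x` iff `Best cd (C z) x ∨ ((¬ ∃ y, C z y ∧ WFx cd y) ∧ x = 0)` (`best_unique`).  In detail:
- `{(z, x) | C z x ∧ WFx cd x}`: `UBS.of_isClosed`, `UBS.preimage` of `UBS_WFx` under `Prod.snd`, `UBS.inter`.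
- `{(z, x), y | (C z y ∧ WFx cd y) → ∀ n, (∀ i < n, Lx' i x y ∧ Lx' i y x) → Lx' n x y}` where, on pairs with `WFx`, `Lx` is equivalent to
  `Lx' n x y := WFx cd x ∧ WFx cd y ∧ (x n < y n ∨ (x n = y n ∧ (WFx cd x ∧ WFx cd y ∧ LEm cd (shn n) x y)))`, which is `UBS` in `(x, y)` by `UBS_LEm` (open
  conditions `x n < y n`, `x n = y n` are clopen); `UBS.imp`, `UBS.all`; then `UBS.forall'` over `y` (`Bs` instances for products).
- the second alternative: `UBS.exists'`, `UBS.compl`, and `{x | x = 0}` is closed.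
`{a | f (fun n => a (n+2)) (a 0) = a 1} = {a | ∃ x, (a(·+2), x) ∈ G ∧ x (a 0) = a 1}`: the second condition is open in `(a, x)` (locally constant:
`(a, x) ↦ (a 0, x) ↦ x (a 0)` is continuous, `ℕ` discrete); `UBS.exists'`, `UBS_iff_UB`.
-/

set_option autoImplicit false
set_option linter.unusedVariables false
set_option linter.unusedSectionVars false
set_option linter.unusedSimpArgs false
set_option linter.deprecated false

universe u v w

open scoped ZFSet Ordinal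

namespace Pool.Agent.H82.OC

open Pool.Agent.H17.Omega Pool.Agent.H17.Omega.T8

/-- The comparison of reals with `WFx` in a form that is universally Baire. -/
private def unifLx (cd : Tm.{u} → Tm.{u} → ℕ) (n : ℕ) (x y : ℕ → ℕ) : Prop :=
  x n < y n ∨ (x n = y n ∧ (WFx cd x ∧ WFx cd y ∧ LEm cd (shn n) x y))

private theorem unifLx_iff {cd : Tm.{u} → Tm.{u} → ℕ} {x y : ℕ → ℕ} (n : ℕ) (hx : WFx cd x)
    (hy : WFx cd y) : unifLx cd n x y ↔ Lx cd n x y := by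
  unfold unifLx Lx
  tauto

private theorem unif_open {Z : Type} [TopologicalSpace Z] (S : Set (ℕ × ℕ)) {g h : Z → ℕ}
    (hg : Continuous g) (hh : Continuous h) : UBS.{u} {z | (g z, h z) ∈ S} :=
  UBS.of_isOpen ((isOpen_discrete S).preimage (hg.prodMk hh))

private theorem unifLx_UBS (hW : ManyWoodin.{u}) {cd : Tm.{u} → Tm.{u} → ℕ} (hc : OInv cd) (n : ℕ)
    {Z : Type} [TopologicalSpace Z] {g h : Z → ℕ → ℕ} (hg : Continuous g) (hh : Continuous h) :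
    UBS.{u} {z | unifLx cd n (g z) (h z)} := by
  have h1 : UBS.{u} {z | (g z n, h z n) ∈ {p : ℕ × ℕ | p.1 < p.2}} :=
    unif_open _ ((continuous_apply n).comp hg) ((continuous_apply n).comp hh)
  have h2 : UBS.{u} {z | (g z n, h z n) ∈ {p : ℕ × ℕ | p.1 = p.2}} :=
    unif_open _ ((continuous_apply n).comp hg) ((continuous_apply n).comp hh)
  have h3 : UBS.{u} ((fun z => (g z, h z)) ⁻¹' {a : (ℕ → ℕ) × (ℕ → ℕ) | WFx cd a.1 ∧ WFx cd a.2 ∧
      LEm cd (shn n) a.1 a.2}) := (UBS_LEm hW hc (shn n)).preimage (hg.prodMk hh)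
  exact h1.union (h2.inter h3)

private theorem unif_best_iff {cd : Tm.{u} → Tm.{u} → ℕ} {C : (ℕ → ℕ) → Prop} {x : ℕ → ℕ} :
    Best cd C x ↔ (C x ∧ WFx cd x) ∧ ∀ y, (C y ∧ WFx cd y) → ∀ n,
      (∀ i, i < n → (unifLx cd i x y ∧ unifLx cd i y x)) → unifLx cd n x y := by
  unfold Best
  constructor
  · rintro ⟨h1, h2⟩
    refine ⟨h1, fun y hy n hn => ?_⟩
    rw [unifLx_iff n h1.2 hy.2]
    refine h2 y hy n fun i hi => ?_
    rw [← unifLx_iff i h1.2 hy.2, ← unifLx_iff i hy.2 h1.2]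
    exact hn i hi
  · rintro ⟨h1, h2⟩
    refine ⟨h1, fun y hy n hn => ?_⟩
    rw [← unifLx_iff n h1.2 hy.2]
    refine h2 y hy n fun i hi => ?_
    rw [unifLx_iff i h1.2 hy.2, unifLx_iff i hy.2 h1.2]
    exact hn i hi

/-- Theorem B: universally Baire uniformisation of `C z x ∧ WFx x` for closed `C`. -/
theorem exists_unif (hW : ManyWoodin.{u}) {cd : Tm.{u} → Tm.{u} → ℕ} (hc : OInv cd)
    {C : (ℕ → ℕ) → (ℕ → ℕ) → Prop} (hC : IsClosed {a : (ℕ → ℕ) × (ℕ → ℕ) | C a.1 a.2}) :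
    ∃ f : (ℕ → ℕ) → ℕ → ℕ, UB.{u} {a | f (fun n => a (n + 2)) (a 0) = a 1} ∧
      ∀ z, (∃ x, C z x ∧ WFx cd x) → C z (f z) ∧ WFx cd (f z) := by
  classical
  have hCz : ∀ z, IsClosed {x | C z x} := by
    intro z
    exact hC.preimage (f := fun x : ℕ → ℕ => (z, x)) (by fun_prop)
  have hbest : ∀ z, (∃ x, C z x ∧ WFx cd x) → ∃ x, Best cd (C z) x :=
    fun z h => exists_best hW hc (hCz z) h
  let f : (ℕ → ℕ) → ℕ → ℕ := fun z =>
    if h : ∃ x, C z x ∧ WFx cd x then Classical.choose (hbest z h) else 0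
  have hf1 : ∀ z, (∃ x, C z x ∧ WFx cd x) → Best cd (C z) (f z) := by
    intro z h
    have e : f z = Classical.choose (hbest z h) := dif_pos h
    rw [e]
    exact Classical.choose_spec (hbest z h)
  have hf0 : ∀ z, (¬ ∃ x, C z x ∧ WFx cd x) → f z = 0 := fun z h => dif_neg h
  have hfiff : ∀ z x, f z = x ↔ (Best cd (C z) x ∨ ((¬ ∃ y, C z y ∧ WFx cd y) ∧ x = 0)) := by
    intro z x
    constructor
    · intro h
      by_cases hz : ∃ y, C z y ∧ WFx cd y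
      · left
        rw [← h]
        exact hf1 z hz
      · right
        exact ⟨hz, by rw [← h, hf0 z hz]⟩
    · rintro (h | ⟨h, h'⟩)
      · exact best_unique (hf1 z ⟨x, h.1⟩) h
      · rw [h', hf0 z h]
  -- the solutions
  have hS1 : UBS.{u} {a : (ℕ → ℕ) × (ℕ → ℕ) | C a.1 a.2 ∧ WFx cd a.2} :=
    (UBS.of_isClosed hC).inter ((UBS_WFx hW hc).preimage continuous_snd)
  have hS2 : UBS.{u} {b : ((ℕ → ℕ) × (ℕ → ℕ)) × (ℕ → ℕ) | (C b.1.1 b.2 ∧ WFx cd b.2) → ∀ n,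
      (∀ i, i < n → (unifLx cd i b.1.2 b.2 ∧ unifLx cd i b.2 b.1.2)) →
        unifLx cd n b.1.2 b.2} := by
    refine UBS.imp ?_ (UBS.all fun n => UBS.imp (UBS.all fun i => UBS.all fun hi => ?_) ?_)
    · exact hS1.preimage (f := fun b : ((ℕ → ℕ) × (ℕ → ℕ)) × (ℕ → ℕ) => (b.1.1, b.2)) (by fun_prop)
    · exact (unifLx_UBS hW hc i (continuous_snd.comp continuous_fst) continuous_snd).inter
        (unifLx_UBS hW hc i continuous_snd (continuous_snd.comp continuous_fst))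
    · exact unifLx_UBS hW hc n (continuous_snd.comp continuous_fst) continuous_snd
  have hS3 : UBS.{u} {a : (ℕ → ℕ) × (ℕ → ℕ) | ∀ y, (C a.1 y ∧ WFx cd y) → ∀ n,
      (∀ i, i < n → (unifLx cd i a.2 y ∧ unifLx cd i y a.2)) → unifLx cd n a.2 y} :=
    UBS.forall' hW (P := fun (a : (ℕ → ℕ) × (ℕ → ℕ)) (y : ℕ → ℕ) => (C a.1 y ∧ WFx cd y) → ∀ n,
      (∀ i, i < n → (unifLx cd i a.2 y ∧ unifLx cd i y a.2)) → unifLx cd n a.2 y) hS2
  have hB : UBS.{u} {a : (ℕ → ℕ) × (ℕ → ℕ) | Best cd (C a.1) a.2} := by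
    have h := hS1.inter hS3
    have e : {a : (ℕ → ℕ) × (ℕ → ℕ) | Best cd (C a.1) a.2} =
        {a : (ℕ → ℕ) × (ℕ → ℕ) | C a.1 a.2 ∧ WFx cd a.2} ∩
        {a : (ℕ → ℕ) × (ℕ → ℕ) | ∀ y, (C a.1 y ∧ WFx cd y) → ∀ n,
          (∀ i, i < n → (unifLx cd i a.2 y ∧ unifLx cd i y a.2)) → unifLx cd n a.2 y} := by
      ext a
      exact unif_best_iff
    rw [e]
    exact h
  have hE : UBS.{u} {z : ℕ → ℕ | ∃ y, C z y ∧ WFx cd y} :=
    UBS.exists' hW (P := fun (z y : ℕ → ℕ) => C z y ∧ WFx cd y) hS1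
  have h0 : UBS.{u} {a : (ℕ → ℕ) × (ℕ → ℕ) | a.2 = 0} := by
    refine UBS.of_isClosed (isClosed_eq continuous_snd continuous_const)
  have hR : UBS.{u} {a : (ℕ → ℕ) × (ℕ → ℕ) | f a.1 = a.2} := by
    have h := hB.union (((hE.preimage (continuous_fst (X := ℕ → ℕ) (Y := ℕ → ℕ))).compl).inter h0)
    have e : {a : (ℕ → ℕ) × (ℕ → ℕ) | f a.1 = a.2} =
        {a : (ℕ → ℕ) × (ℕ → ℕ) | Best cd (C a.1) a.2} ∪
        ((Prod.fst ⁻¹' {z : ℕ → ℕ | ∃ y, C z y ∧ WFx cd y})ᶜ ∩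
          {a : (ℕ → ℕ) × (ℕ → ℕ) | a.2 = 0}) := by
      ext a
      exact hfiff a.1 a.2
    rw [e]
    exact h
  refine ⟨f, ?_, fun z hz => (hf1 z hz).1⟩
  rw [← UBS_iff_UB]
  have e : {a : ℕ → ℕ | f (fun n => a (n + 2)) (a 0) = a 1} =
      {a : ℕ → ℕ | ∃ x : ℕ → ℕ, f (fun n => a (n + 2)) = x ∧ ∃ k : ℕ, a 0 = k ∧ x k = a 1} := by
    ext a
    constructor
    · intro h
      exact ⟨_, rfl, a 0, rfl, h⟩
    · rintro ⟨x, h1, k, h2, h3⟩
      show f (fun n => a (n + 2)) (a 0) = a 1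
      rw [h1, h2, h3]
  rw [e]
  refine UBS.exists' hW (P := fun (a x : ℕ → ℕ) => f (fun n => a (n + 2)) = x ∧
    ∃ k : ℕ, a 0 = k ∧ x k = a 1) ?_
  have g1 : UBS.{u} {b : (ℕ → ℕ) × (ℕ → ℕ) | f (fun n => b.1 (n + 2)) = b.2} :=
    hR.preimage (f := fun b : (ℕ → ℕ) × (ℕ → ℕ) => ((fun n => b.1 (n + 2)), b.2)) (by fun_prop)
  have g2 : UBS.{u} {b : (ℕ → ℕ) × (ℕ → ℕ) | ∃ k : ℕ, b.1 0 = k ∧ b.2 k = b.1 1} := by
    refine UBS.ex fun k => ?_
    have g3 : UBS.{u} {b : (ℕ → ℕ) × (ℕ → ℕ) | (b.1 0, k) ∈ {p : ℕ × ℕ | p.1 = p.2}} :=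
      unif_open _ (by fun_prop) continuous_const
    have g4 : UBS.{u} {b : (ℕ → ℕ) × (ℕ → ℕ) | (b.2 k, b.1 1) ∈ {p : ℕ × ℕ | p.1 = p.2}} :=
      unif_open _ (by fun_prop) (by fun_prop)
    exact g3.inter g4
  exact g1.inter g2

end Pool.Agent.H82.OC
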