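import Pool.Agent.H82.OC.Strong
import Pool.Agent.H17.Omega.ZFCV

/-!
# OC-C1: trivial forcing; `V_δ` is a model

* `vforces_iff`: `Q = PUnit` (trivial partial order).  Let `val : Name Q → V`, `val ⟨ι, x, p⟩ = ZFSet.range (fun i => val (x i))` (recursion on names).  Then
  `X.feq Y q ↔ val X = val Y` (induction as in `Name.feq_refl` etc.; all conditions are equal, so `∃ q'' ≤ q'` can be dropped),
  `X.fmem Y q ↔ val X ∈ val Y`, `X.InV α → val X ∈ V_ α` (`InV_def`, `ZFSet.mem_vonNeumann'`), and every `x ∈ V_ α` is `val X` for some `X` with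
  `X.InV α` (∈-induction: choose names of the elements of `x` in the level `β < α` with `x ⊆ V_ β`; index type `Shrink {y // y ∈ x}`).
  Induction on `φ`: `Forces (fun X => X.InV α) φ f p ↔ Sat (∈ on V_ α) φ (val ∘ f)` (for `imp`, `or`, `ex` use that there is only one condition).
* `models_zfc`: `vforces_zfc` for `Q = PUnit` and the inaccessible cardinal `δ.card` (`δ.card.ord = δ`).
* `models_of_validStar`: `ValidStar φ` for `α = δ`, `Q = PUnit`.
-/

set_option autoImplicit false
set_option linter.unusedVariables false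
set_option linter.unusedSectionVars false
set_option linter.unusedSimpArgs false
set_option linter.deprecated false

universe u v w

open scoped ZFSet Ordinal

namespace Pool.Agent.H82.OC

open Pool.Agent.H17.Omega

/-- the value of a name for the trivial partial order -/
private noncomputable def vdVal : Name PUnit.{u + 1} → ZFSet.{u}
  | ⟨_, x, _⟩ => ZFSet.range (fun i => vdVal (x i))

private theorem vd_mem_val (X : Name PUnit.{u + 1}) (z : ZFSet.{u}) :
    z ∈ vdVal X ↔ ∃ i : X.ι, vdVal (X.el i) = z := by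
  cases X with
  | mk ι x p =>
    rw [vdVal, ZFSet.mem_range]
    rfl

private theorem vd_le (a b : PUnit.{u + 1}) : a ≤ b := le_of_eq (Subsingleton.elim _ _)

private theorem vd_feq (X : Name PUnit.{u + 1}) :
    ∀ (Y : Name PUnit.{u + 1}) (q : PUnit.{u + 1}), X.feq Y q ↔ vdVal X = vdVal Y := by
  induction X using Name.ind with
  | h X ih =>
    intro Y q
    rw [Name.feq_def]
    constructor
    · rintro ⟨h1, h2⟩
      ext z
      rw [vd_mem_val, vd_mem_val]
      constructor
      · rintro ⟨i, rfl⟩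
        obtain ⟨q'', _, j, _, h3⟩ := h1 i q le_rfl (vd_le _ _)
        exact ⟨j, ((ih i _ _).1 h3).symm⟩
      · rintro ⟨j, rfl⟩
        obtain ⟨q'', _, i, _, h3⟩ := h2 j q le_rfl (vd_le _ _)
        exact ⟨i, (ih i _ _).1 h3⟩
    · intro h
      constructor
      · intro i q' _ _
        have h1 : vdVal (X.el i) ∈ vdVal Y := by
          rw [← h, vd_mem_val]
          exact ⟨i, rfl⟩
        obtain ⟨j, hj⟩ := (vd_mem_val _ _).1 h1
        exact ⟨q', le_rfl, j, vd_le _ _, (ih i _ _).2 hj.symm⟩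
      · intro j q' _ _
        have h1 : vdVal (Y.el j) ∈ vdVal X := by
          rw [h, vd_mem_val]
          exact ⟨j, rfl⟩
        obtain ⟨i, hi⟩ := (vd_mem_val _ _).1 h1
        exact ⟨q', le_rfl, i, vd_le _ _, (ih i _ _).2 hi⟩

private theorem vd_fmem (X Y : Name PUnit.{u + 1}) (q : PUnit.{u + 1}) :
    X.fmem Y q ↔ vdVal X ∈ vdVal Y := by
  rw [vd_mem_val]
  constructor
  · intro h
    obtain ⟨q'', _, j, _, h3⟩ := h q le_rfl
    exact ⟨j, ((vd_feq X _ _).1 h3).symm⟩
  · rintro ⟨j, hj⟩ q' _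
    exact ⟨q', le_rfl, j, vd_le _ _, (vd_feq X _ _).2 hj.symm⟩

private theorem vd_InV (X : Name PUnit.{u + 1}) :
    ∀ {α : Ordinal.{u}}, X.InV α → vdVal X ∈ V_ α := by
  induction X using Name.ind with
  | h X ih =>
    intro α h
    rw [Name.InV_def] at h
    obtain ⟨β, hβ, h⟩ := h
    rw [ZFSet.mem_vonNeumann']
    refine ⟨β, hβ, fun z hz => ?_⟩
    obtain ⟨i, rfl⟩ := (vd_mem_val _ _).1 hz
    exact ih i (h i)

private theorem vd_surj (x : ZFSet.{u}) :
    ∀ {α : Ordinal.{u}}, x ∈ V_ α → ∃ X : Name PUnit.{u + 1}, X.InV α ∧ vdVal X = x := by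
  induction x using ZFSet.inductionOn with
  | _ x ih =>
    intro α h
    rw [ZFSet.mem_vonNeumann'] at h
    obtain ⟨β, hβ, h⟩ := h
    have h1 : ∀ y : {y : ZFSet.{u} // y ∈ x}, ∃ Y : Name PUnit.{u + 1}, Y.InV β ∧ vdVal Y = y.1 :=
      fun y => ih y.1 y.2 (h y.2)
    choose N hN1 hN2 using h1
    refine ⟨Name.mk (Shrink.{u} {y : ZFSet.{u} // y ∈ x}) (fun i => N ((equivShrink _).symm i))
      (fun _ => PUnit.unit), ?_, ?_⟩
    · rw [Name.InV_def]
      exact ⟨β, hβ, fun i => hN1 _⟩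
    · ext z
      rw [vd_mem_val]
      constructor
      · rintro ⟨i, rfl⟩
        change vdVal (N ((equivShrink _).symm i)) ∈ x
        rw [hN2]
        exact ((equivShrink _).symm i).2
      · intro hz
        refine ⟨equivShrink _ ⟨z, hz⟩, ?_⟩
        change vdVal (N ((equivShrink _).symm (equivShrink _ ⟨z, hz⟩))) = z
        rw [hN2]
        simp

/-- the evaluation map onto `V_ α` -/
private noncomputable def vdMap (α : Ordinal.{u}) (X : {X : Name PUnit.{u + 1} // X.InV α}) :
    ({x : ZFSet.{u} | x ∈ V_ α} : Set ZFSet.{u}) := ⟨vdVal X.1, vd_InV X.1 X.2⟩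

private theorem vdMap_surj (α : Ordinal.{u}) : Function.Surjective (vdMap α) := by
  rintro ⟨x, hx⟩
  obtain ⟨X, h1, h2⟩ := vd_surj x hx
  exact ⟨⟨X, h1⟩, Subtype.ext h2⟩

private theorem vd_forces (α : Ordinal.{u}) (φ : Fml) :
    ∀ (f : ℕ → {X : Name PUnit.{u + 1} // X.InV α}) (p : PUnit.{u + 1}),
    Forces (fun X => X.InV α) φ f p ↔
      Sat (fun x y : ({x : ZFSet.{u} | x ∈ V_ α} : Set ZFSet.{u}) => x.1 ∈ y.1) φ
        (fun i => vdMap α (f i)) := by
  induction φ with
  | mem i j =>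
    intro f p
    exact vd_fmem _ _ _
  | eq i j =>
    intro f p
    refine (vd_feq _ _ _).trans ?_
    exact ⟨fun h => (Subtype.ext h : vdMap α (f i) = vdMap α (f j)), fun h =>
      congrArg Subtype.val (h : vdMap α (f i) = vdMap α (f j))⟩
  | bot =>
    intro f p
    exact Iff.rfl
  | imp φ ψ ih1 ih2 =>
    intro f p
    constructor
    · intro h h1
      exact (ih2 f p).1 (h p le_rfl ((ih1 f p).2 h1))
    · intro h q _ h1
      exact (ih2 f q).2 (h ((ih1 f q).1 h1))
  | and φ ψ ih1 ih2 =>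
    intro f p
    exact and_congr (ih1 f p) (ih2 f p)
  | or φ ψ ih1 ih2 =>
    intro f p
    constructor
    · intro h
      obtain ⟨r, _, h1⟩ := h p le_rfl
      exact h1.imp (ih1 f r).1 (ih2 f r).1
    · intro h q _
      exact ⟨q, le_rfl, h.imp (ih1 f q).2 (ih2 f q).2⟩
  | all k φ ih =>
    intro f p
    constructor
    · intro h y
      obtain ⟨x, rfl⟩ := vdMap_surj α y
      have h1 := (ih (upd f k x) p).1 (h x)
      rw [upd_comp] at h1
      exact h1
    · intro h x
      have h1 := h (vdMap α x)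
      rw [← upd_comp] at h1
      exact (ih (upd f k x) p).2 h1
  | ex k φ ih =>
    intro f p
    constructor
    · intro h
      obtain ⟨r, _, x, hx⟩ := h p le_rfl
      have h1 := (ih (upd f k x) r).1 hx
      rw [upd_comp] at h1
      exact ⟨_, h1⟩
    · rintro ⟨y, hy⟩ q _
      obtain ⟨x, rfl⟩ := vdMap_surj α y
      rw [← upd_comp] at hy
      exact ⟨q, le_rfl, x, (ih (upd f k x) q).2 hy⟩

theorem vforces_iff (α : Ordinal.{u}) (φ : Fml) :
    VForces (Q := PUnit.{u + 1}) α φ PUnit.unit ↔ Models {x : ZFSet.{u} | x ∈ V_ α} φ := by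
  constructor
  · intro h g
    choose f hf using fun i => vdMap_surj α (g i)
    have h1 := (vd_forces α φ f PUnit.unit).1 (h f)
    rw [show (fun i => vdMap α (f i)) = g from funext hf] at h1
    exact h1
  · intro h f
    exact (vd_forces α φ f PUnit.unit).2 (h _)

theorem IsWoodin.models_zfc {δ : Ordinal.{u}} (hδ : IsWoodin δ) {ψ : Fml} (hψ : ZFC ψ) :
    Models {x : ZFSet.{u} | x ∈ V_ δ} ψ := by
  rw [← vforces_iff]
  have h1 : Cardinal.mk PUnit.{u + 1} < δ.card := by
    rw [Cardinal.mk_punit]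
    exact Cardinal.one_lt_aleph0.trans hδ.inacc.aleph0_lt
  have h2 := vforces_zfc (Q := PUnit.{u + 1}) hδ.inacc h1 hψ PUnit.unit
  rw [hδ.ord] at h2
  exact h2

theorem IsWoodin.models_of_validStar {δ : Ordinal.{u}} (hδ : IsWoodin δ) {φ : Fml}
    (hφ : ValidStar.{u} φ) : Models {x : ZFSet.{u} | x ∈ V_ δ} φ := by
  rw [← vforces_iff]
  exact hφ δ PUnit.{u + 1} PUnit.unit (fun ψ hψ => (vforces_iff δ ψ).2 (hδ.models_zfc hψ))

end Pool.Agent.H82.OC
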