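import Pool.Agent.H82.OC.AEl

/-!
# OC-C4: the value function exists

Define `V n l` by strong recursion on `n` (`termination_by n`, or `Nat.strongRec`), with `e = n.unpair.2` and the cases of `n.unpair.1`:
0: `tzZ C.z`;  1: `tKZ C.κ`;  2: `natZ e`;  3: `(C.κ e).toZFSet`;  4: `μ.toZFSet` if `l = [(i, μ)]` (if this is in `V_ δ`);
5: decode `e - 1` as `(c, k, args) : ℕ × ℕ × List (ℕ × ℕ)`; let `χ` be the formula with code `c` (`Fml.code_injective`; otherwise `Fml.bot`); split `l` into
   consecutive pieces of the lengths `args.map snd` (`List.splitLengths` or own recursion); `g j` = value of the `j`-th label (if it is `< n`) at the `j`-th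
   piece for `j < args.length`, and `g j` = value of `(0, [])` (i.e. `V 0 []`, given by case 0: `lbTz = 0`) otherwise; the result is some `y : C.M` with
   `Sat C.Em χ (upd g k y)` if it exists, otherwise arbitrary;
6: decode `e - 1` as `(m, bt, pat)`; if `m < n` and there is `v` with `AEl C.𝒰 bt (fun b => V m (fill pat l b) = v)` take such a `v` (unique by
   `AEl.and`, `AEl.exists'`);  in all other cases an arbitrary element of `C.M`.
The sets in the cases 0-3 are in `V_ C.δ`: `natZ n ∈ V_ ω`, `tzZ ⊆ V_ ω`, and `tKZ ⊆ V_ (μ + ω)` where `κ i < μ < δ` (`hC.bdd`; `δ` is a limit, and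
`δ > κ 0 > ω`; for `tKZ` note that `pair (natZ i) (κ i).toZFSet` has rank `≤ max (i, κ i) + 2 < μ + 2`, so `tKZ ∈ V_ (μ + 3)`, and `μ + 3 < δ`).
The labels occurring in `lbSK χ k args` and `lbLim m bt pat` are smaller than these numbers: for `(m, r) ∈ args`: `m ≤ Nat.pair m r = encode (m, r) ≤ encode args ≤
encode (k, args) ≤ encode (χ.code, k, args) < encode .. + 1 ≤ Nat.pair 5 (encode .. + 1)` (`Nat.left_le_pair`, `Nat.right_le_pair`, `Encodable.encode_list_cons`:
`encode (a :: l) = succ (pair (encode a) (encode l))`).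
`sk`: for `args = ts.map (fun t => (t.1, t.2.length))` and `l = ts.flatMap Prod.snd` the pieces are the lists `t.2`, so `g = vas V ts`.
-/

set_option autoImplicit false
set_option linter.unusedVariables false
set_option linter.unusedSectionVars false
set_option linter.unusedSimpArgs false
set_option linter.deprecated false

universe u v w

open scoped ZFSet Ordinal

namespace Pool.Agent.H82.OC

open Pool.Agent.H17.Omega Pool.Agent.H17.Omega.T8

namespace VEx

/-! ### Membership in `V_δ` -/

theorem rk_pair {x y : ZFSet.{u}} {μ : Ordinal.{u}} (hx : ZFSet.rank x < μ)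
    (hy : ZFSet.rank y < μ) : ZFSet.rank (ZFSet.pair x y) < Order.succ (Order.succ μ) := by
  rw [ZFSet.pair, ZFSet.rank_pair, ZFSet.rank_pair, ZFSet.rank_singleton, Order.lt_succ_iff]
  have h1 : Order.succ (ZFSet.rank x) ≤ μ := Order.succ_le_of_lt hx
  have h2 : Order.succ (ZFSet.rank y) ≤ μ := Order.succ_le_of_lt hy
  exact max_le (Order.succ_le_succ h1) (Order.succ_le_succ (max_le h1 h2))

theorem om_lt {φ : Fml} {C : Ctx.{u}} (hC : C.Good φ) : Ordinal.omega0 < C.δ := by
  obtain ⟨μ, h1, h2⟩ := hC.bdd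
  exact ((hC.om 0).trans (h2 0)).trans h1

theorem natZ_mem_V (n : ℕ) : natZ.{u} n ∈ V_ Ordinal.omega0.{u} := by
  rw [natZ_eq]
  exact StA5.ord_V (Ordinal.natCast_lt_omega0 n)

theorem natZ_mem' {φ : Fml} {C : Ctx.{u}} (hC : C.Good φ) (n : ℕ) : natZ.{u} n ∈ V_ C.δ := by
  rw [natZ_eq]
  exact StA5.ord_V ((Ordinal.natCast_lt_omega0 n).trans (om_lt hC))

theorem tzZ_mem {φ : Fml} {C : Ctx.{u}} (hC : C.Good φ) : tzZ.{u} C.z ∈ V_ C.δ := by
  rw [ZFSet.mem_vonNeumann]
  refine lt_of_le_of_lt ?_ (om_lt hC)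
  rw [ZFSet.rank_le_iff]
  intro y hy
  rw [tzZ, ZFSet.mem_range] at hy
  obtain ⟨p, rfl⟩ := hy
  rw [← ZFSet.mem_vonNeumann]
  exact rank_pair_lt Ordinal.isSuccLimit_omega0 (natZ_mem_V _)
    (rank_pair_lt Ordinal.isSuccLimit_omega0 (natZ_mem_V _) (natZ_mem_V _))

theorem tKZ_mem {φ : Fml} {C : Ctx.{u}} (hC : C.Good φ) : tKZ.{u} C.κ ∈ V_ C.δ := by
  obtain ⟨μ, h1, h2⟩ := hC.bdd
  rw [ZFSet.mem_vonNeumann]
  refine lt_of_le_of_lt ?_ (hC.lim.succ_lt (hC.lim.succ_lt h1))
  rw [ZFSet.rank_le_iff]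
  intro y hy
  rw [tKZ, ZFSet.mem_range] at hy
  obtain ⟨i, rfl⟩ := hy
  refine rk_pair ?_ ?_
  · rw [natZ_eq, Ordinal.rank_toZFSet]
    exact ((Ordinal.natCast_lt_omega0 _).trans (hC.om 0)).trans (h2 0)
  · rw [Ordinal.rank_toZFSet]
    exact h2 _

/-! ### The recursion -/

section

variable (C : Ctx.{u}) (d : C.M)

open Classical in
/-- The element of `V_δ` given by a set (if it is in `V_δ`). -/
noncomputable def pk (x : ZFSet.{u}) : C.M := if h : x ∈ V_ C.δ then ⟨x, h⟩ else d

theorem pk_val {x : ZFSet.{u}} (h : x ∈ V_ C.δ) : (pk C d x).1 = x := by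
  unfold pk
  rw [dif_pos h]

/-- Choice of an element. -/
noncomputable def ep (P : C.M → Prop) : C.M := @Classical.epsilon C.M ⟨d⟩ P

theorem ep_spec {P : C.M → Prop} (h : ∃ y, P y) : P (ep C d P) := by
  unfold ep
  exact @Classical.epsilon_spec_aux C.M ⟨d⟩ P h

/-- Cut the list of indices into pieces. -/
def splitT : List (ℕ × ℕ) → List (ℕ × Ordinal.{u}) → List Tm.{u}
  | [], _ => []
  | a :: args, l => (a.1, l.take a.2) :: splitT args (l.drop a.2)

theorem splitT_eq (ts : List Tm.{u}) :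
    splitT (ts.map fun t => (t.1, t.2.length)) (ts.flatMap Prod.snd) = ts := by
  induction ts with
  | nil => rfl
  | cons t ts ih =>
    rw [List.map_cons, List.flatMap_cons, splitT]
    simp only [List.take_left', List.drop_left']
    rw [ih]

/-- The set given by a single index. -/
noncomputable def sing : List (ℕ × Ordinal.{u}) → ZFSet.{u}
  | [p] => p.2.toZFSet
  | _ => ∅

/-- The recursion step. -/
noncomputable def G (n : ℕ) (W : ℕ → List (ℕ × Ordinal.{u}) → C.M)
    (l : List (ℕ × Ordinal.{u})) : C.M :=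
  match n.unpair.1 with
  | 0 => pk C d (tzZ C.z)
  | 1 => pk C d (tKZ C.κ)
  | 2 => pk C d (natZ n.unpair.2)
  | 3 => pk C d (C.κ n.unpair.2).toZFSet
  | 4 => pk C d (sing l)
  | 5 => match (Encodable.decode (n.unpair.2 - 1) : Option (ℕ × ℕ × List (ℕ × ℕ))) with
    | none => d
    | some q => ep C d (fun y => ∃ χ : Fml, χ.code = q.1 ∧
        Sat C.Em χ (upd (fun j => W (as (splitT q.2.2 l) j).1 (as (splitT q.2.2 l) j).2) q.2.1 y))
  | 6 => match (Encodable.decode (n.unpair.2 - 1) :
        Option (ℕ × List ℕ × List (Option (ℕ × ℕ)))) with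
    | none => d
    | some q => ep C d (fun v => AEl C.𝒰 q.2.1 (fun b => W q.1 (fill q.2.2 l b) = v))
  | _ => d

/-- The value function. -/
noncomputable def VV (n : ℕ) (l : List (ℕ × Ordinal.{u})) : C.M :=
  G C d n (fun m l' => if h : m < n then VV m l' else d) l
termination_by n
decreasing_by exact h

theorem VV_eq (n : ℕ) (l : List (ℕ × Ordinal.{u})) :
    VV C d n l = G C d n (fun m l' => if m < n then VV C d m l' else d) l := by
  rw [VV]
  congr 1

end

/-! ### Labels -/

theorem lab_le (args : List (ℕ × ℕ)) : ∀ a ∈ args, a.1 ≤ Encodable.encode args := by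
  induction args with
  | nil => intro a ha; simp at ha
  | cons b args ih =>
    intro a ha
    rw [Encodable.encode_list_cons]
    rcases List.mem_cons.1 ha with h | h
    · rw [h]
      have h1 : b.1 ≤ Encodable.encode b := Nat.left_le_pair b.1 b.2
      have h2 : Encodable.encode b ≤ Nat.pair (Encodable.encode b) (Encodable.encode args) :=
        Nat.left_le_pair _ _
      exact (h1.trans h2).trans (Nat.le_succ _)
    · have h1 := ih a h
      have h2 : Encodable.encode args ≤ Nat.pair (Encodable.encode b) (Encodable.encode args) :=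
        Nat.right_le_pair _ _
      exact (h1.trans h2).trans (Nat.le_succ _)

theorem lab_lt (c k : ℕ) (args : List (ℕ × ℕ)) (n : ℕ) (hn : n ≤ Encodable.encode args) :
    n < Nat.pair 5 (Encodable.encode (c, k, args) + 1) := by
  have h1 : Encodable.encode args ≤ Encodable.encode (k, args) := Nat.right_le_pair _ _
  have h2 : Encodable.encode (k, args) ≤ Encodable.encode (c, k, args) := Nat.right_le_pair _ _
  have h3 : Encodable.encode (c, k, args) + 1 ≤ Nat.pair 5 (Encodable.encode (c, k, args) + 1) :=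
    Nat.right_le_pair _ _
  omega

theorem lim_lt (n : ℕ) (bt : List ℕ) (pat : List (Option (ℕ × ℕ))) : n < lbLim n bt pat := by
  have h1 : n ≤ Encodable.encode (n, bt, pat) := Nat.left_le_pair n _
  have h2 : Encodable.encode (n, bt, pat) + 1 ≤ lbLim n bt pat := Nat.right_le_pair _ _
  omega

end VEx

open VEx

theorem exists_val {φ : Fml} {C : Ctx.{u}} (hC : C.Good φ) :
    ∃ V : ℕ → List (ℕ × Ordinal.{u}) → C.M, ValSpec C V := by
  have h0 : (∅ : ZFSet.{u}) ∈ C.MS := natZ_mem' hC 0
  refine ⟨VV C ⟨∅, h0⟩, ?_, ?_, ?_, ?_, ?_, ?_, ?_⟩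
  · intro l
    rw [VV_eq]
    simp only [G, lbTz, Nat.unpair_pair]
    exact pk_val C _ (tzZ_mem hC)
  · intro l
    rw [VV_eq]
    simp only [G, lbTK, Nat.unpair_pair]
    exact pk_val C _ (tKZ_mem hC)
  · intro n l
    rw [VV_eq]
    simp only [G, lbNN, Nat.unpair_pair]
    exact pk_val C _ (natZ_mem' hC n)
  · intro i l
    rw [VV_eq]
    simp only [G, lbKK, Nat.unpair_pair]
    obtain ⟨μ, h1, h2⟩ := hC.bdd
    exact pk_val C _ (StA5.ord_V ((h2 i).trans h1))
  · intro i μ hμ
    rw [VV_eq]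
    simp only [G, lbCC, Nat.unpair_pair, sing]
    exact pk_val C _ (StA5.ord_V hμ)
  · intro χ k ts hts
    set V := VV C ⟨∅, h0⟩ with hV
    have hag : ∀ j, (as ts j).1 < lbSK χ k (ts.map fun t => (t.1, t.2.length)) := by
      intro j
      apply lab_lt
      unfold as
      rcases lt_or_ge j ts.length with hj | hj
      · rw [List.getD_eq_getElem _ _ hj]
        exact lab_le _ (ts[j].1, ts[j].2.length)
          (List.mem_map.2 ⟨ts[j], List.getElem_mem hj, rfl⟩)
      · rw [List.getD_eq_default _ _ hj]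
        exact Nat.zero_le _
    have hvas : (fun j => if (as ts j).1 < lbSK χ k (ts.map fun t => (t.1, t.2.length)) then
        V (as ts j).1 (as ts j).2 else ⟨∅, h0⟩) = vas V ts := by
      funext j
      rw [if_pos (hag j)]
      rfl
    have e1 : V (lbSK χ k (ts.map fun t => (t.1, t.2.length))) (ts.flatMap Prod.snd) =
        ep C ⟨∅, h0⟩ (fun y => ∃ χ' : Fml, χ'.code = χ.code ∧
          Sat C.Em χ' (upd (vas V ts) k y)) := by
      rw [hV, VV_eq, ← hV]
      generalize hW : (fun m l' => if m < lbSK χ k (ts.map fun t => (t.1, t.2.length)) then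
        V m l' else (⟨∅, h0⟩ : C.M)) = W
      have hW' : (fun j => W (as ts j).1 (as ts j).2) = vas V ts := by
        rw [← hW, ← hvas]
      simp only [G, lbSK, Nat.unpair_pair, Nat.add_sub_cancel, Encodable.encodek, splitT_eq, hW']
    obtain ⟨y, hy⟩ := hts
    have h3 := ep_spec C ⟨∅, h0⟩ (P := fun y => ∃ χ' : Fml, χ'.code = χ.code ∧
          Sat C.Em χ' (upd (vas V ts) k y)) ⟨y, χ, rfl, hy⟩
    rw [← e1] at h3
    obtain ⟨χ', h4, h5⟩ := h3
    rw [Fml.code_injective h4] at h5
    exact h5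
  · intro n bt pat l v hv
    set V := VV C ⟨∅, h0⟩ with hV
    have e1 : V (lbLim n bt pat) l =
        ep C ⟨∅, h0⟩ (fun v => AEl C.𝒰 bt (fun b => V n (fill pat l b) = v)) := by
      rw [hV, VV_eq, ← hV]
      generalize hW : (fun m l' => if m < lbLim n bt pat then
        V m l' else (⟨∅, h0⟩ : C.M)) = W
      have hW' : W n = V n := by
        rw [← hW]
        funext l'
        exact if_pos (lim_lt n bt pat)
      simp only [G, lbLim, Nat.unpair_pair, Nat.add_sub_cancel, Encodable.encodek, hW']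
    have h3 := ep_spec C ⟨∅, h0⟩ (P := fun v => AEl C.𝒰 bt (fun b => V n (fill pat l b) = v))
      ⟨v, hv⟩
    rw [← e1] at h3
    obtain ⟨b, _, h4, h5⟩ := (h3.and hv).exists' hC.meas
    rw [← h4, h5]

end Pool.Agent.H82.OC
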