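import Pool.Agent.H82.OC.CaxTK
import Pool.Agent.H82.OC.CaxI
import Pool.Agent.H82.OC.CaxR
import Pool.Agent.H82.OC.CaxCl
import Pool.Agent.H82.OC.ValEx
import Pool.Agent.H82.OC.CtxEx
import Pool.Agent.H82.OC.VDelta
import Pool.Agent.H82.OC.Unif

/-!
# OC-C11: blueprints exist and are chosen by a universally Baire function

* `exists_blueprint`: `δ` Woodin (`hW`), `exists_ctx`, `exists_val`, `x = xC C V`.  `Cax φ z x`.  `WF x`: `WF_iff`, `WFx`: let `s` be a sequence of terms over `Iio η` (any `η`); `J` = the countable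
  set of all indices of the `s n`; `h` a realisation; if `E x (s (n+1)) (s n)` for all `n` then (`E_iff`) `(val V h (s (n+1))).1 ∈ (val V h (s n)).1` for all `n`: contradiction to foundation
  (`ZFSet.mem_wf`).
* `exists_bpFun`: `exists_unif` for `cd t t' = cdL (.mem 0 1) [t, t']` (`OInv_E`), `C = Cax φ` (`isClosed_Cax`); `WF_iff`; `bp_of_Cax`.
-/

set_option autoImplicit false
set_option linter.unusedVariables false
set_option linter.unusedSectionVars false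
set_option linter.unusedSimpArgs false
set_option linter.deprecated false

universe u v w

open scoped ZFSet Ordinal

namespace Pool.Agent.H82.OC

open Pool.Agent.H17.Omega Pool.Agent.H17.Omega.T8

theorem exists_blueprint {δ : Ordinal.{u}} (hδ : IsWoodin δ) {φ : Fml}
    (hφ : Models {x : ZFSet.{u} | x ∈ V_ δ} φ) {z : ℕ → ℕ} (hz : WOr z) :
    ∃ x, Cax.{u} φ z x ∧ WFx (fun t t' : Tm.{u} => cdL (.mem 0 1) [t, t']) x := by
  obtain ⟨C, hC, hCz⟩ := exists_ctx hδ (fun ψ hψ => hδ.models_zfc hψ) hφ hz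
  obtain ⟨V, hV⟩ := exists_val hC
  subst hCz
  refine ⟨xC C V, ⟨caxT_xC hC hV, caxK_xC hC hV, caxI_xC hC hV, caxR_xC hC hV⟩, ?_⟩
  intro η hη s hs
  by_contra hcon
  push Not at hcon
  let J : Set (ℕ × Ordinal.{u}) := ⋃ n, {q | q ∈ (s n).2}
  have hJ : J.Countable := Set.countable_iUnion fun n => (List.finite_toSet (s n).2).countable
  have hJm : ∀ n, ∀ q ∈ (s n).2, q ∈ J := fun n q hq => Set.mem_iUnion.2 ⟨n, hq⟩
  obtain ⟨h, H⟩ := exists_Rlz hC V hJ
  have hE : ∀ n, (val V h (s (n + 1))).1 ∈ (val V h (s n)).1 := fun n =>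
    (E_iff hz H (hJm (n + 1)) (hJm n)).1 (hcon n)
  exact (wellFounded_iff_isEmpty_descending_chain.1 ZFSet.mem_wf).false
    ⟨fun n => (val V h (s n)).1, hE⟩

/-- The interface to part D, for a sentence that holds in `V_δ` for one Woodin cardinal `δ`. -/
theorem exists_bpFun' (hW : ManyWoodin.{u}) {φ : Fml} {δ : Ordinal.{u}} (hδ : IsWoodin δ)
    (hφ : Models {x : ZFSet.{u} | x ∈ V_ δ} φ) :
    ∃ f : (ℕ → ℕ) → ℕ → ℕ, UB.{u} {a | f (fun n => a (n + 2)) (a 0) = a 1} ∧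
      ∀ z, WOr z → Bp.{u} φ z (f z) ∧ Pool.Agent.H17.Omega.T8.WF.{u} (f z) := by
  obtain ⟨f, hf, hf'⟩ := exists_unif hW OInv_E.{u} (C := Cax.{u} φ) (isClosed_Cax φ)
  refine ⟨f, hf, fun z hz => ?_⟩
  obtain ⟨h1, h2⟩ := hf' z (exists_blueprint hδ hφ hz)
  exact ⟨bp_of_Cax hz h1, WF_iff.2 h2⟩

/-- The interface to part D. -/
theorem exists_bpFun (hW : ManyWoodin.{u}) {φ : Fml} (hφ : ValidStar.{u} φ) :
    ∃ f : (ℕ → ℕ) → ℕ → ℕ, UB.{u} {a | f (fun n => a (n + 2)) (a 0) = a 1} ∧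
      ∀ z, WOr z → Bp.{u} φ z (f z) ∧ Pool.Agent.H17.Omega.T8.WF.{u} (f z) := by
  obtain ⟨δ, -, hδ⟩ := hW 0
  exact exists_bpFun' hW hδ (hδ.models_of_validStar hφ)

end Pool.Agent.H82.OC
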