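import Pool.Agent.H82.OC.Defs

/-!
# OC-A3: conditions: Fodor, compatibility

Proofs.

* `sUnion_eq'`: `⋃₀ a = V_ α` (apply `h.stat` to a constant function, `∅ ∈ X`).
* `IsCond.fodor`: suppose that for every `v ∈ V_ α` the set `{Z ∈ a : g Z = v}` is not a condition.
  All clauses except `stat` hold for subsets of `a`, so there is `F v : V → V` such that no
  `Z ∈ a` with `g Z = v` is closed under `F v`.  Let `F w := F (fs w) (sn w)` (components, `fs_pair`,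
  `sn_pair`).  Take `Z ∈ a` closed under `F` and `v := g Z ∈ Z ⊆ V_ α`.  For `x ∈ Z`: `pair v x ∈ Z` and
  `F (pair v x) = F v x`, so `Z` is closed under `F v`: contradiction.
* `IsCond.sep_mem`: `{Z ∈ a : c ∈ Z}` is a condition (`c ∈ V_ α`): given `F` apply `h.stat` to
  `F' w := if w is a pair (pair ∅ x) then F x else c`: more precisely
  `F' w := if ∃ x, w = pair ∅ x then F (sn w) else c`.  If `Z` is closed under `F'`: `c = F' ∅ ∈ Z`
  (`pair_ne_empty`), and for `x ∈ Z`, `F x = F' (pair ∅ x)`.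
* `IsCond.cle_sep`: `CLe (sep p a) a`: both unions are `V_ α`, and `trc (El Z) a = Z ∈ a` (`trc_self`).
* `CLe.level_le`: `V_ α = ⋃₀ a ⊆ ⋃₀ b = V_ β`.
* `exists_incompat`: let `m = {Z ∈ powerset (V_ γ) : IsX γ Z, trc (El Z) a ∈ a, trc (El Z) b ∈ b}`,
  `γ = max α β`.  If there is no such `F` then `m` is a condition of level `γ` (`γ` is `α` or `β`, so a limit)
  and `CLe m a`, `CLe m b` (`⋃₀ m = V_ γ`), so `Compat a b`.
* `Compat.exists_level`: let `c` (level `ζ`) be a common extension; `γ ≤ ζ` (`CLe.level_le`).  The set `m` above is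
  a condition: given `F` take `Z ∈ c` closed under `F` (up to `V_ ζ`); `Z' = Z ∩ V_ γ` satisfies `IsX γ Z'`
  (`rank_pair_lt`), is closed under `F` up to `V_ γ`, and has the same traces (`⋃₀ a = V_ α ⊆ V_ γ`), so `Z' ∈ m`.
* `filter_compat`: if `Y` is closed under pairing, `∅ ∈ Y`, countable, and closed under `x ↦ F x` for the `F` of
  `exists_incompat`, then `trc Y a ∈ a`, `trc Y b ∈ b` is impossible: `Z = Y ∩ V_ γ`.
-/

set_option autoImplicit false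
set_option linter.unusedVariables false
set_option linter.unusedSectionVars false
set_option linter.unusedSimpArgs false
set_option linter.deprecated false

universe u v w

open scoped ZFSet

namespace Pool.Agent.H82.OC

open Pool.Agent.H17.Omega

theorem IsCond.sUnion_eq' {a : ZFSet.{u}} {α : Ordinal.{u}} (h : IsCond a α) :
    (⋃₀ a : ZFSet.{u}) = V_ α := by
  ext c
  rw [ZFSet.mem_sUnion]
  constructor
  · rintro ⟨X, hX, hc⟩
    exact h.sub X hX hc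
  · intro hc
    obtain ⟨X, hX, hcl⟩ := h.stat (fun _ => c)
    exact ⟨X, hX, hcl ∅ (h.emp X hX) hc⟩

theorem IsCond.fod_sep {a : ZFSet.{u}} {α : Ordinal.{u}} (h : IsCond a α) (p : ZFSet.{u} → Prop)
    (hs : ∀ F : ZFSet.{u} → ZFSet.{u}, ∃ X ∈ a, p X ∧ ClF α F X) :
    IsCond (ZFSet.sep p a) α where
  lim := h.lim
  sub X hX := h.sub X (ZFSet.mem_sep.1 hX).1
  cnt X hX := h.cnt X (ZFSet.mem_sep.1 hX).1
  emp X hX := h.emp X (ZFSet.mem_sep.1 hX).1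
  pair X hX := h.pair X (ZFSet.mem_sep.1 hX).1
  stat F := by
    obtain ⟨X, hX, hp, hcl⟩ := hs F
    exact ⟨X, ZFSet.mem_sep.2 ⟨hX, hp⟩, hcl⟩

/-- Fodor's lemma. -/
theorem IsCond.fodor {a : ZFSet.{u}} {α : Ordinal.{u}} (h : IsCond a α) (g : ZFSet.{u} → ZFSet.{u})
    (hg : ∀ Z ∈ a, g Z ∈ Z) : ∃ v ∈ V_ α, IsCond (ZFSet.sep (fun Z => g Z = v) a) α := by
  by_contra hne
  push Not at hne
  have key : ∀ v ∈ V_ α, ∃ F : ZFSet.{u} → ZFSet.{u}, ∀ Z ∈ a, g Z = v → ¬ ClF α F Z := by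
    intro v hv
    by_contra hF
    push Not at hF
    exact hne v hv (h.fod_sep _ hF)
  choose! F hF using key
  obtain ⟨Z, hZ, hcl⟩ := h.stat (fun w => F (fs w) (sn w))
  have hv : g Z ∈ Z := hg Z hZ
  apply hF (g Z) (h.sub Z hZ hv) Z hZ rfl
  intro x hx hFx
  have h1 := hcl (ZFSet.pair (g Z) x) (h.pair Z hZ _ hv _ hx)
  simp only [fs_pair, sn_pair] at h1
  exact h1 hFx

theorem IsCond.sep_mem {a : ZFSet.{u}} {α : Ordinal.{u}} (h : IsCond a α) {c : ZFSet.{u}}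
    (hc : c ∈ V_ α) : IsCond (ZFSet.sep (fun Z => c ∈ Z) a) α := by
  classical
  refine h.fod_sep _ fun F => ?_
  obtain ⟨Z, hZ, hcl⟩ := h.stat (fun w => if ∃ x, w = ZFSet.pair ∅ x then F (sn w) else c)
  refine ⟨Z, hZ, ?_, ?_⟩
  · have h1 := hcl ∅ (h.emp Z hZ)
    have h2 : ¬ ∃ x : ZFSet.{u}, ∅ = ZFSet.pair ∅ x := by
      rintro ⟨x, hx⟩
      exact pair_ne_empty _ _ hx.symm
    simp only [if_neg h2] at h1
    exact h1 hc
  · intro x hx hFx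
    have h1 := hcl (ZFSet.pair ∅ x) (h.pair Z hZ _ (h.emp Z hZ) _ hx)
    have h2 : ∃ y : ZFSet.{u}, ZFSet.pair ∅ x = ZFSet.pair ∅ y := ⟨x, rfl⟩
    simp only [if_pos h2, sn_pair] at h1
    exact h1 hFx

theorem IsCond.cle_sep {a : ZFSet.{u}} {α : Ordinal.{u}} (h : IsCond a α) {p : ZFSet.{u} → Prop}
    (hp : IsCond (ZFSet.sep p a) α) : CLe (ZFSet.sep p a) a := by
  refine ⟨?_, fun Z hZ => ?_⟩
  · rw [h.sUnion_eq', hp.sUnion_eq']
  · have h1 := (ZFSet.mem_sep.1 hZ).1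
    rwa [trc_self h1]

theorem CLe.level_le {a b : ZFSet.{u}} {α β : Ordinal.{u}} (ha : IsCond a α) (hb : IsCond b β)
    (h : CLe b a) : α ≤ β := by
  have h1 := h.sub
  rw [ha.sUnion_eq', hb.sUnion_eq'] at h1
  exact ZFSet.vonNeumann_subset_vonNeumann_iff.1 h1

theorem fod_lim_max {α β : Ordinal.{u}} (hα : Order.IsSuccLimit α) (hβ : Order.IsSuccLimit β) :
    Order.IsSuccLimit (max α β) := by
  rcases le_total α β with h | h
  · rwa [max_eq_right h]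
  · rwa [max_eq_left h]

/-- The canonical common extension. -/
noncomputable def fodM (a b : ZFSet.{u}) (γ : Ordinal.{u}) : ZFSet.{u} :=
  ZFSet.sep (fun Z => IsX γ Z ∧ trc (El Z) a ∈ a ∧ trc (El Z) b ∈ b) (ZFSet.powerset (V_ γ))

theorem mem_fodM {a b : ZFSet.{u}} {γ : Ordinal.{u}} {Z : ZFSet.{u}} :
    Z ∈ fodM a b γ ↔ IsX γ Z ∧ trc (El Z) a ∈ a ∧ trc (El Z) b ∈ b := by
  rw [fodM, ZFSet.mem_sep, ZFSet.mem_powerset]
  exact ⟨fun h => h.2, fun h => ⟨h.1.sub, h⟩⟩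

theorem fodM_cond {a b : ZFSet.{u}} {γ : Ordinal.{u}} (hγ : Order.IsSuccLimit γ)
    (h : ∀ F : ZFSet.{u} → ZFSet.{u}, ∃ Z : ZFSet.{u}, IsX γ Z ∧ ClF γ F Z ∧
      (trc (El Z) a ∈ a ∧ trc (El Z) b ∈ b)) : IsCond (fodM a b γ) γ where
  lim := hγ
  sub X hX := (mem_fodM.1 hX).1.sub
  cnt X hX := (mem_fodM.1 hX).1.cnt
  emp X hX := (mem_fodM.1 hX).1.emp
  pair X hX := (mem_fodM.1 hX).1.pair
  stat F := by
    obtain ⟨Z, h1, h2, h3⟩ := h F
    exact ⟨Z, mem_fodM.2 ⟨h1, h3⟩, h2⟩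

theorem fodM_cle {a b : ZFSet.{u}} {α β : Ordinal.{u}} (ha : IsCond a α) (hb : IsCond b β)
    (h : IsCond (fodM a b (max α β)) (max α β)) :
    CLe (fodM a b (max α β)) a ∧ CLe (fodM a b (max α β)) b := by
  refine ⟨⟨?_, fun Z hZ => (mem_fodM.1 hZ).2.1⟩, ⟨?_, fun Z hZ => (mem_fodM.1 hZ).2.2⟩⟩
  · rw [h.sUnion_eq', ha.sUnion_eq']
    exact ZFSet.vonNeumann_subset_of_le (le_max_left _ _)
  · rw [h.sUnion_eq', hb.sUnion_eq']
    exact ZFSet.vonNeumann_subset_of_le (le_max_right _ _)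

theorem exists_incompat {a b : ZFSet.{u}} {α β : Ordinal.{u}} (ha : IsCond a α) (hb : IsCond b β)
    (h : ¬ Compat a b) : ∃ F : ZFSet.{u} → ZFSet.{u}, ∀ Z : ZFSet.{u}, IsX (max α β) Z →
      ClF (max α β) F Z → ¬ (trc (El Z) a ∈ a ∧ trc (El Z) b ∈ b) := by
  by_contra hne
  push Not at hne
  apply h
  have hc : IsCond (fodM a b (max α β)) (max α β) := fodM_cond (fod_lim_max ha.lim hb.lim) hne
  exact ⟨_, _, hc, (fodM_cle ha hb hc).1, (fodM_cle ha hb hc).2⟩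

/-- The part of the class `Y` below the level `γ`. -/
noncomputable def fodZ (Y : Set ZFSet.{u}) (γ : Ordinal.{u}) : ZFSet.{u} :=
  ZFSet.sep (fun x => x ∈ Y) (V_ γ)

theorem mem_fodZ {Y : Set ZFSet.{u}} {γ : Ordinal.{u}} {x : ZFSet.{u}} :
    x ∈ fodZ Y γ ↔ x ∈ V_ γ ∧ x ∈ Y := by
  rw [fodZ, ZFSet.mem_sep]

theorem trc_fodZ {a : ZFSet.{u}} {α γ : Ordinal.{u}} (ha : IsCond a α) (h : α ≤ γ)
    (Y : Set ZFSet.{u}) : trc (El (fodZ Y γ)) a = trc Y a := by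
  ext x
  rw [mem_trc, mem_trc, mem_El, mem_fodZ]
  refine ⟨fun h => ⟨h.1, h.2.2⟩, fun h' => ⟨h'.1, ?_, h'.2⟩⟩
  have h1 := h'.1
  rw [ha.sUnion_eq'] at h1
  exact ZFSet.vonNeumann_subset_of_le h h1

theorem IsCond.emp_mem {a : ZFSet.{u}} {α : Ordinal.{u}} (ha : IsCond a α) : ∅ ∈ V_ α := by
  obtain ⟨X, hX, _⟩ := ha.stat (fun _ => ∅)
  exact ha.sub X hX (ha.emp X hX)

theorem fodZ_isX {a b : ZFSet.{u}} {α β : Ordinal.{u}} (ha : IsCond a α) (hb : IsCond b β)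
    {Y : Set ZFSet.{u}} (hY : (El (fodZ Y (max α β))).Countable) (h0 : ∅ ∈ Y)
    (hp : ∀ x ∈ Y, ∀ y ∈ Y, ZFSet.pair x y ∈ Y) : IsX (max α β) (fodZ Y (max α β)) where
  sub x hx := (mem_fodZ.1 hx).1
  cnt := hY
  emp := mem_fodZ.2 ⟨ZFSet.vonNeumann_subset_of_le (le_max_left _ _) ha.emp_mem, h0⟩
  pair x hx y hy := by
    rw [mem_fodZ] at hx hy ⊢
    exact ⟨rank_pair_lt (fod_lim_max ha.lim hb.lim) hx.1 hy.1, hp x hx.2 y hy.2⟩

theorem Compat.exists_level {a b : ZFSet.{u}} {α β : Ordinal.{u}} (ha : IsCond a α) (hb : IsCond b β)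
    (h : Compat a b) : ∃ c, IsCond c (max α β) ∧ CLe c a ∧ CLe c b := by
  obtain ⟨c, ζ, hc, hca, hcb⟩ := h
  have hγ : max α β ≤ ζ := max_le (hca.level_le ha hc) (hcb.level_le hb hc)
  have hm : IsCond (fodM a b (max α β)) (max α β) := by
    refine fodM_cond (fod_lim_max ha.lim hb.lim) fun F => ?_
    obtain ⟨Z, hZ, hcl⟩ := hc.stat F
    refine ⟨fodZ (El Z) (max α β), ?_, ?_, ?_, ?_⟩
    · refine fodZ_isX ha hb ?_ (hc.emp Z hZ) (hc.pair Z hZ)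
      exact (hc.cnt Z hZ).mono fun x hx => (mem_fodZ.1 hx).2
    · intro x hx hFx
      exact mem_fodZ.2 ⟨hFx, hcl x (mem_fodZ.1 hx).2 (ZFSet.vonNeumann_subset_of_le hγ hFx)⟩
    · rw [trc_fodZ ha (le_max_left _ _)]
      exact hca.tr Z hZ
    · rw [trc_fodZ hb (le_max_right _ _)]
      exact hcb.tr Z hZ
  exact ⟨_, hm, fodM_cle ha hb hm⟩

/-- Elements of a filter given by a class closed under the right operation are compatible. -/
theorem filter_compat {a b : ZFSet.{u}} {α β : Ordinal.{u}} (ha : IsCond a α) (hb : IsCond b β)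
    {F : ZFSet.{u} → ZFSet.{u}} (hF : ∀ Z : ZFSet.{u}, IsX (max α β) Z →
      ClF (max α β) F Z → ¬ (trc (El Z) a ∈ a ∧ trc (El Z) b ∈ b))
    {Y : Set ZFSet.{u}} (hY : Y.Countable) (h0 : ∅ ∈ Y) (hp : ∀ x ∈ Y, ∀ y ∈ Y, ZFSet.pair x y ∈ Y)
    (hFY : ∀ x ∈ Y, F x ∈ Y) (h1 : trc Y a ∈ a) (h2 : trc Y b ∈ b) : False := by
  refine hF (fodZ Y (max α β)) ?_ ?_ ⟨?_, ?_⟩
  · exact fodZ_isX ha hb (hY.mono fun x hx => (mem_fodZ.1 hx).2) h0 hp
  · intro x hx hFx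
    exact mem_fodZ.2 ⟨hFx, hFY x (mem_fodZ.1 hx).2⟩
  · rwa [trc_fodZ ha (le_max_left _ _)]
  · rwa [trc_fodZ hb (le_max_right _ _)]

end Pool.Agent.H82.OC
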