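import Pool.Agent.H82.OC.BDefs
import Pool.Agent.H82.OC.Col

/-!
# OC-B6: forced ranks

(`U, U'` range over the nonempty open sets, ordered by inclusion.)
* `FR.mono_left`, `FR.mono_ord`, `Badt.mono`, `Exact.mono`: immediate from `FR_iff`.
* `exists_Exact`: `¬ Badt U t`: some `ν`, `U' ≤ U` with `FR ν U' t`; take the least `ν` for which such a `U'` exists.
* `Exact.uniq`: on `W = U ∩ U'` (open, contains `x`): `FR ν W t`, so `¬ ν < ν'`; symmetric.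
* `Exact.lt`: `FR ν U t`, `frc U t' t`: `∃ U2 ≤ U, ν'' < ν, FR ν'' U2 t'`; by exactness of `ν'`, `ν' ≤ ν''`.
* `exists_ge`: suppose there is none below `U1`; then `FR ν0 U1 t`: let `t'` over `κ`, `V2 ≤ U1` forcing `t' E t`; `exists_Exact` gives
  `V3 ≤ V2`, `Exact V3 t' ν'`; by assumption `ν' < ν0`, and `FR ν' V3 t'`.  This contradicts `Exact U t ν`, `ν0 < ν`.
* `meagre_of_bad`: (i) if `Badt U t` then for every `U1 ≤ U` there are `U2 ≤ U1` and `t'` over `κ` with `frc U2 t' t`, `Badt U2 t'`: otherwise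
  for every `t'` over `κ` and `U2 ≤ U1` forcing `t' E t` there are `U3 ≤ U2`, `ν` with `FR ν U3 t'`; let `ν*` be the supremum of the `ν + 1` (the
  terms over `Iio κ` and the open sets form small sets); then `FR ν* U1 t`: contradiction.  (ii) `branch_lemma` with states `Tm` (or
  `ULift`; the state type may be in any universe), `𝒲 V t := ∃ h, Badt ⟨V, h⟩ t`, `Ext t V' t' := TmOn (Iio κ) t' ∧ ∀ x ∈ V', Et cd (F x) t' t`.
  For `x` on a branch the terms `t_1, t_2, …` form a descending sequence over `Iio κ`, so `¬ WFOn cd (F x) (Iio κ)`, `¬ WFx cd (F x)` (`WFx.wfOn`).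

Status: complete (proofs by helper26).
-/

set_option autoImplicit false
set_option linter.unusedVariables false
set_option linter.unusedSectionVars false
set_option linter.unusedSimpArgs false
set_option linter.deprecated false

universe u v w

open scoped ZFSet Ordinal

namespace Pool.Agent.H82.OC

open Pool.Agent.H17.Omega Pool.Agent.H17.Omega.T8

theorem Forced.small_terms (κ : Ordinal.{u}) : Small.{u} {t : Tm.{u} // TmOn (Set.Iio κ) t} := by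
  let f : ℕ × List (ℕ × Set.Iio κ) → Tm.{u} := fun q => (q.1, q.2.map fun p => (p.1, p.2.1))
  have hs : Small.{u} (List (ℕ × Set.Iio κ)) := by
    have e : (ℕ × Set.Iio κ) ≃ (ℕ × Shrink.{u} (Set.Iio κ)) :=
      Equiv.prodCongr (Equiv.refl _) (equivShrink _)
    exact ⟨⟨_, ⟨Equiv.listEquivOfEquiv e⟩⟩⟩
  have hs' : Small.{u} (ℕ × List (ℕ × Set.Iio κ)) := inferInstance
  have hr : Small.{u} (Set.range f) := inferInstance
  have hsub : {t : Tm.{u} | TmOn (Set.Iio κ) t} ⊆ Set.range f := by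
    rintro ⟨n, l⟩ hl
    have h1 : ∀ l : List (ℕ × Ordinal.{u}), (∀ p ∈ l, p.2 ∈ Set.Iio κ) →
        ∃ l' : List (ℕ × Set.Iio κ), l = l'.map fun p => (p.1, p.2.1) := by
      intro l
      induction l with
      | nil => intro _; exact ⟨[], rfl⟩
      | cons p l ih =>
        intro hp
        obtain ⟨l', hl'⟩ := ih fun q hq => hp q (List.mem_cons_of_mem _ hq)
        exact ⟨(p.1, ⟨p.2, hp p List.mem_cons_self⟩) :: l', by simp [← hl']⟩
    obtain ⟨l', hl'⟩ := h1 l hl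
    exact ⟨(n, l'), by simp [f, ← hl']⟩
  exact small_subset hsub

section

variable {X : Type u} [TopologicalSpace X] {cd : Tm.{u} → Tm.{u} → ℕ} {F : X → ℕ → ℕ}
  {κ ν ν' : Ordinal.{u}} {U U' p : {U : Set X // IsOpen U ∧ U.Nonempty}} {t t' : Tm.{u}}

theorem FR.mono_left (hU : U' ≤ U) (h : FR cd F κ ν U t) : FR cd F κ ν U' t := by
  rw [FR_iff] at h ⊢
  exact fun t' ht' U1 hU1 hf => h t' ht' U1 (hU1.trans hU) hf

theorem FR.mono_ord (hν : ν ≤ ν') (h : FR cd F κ ν U t) : FR cd F κ ν' U t := by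
  rw [FR_iff] at h ⊢
  intro t' ht' U1 hU1 hf
  obtain ⟨U2, hU2, ν'', h1, h2⟩ := h t' ht' U1 hU1 hf
  exact ⟨U2, hU2, ν'', h1.trans_le hν, h2⟩

theorem Badt.mono (hU : U' ≤ U) (h : Badt cd F κ U t) : Badt cd F κ U' t :=
  fun ν U'' h'' => h ν U'' (h''.trans hU)

theorem Exact.mono (hU : U' ≤ U) (h : Exact cd F κ U t ν) : Exact cd F κ U' t ν :=
  ⟨h.1.mono_left hU, fun ν' h1 U'' h2 => h.2 ν' h1 U'' (h2.trans hU)⟩

theorem exists_Exact (hp : NoBad cd F κ p) (hU : U ≤ p) (ht : TmOn (Set.Iio κ) t) :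
    ∃ U' ≤ U, ∃ ν, Exact cd F κ U' t ν := by
  have h1 := hp U hU t ht
  have h2 : ∃ ν, ∃ U' ≤ U, FR cd F κ ν U' t := by
    by_contra hc
    refine h1 fun ν U' hU' hF => hc ⟨ν, U', hU', hF⟩
  let A : Set Ordinal.{u} := {ν | ∃ U' ≤ U, FR cd F κ ν U' t}
  have hA : A.Nonempty := h2
  obtain ⟨U', hU', hF⟩ : WellFounded.min (wellFounded_lt) A hA ∈ A := WellFounded.min_mem _ _ _
  refine ⟨U', hU', _, hF, fun ν' hν' U'' hU'' hF'' => ?_⟩
  exact WellFounded.not_lt_min wellFounded_lt A (x := ν') ⟨U'', hU''.trans hU', hF''⟩ hν'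

theorem Exact.uniq {x : X} (hx : x ∈ U.1) (hx' : x ∈ U'.1) (h : Exact cd F κ U t ν)
    (h' : Exact cd F κ U' t ν') : ν = ν' := by
  let W : {U : Set X // IsOpen U ∧ U.Nonempty} := ⟨U.1 ∩ U'.1, U.2.1.inter U'.2.1, ⟨x, hx, hx'⟩⟩
  have hW : W ≤ U := Set.inter_subset_left
  have hW' : W ≤ U' := Set.inter_subset_right
  rcases lt_trichotomy ν ν' with hlt | heq | hgt
  · exact (h'.2 ν hlt W hW' (h.1.mono_left hW)).elim
  · exact heq
  · exact (h.2 ν' hgt W hW (h'.1.mono_left hW')).elim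

theorem Exact.lt (h : Exact cd F κ U t ν) (h' : Exact cd F κ U t' ν') (ht' : TmOn (Set.Iio κ) t')
    (hf : frc cd F U t' t) : ν' < ν := by
  obtain ⟨U2, hU2, ν'', h1, h2⟩ := (FR_iff.1 h.1) t' ht' U le_rfl hf
  by_contra hc
  rw [not_lt] at hc
  exact h'.2 ν'' (h1.trans_le hc) U2 hU2 h2

theorem exists_ge (hp : NoBad cd F κ p) (hU : U ≤ p) (h : Exact cd F κ U t ν) {ν0 : Ordinal.{u}}
    (hν : ν0 < ν) {U1 : {U : Set X // IsOpen U ∧ U.Nonempty}} (hU1 : U1 ≤ U) :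
    ∃ V ≤ U1, ∃ t', TmOn (Set.Iio κ) t' ∧ frc cd F V t' t ∧ ∃ ν', ν0 ≤ ν' ∧ Exact cd F κ V t' ν' := by
  by_contra hcon
  refine h.2 ν0 hν U1 hU1 (FR_iff.2 ?_)
  intro t' ht' V2 hV2 hf
  obtain ⟨V3, hV3, ν', hex⟩ := exists_Exact hp (hV2.trans (hU1.trans hU)) ht'
  refine ⟨V3, hV3, ν', ?_, hex.1⟩
  by_contra hlt
  rw [not_lt] at hlt
  exact hcon ⟨V3, hV3.trans hV2, t', ht', fun x hx => hf x (hV3 hx), ν', hlt, hex⟩

theorem Forced.step (h : Badt cd F κ U t) {U1 : {U : Set X // IsOpen U ∧ U.Nonempty}}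
    (hU1 : U1 ≤ U) : ∃ U2 ≤ U1, ∃ t', TmOn (Set.Iio κ) t' ∧ frc cd F U2 t' t ∧
      Badt cd F κ U2 t' := by
  by_contra hcon
  have h1 : ∀ (t' : {t : Tm.{u} // TmOn (Set.Iio κ) t})
      (U2 : {U : Set X // IsOpen U ∧ U.Nonempty}), ∃ ν : Ordinal.{u}, U2 ≤ U1 →
        frc cd F U2 t'.1 t → ∃ U3 ≤ U2, FR cd F κ ν U3 t'.1 := by
    intro t' U2
    by_cases hc : U2 ≤ U1 ∧ frc cd F U2 t'.1 t
    · have h2 : ¬ Badt cd F κ U2 t'.1 := fun hb => hcon ⟨U2, hc.1, t'.1, t'.2, hc.2, hb⟩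
      have h3 : ∃ ν, ∃ U' ≤ U2, FR cd F κ ν U' t'.1 := by
        by_contra hc'
        exact h2 fun ν U' hU' hF => hc' ⟨ν, U', hU', hF⟩
      obtain ⟨ν, h4⟩ := h3
      exact ⟨ν, fun _ _ => h4⟩
    · exact ⟨0, fun a b => (hc ⟨a, b⟩).elim⟩
  choose N hN using h1
  have := Forced.small_terms κ
  let G : {t : Tm.{u} // TmOn (Set.Iio κ) t} × {U : Set X // IsOpen U ∧ U.Nonempty} →
    Ordinal.{u} := fun q => Order.succ (N q.1 q.2)
  refine h (⨆ q, G q) U1 hU1 (FR_iff.2 ?_)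
  intro t' ht' U2 hU2 hf
  obtain ⟨U3, hU3, h5⟩ := hN ⟨t', ht'⟩ U2 hU2 hf
  refine ⟨U3, hU3, _, ?_, h5⟩
  exact (Order.lt_succ _).trans_le (Ordinal.le_iSup G (⟨t', ht'⟩, U2))

theorem meagre_of_bad (hc : OInv cd) (h : Badt cd F κ U t) :
    IsMeagre {x | x ∈ U.1 ∧ WFx cd (F x)} := by
  have hM := branch_lemma (X := X) (S := Tm.{u})
    (fun V s => ∃ h : IsOpen V ∧ V.Nonempty, Badt cd F κ ⟨V, h⟩ s)
    (fun V s h => h.1)
    (fun s V' s' => TmOn (Set.Iio κ) s' ∧ ∀ x ∈ V', Et cd (F x) s' s)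
    (fun V s ⟨ho, hA⟩ V1 h1 ho1 hn1 => by
      obtain ⟨r2, hr2, s', hs', hf, hb⟩ := Forced.step hA (U1 := ⟨V1, ho1, hn1⟩) h1
      exact ⟨r2.1, hr2, s', ⟨r2.2, hb⟩, hs', hf⟩)
    U.1 t ⟨U.2, h⟩
  refine hM.mono ?_
  intro x hx
  refine ⟨hx.1, ?_⟩
  rintro ⟨st, hst0, hst⟩
  obtain ⟨n, hn⟩ := WFx.wfOn hc hx.2 (Set.Iio κ) (fun n => (st (n + 1)).2)
    (fun n => (hst n).2.1.1)
  exact hn ((hst (n + 1)).2.1.2 x (hst (n + 1 + 1)).2.2)

end

end Pool.Agent.H82.OC
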