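import Pool.Agent.H82.OC.Forced

/-!
# OC-B7: the rank function at a generic point

Codes: `listZ`, `tmZ` are injective; `tmZ t ∈ Y` iff `t` is a term over `{μ | μ.toZFSet ∈ Y}`, if `Y` contains `∅` and is closed under
pairing and `fs`, `sn` (`tmZ_mem_iff`; for `→`: `sn (tmZ t) = listZ t.2`, `fs`, `sn` of a list code).

`exists_rkOps`.  For a term `t` over `κ` let
  `Dec t = {U | ∃ h, ⟨U, h⟩ ≤ p ∧ ∃ ν, Exact ⟨U, h⟩ t ν} ∪ {U | IsOpen U ∧ U ∩ p = ∅}`,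
and for `U` (open, nonempty), `ν`:
  `Ge U t ν = {V | ∃ h, ⟨V, h⟩ ≤ U ∧ ∃ t' over κ, frc V t' t ∧ ∃ ν' ≥ ν, Exact ⟨V, h⟩ t' ν'} ∪ {V | IsOpen V ∧ V ∩ U = ∅}`.
Operations: `Ω 0 = fs`, `Ω 1 = sn`,
  `Ω 2 (tmZ t) = c2 (Dec t)`,
  `Ω 3 (pair (c1 U) (tmZ t)) = ν.toZFSet` if `Exact U t ν` (`ν` is unique for given `U, t`: `Exact.uniq`),
  `Ω 4 (pair (pair (c1 U) (tmZ t)) ν.toZFSet) = c2 (Ge U t ν)`,
  `Ω 5 (pair (pair (c1 V) (tmZ t)) ν.toZFSet) = tmZ t'` for some `t'` over `κ` with `frc V t' t` and `Exact V t' ν'`, `ν' ≥ ν` (if there is one),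
  `Ω (n+6) z = z`   (all defined by cases with `Classical.choice`; use injectivity of the codes).
Let `Clo Ω Y`, `x ∈ p`, `Gen c1 c2 Y x`.  For a term `t` over `Ords κ Y`: `tmZ t ∈ Y`, `c2 (Dec t) ∈ Y`, `⋃₀ (Dec t)` is dense (`exists_Exact`), so there
is `U ∈ Dec t` with `c1 U ∈ Y`, `x ∈ U`; as `x ∈ p`, `U ≤ p` and `Exact U t ν` for some `ν`: `v t := ν`; `(v t).toZFSet = Ω 3 (..) ∈ Y`.
Last clause: `Exact.uniq`.
(a) `Et cd (F x) t' t → v t' < v t`: `{y | F y n = F x n}`, `n = cd t' t`, is open (`hF`); `W` = its intersection with the `U`'s for `t` and `t'` contains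
    `x`; `Exact.mono`, `frc W t' t`, `Exact.lt`.
(b) `ν < v t`, `ν.toZFSet ∈ Y`: `Ge U t ν` is dense by `exists_ge` (`U` = the open set chosen for `t`), its code is in `Y`, so there is `V ∈ Ge U t ν`,
    `c1 V ∈ Y`, `x ∈ V`; `x ∈ U`, so `V` is of the first kind; `Ω 5` gives `t'` with `tmZ t' ∈ Y`, so `t'` is over `Ords κ Y`; `Et cd (F x) t' t`
    (`frc`), and `v t' = ν' ≥ ν` by the last clause.

`rkT_eq_col`: let `O = {ν | ν.toZFSet ∈ Y}`.  `rkT_eq_of` for `v' t = col O (v t)`: (a) `v t' < v t`, `v t' ∈ O`: `col_lt`.  (b) `ν < col O (v t)`: there is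
`s ∈ O`, `s < v t`, `col O s = ν` (`exists_of_lt_col`); by (b) above `t'` with `s ≤ v t'`: `ν ≤ col O (v t')` (`col_mono`).
-/

set_option autoImplicit false
set_option linter.unusedVariables false
set_option linter.unusedSectionVars false
set_option linter.unusedSimpArgs false
set_option linter.deprecated false

universe u v w

open scoped ZFSet Ordinal

namespace Pool.Agent.H82.OC

open Pool.Agent.H17.Omega Pool.Agent.H17.Omega.T8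

theorem listZ_inj {l l' : List (ℕ × Ordinal.{u})} (h : listZ l = listZ l') : l = l' := by
  induction l generalizing l' with
  | nil =>
    cases l' with
    | nil => rfl
    | cons p l' => exact (pair_ne_empty _ _ h.symm).elim
  | cons p l ih =>
    cases l' with
    | nil => exact (pair_ne_empty _ _ h).elim
    | cons q l' =>
      rw [listZ, listZ, ZFSet.pair_inj, ZFSet.pair_inj] at h
      rw [ih h.2, Prod.ext (tag_inj h.1.1) (Ordinal.toZFSet_injective h.1.2)]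

theorem tmZ_inj {t t' : Tm.{u}} (h : tmZ t = tmZ t') : t = t' := by
  rw [tmZ, tmZ, ZFSet.pair_inj] at h
  exact Prod.ext (tag_inj h.1) (listZ_inj h.2)

private theorem genrk_tag_mem {Y : Set ZFSet.{u}} (h0 : ∅ ∈ Y)
    (hp : ∀ x ∈ Y, ∀ y ∈ Y, ZFSet.pair x y ∈ Y) : ∀ n, tag n ∈ Y
  | 0 => h0
  | n + 1 => hp _ h0 _ (genrk_tag_mem h0 hp n)

private theorem genrk_listZ_mem {Y : Set ZFSet.{u}} (h0 : ∅ ∈ Y)
    (hp : ∀ x ∈ Y, ∀ y ∈ Y, ZFSet.pair x y ∈ Y)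
    (hf : ∀ x ∈ Y, fs x ∈ Y) (hs : ∀ x ∈ Y, sn x ∈ Y) (l : List (ℕ × Ordinal.{u})) :
    listZ l ∈ Y ↔ ∀ p ∈ l, p.2.toZFSet ∈ Y := by
  induction l with
  | nil => simpa [listZ] using h0
  | cons p l ih =>
    rw [List.forall_mem_cons, ← ih, listZ]
    constructor
    · intro h
      have h1 := hf _ h
      have h2 := hs _ h
      rw [fs_pair] at h1
      rw [sn_pair] at h2
      have h3 := hs _ h1
      rw [sn_pair] at h3
      exact ⟨h3, h2⟩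
    · rintro ⟨h1, h2⟩
      exact hp _ (hp _ (genrk_tag_mem h0 hp _) _ h1) _ h2

theorem tmZ_mem_iff {Y : Set ZFSet.{u}} (h0 : ∅ ∈ Y) (hp : ∀ x ∈ Y, ∀ y ∈ Y, ZFSet.pair x y ∈ Y)
    (hf : ∀ x ∈ Y, fs x ∈ Y) (hs : ∀ x ∈ Y, sn x ∈ Y) {t : Tm.{u}} :
    tmZ t ∈ Y ↔ TmOn {μ | μ.toZFSet ∈ Y} t := by
  have h1 := genrk_listZ_mem h0 hp hf hs t.2
  constructor
  · intro h
    have h2 := hs _ h
    rw [tmZ, sn_pair] at h2
    exact fun p hp' => h1.1 h2 p hp'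
  · intro h
    exact hp _ (genrk_tag_mem h0 hp _) _ (h1.2 fun p hp' => h p hp')

/-- A rank function at a generic point. -/
structure IsRk (cd : Tm.{u} → Tm.{u} → ℕ) (x : ℕ → ℕ) (κ : Ordinal.{u}) (Y : Set ZFSet.{u})
    (v : Tm.{u} → Ordinal.{u}) : Prop where
  mem : ∀ t, TmOn (Ords κ Y) t → (v t).toZFSet ∈ Y
  lt : ∀ t t', TmOn (Ords κ Y) t → TmOn (Ords κ Y) t' → Et cd x t' t → v t' < v t
  ge : ∀ t, TmOn (Ords κ Y) t → ∀ ν < v t, ν.toZFSet ∈ Y →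
    ∃ t', TmOn (Ords κ Y) t' ∧ Et cd x t' t ∧ ν ≤ v t'

section GenRkAux

variable {X : Type u} [TopologicalSpace X]

/-- The open sets that decide the rank of `t`. -/
private def genrkDec (cd : Tm.{u} → Tm.{u} → ℕ) (F : X → ℕ → ℕ) (κ : Ordinal.{u})
    (p : {U : Set X // IsOpen U ∧ U.Nonempty}) (t : Tm.{u}) : Set (Set X) :=
  {U | ∃ h : IsOpen U ∧ U.Nonempty, (⟨U, h⟩ : {U : Set X // IsOpen U ∧ U.Nonempty}) ≤ p ∧
    ∃ ν, Exact cd F κ ⟨U, h⟩ t ν} ∪ {U | IsOpen U ∧ U ∩ p.1 = ∅}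

/-- The open sets with a term of rank at least `ν`. -/
private def genrkGe (cd : Tm.{u} → Tm.{u} → ℕ) (F : X → ℕ → ℕ) (κ : Ordinal.{u})
    (U : {U : Set X // IsOpen U ∧ U.Nonempty}) (t : Tm.{u}) (ν : Ordinal.{u}) : Set (Set X) :=
  {V | ∃ h : IsOpen V ∧ V.Nonempty, (⟨V, h⟩ : {U : Set X // IsOpen U ∧ U.Nonempty}) ≤ U ∧
    ∃ t', TmOn (Set.Iio κ) t' ∧ frc cd F ⟨V, h⟩ t' t ∧ ∃ ν', ν ≤ ν' ∧
      Exact cd F κ ⟨V, h⟩ t' ν'} ∪ {V | IsOpen V ∧ V ∩ U.1 = ∅}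

open Classical in
/-- The operations. -/
private noncomputable def genrkOp (cd : Tm.{u} → Tm.{u} → ℕ) (F : X → ℕ → ℕ) (κ : Ordinal.{u})
    (p : {U : Set X // IsOpen U ∧ U.Nonempty}) (c1 : Set X → ZFSet.{u})
    (c2 : Set (Set X) → ZFSet.{u}) : ℕ → ZFSet.{u} → ZFSet.{u}
  | 0 => fs
  | 1 => sn
  | 2 => fun z => if h : ∃ t : Tm.{u}, tmZ t = z then c2 (genrkDec cd F κ p h.choose) else ∅
  | 3 => fun z => if h : ∃ q : {U : Set X // IsOpen U ∧ U.Nonempty} × Tm.{u} × Ordinal.{u},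
      ZFSet.pair (c1 q.1.1) (tmZ q.2.1) = z ∧ Exact cd F κ q.1 q.2.1 q.2.2
      then h.choose.2.2.toZFSet else ∅
  | 4 => fun z => if h : ∃ q : {U : Set X // IsOpen U ∧ U.Nonempty} × Tm.{u} × Ordinal.{u},
      ZFSet.pair (ZFSet.pair (c1 q.1.1) (tmZ q.2.1)) q.2.2.toZFSet = z
      then c2 (genrkGe cd F κ h.choose.1 h.choose.2.1 h.choose.2.2) else ∅
  | 5 => fun z => if h : ∃ q : {U : Set X // IsOpen U ∧ U.Nonempty} × Tm.{u} × Ordinal.{u} ×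
      Tm.{u} × Ordinal.{u}, ZFSet.pair (ZFSet.pair (c1 q.1.1) (tmZ q.2.1)) q.2.2.1.toZFSet = z ∧
      TmOn (Set.Iio κ) q.2.2.2.1 ∧ frc cd F q.1 q.2.2.2.1 q.2.1 ∧ q.2.2.1 ≤ q.2.2.2.2 ∧
      Exact cd F κ q.1 q.2.2.2.1 q.2.2.2.2
      then tmZ h.choose.2.2.2.1 else ∅
  | _ => fun z => z

variable {cd : Tm.{u} → Tm.{u} → ℕ} {F : X → ℕ → ℕ} {κ : Ordinal.{u}}
  {p : {U : Set X // IsOpen U ∧ U.Nonempty}} {c1 : Set X → ZFSet.{u}}
  {c2 : Set (Set X) → ZFSet.{u}}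

open Classical in
private theorem genrkOp_two (t : Tm.{u}) :
    genrkOp cd F κ p c1 c2 2 (tmZ t) = c2 (genrkDec cd F κ p t) := by
  have h : ∃ t' : Tm.{u}, tmZ t' = tmZ t := ⟨t, rfl⟩
  show (if h : ∃ t' : Tm.{u}, tmZ t' = tmZ t then c2 (genrkDec cd F κ p h.choose) else ∅) = _
  rw [dif_pos h, tmZ_inj h.choose_spec]

open Classical in
private theorem genrkOp_three (h1 : Function.Injective c1)
    {U : {U : Set X // IsOpen U ∧ U.Nonempty}} {t : Tm.{u}} {ν : Ordinal.{u}}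
    (hE : Exact cd F κ U t ν) :
    genrkOp cd F κ p c1 c2 3 (ZFSet.pair (c1 U.1) (tmZ t)) = ν.toZFSet := by
  have h : ∃ q : {U : Set X // IsOpen U ∧ U.Nonempty} × Tm.{u} × Ordinal.{u},
      ZFSet.pair (c1 q.1.1) (tmZ q.2.1) = ZFSet.pair (c1 U.1) (tmZ t) ∧
      Exact cd F κ q.1 q.2.1 q.2.2 := ⟨(U, t, ν), rfl, hE⟩
  show (if h : ∃ q : {U : Set X // IsOpen U ∧ U.Nonempty} × Tm.{u} × Ordinal.{u},
      ZFSet.pair (c1 q.1.1) (tmZ q.2.1) = ZFSet.pair (c1 U.1) (tmZ t) ∧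
      Exact cd F κ q.1 q.2.1 q.2.2 then h.choose.2.2.toZFSet else ∅) = _
  rw [dif_pos h]
  obtain ⟨hs1, hs2⟩ := h.choose_spec
  rw [ZFSet.pair_inj] at hs1
  have hU := Subtype.ext (h1 hs1.1)
  have ht := tmZ_inj hs1.2
  rw [hU, ht] at hs2
  obtain ⟨x, hx⟩ := U.2.2
  rw [Exact.uniq hx hx hs2 hE]

open Classical in
private theorem genrkOp_four (h1 : Function.Injective c1)
    (U : {U : Set X // IsOpen U ∧ U.Nonempty}) (t : Tm.{u}) (ν : Ordinal.{u}) :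
    genrkOp cd F κ p c1 c2 4 (ZFSet.pair (ZFSet.pair (c1 U.1) (tmZ t)) ν.toZFSet) =
      c2 (genrkGe cd F κ U t ν) := by
  have h : ∃ q : {U : Set X // IsOpen U ∧ U.Nonempty} × Tm.{u} × Ordinal.{u},
      ZFSet.pair (ZFSet.pair (c1 q.1.1) (tmZ q.2.1)) q.2.2.toZFSet =
      ZFSet.pair (ZFSet.pair (c1 U.1) (tmZ t)) ν.toZFSet := ⟨(U, t, ν), rfl⟩
  show (if h : ∃ q : {U : Set X // IsOpen U ∧ U.Nonempty} × Tm.{u} × Ordinal.{u},
      ZFSet.pair (ZFSet.pair (c1 q.1.1) (tmZ q.2.1)) q.2.2.toZFSet =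
      ZFSet.pair (ZFSet.pair (c1 U.1) (tmZ t)) ν.toZFSet then
      c2 (genrkGe cd F κ h.choose.1 h.choose.2.1 h.choose.2.2) else ∅) = _
  rw [dif_pos h]
  have hs1 := h.choose_spec
  rw [ZFSet.pair_inj, ZFSet.pair_inj] at hs1
  rw [Subtype.ext (h1 hs1.1.1), tmZ_inj hs1.1.2, Ordinal.toZFSet_injective hs1.2]

open Classical in
private theorem genrkOp_five (h1 : Function.Injective c1)
    {U : {U : Set X // IsOpen U ∧ U.Nonempty}} {t : Tm.{u}} {ν : Ordinal.{u}}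
    (hE : ∃ t', TmOn (Set.Iio κ) t' ∧ frc cd F U t' t ∧ ∃ ν', ν ≤ ν' ∧ Exact cd F κ U t' ν') :
    ∃ t', genrkOp cd F κ p c1 c2 5 (ZFSet.pair (ZFSet.pair (c1 U.1) (tmZ t)) ν.toZFSet) =
      tmZ t' ∧ TmOn (Set.Iio κ) t' ∧ frc cd F U t' t ∧ ∃ ν', ν ≤ ν' ∧ Exact cd F κ U t' ν' := by
  obtain ⟨t', ht', hf', ν', hν', hE'⟩ := hE
  have h : ∃ q : {U : Set X // IsOpen U ∧ U.Nonempty} × Tm.{u} × Ordinal.{u} ×
      Tm.{u} × Ordinal.{u}, ZFSet.pair (ZFSet.pair (c1 q.1.1) (tmZ q.2.1)) q.2.2.1.toZFSet =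
      ZFSet.pair (ZFSet.pair (c1 U.1) (tmZ t)) ν.toZFSet ∧
      TmOn (Set.Iio κ) q.2.2.2.1 ∧ frc cd F q.1 q.2.2.2.1 q.2.1 ∧ q.2.2.1 ≤ q.2.2.2.2 ∧
      Exact cd F κ q.1 q.2.2.2.1 q.2.2.2.2 := ⟨(U, t, ν, t', ν'), rfl, ht', hf', hν', hE'⟩
  refine ⟨h.choose.2.2.2.1, ?_, ?_⟩
  · show (if h : ∃ q : {U : Set X // IsOpen U ∧ U.Nonempty} × Tm.{u} × Ordinal.{u} ×
      Tm.{u} × Ordinal.{u}, ZFSet.pair (ZFSet.pair (c1 q.1.1) (tmZ q.2.1)) q.2.2.1.toZFSet =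
      ZFSet.pair (ZFSet.pair (c1 U.1) (tmZ t)) ν.toZFSet ∧
      TmOn (Set.Iio κ) q.2.2.2.1 ∧ frc cd F q.1 q.2.2.2.1 q.2.1 ∧ q.2.2.1 ≤ q.2.2.2.2 ∧
      Exact cd F κ q.1 q.2.2.2.1 q.2.2.2.2 then tmZ h.choose.2.2.2.1 else ∅) = _
    rw [dif_pos h]
  · obtain ⟨hs1, hs2, hs3, hs4, hs5⟩ := h.choose_spec
    rw [ZFSet.pair_inj, ZFSet.pair_inj] at hs1
    have hU := Subtype.ext (h1 hs1.1.1)
    have ht := tmZ_inj hs1.1.2
    have hν := Ordinal.toZFSet_injective hs1.2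
    rw [hU] at hs3 hs5
    rw [ht] at hs3
    rw [hν] at hs4
    exact ⟨hs2, hs3, _, hs4, hs5⟩

private theorem genrkDec_open {t : Tm.{u}} : ∀ U ∈ genrkDec cd F κ p t, IsOpen U := by
  rintro U (⟨h, _⟩ | ⟨h, _⟩)
  · exact h.1
  · exact h

private theorem genrkGe_open {U : {U : Set X // IsOpen U ∧ U.Nonempty}} {t : Tm.{u}}
    {ν : Ordinal.{u}} : ∀ V ∈ genrkGe cd F κ U t ν, IsOpen V := by
  rintro V (⟨h, _⟩ | ⟨h, _⟩)
  · exact h.1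
  · exact h

private theorem genrkDec_dense (hp : NoBad cd F κ p) {t : Tm.{u}} (ht : TmOn (Set.Iio κ) t) :
    Dense (⋃₀ genrkDec cd F κ p t) := by
  rw [dense_iff_inter_open]
  intro O hO hne
  by_cases hOp : (O ∩ p.1).Nonempty
  · obtain ⟨U', hU', ν, hE⟩ := exists_Exact (U := ⟨O ∩ p.1, hO.inter p.2.1, hOp⟩) hp
      (show O ∩ p.1 ⊆ p.1 from Set.inter_subset_right) ht
    obtain ⟨y, hy⟩ := U'.2.2
    have hU'' : U'.1 ⊆ O ∩ p.1 := hU'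
    refine ⟨y, (hU'' hy).1, U'.1, Or.inl ⟨U'.2, ?_, ν, hE⟩, hy⟩
    exact show U'.1 ⊆ p.1 from hU''.trans Set.inter_subset_right
  · obtain ⟨y, hy⟩ := hne
    exact ⟨y, hy, O, Or.inr ⟨hO, Set.not_nonempty_iff_eq_empty.1 hOp⟩, hy⟩

private theorem genrkGe_dense (hp : NoBad cd F κ p) {U : {U : Set X // IsOpen U ∧ U.Nonempty}}
    (hU : U ≤ p) {t : Tm.{u}} {ν ν1 : Ordinal.{u}} (hE : Exact cd F κ U t ν1) (hν : ν < ν1) :
    Dense (⋃₀ genrkGe cd F κ U t ν) := by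
  rw [dense_iff_inter_open]
  intro O hO hne
  by_cases hOp : (O ∩ U.1).Nonempty
  · obtain ⟨V, hV, t', ht', hf', hE'⟩ := exists_ge hp hU hE hν
      (U1 := ⟨O ∩ U.1, hO.inter U.2.1, hOp⟩) (show O ∩ U.1 ⊆ U.1 from Set.inter_subset_right)
    obtain ⟨y, hy⟩ := V.2.2
    have hV' : V.1 ⊆ O ∩ U.1 := hV
    refine ⟨y, (hV' hy).1, V.1, Or.inl ⟨V.2, ?_, t', ht', hf', hE'⟩, hy⟩
    exact show V.1 ⊆ U.1 from hV'.trans Set.inter_subset_right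
  · obtain ⟨y, hy⟩ := hne
    exact ⟨y, hy, O, Or.inr ⟨hO, Set.not_nonempty_iff_eq_empty.1 hOp⟩, hy⟩

end GenRkAux

theorem exists_rkOps {X : Type u} [TopologicalSpace X] {cd : Tm.{u} → Tm.{u} → ℕ}
    {F : X → ℕ → ℕ} (hF : Continuous F) {c1 : Set X → ZFSet.{u}} {c2 : Set (Set X) → ZFSet.{u}}
    (h1 : Function.Injective c1) (h2 : Function.Injective c2) {κ : Ordinal.{u}}
    {p : {U : Set X // IsOpen U ∧ U.Nonempty}} (hp : NoBad cd F κ p) :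
    ∃ Ω : ℕ → ZFSet.{u} → ZFSet.{u}, ∀ Y : Set ZFSet.{u}, Clo Ω Y → ∀ x ∈ p.1, Gen c1 c2 Y x →
      ∃ v : Tm.{u} → Ordinal.{u}, IsRk cd (F x) κ Y v ∧
        ∀ t, TmOn (Ords κ Y) t → ∀ U : {U : Set X // IsOpen U ∧ U.Nonempty}, x ∈ U.1 →
          ∀ ν, Exact cd F κ U t ν → v t = ν := by
  refine ⟨genrkOp cd F κ p c1 c2, fun Y hY x hx hG => ?_⟩
  have hmem : ∀ t, tmZ t ∈ Y ↔ TmOn {μ | μ.toZFSet ∈ Y} t := fun t =>
    tmZ_mem_iff hY.emp hY.pair (fun z hz => hY.op 0 z hz) (fun z hz => hY.op 1 z hz)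
  have hO1 : ∀ t, TmOn (Ords κ Y) t → TmOn (Set.Iio κ) t := fun t ht q hq => (ht q hq).1
  have hO2 : ∀ t, TmOn (Ords κ Y) t → tmZ t ∈ Y := fun t ht =>
    (hmem t).2 fun q hq => (ht q hq).2
  have hO3 : ∀ t, TmOn (Set.Iio κ) t → tmZ t ∈ Y → TmOn (Ords κ Y) t := fun t ht ht' q hq =>
    ⟨ht q hq, (hmem t).1 ht' q hq⟩
  have key : ∀ t, ∃ ν : Ordinal.{u}, TmOn (Ords κ Y) t →
      ∃ U : {U : Set X // IsOpen U ∧ U.Nonempty}, U ≤ p ∧ c1 U.1 ∈ Y ∧ x ∈ U.1 ∧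
        Exact cd F κ U t ν := by
    intro t
    by_cases ht : TmOn (Ords κ Y) t
    · have hd : c2 (genrkDec cd F κ p t) ∈ Y := by
        have h5 := genrkOp_two (cd := cd) (F := F) (κ := κ) (p := p) (c1 := c1) (c2 := c2) t
        rw [← h5]
        exact hY.op 2 _ (hO2 t ht)
      obtain ⟨U, hU, hcU, hxU⟩ := hG _ genrkDec_open (genrkDec_dense hp (hO1 t ht)) hd
      rcases hU with ⟨h, hUp, ν, hE⟩ | ⟨_, hUp⟩
      · exact ⟨ν, fun _ => ⟨⟨U, h⟩, hUp, hcU, hxU, hE⟩⟩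
      · exact absurd (show x ∈ U ∩ p.1 from ⟨hxU, hx⟩) (by rw [hUp]; exact Set.notMem_empty x)
    · exact ⟨0, fun h => absurd h ht⟩
  choose v hv using key
  have huniq : ∀ t, TmOn (Ords κ Y) t → ∀ U : {U : Set X // IsOpen U ∧ U.Nonempty}, x ∈ U.1 →
      ∀ ν, Exact cd F κ U t ν → v t = ν := by
    intro t ht U hxU ν hE
    obtain ⟨U', _, _, hxU', hE'⟩ := hv t ht
    exact Exact.uniq hxU' hxU hE' hE
  refine ⟨v, ⟨?_, ?_, ?_⟩, huniq⟩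
  · intro t ht
    obtain ⟨U, _, hcU, _, hE⟩ := hv t ht
    rw [← genrkOp_three (p := p) (c2 := c2) h1 hE]
    exact hY.op 3 _ (hY.pair _ hcU _ (hO2 t ht))
  · intro t t' ht ht' he
    obtain ⟨U, _, _, hxU, hE⟩ := hv t ht
    obtain ⟨U', _, _, hxU', hE'⟩ := hv t' ht'
    have hop : IsOpen {y : X | F y (cd t' t) = F x (cd t' t)} := by
      have hc : Continuous fun y : X => F y (cd t' t) := (continuous_apply _).comp hF
      exact (isOpen_discrete {F x (cd t' t)}).preimage hc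
    let W : {U : Set X // IsOpen U ∧ U.Nonempty} :=
      ⟨(U.1 ∩ U'.1) ∩ {y : X | F y (cd t' t) = F x (cd t' t)},
        (U.2.1.inter U'.2.1).inter hop, x, ⟨hxU, hxU'⟩, rfl⟩
    have hWU : W ≤ U := fun y hy => hy.1.1
    have hWU' : W ≤ U' := fun y hy => hy.1.2
    refine Exact.lt (hE.mono hWU) (hE'.mono hWU') (hO1 t' ht') ?_
    intro y hy
    have hy2 : F y (cd t' t) = F x (cd t' t) := hy.2
    rw [Et, hy2]
    exact he
  · intro t ht ν hν hνY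
    obtain ⟨U, hUp, hcU, hxU, hE⟩ := hv t ht
    have hd : c2 (genrkGe cd F κ U t ν) ∈ Y := by
      have h5 := genrkOp_four (cd := cd) (F := F) (κ := κ) (p := p) (c2 := c2) h1 U t ν
      rw [← h5]
      exact hY.op 4 _ (hY.pair _ (hY.pair _ hcU _ (hO2 t ht)) _ hνY)
    obtain ⟨V, hV, hcV, hxV⟩ := hG _ genrkGe_open (genrkGe_dense hp hUp hE hν) hd
    rcases hV with ⟨h, hVU, hex⟩ | ⟨_, hVU⟩
    · obtain ⟨t', h5, ht', hf', ν', hν', hE'⟩ :=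
        genrkOp_five (p := p) (c2 := c2) (U := ⟨V, h⟩) h1 hex
      have htY : tmZ t' ∈ Y := by
        rw [← h5]
        exact hY.op 5 _ (hY.pair _ (hY.pair _ hcV _ (hO2 t ht)) _ hνY)
      have ht'' := hO3 t' ht' htY
      refine ⟨t', ht'', hf' x hxV, ?_⟩
      rw [huniq t' ht'' ⟨V, h⟩ hxV ν' hE']
      exact hν'
    · exact absurd (show x ∈ V ∩ U.1 from ⟨hxV, hxU⟩) (by rw [hVU]; exact Set.notMem_empty x)

theorem IsRk.rkT_eq_col {cd : Tm.{u} → Tm.{u} → ℕ} {x : ℕ → ℕ} {κ : Ordinal.{u}}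
    {Y : Set ZFSet.{u}} {v : Tm.{u} → Ordinal.{u}} (h : IsRk cd x κ Y v) {t : Tm.{u}}
    (ht : TmOn (Ords κ Y) t) :
    rkT cd x (Ords κ Y) t = col {ν : Ordinal.{u} | ν.toZFSet ∈ Y} (v t) := by
  refine rkT_eq_of (fun t => col {ν : Ordinal.{u} | ν.toZFSet ∈ Y} (v t)) ?_ ?_ ht
  · intro t t' ht ht' he
    exact col_lt (h.mem t' ht') (h.lt t t' ht ht' he)
  · intro t ht ν hν
    obtain ⟨s, hs, hsv, rfl⟩ := exists_of_lt_col hν
    obtain ⟨t', ht', he, hle⟩ := h.ge t ht s hsv hs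
    exact ⟨t', ht', he, col_mono hle⟩

end Pool.Agent.H82.OC
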