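import Pool.Agent.H82.OC.Defs

/-!
# OC-A10: the hull lemma

Proof.  Let `p : ℕ → V` enumerate `insert ∅ P0`.  Countable inductive type of terms

    inductive Tm | emp | par (i : ℕ) | c (i : ℕ) | pr (s t : Tm) | op (n : ℕ) (s : Tm)

with evaluation in a sequence `c : ℕ → V`: `ev c emp = ∅`, `ev c (par i) = p i`, `ev c (c i) = c i`, `ev c (pr s t) = pair (ev c s) (ev c t)`,
`ev c (op n s) = Φ n (ev c s)`.  For a list `l` of sets let `l⁺ i = l.getD i ∅`.  `bd t` = a bound for the indices of the constants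
`c i` in `t`: if `c`, `c'` agree below `bd t` then `ev c t = ev c' t`.  Let `e : ℕ → Tm` be surjective.
`branch_lemma` (`H17/Omega/Meager.lean`) with states `S = List V`, `𝒲 U s := IsOpen U ∧ U.Nonempty`, and

  `Ext s U' s'`:  `∃ z, s' = s ++ [z] ∧ ∀ 𝒰, (∀ U ∈ 𝒰, IsOpen U) → Dense (⋃₀ 𝒰) → c2 𝒰 = ev s⁺ (e (s.length.unpair.2)) →
                   ∃ U ∈ 𝒰, z = c1 U ∧ U' ⊆ U`.

`hstep`: given `V1` open nonempty: if there is a dense open family `𝒰` with `c2 𝒰 = ev s⁺ (e ..)` (unique by `hc2`) then some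
`U ∈ 𝒰` meets `V1`: `V' = V1 ∩ U`, `z = c1 U`; otherwise `V' = V1`, `z = ∅`.
If `X` is empty the statement is trivial; otherwise start with `V0 = univ`, `s0 = []`.
Let `x` lie on the branch `st`.  `(st m).2` is an increasing sequence of lists of length `m`; let `c i` be the limit sequence
(`c i = (st (i+1)).2.getD i ∅`), `Y = {ev c t : t : Tm}`: countable, `P0 ⊆ Y`, `Clo Φ Y`.  If `c2 𝒰 = ev c t ∈ Y`, choose `m` with
`m.unpair.2` an index of `t` and `bd t ≤ m` (`m = Nat.pair k n ≥ k`, `Nat.left_le_pair`): `ev (st m).2⁺ t = ev c t`, so there is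
`U ∈ 𝒰`, `c m = c1 U ∈ Y`, `x ∈ (st (m+1)).1 ⊆ U`.
-/

set_option autoImplicit false
set_option linter.unusedVariables false
set_option linter.unusedSectionVars false
set_option linter.unusedSimpArgs false
set_option linter.deprecated false

universe u v w

open scoped ZFSet

namespace Pool.Agent.H82.OC

open Pool.Agent.H17.Omega

/-- Terms. -/
inductive HTm : Type
  | emp : HTm
  | par : ℕ → HTm
  | c : ℕ → HTm
  | pr : HTm → HTm → HTm
  | op : ℕ → HTm → HTm

/-- Code of a term as a natural number. -/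
def HTm.enc : HTm → ℕ
  | .emp => 0
  | .par i => 4 * i + 1
  | .c i => 4 * i + 2
  | .pr s t => 4 * Nat.pair s.enc t.enc + 3
  | .op n s => 4 * Nat.pair n s.enc + 4

theorem HTm.enc_inj : Function.Injective HTm.enc := by
  intro s
  induction s with
  | emp =>
    intro t h
    cases t with
    | emp => rfl
    | par i => simp only [HTm.enc] at h; omega
    | c i => simp only [HTm.enc] at h; omega
    | pr s t => simp only [HTm.enc] at h; omega
    | op n s => simp only [HTm.enc] at h; omega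
  | par j =>
    intro t h
    cases t with
    | emp => simp only [HTm.enc] at h; omega
    | par i => simp only [HTm.enc] at h; congr 1; omega
    | c i => simp only [HTm.enc] at h; omega
    | pr s t => simp only [HTm.enc] at h; omega
    | op n s => simp only [HTm.enc] at h; omega
  | c j =>
    intro t h
    cases t with
    | emp => simp only [HTm.enc] at h; omega
    | par i => simp only [HTm.enc] at h; omega
    | c i => simp only [HTm.enc] at h; congr 1; omega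
    | pr s t => simp only [HTm.enc] at h; omega
    | op n s => simp only [HTm.enc] at h; omega
  | pr s1 t1 ih1 ih2 =>
    intro t h
    cases t with
    | emp => simp only [HTm.enc] at h; omega
    | par i => simp only [HTm.enc] at h; omega
    | c i => simp only [HTm.enc] at h; omega
    | pr s t =>
      simp only [HTm.enc] at h
      have h1 : Nat.pair s1.enc t1.enc = Nat.pair s.enc t.enc := by omega
      rw [Nat.pair_eq_pair] at h1
      rw [ih1 h1.1, ih2 h1.2]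
    | op n s => simp only [HTm.enc] at h; omega
  | op m s1 ih1 =>
    intro t h
    cases t with
    | emp => simp only [HTm.enc] at h; omega
    | par i => simp only [HTm.enc] at h; omega
    | c i => simp only [HTm.enc] at h; omega
    | pr s t => simp only [HTm.enc] at h; omega
    | op n s =>
      simp only [HTm.enc] at h
      have h1 : Nat.pair m s1.enc = Nat.pair n s.enc := by omega
      rw [Nat.pair_eq_pair] at h1
      rw [h1.1, ih1 h1.2]

instance : Countable HTm := HTm.enc_inj.countable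

instance : Nonempty HTm := ⟨.emp⟩

/-- Evaluation of a term. -/
noncomputable def HTm.ev (Φ : ℕ → ZFSet.{u} → ZFSet.{u}) (p : ℕ → ZFSet.{u}) (c : ℕ → ZFSet.{u}) :
    HTm → ZFSet.{u}
  | .emp => ∅
  | .par i => p i
  | .c i => c i
  | .pr s t => ZFSet.pair (s.ev Φ p c) (t.ev Φ p c)
  | .op n s => Φ n (s.ev Φ p c)

/-- Bound for the indices of the constants. -/
def HTm.bd : HTm → ℕ
  | .emp => 0
  | .par _ => 0
  | .c i => i + 1
  | .pr s t => max s.bd t.bd
  | .op _ s => s.bd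

theorem HTm.ev_congr {Φ : ℕ → ZFSet.{u} → ZFSet.{u}} {p c c' : ℕ → ZFSet.{u}} :
    ∀ t : HTm, (∀ i < t.bd, c i = c' i) → t.ev Φ p c = t.ev Φ p c'
  | .emp, _ => rfl
  | .par _, _ => rfl
  | .c i, h => h i (Nat.lt_succ_self i)
  | .pr s t, h => by
    simp only [HTm.ev]
    rw [HTm.ev_congr s fun i hi => h i (lt_of_lt_of_le hi (le_max_left _ _)),
      HTm.ev_congr t fun i hi => h i (lt_of_lt_of_le hi (le_max_right _ _))]
  | .op n s, h => by
    simp only [HTm.ev]
    rw [HTm.ev_congr s fun i hi => h i hi]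

/-- The hull lemma. -/
theorem hull_lemma {X : Type u} [TopologicalSpace X] (c1 : Set X → ZFSet.{u})
    {c2 : Set (Set X) → ZFSet.{u}} (hc2 : Function.Injective c2) (Φ : ℕ → ZFSet.{u} → ZFSet.{u})
    {P0 : Set ZFSet.{u}} (hP0 : P0.Countable) :
    IsMeagre {x : X | ¬ ∃ Y : Set ZFSet.{u}, Y.Countable ∧ P0 ⊆ Y ∧ Clo Φ Y ∧ Gen c1 c2 Y x} := by
  classical
  obtain ⟨p, hp⟩ := (hP0.insert (∅ : ZFSet.{u})).exists_eq_range (Set.insert_nonempty _ _)
  obtain ⟨e, he⟩ := exists_surjective_nat HTm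
  rcases isEmpty_or_nonempty X with hX | hX
  · have h0 : {x : X | ¬ ∃ Y : Set ZFSet.{u}, Y.Countable ∧ P0 ⊆ Y ∧ Clo Φ Y ∧ Gen c1 c2 Y x} = ∅ :=
      Set.eq_empty_of_isEmpty _
    rw [h0]
    exact IsMeagre.empty
  have hstep : ∀ (V : Set X) (s : List ZFSet.{u}), (IsOpen V ∧ V.Nonempty) → ∀ V1 ⊆ V, IsOpen V1 →
      V1.Nonempty → ∃ V' ⊆ V1, ∃ s' : List ZFSet.{u}, (IsOpen V' ∧ V'.Nonempty) ∧
        (∃ z, s' = s ++ [z] ∧ ∀ 𝒰 : Set (Set X), (∀ U ∈ 𝒰, IsOpen U) → Dense (⋃₀ 𝒰) →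
          c2 𝒰 = (e s.length.unpair.2).ev Φ p (fun i => s.getD i ∅) →
          ∃ U ∈ 𝒰, z = c1 U ∧ V' ⊆ U) := by
    intro V s hV V1 hV1 ho hn
    by_cases h : ∃ 𝒰 : Set (Set X), (∀ U ∈ 𝒰, IsOpen U) ∧ Dense (⋃₀ 𝒰) ∧
        c2 𝒰 = (e s.length.unpair.2).ev Φ p (fun i => s.getD i ∅)
    · obtain ⟨𝒰, h1, h2, h3⟩ := h
      obtain ⟨x, hx1, hx2⟩ := h2.inter_open_nonempty V1 ho hn
      obtain ⟨U, hU, hxU⟩ := hx2
      refine ⟨V1 ∩ U, Set.inter_subset_left, s ++ [c1 U], ⟨ho.inter (h1 U hU), x, hx1, hxU⟩,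
        c1 U, rfl, ?_⟩
      intro 𝒰' h1' h2' h3'
      have h4 : 𝒰' = 𝒰 := hc2 (h3'.trans h3.symm)
      exact ⟨U, h4 ▸ hU, rfl, Set.inter_subset_right⟩
    · refine ⟨V1, subset_rfl, s ++ [∅], ⟨ho, hn⟩, ∅, rfl, ?_⟩
      intro 𝒰 h1 h2 h3
      exact (h ⟨𝒰, h1, h2, h3⟩).elim
  have key := branch_lemma (S := List ZFSet.{u}) (fun V _ => IsOpen V ∧ V.Nonempty)
    (fun V s h => h)
    (fun s V' s' => ∃ z, s' = s ++ [z] ∧ ∀ 𝒰 : Set (Set X), (∀ U ∈ 𝒰, IsOpen U) → Dense (⋃₀ 𝒰) →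
          c2 𝒰 = (e s.length.unpair.2).ev Φ p (fun i => s.getD i ∅) →
          ∃ U ∈ 𝒰, z = c1 U ∧ V' ⊆ U) hstep Set.univ [] ⟨isOpen_univ, Set.univ_nonempty⟩
  refine key.mono ?_
  intro x hx
  refine ⟨Set.mem_univ _, ?_⟩
  rintro ⟨st, hst0, hst⟩
  apply hx
  -- lengths
  have hlen : ∀ m, (st m).2.length = m := by
    intro m
    induction m with
    | zero => rw [hst0]; rfl
    | succ m ih =>
      obtain ⟨z, hz, _⟩ := (hst m).2.1
      rw [hz, List.length_append, ih]; rfl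
  -- the limit sequence
  obtain ⟨c, hc⟩ : ∃ c : ℕ → ZFSet.{u}, ∀ m, ∀ i < m, (st m).2.getD i ∅ = c i := by
    refine ⟨fun i => (st (i + 1)).2.getD i ∅, ?_⟩
    intro m
    induction m with
    | zero => intro i hi; exact (Nat.not_lt_zero i hi).elim
    | succ m ih =>
      intro i hi
      rcases Nat.lt_succ_iff_lt_or_eq.1 hi with h | h
      · rw [← ih i h]
        obtain ⟨z, hz, _⟩ := (hst m).2.1
        rw [hz, List.getD_append _ _ _ _ (by rw [hlen]; exact h)]
      · subst h; rfl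
  refine ⟨Set.range fun t : HTm => t.ev Φ p c, Set.countable_range _, ?_, ?_, ?_⟩
  · intro y hy
    have h1 : y ∈ Set.range p := hp ▸ Set.mem_insert_of_mem _ hy
    obtain ⟨i, rfl⟩ := h1
    exact ⟨.par i, rfl⟩
  · refine ⟨⟨.emp, rfl⟩, ?_, ?_⟩
    · rintro _ ⟨s, rfl⟩ _ ⟨t, rfl⟩
      exact ⟨.pr s t, rfl⟩
    · rintro n _ ⟨s, rfl⟩
      exact ⟨.op n s, rfl⟩
  · rintro 𝒰 hU hd ⟨t, ht⟩
    obtain ⟨n, hn⟩ := he t
    obtain ⟨z, hz, hz'⟩ := (hst (Nat.pair t.bd n)).2.1
    have h1 : c2 𝒰 = (e (st (Nat.pair t.bd n)).2.length.unpair.2).ev Φ p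
        (fun i => (st (Nat.pair t.bd n)).2.getD i ∅) := by
      rw [hlen, Nat.unpair_pair, hn]
      rw [← ht]
      apply HTm.ev_congr
      intro i hi
      exact (hc _ i (lt_of_lt_of_le hi (Nat.left_le_pair _ _))).symm
    obtain ⟨U, hU1, hU2, hU3⟩ := hz' 𝒰 hU hd h1
    refine ⟨U, hU1, ⟨.c (Nat.pair t.bd n), ?_⟩, hU3 (hst (Nat.pair t.bd n + 1)).2.2⟩
    have h2 := hc (Nat.pair t.bd n + 1) (Nat.pair t.bd n) (Nat.lt_succ_self _)
    show c (Nat.pair t.bd n) = c1 U
    rw [← h2, hz, ← hU2]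
    rw [List.getD_append_right _ _ _ _ (by rw [hlen]), hlen]
    simp

end Pool.Agent.H82.OC
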