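import Pool.Agent.H82.OC.RlzEx

/-!
# OC-C6: invariance of generic truth

`Gtr_congr`: let `cdL χ ts = cdL χ' ts'`.  Then `χ = χ'` (`Fml.code_injective`), `ts.map lb = ts'.map lb`, `pat (ts.map os) = pat (ts'.map os)` (`Nat.pair` and `Encodable.encode` are
injective).  So `ts, ts'` have the same length, corresponding terms have the same label, the same number of indices and the same types
(`lb t = encode (t.1, t.2.map fst)`).  For positions `(a, j)`, `(b, k)` (term number, entry number) `pat` tells whether the ordinal at `(a, j)` is less than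
that at `(b, k)`; (all actual positions are in `posL`: `a < length`, `j < length of the a-th list ≤ sum`).  So the entries `q` of `ts` at `(a, j)` and `q'` of `ts'` at
the same position correspond: `ρ : index of ts ↦ index of ts'` is a well-defined bijection between the sets of indices, preserves types and
`Il z`.  Let `s` be as in `Gtr` for `ts`; `s' = s.map ρ` is sorted with the right elements, so it is the list for `ts'` (`sorted_unique`), `s'.map fst = s.map fst`,
and `shpL s' t' = shpL s t` for corresponding terms (`idxOf` is preserved by `ρ`, injective).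
`Gtr_iff'`: by `sorted_unique` the list in `Gtr` is unique, so `Gtr` can be tested with any sorted list of the indices.
`xC_iff`: from `Gtr_congr`.
`Gtr_iff`: let `s` be the sorted list of all indices of `ts` (`exists_sorted`).  `instL (shpL s t) (s.map h) = (t.1, t.2.map fun p => (p.1, h p))` for `t ∈ ts`.  So
`Pc V χ (ts.map (shpL s)) (s.map h) ↔ Sat C.Em χ (vas V (ts.map fun t => (t.1, t.2.map fun p => (p.1, h p))))`, and `Rlz.iff`.
`Tr8_iff`: `Tr8 x χ g ↔ x (cdL χ ((range χ.bd).map g)) ≠ 0`; the assignment `vas ..` agrees with `fun k => val V h (g k)` for `k < χ.bd` (`Sat.congr` in `Base.lean`).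
`E_iff`: the same with `χ = .mem 0 1`.
-/

set_option autoImplicit false
set_option linter.unusedVariables false
set_option linter.unusedSectionVars false
set_option linter.unusedSimpArgs false
set_option linter.deprecated false

universe u v w

open scoped ZFSet Ordinal

namespace Pool.Agent.H82.OC

open Pool.Agent.H17.Omega Pool.Agent.H17.Omega.T8

section inv_aux

theorem inv_mem_pat {l : List (List Ordinal.{u})} {q : (ℕ × ℕ) × (ℕ × ℕ)} :
    q ∈ pat l ↔ ltAt l q.1 q.2 := by
  classical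
  unfold pat
  rw [Finset.mem_filter]
  refine ⟨fun h => h.2, fun h => ⟨?_, h⟩⟩
  obtain ⟨la, ξ, lb, η, h1, h2, h3, h4, _⟩ := h
  have key : ∀ (p : ℕ × ℕ) (la : List Ordinal.{u}) (ξ : Ordinal.{u}), l[p.1]? = some la →
      la[p.2]? = some ξ → p ∈ posL l := by
    intro p la ξ h1 h2
    unfold posL
    rw [Finset.mem_product, Finset.mem_range, Finset.mem_range]
    obtain ⟨h3, h4⟩ := List.getElem?_eq_some_iff.1 h1
    obtain ⟨h5, _⟩ := List.getElem?_eq_some_iff.1 h2
    refine ⟨h3, h5.trans_le ?_⟩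
    have h6 : la.length ∈ l.map List.length := List.mem_map.2 ⟨la, h4 ▸ List.getElem_mem h3, rfl⟩
    exact List.single_le_sum (fun _ _ => Nat.zero_le _) _ h6
  exact Finset.mem_product.2 ⟨key _ _ _ h1 h2, key _ _ _ h3 h4⟩

/-- Corresponding indices of two lists of terms. -/
def inv_Cor (ts ts' : List Tm.{u}) (q q' : ℕ × Ordinal.{u}) : Prop :=
  ∃ (a j : ℕ) (t t' : Tm.{u}), ts[a]? = some t ∧ ts'[a]? = some t' ∧ t.2[j]? = some q ∧
    t'.2[j]? = some q'

variable {ts ts' : List Tm.{u}} {q q' r r' : ℕ × Ordinal.{u}}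

theorem inv_lb {t t' : Tm.{u}} (h : lb t = lb t') :
    t.1 = t'.1 ∧ t.2.map Prod.fst = t'.2.map Prod.fst := by
  unfold lb at h
  rw [Encodable.encode_inj, Prod.mk.injEq] at h
  exact h

theorem inv_cor_type (h : ts.map lb = ts'.map lb) (hc : inv_Cor ts ts' q q') : q.1 = q'.1 := by
  obtain ⟨a, j, t, t', h1, h2, h3, h4⟩ := hc
  have h5 : lb t = lb t' := by
    have := congrArg (fun l => l[a]?) h
    simpa [List.getElem?_map, h1, h2] using this
  have h6 := congrArg (fun l => l[j]?) (inv_lb h5).2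
  simpa [List.getElem?_map, h3, h4] using h6

theorem inv_cor_lt (h : pat (ts.map os) = pat (ts'.map os)) (hq : inv_Cor ts ts' q q')
    (hr : inv_Cor ts ts' r r') : q.2 < r.2 ↔ q'.2 < r'.2 := by
  obtain ⟨a, j, t, t', h1, h2, h3, h4⟩ := hq
  obtain ⟨b, k, s, s', g1, g2, g3, g4⟩ := hr
  have key : ∀ (us : List Tm.{u}) (t s : Tm.{u}) (q r : ℕ × Ordinal.{u}), us[a]? = some t →
      us[b]? = some s → t.2[j]? = some q → s.2[k]? = some r →
      (((a, j), (b, k)) ∈ pat (us.map os) ↔ q.2 < r.2) := by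
    intro us t s q r h1 h2 h3 h4
    rw [inv_mem_pat]
    unfold ltAt
    simp [List.getElem?_map, h1, h2, os, h3, h4]
  rw [← key ts t s q r h1 g1 h3 g3, ← key ts' t' s' q' r' h2 g2 h4 g4, h]

theorem inv_exists_rho (h1 : ts.map lb = ts'.map lb) (h2 : pat (ts.map os) = pat (ts'.map os)) :
    ∃ ρ : ℕ × Ordinal.{u} → ℕ × Ordinal.{u}, ∀ q q', inv_Cor ts ts' q q' → ρ q = q' := by
  classical
  refine ⟨fun q => if h : ∃ q', inv_Cor ts ts' q q' then h.choose else q, ?_⟩
  intro q q' hc
  have hex : ∃ q', inv_Cor ts ts' q q' := ⟨q', hc⟩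
  simp only [dif_pos hex]
  have hc' := hex.choose_spec
  have e1 : hex.choose.1 = q'.1 := (inv_cor_type h1 hc').symm.trans (inv_cor_type h1 hc)
  have e2 : hex.choose.2 = q'.2 := by
    rcases lt_trichotomy hex.choose.2 q'.2 with h | h | h
    · exact absurd ((inv_cor_lt h2 hc' hc).2 h) (lt_irrefl _)
    · exact h
    · exact absurd ((inv_cor_lt h2 hc hc').2 h) (lt_irrefl _)
  exact Prod.ext e1 e2

theorem inv_exists_cor (h1 : ts.map lb = ts'.map lb) {t : Tm.{u}} (ht : t ∈ ts) (hq : q ∈ t.2) :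
    ∃ q', inv_Cor ts ts' q q' := by
  obtain ⟨a, ha⟩ := List.mem_iff_getElem?.1 ht
  obtain ⟨j, hj⟩ := List.mem_iff_getElem?.1 hq
  have h2 := congrArg (fun l => l[a]?) h1
  simp only [List.getElem?_map, ha, Option.map_some] at h2
  rcases h3 : ts'[a]? with _ | t'
  · rw [h3] at h2; simp at h2
  · rw [h3] at h2
    simp only [Option.map_some, Option.some.injEq] at h2
    have h4 := congrArg (fun l => l[j]?) (inv_lb h2).2
    simp only [List.getElem?_map, hj, Option.map_some] at h4
    rcases h5 : t'.2[j]? with _ | q'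
    · rw [h5] at h4; simp at h4
    · exact ⟨q', a, j, t, t', ha, h3, hj, h5⟩

theorem inv_map_eq (h1 : ts.map lb = ts'.map lb) {ρ : ℕ × Ordinal.{u} → ℕ × Ordinal.{u}}
    (hρ : ∀ q q', inv_Cor ts ts' q q' → ρ q = q') :
    ts' = ts.map (fun t => (t.1, t.2.map ρ)) := by
  apply List.ext_getElem?
  intro a
  have h2 := congrArg (fun l => l[a]?) h1
  simp only [List.getElem?_map] at h2 ⊢
  rcases h3 : ts[a]? with _ | t
  · rw [h3] at h2
    rcases h4 : ts'[a]? with _ | t'
    · rfl
    · rw [h4] at h2; simp at h2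
  · rw [h3] at h2
    rcases h4 : ts'[a]? with _ | t'
    · rw [h4] at h2; simp at h2
    · rw [h4] at h2
      simp only [Option.map_some, Option.some.injEq] at h2 ⊢
      obtain ⟨h5, h6⟩ := inv_lb h2
      refine Prod.ext h5.symm ?_
      apply List.ext_getElem?
      intro j
      have h7 := congrArg (fun l => l[j]?) h6
      simp only [List.getElem?_map] at h7 ⊢
      rcases h8 : t.2[j]? with _ | q
      · rw [h8] at h7
        rcases h9 : t'.2[j]? with _ | q'
        · rfl
        · rw [h9] at h7; simp at h7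
      · rw [h8] at h7
        rcases h9 : t'.2[j]? with _ | q'
        · rw [h9] at h7; simp at h7
        · simp only [Option.map_some, Option.some.injEq]
          exact (hρ q q' ⟨a, j, t, t', h3, h4, h8, h9⟩).symm

theorem inv_idxOf_map {α β : Type*} [BEq α] [LawfulBEq α] [BEq β] [LawfulBEq β] (f : α → β)
    (l : List α)
    (a : α) (h : ∀ b ∈ l, f b = f a → b = a) : (l.map f).idxOf (f a) = l.idxOf a := by
  induction l with
  | nil => rfl
  | cons b l ih =>
    rw [List.map_cons]
    by_cases hb : b = a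
    · subst hb
      rw [List.idxOf_cons_self, List.idxOf_cons_self]
    · have hb' : f b ≠ f a := fun hh => hb (h b (List.mem_cons_self) hh)
      rw [List.idxOf_cons_ne _ hb', List.idxOf_cons_ne _ hb,
        ih fun c hc => h c (List.mem_cons_of_mem _ hc)]

theorem inv_cdL {χ χ' : Fml} (h : cdL χ ts = cdL χ' ts') :
    χ = χ' ∧ ts.map lb = ts'.map lb ∧ pat (ts.map os) = pat (ts'.map os) := by
  unfold cdL at h
  rw [Nat.pair_eq_pair, Encodable.encode_inj, Prod.mk.injEq] at h
  exact ⟨Fml.code_injective h.1, h.2⟩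

end inv_aux

section

variable {C : Ctx.{u}} {V : ℕ → List (ℕ × Ordinal.{u}) → C.M} {χ χ' : Fml} {ts ts' : List Tm.{u}}

theorem inv_Gtr_imp (h : cdL χ ts = cdL χ' ts') (hG : Gtr C V χ ts) : Gtr C V χ' ts' := by
  classical
  obtain ⟨rfl, h1, h2⟩ := inv_cdL h
  obtain ⟨ρ, hρ⟩ := inv_exists_rho h1 h2
  have hts := inv_map_eq h1 hρ
  obtain ⟨s, hs, hm, hA⟩ := hG
  have hcor : ∀ q ∈ s, inv_Cor ts ts' q (ρ q) := by
    intro q hq
    obtain ⟨t, ht, hqt⟩ := (hm q).1 hq
    obtain ⟨q', hq'⟩ := inv_exists_cor h1 ht hqt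
    rw [hρ q q' hq']
    exact hq'
  have hty : ∀ q ∈ s, (ρ q).1 = q.1 := fun q hq => (inv_cor_type h1 (hcor q hq)).symm
  have hlt : ∀ q ∈ s, ∀ r ∈ s, (q.2 < r.2 ↔ (ρ q).2 < (ρ r).2) :=
    fun q hq r hr => inv_cor_lt h2 (hcor q hq) (hcor r hr)
  have hinj : ∀ q ∈ s, ∀ r ∈ s, ρ q = ρ r → q = r := by
    intro q hq r hr he
    refine Prod.ext ?_ ?_
    · rw [← hty q hq, ← hty r hr, he]
    · rcases lt_trichotomy q.2 r.2 with h | h | h
      · exact absurd ((hlt q hq r hr).1 h) (by rw [he]; exact lt_irrefl _)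
      · exact h
      · exact absurd ((hlt r hr q hq).1 h) (by rw [he]; exact lt_irrefl _)
  refine ⟨s.map ρ, ?_, ?_, ?_⟩
  · rw [List.pairwise_map]
    refine hs.imp_of_mem ?_
    intro q r hq hr hqr
    rcases hqr with h | ⟨h, h'⟩
    · left
      rw [hty q hq, hty r hr]
      exact h
    · right
      rw [hty q hq, hty r hr]
      exact ⟨h, (hlt q hq r hr).1 h'⟩
  · intro q
    rw [hts]
    constructor
    · intro hq
      obtain ⟨p, hp, rfl⟩ := List.mem_map.1 hq
      obtain ⟨t, ht, hpt⟩ := (hm p).1 hp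
      exact ⟨_, List.mem_map.2 ⟨t, ht, rfl⟩, List.mem_map.2 ⟨p, hpt, rfl⟩⟩
    · rintro ⟨t', ht', hq⟩
      obtain ⟨t, ht, rfl⟩ := List.mem_map.1 ht'
      obtain ⟨p, hp, rfl⟩ := List.mem_map.1 hq
      exact List.mem_map.2 ⟨p, (hm p).2 ⟨t, ht, hp⟩, rfl⟩
  · have e1 : (s.map ρ).map Prod.fst = s.map Prod.fst := by
      rw [List.map_map]
      exact List.map_congr_left fun q hq => hty q hq
    have e2 : ts'.map (shpL (s.map ρ)) = ts.map (shpL s) := by
      rw [hts, List.map_map]
      refine List.map_congr_left fun t ht => ?_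
      show shpL (s.map ρ) (t.1, t.2.map ρ) = shpL s t
      unfold shpL
      refine Prod.ext rfl ?_
      show (t.2.map ρ).map _ = t.2.map _
      rw [List.map_map]
      refine List.map_congr_left fun p hp => ?_
      have hps : p ∈ s := (hm p).2 ⟨t, ht, hp⟩
      refine Prod.ext (hty p hps) ?_
      exact inv_idxOf_map ρ s p fun b hb he => hinj b hb p hps he
    rw [e1, e2]
    exact hA

theorem Gtr_congr (hz : WOr C.z) (h : cdL χ ts = cdL χ' ts') : Gtr C V χ ts ↔ Gtr C V χ' ts' :=
  ⟨inv_Gtr_imp h, inv_Gtr_imp h.symm⟩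

theorem inv_Gtr_iff' (hz : WOr C.z) {s : List (ℕ × Ordinal.{u})} (hs : s.Pairwise (Il C.z))
    (hm : ∀ q, q ∈ s ↔ ∃ t ∈ ts, q ∈ t.2) :
    Gtr C V χ ts ↔ AEl C.𝒰 (s.map Prod.fst) (Pc V χ (ts.map (shpL s))) := by
  constructor
  · rintro ⟨s', hs', hm', hA⟩
    have : s' = s := sorted_unique hz hs' hs fun q => (hm' q).trans (hm q).symm
    rw [this] at hA
    exact hA
  · intro hA
    exact ⟨s, hs, hm, hA⟩

theorem xC_iff (hz : WOr C.z) : xC C V (cdL χ ts) ≠ 0 ↔ Gtr C V χ ts := by
  unfold xC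
  constructor
  · intro h
    split_ifs at h with h1
    · obtain ⟨χ', ts', h2, h3⟩ := h1
      exact (Gtr_congr hz h2).2 h3
    · exact absurd rfl h
  · intro h
    rw [if_pos ⟨χ, ts, rfl, h⟩]
    exact one_ne_zero

variable {J : Set (ℕ × Ordinal.{u})} {h : ℕ × Ordinal.{u} → Ordinal.{u}}

theorem Gtr_iff (hz : WOr C.z) (H : Rlz C V J h) (hts : ∀ t ∈ ts, ∀ q ∈ t.2, q ∈ J) :
    Gtr C V χ ts ↔ Sat C.Em χ (vas V (ts.map fun t => (t.1, t.2.map fun p => (p.1, h p)))) := by
  classical
  have hfin : {q : ℕ × Ordinal.{u} | ∃ t ∈ ts, q ∈ t.2}.Finite := by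
    have e : {q : ℕ × Ordinal.{u} | ∃ t ∈ ts, q ∈ t.2} =
        {q | q ∈ ts.flatMap fun t : Tm.{u} => t.2} := by
      ext q
      simp
    rw [e]
    exact List.finite_toSet _
  obtain ⟨s, hs, hm⟩ := exists_sorted hz hfin
  rw [inv_Gtr_iff' hz hs hm, H.iff hs (fun q hq => by
    obtain ⟨t, ht, hq'⟩ := (hm q).1 hq
    exact hts t ht q hq')]
  have e : (ts.map (shpL s)).map (fun m => instL m (s.map h)) =
      ts.map fun t => (t.1, t.2.map fun p => (p.1, h p)) := by
    rw [List.map_map]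
    refine List.map_congr_left fun t ht => ?_
    show instL (shpL s t) (s.map h) = (t.1, t.2.map fun p => (p.1, h p))
    unfold instL shpL
    refine Prod.ext rfl ?_
    show (t.2.map _).map _ = t.2.map _
    rw [List.map_map]
    refine List.map_congr_left fun p hp => ?_
    have hps : p ∈ s := (hm p).2 ⟨t, ht, hp⟩
    refine Prod.ext rfl ?_
    show (s.map h).getD (s.idxOf p) 0 = h p
    have hlt : s.idxOf p < s.length := List.idxOf_lt_length_iff.2 hps
    rw [List.getD_eq_getElem?_getD, List.getElem?_map, List.getElem?_eq_getElem hlt,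
      List.getElem_idxOf hlt]
    rfl
  unfold Pc
  rw [e]

theorem Tr8_iff (hz : WOr C.z) (H : Rlz C V J h) {g : ℕ → Tm.{u}} (hg : ∀ k, ∀ q ∈ (g k).2, q ∈ J) :
    Tr8 (xC C V) χ g ↔ Sat C.Em χ (fun k => val V h (g k)) := by
  unfold Tr8 cdT
  rw [xC_iff hz, Gtr_iff hz H (fun t ht q hq => by
    obtain ⟨k, _, rfl⟩ := List.mem_map.1 ht
    exact hg k q hq)]
  refine Sat.congr fun k hk => ?_
  unfold vas val as
  have e : (((List.range χ.bd).map g).map fun t => (t.1, t.2.map fun p => (p.1, h p))).getD k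
      (0, []) = ((g k).1, (g k).2.map fun p => (p.1, h p)) := by
    rw [List.getD_eq_getElem?_getD, List.getElem?_map, List.getElem?_map,
      List.getElem?_range hk]
    rfl
  rw [e]

theorem E_iff (hz : WOr C.z) (H : Rlz C V J h) {t t' : Tm.{u}} (ht : ∀ q ∈ t.2, q ∈ J)
    (ht' : ∀ q ∈ t'.2, q ∈ J) : E (xC C V) t t' ↔ (val V h t).1 ∈ (val V h t').1 := by
  unfold E
  rw [xC_iff hz, Gtr_iff hz H (fun s hs q hq => by
    rcases List.mem_cons.1 hs with rfl | hs
    · exact ht q hq
    · rcases List.mem_cons.1 hs with rfl | hs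
      · exact ht' q hq
      · exact absurd hs (List.not_mem_nil))]
  exact Iff.rfl

end

end Pool.Agent.H82.OC
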