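import Pool.Agent.H82.OC.UBWF
import Pool.Agent.H82.OC.AE

/-!
# OC-B10: local decision of the comparison

Let `k = bnd m` and `il l = inst m (fun i => l.getD i 0)` for lists `l`.  For a list `l` over `κ` (of length `k`; so `il l` is a term over `κ`, because the positions
of `m` are `< bnd m`) `exists_Exact` (twice, `Exact.mono`) gives `U l ≤ p` with `Exact F1 (U l) (il l) ν1`, `Exact F2 (U l) (il l) ν2` for some `ν1, ν2`.
`AE.all`, `AE.const` for `φ l = c1 (U l).1`: for some `c`, `AE k (φ l = c)`; by `AE.exists'` `c = c1 p'.1` for some `p' = U l0 ≤ p`; so `AE k (U l = p')`.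
Let `P l := ∃ ν1 ν2, Exact F1 p' (il l) ν1 ∧ Exact F2 p' (il l) ν2 ∧ ν1 ≤ ν2`, and `P' l` the same with `ν2 < ν1`.  By `AE.em`: `AE k P` or `AE k P'`.

Let `Φ` be the merged operations (`Φ (3n) = Ω1 n`, ..) from `exists_rkOps` for `F1`, `F2` (with `p`) and `exists_aeOps`; `exists_chn_of_hull` with `P0 = {PZ κ P, PZ κ P'}`.
Let `x ∈ p'` have a chain `Y, ξ` (`Gen c1 c2 (Y α) x`).  Let `g` be as in `IsChn.exists_h`.  We show `LEm cd m (F1 x) (F2 x)` with `h = g` if `AE k P`: let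
`Adm g k ζ η`.  `exists_aeOps` with `β = 0`, `a = ζ` gives `P ((range k).map (ξ ∘ ζ))`; `il ((range k).map (ξ ∘ ζ)) = inst m (ξ ∘ ζ) =: t` (positions `< k`).
`S = Ords κ (Y η)`; `t` is over `S` (`exists_h`: `ξ (ζ i) ∈ S`).  Let `v1, v2` be the rank functions at `Y η` for `F1, F2`: `v1 t = ν1`, `v2 t = ν2`.
`rkT cd (F1 x) S t = col O (v1 t) ≤ col O (v2 t) = rkT cd (F2 x) S t` (`rkT_eq_col`, `col_mono`).  `rkT_map` with `ρ = col S` (strictly monotone on `S`: `col_lt`;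
`col S '' S = Iio η`): `rkT cd (F x) (Iio η) (tmap (col S) t) = rkT cd (F x) S t`, and `tmap (col S) t = inst m (col S ∘ ξ ∘ ζ) = inst m ζ` (positions `< k`).
If `AE k P'`: `LTm cd m (F2 x) (F1 x)` in the same way: `v2 t < v1 t`, `v2 t ∈ O`, so `col O (v2 t) < col O (v1 t)` (`col_lt`).
-/

set_option autoImplicit false
set_option linter.unusedVariables false
set_option linter.unusedSectionVars false
set_option linter.unusedSimpArgs false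
set_option linter.deprecated false

universe u v w

open scoped ZFSet Ordinal

namespace Pool.Agent.H82.OC

open Pool.Agent.H17.Omega Pool.Agent.H17.Omega.T8

theorem AE.mono_LEloc {𝒰 : Ultrafilter Ordinal.{u}} {k : ℕ} {P P' : List Ordinal.{u} → Prop}
    (hP : AE 𝒰 k P) (h : ∀ l, P l → P' l) : AE 𝒰 k P' := AE.mono h hP

theorem LEloc_foldr (l : List (ℕ × ℕ)) {p : ℕ × ℕ} (hp : p ∈ l) :
    p.2 < l.foldr (fun p k => max (p.2 + 1) k) 0 := by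
  induction l with
  | nil => exact absurd hp (List.not_mem_nil)
  | cons a l ih =>
    rw [List.foldr_cons]
    rcases List.mem_cons.1 hp with rfl | h
    · exact lt_of_lt_of_le (Nat.lt_succ_self _) (le_max_left _ _)
    · exact lt_of_lt_of_le (ih h) (le_max_right _ _)

theorem lt_bnd {m : Shp} {p : ℕ × ℕ} (hp : p ∈ m.2) : p.2 < bnd m := LEloc_foldr m.2 hp

theorem inst_congr {m : Shp} {ζ ζ' : ℕ → Ordinal.{u}} (h : ∀ i < bnd m, ζ i = ζ' i) :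
    inst m ζ = inst m ζ' := by
  unfold inst
  refine Prod.ext rfl ?_
  refine List.map_congr_left fun p hp => ?_
  rw [h p.2 (lt_bnd hp)]

/-- The term of shape `m` over a list. -/
noncomputable def LEloc_il (m : Shp) (l : List Ordinal.{u}) : Tm.{u} := inst m fun i => l.getD i 0

theorem LEloc_TmOn_inst {m : Shp} {ζ : ℕ → Ordinal.{u}} {S : Set Ordinal.{u}}
    (h : ∀ i < bnd m, ζ i ∈ S) : TmOn S (inst m ζ) := by
  intro p hp
  obtain ⟨q, hq, rfl⟩ := List.mem_map.1 hp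
  exact h q.2 (lt_bnd hq)

theorem LEloc_TmOn_il {m : Shp} {l : List Ordinal.{u}} {κ : Ordinal.{u}} (hl : l.length = bnd m)
    (h : ∀ ξ ∈ l, ξ < κ) : TmOn (Set.Iio κ) (LEloc_il m l) := by
  refine LEloc_TmOn_inst fun i hi => ?_
  rw [← hl] at hi
  rw [List.getD_eq_getElem _ _ hi]
  exact h _ (List.getElem_mem hi)

theorem LEloc_il_map {m : Shp} (f : ℕ → Ordinal.{u}) :
    LEloc_il m ((List.range (bnd m)).map f) = inst m f := by
  refine inst_congr fun i hi => ?_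
  have hi' : i < ((List.range (bnd m)).map f).length := by simpa using hi
  rw [List.getD_eq_getElem _ _ hi']
  simp

theorem LEloc_tmap {m : Shp} (ρ : Ordinal.{u} → Ordinal.{u}) (f : ℕ → Ordinal.{u}) :
    tmap ρ (inst m f) = inst m fun i => ρ (f i) := by
  unfold Pool.Agent.H82.OC.tmap inst
  refine Prod.ext rfl ?_
  show List.map _ (List.map _ m.2) = _
  rw [List.map_map]
  rfl

/-- Merging of three sequences of operations. -/
def LEloc_mrg (Ω1 Ω2 Ω3 : ℕ → ZFSet.{u} → ZFSet.{u}) (n : ℕ) : ZFSet.{u} → ZFSet.{u} :=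
  if n % 3 = 0 then Ω1 (n / 3) else if n % 3 = 1 then Ω2 (n / 3) else Ω3 (n / 3)

theorem LEloc_clo1 {Ω1 Ω2 Ω3 : ℕ → ZFSet.{u} → ZFSet.{u}} {Y : Set ZFSet.{u}}
    (h : Clo (LEloc_mrg Ω1 Ω2 Ω3) Y) : Clo Ω1 Y ∧ Clo Ω2 Y ∧ Clo Ω3 Y := by
  refine ⟨⟨h.emp, h.pair, fun n x hx => ?_⟩, ⟨h.emp, h.pair, fun n x hx => ?_⟩,
    ⟨h.emp, h.pair, fun n x hx => ?_⟩⟩
  · have h1 := h.op (3 * n) x hx
    unfold LEloc_mrg at h1
    rwa [if_pos (by omega), show 3 * n / 3 = n by omega] at h1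
  · have h1 := h.op (3 * n + 1) x hx
    unfold LEloc_mrg at h1
    rwa [if_neg (by omega), if_pos (by omega), show (3 * n + 1) / 3 = n by omega] at h1
  · have h1 := h.op (3 * n + 2) x hx
    unfold LEloc_mrg at h1
    rwa [if_neg (by omega), if_neg (by omega), show (3 * n + 2) / 3 = n by omega] at h1

theorem LE_local {X : Type u} [TopologicalSpace X] {cd : Tm.{u} → Tm.{u} → ℕ} (hc : OInv cd)
    {F1 F2 : X → ℕ → ℕ} (hF1 : Continuous F1) (hF2 : Continuous F2) {c1 : Set X → ZFSet.{u}}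
    {c2 : Set (Set X) → ZFSet.{u}} (h1 : Function.Injective c1) (h2 : Function.Injective c2)
    {γ κ : Ordinal.{u}} (m1 : ∀ U, c1 U ∈ V_ γ) (m2 : ∀ 𝒰, c2 𝒰 ∈ V_ γ)
    {𝒰 : Ultrafilter Ordinal.{u}} (h : NormalUF κ 𝒰) (hω : Ordinal.omega0 < κ)
    (hκ : Order.IsSuccLimit κ) (hγ : γ < κ) {p : {U : Set X // IsOpen U ∧ U.Nonempty}}
    (hp1 : NoBad cd F1 κ p) (hp2 : NoBad cd F2 κ p) (m : Shp) : ∃ p' ≤ p,
      IsMeagre {x | x ∈ p'.1 ∧ ¬ LEm cd m (F1 x) (F2 x)} ∨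
      IsMeagre {x | x ∈ p'.1 ∧ ¬ LTm cd m (F2 x) (F1 x)} := by
  -- the open sets `U l`
  have hex : ∀ l : List Ordinal.{u}, ∃ U : {U : Set X // IsOpen U ∧ U.Nonempty}, U ≤ p ∧
      (l.length = bnd m → (∀ ξ ∈ l, ξ < κ) → ∃ ν1 ν2, Exact cd F1 κ U (LEloc_il m l) ν1 ∧
        Exact cd F2 κ U (LEloc_il m l) ν2) := by
    intro l
    by_cases hl : l.length = bnd m ∧ ∀ ξ ∈ l, ξ < κ
    · obtain ⟨U1, hU1, ν1, he1⟩ := exists_Exact hp1 (le_refl p) (LEloc_TmOn_il hl.1 hl.2)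
      obtain ⟨U2, hU2, ν2, he2⟩ := exists_Exact hp2 hU1 (LEloc_TmOn_il hl.1 hl.2)
      exact ⟨U2, hU2.trans hU1, fun _ _ => ⟨ν1, ν2, he1.mono hU2, he2⟩⟩
    · exact ⟨p, le_refl p, fun h1 h2 => absurd ⟨h1, h2⟩ hl⟩
  choose U hUp hU using hex
  obtain ⟨c, -, hcc⟩ := AE.const h hγ (k := bnd m) (φ := fun l => c1 (U l).1)
    (AE.all h fun l _ _ => m1 _)
  obtain ⟨l0, -, -, hl0⟩ := AE.exists' h hcc
  set p' := U l0 with hp'
  have hAE : AE 𝒰 (bnd m) fun l => ∃ ν1 ν2, Exact cd F1 κ p' (LEloc_il m l) ν1 ∧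
      Exact cd F2 κ p' (LEloc_il m l) ν2 := by
    have h3 : AE 𝒰 (bnd m) fun l => ∃ ν1 ν2, Exact cd F1 κ (U l) (LEloc_il m l) ν1 ∧
      Exact cd F2 κ (U l) (LEloc_il m l) ν2 := AE.all h fun l h4 h5 => hU l h4 h5
    refine (hcc.and h3).mono_LEloc ?_
    rintro l ⟨h4, h5⟩
    have h6 : U l = p' := Subtype.ext (h1 (h4.trans hl0.symm))
    rwa [h6] at h5
  -- the two alternatives
  obtain ⟨Ω1, hΩ1⟩ := exists_rkOps (cd := cd) hF1 h1 h2 hp1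
  obtain ⟨Ω2, hΩ2⟩ := exists_rkOps (cd := cd) hF2 h1 h2 hp2
  obtain ⟨Ω3, hΩ3⟩ := exists_aeOps h hκ
  set P : List Ordinal.{u} → Prop := fun l => ∃ ν1 ν2, Exact cd F1 κ p' (LEloc_il m l) ν1 ∧
      Exact cd F2 κ p' (LEloc_il m l) ν2 ∧ ν1 ≤ ν2 with hP
  set P' : List Ordinal.{u} → Prop := fun l => ∃ ν1 ν2, Exact cd F1 κ p' (LEloc_il m l) ν1 ∧
      Exact cd F2 κ p' (LEloc_il m l) ν2 ∧ ν2 < ν1 with hP'
  have hmeagre := exists_chn_of_hull c1 h2 m2 h hω hγ (LEloc_mrg Ω1 Ω2 Ω3)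
    (P0 := {PZ κ P, PZ κ P'}) (Set.to_countable _)
  -- the main step
  have key : ∀ x ∈ p'.1, ∀ (Y : Ordinal.{u} → Set ZFSet.{u}) (ξ : Ordinal.{u} → Ordinal.{u}),
      IsChn κ 𝒰 (LEloc_mrg Ω1 Ω2 Ω3) Y ξ → (∀ α : Ordinal.{u}, α < ω₁ → Gen c1 c2 (Y α) x) →
      ∃ g : Ordinal.{u} → Ordinal.{u}, Okh g ∧ ∀ ζ η, Adm g (bnd m) ζ η →
        ∀ Q : List Ordinal.{u} → Prop, PZ κ Q ∈ Y 0 → AE 𝒰 (bnd m) Q →
          ∃ l, Q l ∧ ∀ ν1 ν2, Exact cd F1 κ p' (LEloc_il m l) ν1 →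
            Exact cd F2 κ p' (LEloc_il m l) ν2 →
            rkT cd (F1 x) (Set.Iio η) (inst m ζ) = col {ν | ν.toZFSet ∈ Y η} ν1 ∧
            rkT cd (F2 x) (Set.Iio η) (inst m ζ) = col {ν | ν.toZFSet ∈ Y η} ν2 ∧
            ν1.toZFSet ∈ Y η ∧ ν2.toZFSet ∈ Y η := by
    intro x hx Y ξ hchn hgen
    obtain ⟨g, hg, hg2⟩ := hchn.exists_h
    refine ⟨g, hg, fun ζ η hadm Q hQ hAQ => ?_⟩
    have hηω : η < ω₁ := hadm.η_mem.2.1
    have h0ω : (0 : Ordinal.{u}) < ω₁ := lt_of_lt_of_le hadm.η_mem.1 hηω.le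
    obtain ⟨hcol, hcol2⟩ := hg2 η hadm.η_mem
    have hclo := fun (α : Ordinal.{u}) (hα : α < ω₁) => LEloc_clo1 (hchn.clo α hα)
    have hl := hΩ3 _ Y ξ hchn (fun α hα => (hclo α hα).2.2) (bnd m) Q 0 h0ω hQ hAQ ζ
      (fun i hi => ⟨zero_le, (hadm.mem i hi).2.1⟩) hadm.mono
    refine ⟨_, hl, fun ν1 ν2 he1 he2 => ?_⟩
    rw [LEloc_il_map] at he1 he2
    have hxp : x ∈ p.1 := hUp l0 hx
    have hpos : ∀ i < bnd m, ξ (ζ i) ∈ Ords κ (Y η) ∧ col (Ords κ (Y η)) (ξ (ζ i)) = ζ i :=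
      fun i hi => hcol2 (ζ i) (hadm.mem i hi) (hadm.lt i hi)
    have hton : TmOn (Ords κ (Y η)) (inst m fun i => ξ (ζ i)) :=
      LEloc_TmOn_inst fun i hi => (hpos i hi).1
    obtain ⟨v1, hv1, hv1'⟩ := hΩ1 (Y η) (hclo η hηω).1 x hxp (hgen η hηω)
    obtain ⟨v2, hv2, hv2'⟩ := hΩ2 (Y η) (hclo η hηω).2.1 x hxp (hgen η hηω)
    have e1 := hv1' _ hton p' hx ν1 he1
    have e2 := hv2' _ hton p' hx ν2 he2
    have hmono : StrictMonoOn (col (Ords κ (Y η))) (Ords κ (Y η)) :=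
      fun a ha b _ hab => col_lt ha hab
    have htm : tmap (col (Ords κ (Y η))) (inst m fun i => ξ (ζ i)) = inst m ζ := by
      rw [LEloc_tmap]
      exact inst_congr fun i hi => (hpos i hi).2
    have r1 := rkT_map (x := F1 x) hc hmono hcol hton
    have r2 := rkT_map (x := F2 x) hc hmono hcol hton
    rw [htm] at r1 r2
    have m3 := hv1.mem _ hton
    have m4 := hv2.mem _ hton
    rw [e1] at m3
    rw [e2] at m4
    refine ⟨?_, ?_, m3, m4⟩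
    · rw [r1, hv1.rkT_eq_col hton, e1]
    · rw [r2, hv2.rkT_eq_col hton, e2]
  refine ⟨p', hUp l0, ?_⟩
  rcases AE.em 𝒰 (bnd m) P with hE | hE
  · left
    refine hmeagre.mono ?_
    rintro x ⟨hx, hx2⟩ ⟨Y, ξ, hchn, hP0, hgen⟩
    refine hx2 ?_
    obtain ⟨g, hg, hg2⟩ := key x hx Y ξ hchn hgen
    refine ⟨g, hg, fun ζ η hadm => ?_⟩
    obtain ⟨l, ⟨ν1, ν2, he1, he2, hle⟩, hl⟩ := hg2 ζ η hadm P (hP0 (by simp)) hE
    obtain ⟨r1, r2, -, -⟩ := hl ν1 ν2 he1 he2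
    rw [r1, r2]
    exact col_mono hle
  · right
    have hE' : AE 𝒰 (bnd m) P' := by
      refine (hE.and hAE).mono_LEloc ?_
      rintro l ⟨h3, ν1, ν2, he1, he2⟩
      refine ⟨ν1, ν2, he1, he2, ?_⟩
      by_contra hcon
      exact h3 ⟨ν1, ν2, he1, he2, not_lt.1 hcon⟩
    refine hmeagre.mono ?_
    rintro x ⟨hx, hx2⟩ ⟨Y, ξ, hchn, hP0, hgen⟩
    refine hx2 ?_
    obtain ⟨g, hg, hg2⟩ := key x hx Y ξ hchn hgen
    refine ⟨g, hg, fun ζ η hadm => ?_⟩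
    obtain ⟨l, ⟨ν1, ν2, he1, he2, hlt⟩, hl⟩ := hg2 ζ η hadm P' (hP0 (by simp)) hE'
    obtain ⟨r1, r2, -, m2'⟩ := hl ν1 ν2 he1 he2
    rw [r1, r2]
    exact col_lt m2' hlt

end Pool.Agent.H82.OC
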