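import Pool.Agent.H82.OC.LEloc

/-!
# OC-B11: the comparison relations

* `exists_Adm`: `exists_mem_Clh` iterated (`ζ 0 < ζ 1 < … < ζ (k-1) < η` in `Clh h`).
* `Okh_max`: for `h, h'` the function `max (h ξ) (h' ξ)`: `Clh (max) ⊆ Clh h ∩ Clh h'`.  (Use also `exists_Okh_sup` for countably many.)
* `LEm.refl`, `LEm.trans`, `LEm.trans_lt`, `not_LE_of_LT`: pass to the maximum of the `h`'s; `exists_Adm`.
* `no_LT_chain`: common `h` for all `n` (`exists_Okh_sup`), some `Adm h (bnd m) ζ η`: an infinite descending sequence of ordinals.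
* `UBS_LEm`: let `F : X → (ℕ → ℕ) × (ℕ → ℕ)` be continuous, `F1, F2` its components.  Codes, `γ`, `κ`, `𝒰` as in `UBS_WFx`.  Let `V` be open
  nonempty, `p = ⟨V, _⟩`.  If `Badt cd F1 κ U t` or `Badt cd F2 κ U t` for some `U ≤ p`, `t` over `κ`: `V' = U` (`meagre_of_bad`).  Otherwise `LE_local`: `p' ≤ p`.
  In the first case `{x ∈ p' | ¬ (WFx (F1 x) ∧ WFx (F2 x) ∧ LEm ..)}` is meager (for `WFx`: `meagre_not_WFx` below); in the second case
  `{x ∈ p' | WFx (F1 x) ∧ WFx (F2 x) ∧ LEm ..}` is meager by `not_LE_of_LT`.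
* `meagre_not_WFx`: as in `UBS_WFx`.
* `LE_total`: apply `LE_local` to the one-point space `X = PUnit`, `F1 = fun _ => x`, `F2 = fun _ => y`, `p = univ`; `NoBad` holds because of `meagre_of_bad` (in the
  one-point space only `∅` is meager: `IsMeagre` of a nonempty set is impossible, `univ` is open and compact Hausdorff / Baire) and `WFx`.
-/

set_option autoImplicit false
set_option linter.unusedVariables false
set_option linter.unusedSectionVars false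
set_option linter.unusedSimpArgs false
set_option linter.deprecated false

universe u v w

open scoped ZFSet Ordinal

namespace Pool.Agent.H82.OC

open Pool.Agent.H17.Omega Pool.Agent.H17.Omega.T8

theorem exists_Adm {h : Ordinal.{u} → Ordinal.{u}} (hh : Okh h) (k : ℕ) : ∃ ζ η, Adm h k ζ η := by
  have hex : ∀ α : {α : Ordinal.{u} // α < ω₁}, ∃ ζ : {α : Ordinal.{u} // α < ω₁},
      ζ.1 ∈ Clh h ∧ α.1 < ζ.1 := fun α => by
    obtain ⟨ζ, hζ, hlt⟩ := exists_mem_Clh hh α.2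
    exact ⟨⟨ζ, hζ.2.1⟩, hζ, hlt⟩
  choose g hg1 hg2 using hex
  have h0 : (0 : Ordinal.{u}) < ω₁ := Ordinal.omega_pos 1
  let a : ℕ → {α : Ordinal.{u} // α < ω₁} := fun n => Nat.rec (g ⟨0, h0⟩) (fun _ b => g b) n
  have ha : ∀ n, (a n).1 ∈ Clh h := by
    intro n
    cases n with
    | zero => exact hg1 _
    | succ n => exact hg1 _
  have hm : StrictMono fun n => (a n).1 := strictMono_nat_of_lt_succ fun n => hg2 (a n)
  exact ⟨fun n => (a n).1, (a k).1, fun i _ => ha i, fun i hi => hm hi, fun i j hij _ => hm hij,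
    ha k⟩

private theorem Adm_mono {h h' : Ordinal.{u} → Ordinal.{u}} {k : ℕ} {ζ : ℕ → Ordinal.{u}}
    {η : Ordinal.{u}} (hs : Clh h' ⊆ Clh h) (ha : Adm h' k ζ η) : Adm h k ζ η :=
  ⟨fun i hi => hs (ha.mem i hi), ha.lt, ha.mono, hs ha.η_mem⟩

private theorem exists_common {h h' : Ordinal.{u} → Ordinal.{u}} (hh : Okh h) (hh' : Okh h') :
    ∃ g : Ordinal.{u} → Ordinal.{u}, Okh g ∧ Clh g ⊆ Clh h ∧ Clh g ⊆ Clh h' := by
  obtain ⟨g, hg, hs⟩ := exists_Okh_sup (h := fun n => if n = 0 then h else h') (fun n => by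
    by_cases hn : n = 0
    · simp only [hn, if_true]
      exact hh
    · simp only [hn, if_false]
      exact hh')
  refine ⟨g, hg, ?_, ?_⟩
  · have := hs 0
    simpa using this
  · have := hs 1
    simpa using this

section

variable {cd : Tm.{u} → Tm.{u} → ℕ} {m : Shp} {x y z : ℕ → ℕ}

theorem LEm.refl (cd : Tm.{u} → Tm.{u} → ℕ) (m : Shp) (x : ℕ → ℕ) : LEm cd m x x :=
  ⟨fun ξ => ξ, fun ξ hξ => hξ, fun _ _ _ => le_rfl⟩

theorem LEm.trans (h : LEm cd m x y) (h' : LEm cd m y z) : LEm cd m x z := by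
  obtain ⟨g, hg, hle⟩ := h
  obtain ⟨g', hg', hle'⟩ := h'
  obtain ⟨f, hf, hs, hs'⟩ := exists_common hg hg'
  exact ⟨f, hf, fun ζ η ha => (hle ζ η (Adm_mono hs ha)).trans (hle' ζ η (Adm_mono hs' ha))⟩

theorem not_LE_of_LT (h : LEm cd m x y) (h' : LTm cd m y x) : False := by
  obtain ⟨g, hg, hle⟩ := h
  obtain ⟨g', hg', hlt⟩ := h'
  obtain ⟨f, hf, hs, hs'⟩ := exists_common hg hg'
  obtain ⟨ζ, η, ha⟩ := exists_Adm hf (bnd m)
  exact absurd (hle ζ η (Adm_mono hs ha)) (not_le.2 (hlt ζ η (Adm_mono hs' ha)))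

theorem no_LT_chain {xs : ℕ → ℕ → ℕ} : ¬ ∀ n, LTm cd m (xs (n + 1)) (xs n) := by
  intro h
  choose g hg hlt using h
  obtain ⟨f, hf, hs⟩ := exists_Okh_sup hg
  obtain ⟨ζ, η, ha⟩ := exists_Adm hf (bnd m)
  have hd : ∀ n, rkT cd (xs (n + 1)) (Set.Iio η) (inst m ζ) < rkT cd (xs n) (Set.Iio η) (inst m ζ) :=
    fun n => hlt n ζ η (Adm_mono (hs n) ha)
  exact (wellFounded_iff_isEmpty_descending_chain.1
    (Ordinal.lt_wf : WellFounded ((· < ·) : Ordinal.{u} → Ordinal.{u} → Prop))).false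
      ⟨fun n => rkT cd (xs n) (Set.Iio η) (inst m ζ), hd⟩

theorem meagre_not_WFx {X : Type u} [TopologicalSpace X] (hc : OInv cd)
    {F : X → ℕ → ℕ} (hF : Continuous F) {c1 : Set X → ZFSet.{u}}
    {c2 : Set (Set X) → ZFSet.{u}} (h1 : Function.Injective c1) (h2 : Function.Injective c2)
    {γ κ : Ordinal.{u}} (m1 : ∀ U, c1 U ∈ V_ γ) (m2 : ∀ 𝒰, c2 𝒰 ∈ V_ γ)
    {𝒰 : Ultrafilter Ordinal.{u}} (h : NormalUF κ 𝒰) (hω : Ordinal.omega0 < κ) (hγ : γ < κ)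
    {p : {U : Set X // IsOpen U ∧ U.Nonempty}} (hp : NoBad cd F κ p) :
    IsMeagre {x | x ∈ p.1 ∧ ¬ WFx cd (F x)} := by
  obtain ⟨Ω, hΩ⟩ := exists_rkOps hF h1 h2 hp
  have hm := exists_chn_of_hull c1 h2 m2 h hω hγ Ω (P0 := (∅ : Set ZFSet.{u})) Set.countable_empty
  refine hm.mono ?_
  rintro x ⟨hxp, hxw⟩ ⟨Y, ξ, hY, -, hG⟩
  refine hxw (wfx_of_chn hc hY fun α hα => ?_)
  obtain ⟨v, hv, -⟩ := hΩ (Y α) (hY.clo α hα) x hxp (hG α hα)
  exact ⟨v, hv⟩

theorem LE_total (hW : ManyWoodin.{u}) (hc : OInv cd) (m : Shp) (hx : WFx cd x) (hy : WFx cd y) :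
    LEm cd m x y ∨ LTm cd m y x := by
  obtain ⟨c1, γ1, hc1, hm1⟩ := exists_codes.{u} (Set PUnit.{u + 1})
  obtain ⟨c2, γ2, hc2, hm2⟩ := exists_codes.{u} (Set (Set PUnit.{u + 1}))
  obtain ⟨δ, hδ, hδW⟩ := hW (max γ1 γ2)
  obtain ⟨κ, 𝒰, hγκ, hω, hκδ, hκl, hU⟩ := exists_normalUF hδW hδ
  have hn : ∀ S : Set PUnit.{u + 1}, S.Nonempty → ¬ IsMeagre S := by
    intro S hS hM
    obtain ⟨a, ha⟩ := hS
    have : S = Set.univ := by
      ext b
      exact ⟨fun _ => trivial, fun _ => by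
        rw [Subsingleton.elim b a]
        exact ha⟩
    rw [this] at hM
    have hdn := dense_of_mem_residual hM
    rw [Set.compl_univ] at hdn
    exact (Set.not_nonempty_empty) hdn.nonempty
  let p : {U : Set PUnit.{u + 1} // IsOpen U ∧ U.Nonempty} := ⟨Set.univ, isOpen_univ, ⟨PUnit.unit, trivial⟩⟩
  have hb : ∀ z : ℕ → ℕ, WFx cd z → NoBad cd (fun _ : PUnit.{u + 1} => z) κ p := by
    intro z hz U _ t _ hB
    refine hn _ ?_ (meagre_of_bad hc hB)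
    obtain ⟨a, ha⟩ := U.2.2
    exact ⟨a, ha, hz⟩
  obtain ⟨p', -, hp'⟩ := LE_local hc (F1 := fun _ : PUnit.{u + 1} => x)
    (F2 := fun _ : PUnit.{u + 1} => y) continuous_const continuous_const hc1 hc2
    (fun U => ZFSet.vonNeumann_subset_of_le (le_max_left γ1 γ2) (hm1 U))
    (fun V => ZFSet.vonNeumann_subset_of_le (le_max_right γ1 γ2) (hm2 V)) hU hω hκl hγκ
    (hb x hx) (hb y hy) m
  obtain ⟨a, ha⟩ := p'.2.2
  by_contra hcon
  rw [not_or] at hcon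
  rcases hp' with hp' | hp'
  · refine hn _ ?_ hp'
    exact ⟨a, ha, hcon.1⟩
  · refine hn _ ?_ hp'
    exact ⟨a, ha, hcon.2⟩

theorem UBS_LEm (hW : ManyWoodin.{u}) (hc : OInv cd) (m : Shp) :
    UBS.{u} {a : (ℕ → ℕ) × (ℕ → ℕ) | WFx cd a.1 ∧ WFx cd a.2 ∧ LEm cd m a.1 a.2} := by
  intro X _ F hF
  obtain ⟨c1, γ1, hc1, hm1⟩ := exists_codes.{u} (Set X)
  obtain ⟨c2, γ2, hc2, hm2⟩ := exists_codes.{u} (Set (Set X))
  obtain ⟨δ, hδ, hδW⟩ := hW (max γ1 γ2)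
  obtain ⟨κ, 𝒰, hγκ, hω, hκδ, hκl, hU⟩ := exists_normalUF hδW hδ
  have hM1 : ∀ U, c1 U ∈ V_ (max γ1 γ2) :=
    fun U => ZFSet.vonNeumann_subset_of_le (le_max_left γ1 γ2) (hm1 U)
  have hM2 : ∀ V, c2 V ∈ V_ (max γ1 γ2) :=
    fun V => ZFSet.vonNeumann_subset_of_le (le_max_right γ1 γ2) (hm2 V)
  have hF1 : Continuous fun a => (F a).1 := continuous_fst.comp hF
  have hF2 : Continuous fun a => (F a).2 := continuous_snd.comp hF
  refine baireMeasurableSet_of_local fun V hVo hVn => ?_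
  let p : {U : Set X // IsOpen U ∧ U.Nonempty} := ⟨V, hVo, hVn⟩
  by_cases hb1 : NoBad cd (fun a => (F a).1) κ p
  · by_cases hb2 : NoBad cd (fun a => (F a).2) κ p
    · obtain ⟨p', hp'p, hp'⟩ := LE_local hc hF1 hF2 hc1 hc2 hM1 hM2 hU hω hκl hγκ hb1 hb2 m
      refine ⟨p'.1, hp'p, p'.2.1, p'.2.2, ?_⟩
      rcases hp' with hp' | hp'
      · right
        have w1 := meagre_not_WFx hc hF1 hc1 hc2 hM1 hM2 hU hω hγκ hb1
        have w2 := meagre_not_WFx hc hF2 hc1 hc2 hM1 hM2 hU hω hγκ hb2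
        refine ((w1.union w2).union hp').mono ?_
        rintro a ⟨hap, han⟩
        by_cases ha1 : WFx cd (F a).1
        · by_cases ha2 : WFx cd (F a).2
          · exact Or.inr ⟨hap, fun hle => han ⟨ha1, ha2, hle⟩⟩
          · exact Or.inl (Or.inr ⟨hp'p hap, ha2⟩)
        · exact Or.inl (Or.inl ⟨hp'p hap, ha1⟩)
      · left
        refine hp'.mono ?_
        rintro a ⟨hap, ha⟩
        exact ⟨hap, fun hlt => not_LE_of_LT ha.2.2 hlt⟩
    · unfold NoBad at hb2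
      push Not at hb2
      obtain ⟨U, hU', t, -, hB⟩ := hb2
      refine ⟨U.1, hU', U.2.1, U.2.2, Or.inl ((meagre_of_bad hc hB).mono ?_)⟩
      rintro a ⟨haU, ha⟩
      exact ⟨haU, ha.2.1⟩
  · unfold NoBad at hb1
    push Not at hb1
    obtain ⟨U, hU', t, -, hB⟩ := hb1
    refine ⟨U.1, hU', U.2.1, U.2.2, Or.inl ((meagre_of_bad hc hB).mono ?_)⟩
    rintro a ⟨haU, ha⟩
    exact ⟨haU, ha.1⟩

end

end Pool.Agent.H82.OC
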