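import Pool.Agent.H82.OC.Defs

/-!
# OC-A2: conditions: union and lifting

* `IsCond.sUnion_eq`: `⋃₀ a = V_ α`.  `⊆`: `h.sub`.  `⊇`: let `y ∈ V_ α`; apply `h.stat` to the constant
  function `F = fun _ => y`: there is `X ∈ a` closed; `∅ ∈ X`, so `F ∅ = y ∈ X`.
* `IsCond.level_unique`: from this and `ZFSet.vonNeumann_injective`.
* `IsCond.lift` (lifting lemma): a condition `a` (level `α`), operations `Φ n`, a countable set `P0`: there is a
  countable class `Y ⊇ P0` closed under pairing and the `Φ n` whose trace is in `a`.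
  Proof.  Let `p : ℕ → V` enumerate `insert ∅ P0`.  Let `Tm` be the countable inductive type of terms

      inductive Tm | id | const (i : ℕ) | pr (s t : Tm) | op (n : ℕ) (s : Tm)

  with evaluation `ev : Tm → V → V`:  `ev id x = x`, `ev (const i) x = p i`,
  `ev (pr s t) x = pair (ev s (fs x)) (ev t (sn x))`, `ev (op n s) x = Φ n (ev s x)`
  (`fs`, `sn` = components, `fs_pair`, `sn_pair`).  Let `e : ℕ → Tm` be surjective (Countable Tm; e.g.
  via `deriving Encodable` or an injection to lists of numbers).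
  Let `F w := if ∃ n x, w = pair (tag n) x then ev (e n) x else ∅` (choose `n`, `x`; they are unique by
  `tag_inj`, `ZFSet.pair_inj`).  By `h.stat` there is `X ∈ a` closed under `F` (up to `V_ α`).
  `Y := {y | ∃ t : Tm, ∃ x ∈ X, y = ev t x}`.
  - `Y` is countable (image of `ℕ × X`).  `P0 ⊆ Y`: `const`, `x = ∅`.  `∅ ∈ Y`.
  - closed under pairing: `pair (ev s x) (ev t x') = ev (pr s t) (pair x x')` and `pair x x' ∈ X`.
  - closed under `Φ n`: `op`.
  - `trc Y a = X`: the trace is `Y ∩ V_ α` (`sUnion_eq`).  `X ⊆ Y` by `id`.  If `y = ev (e n) x ∈ V_ α`,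
    `x ∈ X`, then `tag n ∈ X` (`tag_mem`), `pair (tag n) x ∈ X`, `F (pair (tag n) x) = y ∈ V_ α`, so `y ∈ X`.
-/

set_option autoImplicit false
set_option linter.unusedVariables false
set_option linter.unusedSectionVars false
set_option linter.unusedSimpArgs false
set_option linter.deprecated false

universe u v w

open scoped ZFSet

namespace Pool.Agent.H82.OC

open Pool.Agent.H17.Omega

theorem IsCond.sUnion_eq {a : ZFSet.{u}} {α : Ordinal.{u}} (h : IsCond a α) :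
    (⋃₀ a : ZFSet.{u}) = V_ α := by
  ext y
  rw [ZFSet.mem_sUnion]
  constructor
  · rintro ⟨X, hX, hy⟩
    exact h.sub X hX hy
  · intro hy
    obtain ⟨X, hX, hF⟩ := h.stat (fun _ => y)
    exact ⟨X, hX, hF ∅ (h.emp X hX) hy⟩

theorem IsCond.level_unique {a : ZFSet.{u}} {α β : Ordinal.{u}} (h : IsCond a α) (h' : IsCond a β) :
    α = β := by
  have h1 : (V_ α : ZFSet.{u}) = V_ β := by rw [← h.sUnion_eq, ← h'.sUnion_eq]
  exact ZFSet.vonNeumann_injective h1

theorem IsCond.nonempty {a : ZFSet.{u}} {α : Ordinal.{u}} (h : IsCond a α) : ∃ X, X ∈ a := by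
  obtain ⟨X, hX, -⟩ := h.stat (fun _ => ∅)
  exact ⟨X, hX⟩

/-- Terms. -/
inductive LiftTm : Type
  | id : LiftTm
  | const (i : ℕ) : LiftTm
  | pr (s t : LiftTm) : LiftTm
  | op (n : ℕ) (s : LiftTm) : LiftTm
  deriving Countable

/-- Evaluation of terms. -/
noncomputable def LiftTm.ev (Φ : ℕ → ZFSet.{u} → ZFSet.{u}) (p : ℕ → ZFSet.{u}) :
    LiftTm → ZFSet.{u} → ZFSet.{u}
  | .id, x => x
  | .const i, _ => p i
  | .pr s t, x => ZFSet.pair (s.ev Φ p (fs x)) (t.ev Φ p (sn x))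
  | .op n s, x => Φ n (s.ev Φ p x)

/-- The lifting lemma. -/
theorem IsCond.lift {a : ZFSet.{u}} {α : Ordinal.{u}} (h : IsCond a α)
    (Φ : ℕ → ZFSet.{u} → ZFSet.{u}) {P0 : Set ZFSet.{u}} (hP0 : P0.Countable) :
    ∃ Y : Set ZFSet.{u}, Y.Countable ∧ P0 ⊆ Y ∧ Clo Φ Y ∧ trc Y a ∈ a := by
  obtain ⟨p, hp⟩ := (hP0.insert (∅ : ZFSet.{u})).exists_eq_range ⟨∅, Set.mem_insert _ _⟩
  have : Nonempty LiftTm := ⟨LiftTm.id⟩
  obtain ⟨e, he⟩ := exists_surjective_nat LiftTm
  have htag : Function.Injective (tag.{u}) := fun _ _ hmn => tag_inj hmn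
  let F : ZFSet.{u} → ZFSet.{u} := fun w => (e (Function.invFun tag.{u} (fs w))).ev Φ p (sn w)
  have hF : ∀ n x, F (ZFSet.pair (tag n) x) = (e n).ev Φ p x := by
    intro n x
    change (e (Function.invFun tag.{u} (fs (ZFSet.pair (tag n) x)))).ev Φ p
      (sn (ZFSet.pair (tag n) x)) = _
    rw [fs_pair, sn_pair, Function.leftInverse_invFun htag n]
  obtain ⟨X, hX, hcl⟩ := h.stat F
  have hemp := h.emp X hX
  have hpair := h.pair X hX
  refine ⟨{y | ∃ t : LiftTm, ∃ x ∈ X, y = t.ev Φ p x}, ?_, ?_, ⟨?_, ?_, ?_⟩, ?_⟩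
  · have h1 : {y | ∃ t : LiftTm, ∃ x ∈ X, y = t.ev Φ p x} =
        ⋃ t : LiftTm, (fun x => t.ev Φ p x) '' (El X) := by
      ext y
      rw [Set.mem_iUnion, Set.mem_setOf_eq]
      constructor
      · rintro ⟨t, x, hx, rfl⟩
        exact ⟨t, x, hx, rfl⟩
      · rintro ⟨t, x, hx, rfl⟩
        exact ⟨t, x, hx, rfl⟩
    rw [h1]
    exact Set.countable_iUnion fun t => (h.cnt X hX).image _
  · intro y hy
    have h1 : y ∈ Set.range p := by
      rw [← hp]
      exact Set.mem_insert_of_mem _ hy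
    obtain ⟨i, rfl⟩ := h1
    exact ⟨LiftTm.const i, ∅, hemp, rfl⟩
  · exact ⟨LiftTm.id, ∅, hemp, rfl⟩
  · rintro _ ⟨s, x, hx, rfl⟩ _ ⟨t, x', hx', rfl⟩
    refine ⟨LiftTm.pr s t, ZFSet.pair x x', hpair x hx x' hx', ?_⟩
    change _ = ZFSet.pair (s.ev Φ p (fs (ZFSet.pair x x'))) (t.ev Φ p (sn (ZFSet.pair x x')))
    rw [fs_pair, sn_pair]
  · rintro n _ ⟨s, x, hx, rfl⟩
    exact ⟨LiftTm.op n s, x, hx, rfl⟩
  · have h1 : trc {y | ∃ t : LiftTm, ∃ x ∈ X, y = t.ev Φ p x} a = X := by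
      ext y
      rw [mem_trc, h.sUnion_eq]
      constructor
      · rintro ⟨hy, t, x, hx, rfl⟩
        obtain ⟨n, rfl⟩ := he t
        have h2 := hcl _ (hpair _ (tag_mem hemp hpair n) x hx)
        rw [hF] at h2
        exact h2 hy
      · intro hy
        exact ⟨h.sub X hX hy, LiftTm.id, y, hy, rfl⟩
    rw [h1]
    exact hX

end Pool.Agent.H82.OC
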