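import Pool.Agent.H82.OC.Rk
import Pool.Agent.H82.OC.Col

/-!
# OC-B12: limits

`shape`: for a term `t` let `l = ((t.2.map Prod.snd).toFinset.sort (· ≤ ·))`, `shp t = (t.1, t.2.map (fun p => (p.1, l.idxOf p.2)))`, `ζ i = l.getD i 0`: then
`inst (shp t) ζ = t`, `bnd (shp t) ≤ l.length`, and `ζ i` for `i < bnd (shp t)` are ordinals of `t`, increasing.

Proof of `limit_WF`.
1. For every `m` and `n, n' ≥ N m` there is `h` as in the definition of `LEm`; by `exists_Okh_sup` (countably many triples; for the others take `h = 0`)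
   there is one `h` (`Okh h`) such that for all `m`, all `n, n' ≥ N m` and all `Adm h (bnd m) ζ η`:
   `rkT (xs n) (Iio η) (inst m ζ) ≤ rkT (xs n') (Iio η) (inst m ζ)` (`Adm h ..` implies `Adm h_i ..` since `Clh h ⊆ Clh h_i`); hence equality.
   Let `E = Clh h`.
2. Let `η ∈ E`, `S = {s ∈ E | s < η}`.  For a term `t` over `S`: `v t := rkT (xs (N (shp t))) (Iio η) t`; then
   `rkT (xs n) (Iio η) t = v t` for all `n ≥ N (shp t)` (`t = inst (shp t) ζ`, `Adm h (bnd (shp t)) ζ η`).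
   If `Et cd x t' t`, `t, t'` over `S`: for large `n`, `xs n (cd t' t) = x (cd t' t) ≠ 0`, so `rkT (xs n) (Iio η) t' < rkT (xs n) (Iio η) t` (`rkT_lt`; `hw` gives
   `WFOn (xs n) (Iio η)`), so `v t' < v t`.  By `WFOn_of`: `WFOn cd x S`.
3. `exists_fix` for `h`: `h'`.  For `η ∈ Clh h'`: `col E η = η`, so `ρ = col E` maps `S = {s ∈ E | s < η}` onto `Iio η` (`col_image`), strictly monotone.
   `WFx cd x`: let `η0 < ω₁`, `η ∈ Clh h'` with `η0 < η` (`exists_mem_Clh`).  The inverse of `ρ` is strictly monotone from `Iio η` to `S`: `WFOn.of_map`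
   gives `WFOn cd x (Iio η)`; `WFOn.mono`.
4. `LEm cd m x (xs n)` for `n ≥ N m` with the function `h'`: let `Adm h' (bnd m) ζ η`, `t = inst m ζ`.  `col E (ζ i) = ζ i` for `i < bnd m`, so
   `tmap (col E) t = t` (positions are `< bnd m`), and `rkT_map`: `rkT x (Iio η) t = rkT x S t` (`t` is over `S`: `ζ i ∈ Clh h' ⊆ E`).  `rkT_le_of`:
   `rkT x S t ≤ v t`.  Let `n' ≥ N (shp t), N m`: `v t = rkT (xs n') (Iio η) t = rkT (xs n) (Iio η) t` (step 1 for `m`).
-/

set_option autoImplicit false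
set_option linter.unusedVariables false
set_option linter.unusedSectionVars false
set_option linter.unusedSimpArgs false
set_option linter.deprecated false

universe u v w

open scoped ZFSet Ordinal

namespace Pool.Agent.H82.OC

open Pool.Agent.H17.Omega Pool.Agent.H17.Omega.T8

/-- the ordinals of a term, in increasing order -/
noncomputable def limL (t : Tm.{u}) : List Ordinal.{u} :=
  ((t.2.map Prod.snd).toFinset).sort

theorem mem_limL {t : Tm.{u}} {o : Ordinal.{u}} : o ∈ limL t ↔ ∃ p ∈ t.2, p.2 = o := by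
  rw [limL, Finset.mem_sort, List.mem_toFinset, List.mem_map]

theorem lim_bnd_lt {m : Shp} {q : ℕ × ℕ} (hq : q ∈ m.2) : q.2 < bnd m := by
  have key : ∀ l : List (ℕ × ℕ), q ∈ l → q.2 < l.foldr (fun p k => max (p.2 + 1) k) 0 := by
    intro l
    induction l with
    | nil => intro h; exact absurd h List.not_mem_nil
    | cons a l ih =>
      intro h
      rw [List.foldr_cons]
      rcases List.mem_cons.1 h with h1 | h1
      · subst h1
        exact lt_of_lt_of_le (Nat.lt_succ_self _) (le_max_left _ _)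
      · exact lt_of_lt_of_le (ih h1) (le_max_right _ _)
  exact key m.2 hq

theorem lim_bnd_le {m : Shp} {k : ℕ} (h : ∀ q ∈ m.2, q.2 < k) : bnd m ≤ k := by
  have key : ∀ l : List (ℕ × ℕ), (∀ q ∈ l, q.2 < k) →
      l.foldr (fun p k => max (p.2 + 1) k) 0 ≤ k := by
    intro l
    induction l with
    | nil => intro _; exact Nat.zero_le _
    | cons a l ih =>
      intro h
      rw [List.foldr_cons]
      refine max_le (h a List.mem_cons_self) (ih fun q hq => h q (List.mem_cons_of_mem _ hq))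
  exact key m.2 h

theorem lim_shape (t : Tm.{u}) : ∃ (m : Shp) (ζ : ℕ → Ordinal.{u}), inst m ζ = t ∧
    (∀ i < bnd m, ∃ p ∈ t.2, p.2 = ζ i) ∧ ∀ i j, i < j → j < bnd m → ζ i < ζ j := by
  classical
  have hlt : ∀ p ∈ t.2, (limL t).idxOf p.2 < (limL t).length := fun p hp =>
    List.idxOf_lt_length_iff.2 (mem_limL.2 ⟨p, hp, rfl⟩)
  have hb : bnd (t.1, t.2.map fun p => (p.1, (limL t).idxOf p.2)) ≤ (limL t).length := by
    apply lim_bnd_le
    intro q hq
    obtain ⟨p, hp, rfl⟩ := List.mem_map.1 hq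
    exact hlt p hp
  refine ⟨(t.1, t.2.map fun p => (p.1, (limL t).idxOf p.2)), fun i => (limL t).getD i 0, ?_, ?_, ?_⟩
  · rw [inst]
    refine Prod.ext rfl ?_
    show List.map _ (List.map _ t.2) = t.2
    rw [List.map_map]
    conv_rhs => rw [← List.map_id t.2]
    refine List.map_congr_left fun p hp => ?_
    refine Prod.ext rfl ?_
    show (limL t).getD ((limL t).idxOf p.2) 0 = p.2
    rw [List.getD_eq_getElem _ _ (hlt p hp)]
    exact List.getElem_idxOf (hlt p hp)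
  · intro i hi
    have hi' := lt_of_lt_of_le hi hb
    rw [← mem_limL]
    show (limL t).getD i 0 ∈ limL t
    rw [List.getD_eq_getElem _ _ hi']
    exact List.getElem_mem hi'
  · intro i j hij hj
    have hj' := lt_of_lt_of_le hj hb
    have hi' := hij.trans hj'
    show (limL t).getD i 0 < (limL t).getD j 0
    rw [List.getD_eq_getElem _ _ hi', List.getD_eq_getElem _ _ hj']
    exact List.pairwise_iff_getElem.1 (Finset.sortedLT_sort _).pairwise i j hi' hj' hij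

theorem Adm.lim_mono {h h' : Ordinal.{u} → Ordinal.{u}} (hs : Clh h ⊆ Clh h') {k : ℕ}
    {ζ : ℕ → Ordinal.{u}} {η : Ordinal.{u}} (hA : Adm h k ζ η) : Adm h' k ζ η :=
  ⟨fun i hi => hs (hA.mem i hi), hA.lt, hA.mono, hs hA.η_mem⟩

/-- one function for all comparisons -/
theorem lim_one {cd : Tm.{u} → Tm.{u} → ℕ} {xs : ℕ → ℕ → ℕ} {N : Shp → ℕ}
    (hN : ∀ m n n', N m ≤ n → N m ≤ n' → LEm cd m (xs n) (xs n')) :
    ∃ h : Ordinal.{u} → Ordinal.{u}, Okh h ∧ ∀ m n n', N m ≤ n → N m ≤ n' →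
      ∀ ζ η, Adm h (bnd m) ζ η →
        rkT cd (xs n) (Set.Iio η) (inst m ζ) = rkT cd (xs n') (Set.Iio η) (inst m ζ) := by
  have : Nonempty {q : Shp × ℕ × ℕ // N q.1 ≤ q.2.1 ∧ N q.1 ≤ q.2.2} :=
    ⟨⟨((0, []), N (0, []), N (0, [])), le_rfl, le_rfl⟩⟩
  obtain ⟨f, hf⟩ := exists_surjective_nat {q : Shp × ℕ × ℕ // N q.1 ≤ q.2.1 ∧ N q.1 ≤ q.2.2}
  have h1 : ∀ k : ℕ, ∃ h : Ordinal.{u} → Ordinal.{u}, Okh h ∧ ∀ ζ η, Adm h (bnd (f k).1.1) ζ η →
      rkT cd (xs (f k).1.2.1) (Set.Iio η) (inst (f k).1.1 ζ) ≤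
        rkT cd (xs (f k).1.2.2) (Set.Iio η) (inst (f k).1.1 ζ) := fun k =>
    hN _ _ _ (f k).2.1 (f k).2.2
  choose g hg1 hg2 using h1
  obtain ⟨h, hh, hsub⟩ := exists_Okh_sup hg1
  have h2 : ∀ m n n', N m ≤ n → N m ≤ n' → ∀ ζ η, Adm h (bnd m) ζ η →
      rkT cd (xs n) (Set.Iio η) (inst m ζ) ≤ rkT cd (xs n') (Set.Iio η) (inst m ζ) := by
    intro m n n' hn hn' ζ η hA
    obtain ⟨k, hk⟩ := hf ⟨(m, n, n'), hn, hn'⟩
    have h3 := hg2 k ζ η
    rw [hk] at h3
    exact h3 (hA.lim_mono (hsub k))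
  exact ⟨h, hh, fun m n n' hn hn' ζ η hA =>
    le_antisymm (h2 m n n' hn hn' ζ η hA) (h2 m n' n hn' hn ζ η hA)⟩

/-- a term over the closure points is an instance of its shape -/
theorem lim_adm {h : Ordinal.{u} → Ordinal.{u}} {η : Ordinal.{u}} (hη : η ∈ Clh h) {t : Tm.{u}}
    (ht : TmOn {s | s ∈ Clh h ∧ s < η} t) {m : Shp} {ζ : ℕ → Ordinal.{u}}
    (h2 : ∀ i < bnd m, ∃ p ∈ t.2, p.2 = ζ i) (h3 : ∀ i j, i < j → j < bnd m → ζ i < ζ j) :
    Adm h (bnd m) ζ η := by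
  refine ⟨fun i hi => ?_, fun i hi => ?_, h3, hη⟩
  · obtain ⟨p, hp, hpe⟩ := h2 i hi
    rw [← hpe]
    exact (ht p hp).1
  · obtain ⟨p, hp, hpe⟩ := h2 i hi
    rw [← hpe]
    exact (ht p hp).2

/-- Limits of converging sequences. -/
theorem limit_WF {cd : Tm.{u} → Tm.{u} → ℕ} (hc : OInv cd) {xs : ℕ → ℕ → ℕ} {x : ℕ → ℕ}
    (hw : ∀ n, WFx cd (xs n)) (hlim : ∀ i, ∃ n0, ∀ n, n0 ≤ n → xs n i = x i) {N : Shp → ℕ}
    (hN : ∀ m n n', N m ≤ n → N m ≤ n' → LEm cd m (xs n) (xs n')) :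
    WFx cd x ∧ ∀ m n, N m ≤ n → LEm cd m x (xs n) := by
  obtain ⟨h, hh, hEq⟩ := lim_one hN
  choose sh zt hsz1 hsz2 hsz3 using lim_shape.{u}
  -- step 2
  have hv_eq : ∀ η ∈ Clh h, ∀ t, TmOn {s | s ∈ Clh h ∧ s < η} t → ∀ n, N (sh t) ≤ n →
      rkT cd (xs n) (Set.Iio η) t = rkT cd (xs (N (sh t))) (Set.Iio η) t := by
    intro η hη t ht n hn
    have h1 := hEq (sh t) n (N (sh t)) hn le_rfl (zt t) η (lim_adm hη ht (hsz2 t) (hsz3 t))
    rw [hsz1 t] at h1
    exact h1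
  have hv_dec : ∀ η ∈ Clh h, ∀ t t', TmOn {s | s ∈ Clh h ∧ s < η} t →
      TmOn {s | s ∈ Clh h ∧ s < η} t' → Et cd x t' t →
      rkT cd (xs (N (sh t'))) (Set.Iio η) t' < rkT cd (xs (N (sh t))) (Set.Iio η) t := by
    intro η hη t t' ht ht' he
    obtain ⟨n0, hn0⟩ := hlim (cd t' t)
    let n := max n0 (max (N (sh t)) (N (sh t')))
    have hn1 : n0 ≤ n := le_max_left _ _
    have hn2 : N (sh t) ≤ n := le_trans (le_max_left _ _) (le_max_right _ _)
    have hn3 : N (sh t') ≤ n := le_trans (le_max_right _ _) (le_max_right _ _)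
    have he' : Et cd (xs n) t' t := by
      unfold Et at he ⊢
      rw [hn0 n hn1]
      exact he
    have h1 := rkT_lt (θ := η) (S := Set.Iio η) (fun a ha => ha) (hw n η hη.2.1)
      (fun p hp => (ht' p hp).2) he'
    rw [hv_eq η hη t ht n hn2, hv_eq η hη t' ht' n hn3] at h1
    exact h1
  have hWF : ∀ η ∈ Clh h, WFOn cd x {s | s ∈ Clh h ∧ s < η} := fun η hη =>
    WFOn_of (fun t => rkT cd (xs (N (sh t))) (Set.Iio η) t) (hv_dec η hη)
  have hrk : ∀ η ∈ Clh h, ∀ t, TmOn {s | s ∈ Clh h ∧ s < η} t →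
      rkT cd x {s | s ∈ Clh h ∧ s < η} t ≤ rkT cd (xs (N (sh t))) (Set.Iio η) t := fun η hη t ht =>
    rkT_le_of (fun t => rkT cd (xs (N (sh t))) (Set.Iio η) t) (hv_dec η hη) ht
  -- step 3
  obtain ⟨h', hh', hsub, hfix⟩ := exists_fix hh
  have himg : ∀ η ∈ Clh h', col (Clh h) '' {s | s ∈ Clh h ∧ s < η} = Set.Iio η := by
    intro η hη
    rw [col_image, hfix η hη]
  have hmono : ∀ η : Ordinal.{u}, StrictMonoOn (col (Clh h)) {s | s ∈ Clh h ∧ s < η} :=
    fun η a ha b _ hab => col_lt ha.1 hab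
  refine ⟨?_, ?_⟩
  · intro η0 hη0
    obtain ⟨η, hη, hlt⟩ := exists_mem_Clh hh' hη0
    have h1 : ∀ a ∈ Set.Iio η, ∃ s ∈ {s | s ∈ Clh h ∧ s < η}, col (Clh h) s = a := by
      intro a ha
      rw [← himg η hη] at ha
      exact ha
    have hg1 : Set.MapsTo (Function.invFunOn (col (Clh h)) {s | s ∈ Clh h ∧ s < η}) (Set.Iio η)
        {s | s ∈ Clh h ∧ s < η} := fun a ha => Function.invFunOn_mem (h1 a ha)
    have hg2 : ∀ a ∈ Set.Iio η,
        col (Clh h) (Function.invFunOn (col (Clh h)) {s | s ∈ Clh h ∧ s < η} a) = a := fun a ha =>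
      Function.invFunOn_eq (h1 a ha)
    have hg3 : StrictMonoOn (Function.invFunOn (col (Clh h)) {s | s ∈ Clh h ∧ s < η})
        (Set.Iio η) := by
      intro a ha b hb hab
      by_contra hcon
      have h2 := col_mono (S := Clh h) (not_lt.1 hcon)
      rw [hg2 a ha, hg2 b hb] at h2
      exact absurd hab (not_lt.2 h2)
    refine WFOn.mono (fun a ha => lt_trans ha hlt) (WFOn.of_map hc hg3 hg1 (hWF η (hsub hη)))
  · intro m n hn
    refine ⟨h', hh', fun ζ η hA => ?_⟩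
    have hA' := hA.lim_mono hsub
    have ht : TmOn {s | s ∈ Clh h ∧ s < η} (inst m ζ) := by
      intro p hp
      obtain ⟨q, hq, rfl⟩ := List.mem_map.1 hp
      exact ⟨hA'.mem _ (lim_bnd_lt hq), hA'.lt _ (lim_bnd_lt hq)⟩
    have htm : tmap (col (Clh h)) (inst m ζ) = inst m ζ := by
      rw [tmap]
      refine Prod.ext rfl ?_
      show List.map _ (List.map _ m.2) = List.map _ m.2
      rw [List.map_map]
      refine List.map_congr_left fun q hq => ?_
      refine Prod.ext rfl ?_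
      show col (Clh h) (ζ q.2) = ζ q.2
      exact hfix _ (hA.mem _ (lim_bnd_lt hq))
    have h1 := rkT_map (x := x) hc (hmono η) (himg η hA.η_mem) ht
    rw [htm] at h1
    rw [h1]
    refine (hrk η hA'.η_mem _ ht).trans (le_of_eq ?_)
    rw [← hv_eq η hA'.η_mem _ ht (max (N (sh (inst m ζ))) (N m)) (le_max_left _ _)]
    exact hEq m _ n (le_max_right _ _) hn ζ η hA'

end Pool.Agent.H82.OC
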