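import Pool.Agent.H82.OC.TreeG

/-!
# OC-A14: alive nodes give branches on a comeager set; the projected tree

* `spn_rname`: `mono` clear; `uniq`: `U` is nonempty; `dense`: given `U`, pick `x ∈ U`, `j = F x i`,
  `U' = U ∩ {y | F y i = j}` is open.
* `mem_proj_of_alive`: `branch_lemma` (`H17/Omega/Meager.lean`) with states `S = List (ℕ × K)`,
  `𝒲 U t := ∃ h : IsOpen U ∧ U.Nonempty, Alivet T (spn F) ⟨U, h⟩ t`,
  `Ext t U' t' := (∃ a, t' = t ++ [a]) ∧ t ∈ T ∧ ∀ x ∈ U', ∀ (i) (h : i < t.length), F x i = (t[i]).1`.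
  `hstep`: `V1 ⊆ V` open nonempty: `Alivet.step` at `V1`.  Start: `V0 = p.1`, `t = []`.  On the branch the nodes `t_m` (`m` = length) form
  an increasing sequence of nodes of `T` with first components `F x i` (`Ext t_m`: `t_m ∈ T` and `F x i = (t_m[i]).1`), so with `b i` the
  second component of the `i`-th entry, `t_m = List.ofFn (fun i : Fin m => (F x i, b i)) ∈ T`; so `F x ∈ proj T`.
* `isTree_prT`: `flat (s ++ t) = flat s ++ flat t`.
* `proj_prT`: let `b : ℕ → ℕ × K × K` be a branch; `y i = (b i).1`, and `b' : ℕ → K`, `b' (2i) = (b i).2.1`, `b' (2i+1) = (b i).2.2`.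
  `flat (List.ofFn (fun i : Fin n => (z i, b i))) = List.ofFn (fun i : Fin (2n) => (ilv z y i, b' i))` (induction on `n`, or compare
  entries); so all initial segments of even length are in `T`, and by `hT` also those of odd length.
-/

set_option autoImplicit false
set_option linter.unusedVariables false
set_option linter.unusedSectionVars false
set_option linter.unusedSimpArgs false
set_option linter.deprecated false

universe u v w

open scoped ZFSet

namespace Pool.Agent.H82.OC

open Pool.Agent.H17.Omega

section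

variable {X : Type u} [TopologicalSpace X] {F : X → ℕ → ℕ}

theorem spn_rname (hF : Continuous F) : RName (spn F) := by
  refine ⟨fun i j p q h h' x hx => h' x (h hx), fun i j j' p h h' => ?_, fun i p => ?_⟩
  · obtain ⟨x, hx⟩ := p.2.2
    rw [← h x hx, h' x hx]
  · obtain ⟨x, hx⟩ := p.2.2
    refine ⟨⟨p.1 ∩ (fun y => F y i) ⁻¹' {F x i},
      p.2.1.inter (((continuous_apply i).comp hF).isOpen_preimage _ (isOpen_discrete _)),
      ⟨x, hx, rfl⟩⟩, fun y hy => hy.1, F x i, fun y hy => hy.2⟩

theorem ProjA.ofFn_range {α : Type*} (f : ℕ → α) (n : ℕ) :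
    List.ofFn (fun i : Fin n => f i) = (List.range n).map f := by
  apply List.ext_getElem
  · simp
  · intro i h1 h2
    simp

theorem mem_proj_of_alive (hF : Continuous F) {K : Type u} {T : Set (List (ℕ × K))}
    {p : {U : Set X // IsOpen U ∧ U.Nonempty}} (hp : Alivet T (spn F) p []) :
    IsMeagre {x | x ∈ p.1 ∧ F x ∉ proj T} := by
  have hb := spn_rname hF
  have hM := branch_lemma (X := X) (S := List (ℕ × K))
    (fun V s => ∃ h : IsOpen V ∧ V.Nonempty, Alivet T (spn F) ⟨V, h⟩ s)
    (fun V s h => h.1)
    (fun s V' s' => (∃ a, s' = s ++ [a]) ∧ s ∈ T ∧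
      ∀ x ∈ V', ∀ (i : ℕ) (h : i < s.length), F x i = (s[i]).1)
    (fun V s ⟨ho, hA⟩ V1 h1 ho1 hn1 => by
      obtain ⟨r2, hr2, hO, a, ha⟩ := hA.step hb (r1 := ⟨V1, ho1, hn1⟩) h1
      exact ⟨r2.1, hr2, s ++ [a], ⟨r2.2, ha⟩, ⟨a, rfl⟩, hO.1, fun x hx i h => hO.2 i h x hx⟩)
    p.1 [] ⟨p.2, hp⟩
  refine hM.mono ?_
  intro x hx
  refine ⟨hx.1, ?_⟩
  rintro ⟨st, hst0, hst⟩
  apply hx.2
  have hext : ∀ m, ∃ a, (st (m + 1)).2 = (st m).2 ++ [a] := fun m => (hst m).2.1.1
  choose a ha using hext
  have hst' : ∀ m, (st m).2 = (List.range m).map a := by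
    intro m
    induction m with
    | zero => rw [hst0]; rfl
    | succ m ih => rw [ha m, ih, List.range_succ, List.map_append]; rfl
  refine ⟨fun i => (a i).2, fun n => ?_⟩
  have h0 := (hst n).2.1.2.1
  have h2 := (hst n).2.1.2.2 x (hst (n + 1)).2.2
  have h1 : List.ofFn (fun i : Fin n => (F x i, (a i).2)) = (st n).2 := by
    apply List.ext_getElem
    · rw [hst']; simp
    · intro i hi1 hi2
      have h3 := h2 i hi2
      have h4 : (st n).2[i] = a i := by
        have : ∀ (l : List (ℕ × K)) (hl : i < l.length), l = (List.range n).map a → l[i] = a i := by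
          intro l hl hl'
          subst hl'
          simp
        exact this _ hi2 (hst' n)
      rw [h4] at h3 ⊢
      simp [h3]
  rw [h1]
  exact h0

end

theorem ProjA.flat_append {K : Type u} (s t : List (ℕ × (ℕ × K × K))) :
    flat (s ++ t) = flat s ++ flat t := by
  induction s with
  | nil => rfl
  | cons a s ih =>
    rw [List.cons_append, flat, ih]
    rfl

theorem isTree_prT {K : Type u} {T : Set (List (ℕ × K))} (hT : IsTree T) : IsTree (prT T) := by
  intro s t h
  have h1 : flat (s ++ t) ∈ T := h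
  rw [ProjA.flat_append] at h1
  exact hT _ _ h1

theorem proj_prT {K : Type u} {T : Set (List (ℕ × K))} (hT : IsTree T) {z : ℕ → ℕ}
    (hz : z ∈ proj (prT T)) : ∃ y, ilv z y ∈ proj T := by
  obtain ⟨b, hb⟩ := hz
  let y : ℕ → ℕ := fun i => (b i).1
  let b' : ℕ → K := fun n => if n % 2 = 0 then (b (n / 2)).2.1 else (b (n / 2)).2.2
  have hflat : ∀ n, flat ((List.range n).map (fun i => (z i, b i))) =
      (List.range (2 * n)).map (fun i => (ilv z y i, b' i)) := by
    intro n
    induction n with
    | zero => rfl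
    | succ n ih =>
      have h2 : 2 * (n + 1) = 2 * n + 1 + 1 := by ring
      have e1 : ilv z y (2 * n) = z n := by
        have : 2 * n % 2 = 0 := by omega
        have h' : 2 * n / 2 = n := by omega
        simp [ilv, h']
      have e2 : ilv z y (2 * n + 1) = (b n).1 := by
        have : (2 * n + 1) % 2 ≠ 0 := by omega
        have h' : (2 * n + 1) / 2 = n := by omega
        simp only [ilv, this, if_false, h', y]
      have e3 : b' (2 * n) = (b n).2.1 := by
        have : 2 * n % 2 = 0 := by omega
        have h' : 2 * n / 2 = n := by omega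
        simp only [b', this, if_true, h']
      have e4 : b' (2 * n + 1) = (b n).2.2 := by
        have : (2 * n + 1) % 2 ≠ 0 := by omega
        have h' : (2 * n + 1) / 2 = n := by omega
        simp only [b', this, if_false, h']
      rw [h2, List.range_succ, List.map_append, ProjA.flat_append, ih, List.range_succ,
        List.range_succ, List.map_append, List.map_append, List.append_assoc]
      congr 1
      simp only [List.map_cons, List.map_nil, flat, List.cons_append, List.nil_append, e1, e2, e3, e4]
  refine ⟨y, b', fun n => ?_⟩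
  have h1 : List.ofFn (fun i : Fin n => (z i, b i)) ∈ prT T := hb n
  rw [ProjA.ofFn_range (fun i => (z i, b i))] at h1
  have h2 : flat ((List.range n).map (fun i => (z i, b i))) ∈ T := h1
  rw [hflat, two_mul, List.range_add, List.map_append] at h2
  rw [ProjA.ofFn_range (fun i => (ilv z y i, b' i))]
  exact hT _ _ h2

end Pool.Agent.H82.OC
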