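import Pool.Agent.H82.OC.TreeG
import Pool.Agent.H82.OC.Fodor
import Pool.Agent.H82.OC.Lift

/-!
# OC-A15: transfer of dead nodes from the space to the conditions

`Setup`: `c1, c2` injective codes with values in `V_ γ`; `S` a condition of level `γ < δ`; for `Z ∈ S` the point `xx Z` is generic over `Z`
and `w Z` is a real with even half `F (xx Z)`.  `wnm` is the name of the real `w (Y|S)` over `CQ δ`.

* `wnm_rname`.  `mono`: `q' ≤ q`.  If `CLe q.val S`: `CLe q'.val S` (`CLe.trans'`), and for `Z ∈ q'.val`: `trc (El Z) q.val ∈ q.val` and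
  `trc (El (trc (El Z) q.val)) S = trc (El Z) S` (`trc_trc`).  If `¬ Compat q.val S`: `¬ Compat q'.val S`.
  `uniq`: a condition is nonempty; `CLe q.val S` implies `Compat q.val S`.
  `dense`: if `¬ Compat q.val S` take `q`, `j = 0`.  Otherwise `Compat.exists_level` gives a condition `c` of level
  `max α γ < δ` below `q.val` and `S`.  Fodor (`IsCond.fodor`) for `g Z = tag (w (trc (El Z) S) i) ∈ Z` (`tag_mem`; `c.emp`, `c.pair`)
  gives a condition `{Z ∈ c : g Z = v}`, on which `w (trc (El Z) S) i` is constant (`tag_inj`); `IsCond.cle_sep`.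
* `transfer`.  Induction on `ξ` (for all `U, q, t`).  Let `r1 ≤ q`; `r1.val` is a condition of level `α ≥ γ` (`CLe.level_le`).
  Let `𝒰 = {V | IsOpen V ∧ V.Nonempty ∧ V ⊆ U ∧ (good V)} ∪ {V | IsOpen V ∧ V ∩ U = ∅}` where `good V` is the alternative in
  `deadt_iff` for `V` (`(∀ r3 ≤ V, ¬ OKt ..) ∨ ∀ a, ∃ η < ξ, Deadt T (spn F) η V (t ++ [a])`).  `⋃₀ 𝒰` is dense (`deadt_iff` for `U`).
  `c2 𝒰 ∈ V_ γ ⊆ V_ α`, so `r = {Z ∈ r1.val : c2 𝒰 ∈ Z}` is a condition of level `α` (`IsCond.sep_mem`).  For `Z ∈ r`: `Z' = trc (El Z) S ∈ S`,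
  `c2 𝒰 ∈ Z'` (`⋃₀ S = V_ γ`: `IsCond.sUnion_eq`), so there is `V ∈ 𝒰` with `c1 V ∈ Z'`, `xx Z' ∈ V`.  Fodor for
  `g Z = c1 V` (choose such `V` for `Z`): a condition `r2 = {Z ∈ r : g Z = v}`; by injectivity of `c1` there is one `V ∈ 𝒰` with
  `xx (trc (El Z) S) ∈ V` for all `Z ∈ r2`.  As `xx Z' ∈ U` (`hU`, `r2 ≤ q`: first trace to `q`), `V ⊆ U` and `good V`.
  (a) If no `r3 ≤ V` is OK for `t`: no `r3 ≤ r2` is OK for `t` (w.r.t. `evn (wnm ..)`): pick `Z ∈ r3.val`, `x = xx (trc (El Z) S) ∈ V`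
      (trace through `r2`), `evn (wnm) i (t[i]).1 r3` gives (`CLe r3.val S`, so the second alternative in `wnm` is excluded)
      `F x i = w .. (2i) = (t[i]).1` for `i < t.length`; so `V3 = {x' ∈ V : F x' i = (t[i]).1 for i < t.length}` is open, nonempty, and OK.
  (b) If `∀ a, ∃ η < ξ, Deadt T (spn F) η V (t ++ [a])`: induction hypothesis for `V`, `r2`.
-/

set_option autoImplicit false
set_option linter.unusedVariables false
set_option linter.unusedSectionVars false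
set_option linter.unusedSimpArgs false
set_option linter.deprecated false

universe u v w

open scoped ZFSet

namespace Pool.Agent.H82.OC

open Pool.Agent.H17.Omega

/-- The name of the real `w (Y|S)` over the conditions below `δ`. -/
def wnm (δ : Ordinal.{u}) (S : ZFSet.{u}) (w : ZFSet.{u} → ℕ → ℕ) : ℕ → ℕ → CQ δ → Prop :=
  fun i j q => (CLe q.val S ∧ ∀ Z ∈ q.val, w (trc (El Z) S) i = j) ∨ (¬ Compat q.val S ∧ j = 0)

theorem wnm_rname {δ γ : Ordinal.{u}} (hγ : γ < δ) {S : ZFSet.{u}} (hS : IsCond S γ)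
    (w : ZFSet.{u} → ℕ → ℕ) : RName (wnm δ S w) where
  mono i j p q hqp h := by
    have hqp' : CLe q.val p.val := hqp
    rcases h with ⟨hle, h⟩ | ⟨hn, hj⟩
    · refine Or.inl ⟨CLe.trans' hqp' hle, fun Z hZ => ?_⟩
      have h1 := h _ (hqp'.tr Z hZ)
      rwa [trc_trc hle.sub] at h1
    · refine Or.inr ⟨?_, hj⟩
      rintro ⟨c, ζ, hc, h1, h2⟩
      exact hn ⟨c, ζ, hc, CLe.trans' h1 hqp', h2⟩
  uniq i j j' p h h' := by
    obtain ⟨α, _, hα⟩ := p.val_mem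
    rcases h with ⟨hle, h⟩ | ⟨hn, hj⟩
    · rcases h' with ⟨_, h'⟩ | ⟨hn, _⟩
      · obtain ⟨Z, hZ⟩ := hα.nonempty
        rw [← h Z hZ, ← h' Z hZ]
      · exact absurd ⟨p.val, α, hα, CLe.rfl', hle⟩ hn
    · rcases h' with ⟨hle, _⟩ | ⟨_, hj'⟩
      · exact absurd ⟨p.val, α, hα, CLe.rfl', hle⟩ hn
      · rw [hj, hj']
  dense i p := by
    by_cases hc : Compat p.val S
    · obtain ⟨α, hαδ, hα⟩ := p.val_mem
      obtain ⟨c, hc, hcp, hcS⟩ := Compat.exists_level hα hS hc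
      obtain ⟨v, hv, hcv⟩ := hc.fodor (fun Z => tag (w (trc (El Z) S) i))
        (fun Z hZ => tag_mem (hc.emp Z hZ) (hc.pair Z hZ) _)
      have hlt : max α γ < δ := max_lt hαδ hγ
      have hle := hc.cle_sep hcv
      obtain ⟨Z0, hZ0⟩ := hcv.nonempty
      refine ⟨CQ.of _ ⟨max α γ, hlt, hcv⟩, ?_, w (trc (El Z0) S) i, Or.inl ⟨?_, ?_⟩⟩
      · rw [CQ.le_iff, CQ.val_of]
        exact CLe.trans' hle hcp
      · rw [CQ.val_of]
        exact CLe.trans' hle hcS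
      · rw [CQ.val_of]
        intro Z hZ
        have h1 := (ZFSet.mem_sep.1 hZ).2
        have h2 := (ZFSet.mem_sep.1 hZ0).2
        exact tag_inj (h1.trans h2.symm)
    · exact ⟨p, le_refl _, 0, Or.inr ⟨hc, rfl⟩⟩

section

variable {X : Type u} [TopologicalSpace X]

/-- Choice of generic points for the elements of a condition. -/
structure Setup (F : X → ℕ → ℕ) (c1 : Set X → ZFSet.{u}) (c2 : Set (Set X) → ZFSet.{u})
    (γ : Ordinal.{u}) (S : ZFSet.{u}) (xx : ZFSet.{u} → X) (w : ZFSet.{u} → ℕ → ℕ) : Prop where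
  cont : Continuous F
  inj1 : Function.Injective c1
  inj2 : Function.Injective c2
  mem1 : ∀ U, c1 U ∈ V_ γ
  mem2 : ∀ 𝒰, c2 𝒰 ∈ V_ γ
  hS : IsCond S γ
  gen : ∀ Z ∈ S, Gen c1 c2 (El Z) (xx Z)
  half : ∀ Z ∈ S, ∀ i, w Z (2 * i) = F (xx Z) i

theorem transfer {F : X → ℕ → ℕ} {c1 : Set X → ZFSet.{u}} {c2 : Set (Set X) → ZFSet.{u}}
    {γ : Ordinal.{u}} {S : ZFSet.{u}} {xx : ZFSet.{u} → X} {w : ZFSet.{u} → ℕ → ℕ}
    (h : Setup F c1 c2 γ S xx w) {δ : Ordinal.{u}} (hγ : γ < δ) {K : Type u}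
    {T : Set (List (ℕ × K))} {ξ : Ordinal.{u}} {U : {U : Set X // IsOpen U ∧ U.Nonempty}}
    {t : List (ℕ × K)} (hD : Deadt T (spn F) ξ U t) {q : CQ δ} (hq : CLe q.val S)
    (hU : ∀ Z ∈ q.val, xx (trc (El Z) S) ∈ U.1) : Deadt T (evn (wnm δ S w)) ξ q t := by
  induction ξ using WellFoundedLT.induction generalizing U q t with
  | ind ξ ih =>
  rw [deadt_iff]
  intro r1 hr1
  have hr1' : CLe r1.val q.val := hr1
  obtain ⟨α, hαδ, hα⟩ := r1.val_mem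
  have hle : CLe r1.val S := CLe.trans' hr1' hq
  have hγα : γ ≤ α := CLe.level_le h.hS hα hle
  obtain ⟨good, hgood⟩ : ∃ good : {U : Set X // IsOpen U ∧ U.Nonempty} → Prop, good = fun V =>
    ((∀ r3 ≤ V, ¬ OKt T (spn F) r3 t) ∨ ∀ a, ∃ η < ξ, Deadt T (spn F) η V (t ++ [a])) := ⟨_, rfl⟩
  obtain ⟨fU, hfU⟩ : ∃ fU : Set (Set X), fU = {V | (∃ hV : IsOpen V ∧ V.Nonempty, V ⊆ U.1 ∧
    good ⟨V, hV⟩) ∨ (IsOpen V ∧ V ∩ U.1 = ∅)} := ⟨_, rfl⟩
  have hop : ∀ V ∈ fU, IsOpen V := by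
    intro V hV
    rw [hfU] at hV
    rcases hV with ⟨hV, -, -⟩ | ⟨hV, -⟩
    · exact hV.1
    · exact hV
  have hdense : Dense (⋃₀ fU) := by
    rw [dense_iff_inter_open]
    intro W hW hWn
    by_cases hWU : (W ∩ U.1).Nonempty
    · have hD' := deadt_iff.1 hD ⟨W ∩ U.1, hW.inter U.2.1, hWU⟩
        (show W ∩ U.1 ⊆ U.1 from Set.inter_subset_right)
      obtain ⟨V, hVle, hV⟩ := hD'
      have hVle' : V.1 ⊆ W ∩ U.1 := hVle
      obtain ⟨x, hx⟩ := V.2.2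
      refine ⟨x, (hVle' hx).1, V.1, ?_, hx⟩
      rw [hfU]
      refine Or.inl ⟨V.2, fun y hy => (hVle' hy).2, ?_⟩
      rw [hgood]
      exact hV
    · rw [Set.not_nonempty_iff_eq_empty] at hWU
      obtain ⟨x, hx⟩ := hWn
      refine ⟨x, hx, W, ?_, hx⟩
      rw [hfU]
      exact Or.inr ⟨hW, hWU⟩
  have hrc := hα.sep_mem (ZFSet.vonNeumann_subset_of_le hγα (h.mem2 fU))
  have hex : ∀ Z ∈ (ZFSet.sep (fun Z => c2 fU ∈ Z) r1.val : ZFSet.{u}),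
      ∃ V : Set X, V ∈ fU ∧ c1 V ∈ Z ∧ xx (trc (El Z) S) ∈ V := by
    intro Z hZ
    obtain ⟨hZ1, hZ2⟩ := ZFSet.mem_sep.1 hZ
    have hZ' := hle.tr Z hZ1
    obtain ⟨V, hV, hcV, hxV⟩ := h.gen _ hZ' fU hop hdense (by
      rw [mem_El, mem_trc, h.hS.sUnion_eq]
      exact ⟨h.mem2 fU, hZ2⟩)
    rw [mem_El, mem_trc] at hcV
    exact ⟨V, hV, hcV.2, hxV⟩
  choose! VV hVV using hex
  obtain ⟨v, hv, hcv⟩ := hrc.fodor (fun Z => c1 (VV Z)) (fun Z hZ => (hVV Z hZ).2.1)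
  obtain ⟨Z0, hZ0⟩ := hcv.nonempty
  have hZ0' := (ZFSet.mem_sep.1 hZ0)
  obtain ⟨hV0, -, hx0⟩ := hVV Z0 hZ0'.1
  have hr2r1 : CLe (ZFSet.sep (fun Z => c1 (VV Z) = v) (ZFSet.sep (fun Z => c2 fU ∈ Z) r1.val)) r1.val :=
    CLe.trans' (hrc.cle_sep hcv) (hα.cle_sep hrc)
  obtain ⟨r2, hr2⟩ : ∃ r2 : CQ δ, r2.val =
      (ZFSet.sep (fun Z => c1 (VV Z) = v) (ZFSet.sep (fun Z => c2 fU ∈ Z) r1.val)) :=
    ⟨CQ.of _ ⟨α, hαδ, hcv⟩, CQ.val_of _ _⟩
  have hxV : ∀ Z ∈ r2.val, xx (trc (El Z) S) ∈ VV Z0 := by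
    intro Z hZ
    rw [hr2] at hZ
    have h1 := ZFSet.mem_sep.1 hZ
    have h2 : VV Z = VV Z0 := h.inj1 (h1.2.trans hZ0'.2.symm)
    rw [← h2]
    exact (hVV Z h1.1).2.2
  have hr2S : CLe r2.val S := by
    rw [hr2]
    exact CLe.trans' hr2r1 hle
  have hx0U : xx (trc (El Z0) S) ∈ U.1 := by
    have h1 : Z0 ∈ r1.val := (ZFSet.mem_sep.1 hZ0'.1).1
    have h2 := hU _ (hr1'.tr Z0 h1)
    rwa [trc_trc hq.sub] at h2
  rw [hfU] at hV0
  rcases hV0 with ⟨hVo, hVU, hg⟩ | ⟨-, hVU⟩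
  swap
  · exfalso
    have h1 : xx (trc (El Z0) S) ∈ VV Z0 ∩ U.1 := ⟨hx0, hx0U⟩
    rw [hVU] at h1
    exact h1
  refine ⟨r2, ?_, ?_⟩
  · rw [CQ.le_iff, hr2]
    exact hr2r1
  rw [hgood] at hg
  rcases hg with hg | hg
  · refine Or.inl ?_
    intro r3 hr3 hOK
    have hr3' : CLe r3.val r2.val := hr3
    obtain ⟨β, hβδ, hβ⟩ := r3.val_mem
    obtain ⟨Z, hZ⟩ := hβ.nonempty
    have hr3S : CLe r3.val S := CLe.trans' hr3' hr2S
    have hx : xx (trc (El Z) S) ∈ VV Z0 := by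
      have h1 := hxV _ (hr3'.tr Z hZ)
      rwa [trc_trc hr2S.sub] at h1
    have hF : ∀ (i : ℕ) (hi : i < t.length), F (xx (trc (El Z) S)) i = (t[i]).1 := by
      intro i hi
      have h1 : wnm δ S w (2 * i) (t[i]).1 r3 := hOK.2 i hi
      rcases h1 with ⟨-, h1⟩ | ⟨h1, -⟩
      · rw [← h1 Z hZ, h.half _ (hr3S.tr Z hZ)]
      · exact absurd ⟨r3.val, β, hβ, CLe.rfl', hr3S⟩ h1
    have hopen : IsOpen (VV Z0 ∩ {x' : X | ∀ (i : Fin t.length), F x' i = (t[(i : ℕ)]).1}) := by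
      refine hVo.1.inter ?_
      rw [Set.setOf_forall]
      refine isOpen_iInter_of_finite fun i => ?_
      have hc : Continuous fun x' : X => F x' i := (continuous_apply (i : ℕ)).comp h.cont
      exact (isOpen_discrete {(t[(i : ℕ)]).1}).preimage hc
    refine hg ⟨_, hopen, ⟨xx (trc (El Z) S), hx, fun i => hF i i.2⟩⟩
      (show (_ ∩ _ : Set X) ⊆ VV Z0 from Set.inter_subset_left) ⟨hOK.1, fun i hi => ?_⟩
    intro x' hx'
    exact hx'.2 ⟨i, hi⟩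
  · refine Or.inr fun a => ?_
    obtain ⟨η, hη, hDη⟩ := hg a
    exact ⟨η, hη, ih η hη hDη hr2S hxV⟩

end

end Pool.Agent.H82.OC
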