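import Pool.Agent.H82.OC.Fodor
import Pool.Agent.H82.OC.Lift
import Pool.Agent.H82.OC.Hull

/-!
# OC-A16: a nonmeager set gives a condition

`S = {Z ∈ powerset (V_ γ) : IsX γ Z, some x ∈ B is generic over Z}` is a condition of level `γ`.  All clauses except `stat` are
clear.  `stat`: given `F`, by `hull_lemma` (with `Φ n = F`, `P0 = ∅`) the set of `x` without a countable `Y` closed under pairing
and `F` such that `Gen c1 c2 Y x` is meager; `B` is not meager, so some `x ∈ B` has such a `Y`.  `Z = ZFSet.sep (· ∈ Y) (V_ γ)`: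
`IsX γ Z` (`rank_pair_lt`, `∅ ∈ V_ γ`), closed under `F` up to `V_ γ`, and `Gen c1 c2 (El Z) x`: if `c2 𝒰 ∈ Z` then `c2 𝒰 ∈ Y`, so
there is `U ∈ 𝒰` with `c1 U ∈ Y`, `x ∈ U`, and `c1 U ∈ V_ γ`.
-/

set_option autoImplicit false
set_option linter.unusedVariables false
set_option linter.unusedSectionVars false
set_option linter.unusedSimpArgs false
set_option linter.deprecated false

universe u v w

open scoped ZFSet

namespace Pool.Agent.H82.OC

open Pool.Agent.H17.Omega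

theorem cond_of_nonmeagre {X : Type u} [TopologicalSpace X] {c1 : Set X → ZFSet.{u}}
    {c2 : Set (Set X) → ZFSet.{u}} (hc2 : Function.Injective c2) {γ : Ordinal.{u}}
    (hγ : Order.IsSuccLimit γ) (h1 : ∀ U, c1 U ∈ V_ γ) {B : Set X} (hB : ¬ IsMeagre B) :
    IsCond (ZFSet.sep (fun Z => IsX γ Z ∧ ∃ x ∈ B, Gen c1 c2 (El Z) x) (V_ γ).powerset) γ where
  lim := hγ
  sub Z hZ := (ZFSet.mem_sep.1 hZ).2.1.sub
  cnt Z hZ := (ZFSet.mem_sep.1 hZ).2.1.cnt
  emp Z hZ := (ZFSet.mem_sep.1 hZ).2.1.emp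
  pair Z hZ := (ZFSet.mem_sep.1 hZ).2.1.pair
  stat F := by
    have hm := hull_lemma c1 hc2 (fun _ => F) (P0 := ∅) Set.countable_empty
    have hx : ∃ x ∈ B, ∃ Y : Set ZFSet.{u}, Y.Countable ∧ (∅ : Set ZFSet.{u}) ⊆ Y ∧
        Clo (fun _ => F) Y ∧ Gen c1 c2 Y x := by
      by_contra hne
      refine hB (hm.mono fun x hx => ?_)
      intro hY
      exact hne ⟨x, hx, hY⟩
    obtain ⟨x, hxB, Y, hYc, -, hY, hg⟩ := hx
    have h0 : (∅ : ZFSet.{u}) ∈ V_ γ := by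
      rw [ZFSet.mem_vonNeumann, ZFSet.rank_empty]
      exact hγ.bot_lt
    have hmem : ∀ z : ZFSet.{u}, z ∈ ZFSet.sep (fun z => z ∈ Y) (V_ γ) ↔ z ∈ V_ γ ∧ z ∈ Y :=
      fun z => ZFSet.mem_sep
    refine ⟨ZFSet.sep (fun z => z ∈ Y) (V_ γ), ZFSet.mem_sep.2 ⟨ZFSet.mem_powerset.2 ?_,
      ⟨?_, ?_, ?_, ?_⟩, x, hxB, ?_⟩, ?_⟩
    · exact fun z hz => ((hmem z).1 hz).1
    · exact fun z hz => ((hmem z).1 hz).1
    · exact hYc.mono fun z hz => ((hmem z).1 hz).2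
    · exact (hmem _).2 ⟨h0, hY.emp⟩
    · intro y hy z hz
      rw [hmem] at hy hz ⊢
      exact ⟨rank_pair_lt hγ hy.1 hz.1, hY.pair y hy.2 z hz.2⟩
    · intro 𝒰 hU hd hc
      obtain ⟨U, hU1, hU2, hU3⟩ := hg 𝒰 hU hd ((hmem _).1 hc).2
      exact ⟨U, hU1, (hmem _).2 ⟨h1 U, hU2⟩, hU3⟩
    · intro z hz hFz
      exact (hmem _).2 ⟨hFz, hY.op 0 z ((hmem z).1 hz).2⟩

/-- Codes of small types by sets. -/
theorem exists_codes (α : Type u) : ∃ (c : α → ZFSet.{u}) (γ : Ordinal.{u}), Function.Injective c ∧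
    ∀ x, c x ∈ V_ γ := by
  classical
  refine ⟨fun x => (Ordinal.typein (WellOrderingRel : α → α → Prop) x).toZFSet,
    Ordinal.type (WellOrderingRel : α → α → Prop), ?_, ?_⟩
  · intro x y hxy
    exact Ordinal.typein_injective _ (Ordinal.toZFSet_injective hxy)
  · intro x
    rw [ZFSet.mem_vonNeumann, Ordinal.rank_toZFSet]
    exact Ordinal.typein_lt_type _ x

end Pool.Agent.H82.OC
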