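import Pool.Agent.H82.OC.TreeG
import Pool.Agent.H82.OC.Fodor
import Pool.Agent.H82.OC.Lift

/-!
# OC-A17: the filter of a self-generic hull

`SG δ Y`: `Y` is countable, contains `∅`, closed under pairing and self-generic.  `InF Y q`: `q.val ∈ Y` and `trc Y q.val ∈ q.val`.

* `exists_dirOps`: operations
  `Φ 0 z` (`z = pair (pair a b) x`) `= F x` where for incompatible conditions `a, b` the function `F` is given by `exists_incompat`;
  `Φ (n+1) z` (`z = pair a b`) `= {c.val : c ∈ CQ δ, (c ≤ a ∧ c ≤ b) ∨ ¬ Compat c a ∨ ¬ Compat c b}` (`ZFSet.range` over `CQ δ`-subtype, or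
  `ZFSet.sep .. (V_ (δ+1+1))`).
  Let `a, b` be in the filter.  (i) `Compat a b` by `filter_compat` and `Φ 0`.  (ii) `D = Φ 1 (pair a b) ∈ Y` is predense: let `e` be a
  condition of level `< δ`.  If `¬ Compat e a` then `e ∈ D` and `Compat e e`.  Otherwise (`Compat.exists_level`) there is `e' ≤ e, a` of level
  `< δ`.  If `¬ Compat e' b` then `e' ∈ D` is compatible with `e`.  Otherwise there is `e'' ≤ e', b` of level `< δ`, `e'' ∈ D`.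
  So some `c ∈ D ∩ Y` has `trc Y c ∈ c`; by (i) applied to `c, a` and `c, b`, `c ≤ a` and `c ≤ b`.
* `exists_branchOps`: let `cL : List (ℕ × K) → V` be an injective code (`exists_code`; `K : Type u`).  Operations
  `Φ 0 z` (`z = pair q.val (cL t)`) `= {r.val : (r ≤ q ∧ OKt T bb r t ∧ ∃ a, Alivet T bb r (t ++ [a])) ∨ ¬ Compat r.val q.val}`;
  `Φ 1 z` (`z = pair r.val (cL t)`) `= cL (t ++ [a])` for a chosen `a` with `Alivet T bb r (t ++ [a])` (if it exists);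
  `Φ (n+2) z = cL []`.
  Claim: if `InF Y q`, `cL t ∈ Y`, `Alivet T bb q t` then there are `r`, `a` with `InF Y r`, `r ≤ q`, `OKt T bb r t`, `cL (t ++ [a]) ∈ Y`,
  `Alivet T bb r (t ++ [a])`.  Proof: `D = Φ 0 (pair q.val (cL t)) ∈ Y` is predense (if `e` is incompatible with `q` then `e ∈ D`; otherwise take
  `e' ≤ e, q` and `Alivet.step` at `e'`).  So there is `r.val ∈ D ∩ Y` with `trc Y r.val ∈ r.val`; `hdir` for `r, q` excludes
  `¬ Compat r.val q.val`.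
  Iterating from `(q, [])` we get `q_n`, `t_n` (`t_n.length = n`, `t_{n+1} = t_n ++ [a_n]`, `q_{n+1} ≤ q_n`, `OKt T bb q_{n+1} t_n`): with
  `x i = (a_i).1`, `b i = (a_i).2`: `t_n = List.ofFn (fun i : Fin n => (x i, b i)) ∈ T`, so `x ∈ proj T`, and `bb i (x i) q_{i+2}`.
-/

set_option autoImplicit false
set_option linter.unusedVariables false
set_option linter.unusedSectionVars false
set_option linter.unusedSimpArgs false
set_option linter.deprecated false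

universe u v w

open scoped ZFSet

namespace Pool.Agent.H82.OC

open Pool.Agent.H17.Omega

/-- Countable self-generic classes. -/
structure SG (δ : Ordinal.{u}) (Y : Set ZFSet.{u}) : Prop where
  cnt : Y.Countable
  emp : ∅ ∈ Y
  pair : ∀ x ∈ Y, ∀ y ∈ Y, ZFSet.pair x y ∈ Y
  sg : ∀ D ∈ Y, Predense δ D → ∃ d ∈ D, d ∈ Y ∧ trc Y d ∈ d

/-- The condition is in the filter of `Y`. -/
def InF {δ : Ordinal.{u}} (Y : Set ZFSet.{u}) (q : CQ δ) : Prop := q.val ∈ Y ∧ trc Y q.val ∈ q.val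

theorem exists_code (α : Type u) : ∃ c : α → ZFSet.{u}, Function.Injective c := by
  refine ⟨fun a => (Ordinal.typein (WellOrderingRel (α := α)) a).toZFSet, ?_⟩
  intro a b hab
  exact (Ordinal.typein (WellOrderingRel (α := α))).injective (Ordinal.toZFSet_injective hab)

theorem pd_compat_self {c : ZFSet.{u}} {α : Ordinal.{u}} (h : IsCond c α) : Compat c c :=
  ⟨c, α, h, CLe.rfl', CLe.rfl'⟩

theorem pd_mem_V {δ : Ordinal.{u}} {c : ZFSet.{u}} (h : ∃ α < δ, IsCond c α) :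
    c ∈ V_ (δ + 1 + 1) := by
  obtain ⟨α, hα, h⟩ := h
  exact ZFSet.vonNeumann_subset_of_le (by gcongr) h.mem_vonNeumann

theorem pd_exists_F (a b : ZFSet.{u}) : ∃ F : ZFSet.{u} → ZFSet.{u}, ¬ Compat a b →
    ∀ α β, IsCond a α → IsCond b β → ∀ Z : ZFSet.{u}, IsX (max α β) Z →
      ClF (max α β) F Z → ¬ (trc (El Z) a ∈ a ∧ trc (El Z) b ∈ b) := by
  by_cases hc : Compat a b
  · exact ⟨id, fun h => (h hc).elim⟩
  by_cases ha : ∃ α, IsCond a α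
  · by_cases hb : ∃ β, IsCond b β
    · obtain ⟨α, ha⟩ := ha
      obtain ⟨β, hb⟩ := hb
      obtain ⟨F, hF⟩ := exists_incompat ha hb hc
      refine ⟨F, fun _ α' β' ha' hb' => ?_⟩
      rw [ha'.level_unique ha, hb'.level_unique hb]
      exact hF
    · exact ⟨id, fun _ α β _ hb' => (hb ⟨β, hb'⟩).elim⟩
  · exact ⟨id, fun _ α β ha' _ => (ha ⟨α, ha'⟩).elim⟩

/-- The set of conditions deciding between `a` and `b`. -/
noncomputable def pdD (δ : Ordinal.{u}) (a b : ZFSet.{u}) : ZFSet.{u} :=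
  ZFSet.sep (fun c => (∃ α < δ, IsCond c α) ∧ ((CLe c a ∧ CLe c b) ∨ ¬ Compat c a ∨ ¬ Compat c b))
    (V_ (δ + 1 + 1))

theorem mem_pdD {δ : Ordinal.{u}} {a b c : ZFSet.{u}} : c ∈ pdD δ a b ↔
    (∃ α < δ, IsCond c α) ∧ ((CLe c a ∧ CLe c b) ∨ ¬ Compat c a ∨ ¬ Compat c b) := by
  rw [pdD, ZFSet.mem_sep]
  exact ⟨fun h => h.2, fun h => ⟨pd_mem_V h.1, h⟩⟩

theorem pdD_predense {δ : Ordinal.{u}} {a b : ZFSet.{u}} (ha : ∃ α < δ, IsCond a α)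
    (hb : ∃ α < δ, IsCond b α) : Predense δ (pdD δ a b) := by
  obtain ⟨αa, hαa, ha⟩ := ha
  obtain ⟨αb, hαb, hb⟩ := hb
  refine ⟨fun d hd => (mem_pdD.1 hd).1, fun e α hα he => ?_⟩
  by_cases h1 : Compat e a
  · obtain ⟨e', he', h2, h3⟩ := h1.exists_level he ha
    have hl1 : max α αa < δ := max_lt hα hαa
    by_cases h4 : Compat e' b
    · obtain ⟨e'', he'', h5, h6⟩ := h4.exists_level he' hb
      have hl2 : max (max α αa) αb < δ := max_lt hl1 hαb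
      exact ⟨e'', mem_pdD.2 ⟨⟨_, hl2, he''⟩, Or.inl ⟨h5.trans' h3, h6⟩⟩,
        e'', _, he'', h5.trans' h2, CLe.rfl'⟩
    · exact ⟨e', mem_pdD.2 ⟨⟨_, hl1, he'⟩, Or.inr (Or.inr h4)⟩, e', _, he', h2, CLe.rfl'⟩
  · exact ⟨e, mem_pdD.2 ⟨⟨α, hα, he⟩, Or.inr (Or.inl h1)⟩, pd_compat_self he⟩

theorem exists_dirOps (δ : Ordinal.{u}) : ∃ Φ : ℕ → ZFSet.{u} → ZFSet.{u},
    ∀ Y : Set ZFSet.{u}, SG δ Y → (∀ n, ∀ x ∈ Y, Φ n x ∈ Y) →
      ∀ a b : CQ δ, InF Y a → InF Y b → ∃ c : CQ δ, InF Y c ∧ c ≤ a ∧ c ≤ b := by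
  choose F0 hF0 using pd_exists_F.{u}
  refine ⟨fun n z => if n = 0 then F0 (fs (fs z)) (sn (fs z)) (sn z) else pdD δ (fs z) (sn z), ?_⟩
  intro Y hY hcl
  have hcomp : ∀ a b : ZFSet.{u}, a ∈ Y → b ∈ Y → (∃ α < δ, IsCond a α) → (∃ α < δ, IsCond b α) →
      trc Y a ∈ a → trc Y b ∈ b → Compat a b := by
    intro a b haY hbY ha hb h1 h2
    by_contra hc
    obtain ⟨α, -, ha⟩ := ha
    obtain ⟨β, -, hb⟩ := hb
    refine filter_compat ha hb (hF0 a b hc α β ha hb) hY.cnt hY.emp hY.pair ?_ h1 h2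
    intro x hx
    have h3 := hcl 0 _ (hY.pair _ (hY.pair a haY b hbY) x hx)
    simpa using h3
  intro a b ha hb
  have hD : pdD δ a.val b.val ∈ Y := by
    have h3 := hcl 1 _ (hY.pair _ ha.1 _ hb.1)
    simpa using h3
  obtain ⟨d, hd, hdY, hdt⟩ := hY.sg _ hD (pdD_predense a.val_mem b.val_mem)
  obtain ⟨hdc, hd2⟩ := mem_pdD.1 hd
  rcases hd2 with ⟨h4, h5⟩ | h4 | h4
  · refine ⟨CQ.of d hdc, ⟨?_, ?_⟩, ?_, ?_⟩
    · rw [CQ.val_of]; exact hdY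
    · rw [CQ.val_of]; exact hdt
    · rw [CQ.le_iff, CQ.val_of]; exact h4
    · rw [CQ.le_iff, CQ.val_of]; exact h5
  · exact (h4 (hcomp d a.val hdY ha.1 hdc a.val_mem hdt ha.2)).elim
  · exact (h4 (hcomp d b.val hdY hb.1 hdc b.val_mem hdt hb.2)).elim

section branch

variable {δ : Ordinal.{u}} {K : Type u}

/-- The first branch operation. -/
noncomputable def pdB (T : Set (List (ℕ × K))) (bb : ℕ → ℕ → CQ δ → Prop)
    (cL : List (ℕ × K) → ZFSet.{u}) (z : ZFSet.{u}) : ZFSet.{u} :=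
  ZFSet.sep (fun c => ∃ r : CQ δ, r.val = c ∧ ∃ (q : CQ δ) (t : List (ℕ × K)),
    z = ZFSet.pair q.val (cL t) ∧ ((r ≤ q ∧ OKt T bb r t ∧ ∃ a, Alivet T bb r (t ++ [a])) ∨
      ¬ Compat r.val q.val)) (V_ (δ + 1 + 1))

theorem mem_pdB {T : Set (List (ℕ × K))} {bb : ℕ → ℕ → CQ δ → Prop}
    {cL : List (ℕ × K) → ZFSet.{u}} (hcL : Function.Injective cL) {q : CQ δ} {t : List (ℕ × K)}
    {c : ZFSet.{u}} : c ∈ pdB T bb cL (ZFSet.pair q.val (cL t)) ↔ ∃ r : CQ δ, r.val = c ∧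
      ((r ≤ q ∧ OKt T bb r t ∧ ∃ a, Alivet T bb r (t ++ [a])) ∨ ¬ Compat r.val q.val) := by
  rw [pdB, ZFSet.mem_sep]
  constructor
  · rintro ⟨-, r, hr, q', t', h1, h2⟩
    rw [ZFSet.pair_inj] at h1
    obtain rfl := CQ.val_inj h1.1
    obtain rfl := hcL h1.2
    exact ⟨r, hr, h2⟩
  · rintro ⟨r, rfl, h2⟩
    exact ⟨pd_mem_V r.val_mem, r, rfl, q, t, rfl, h2⟩

theorem pdB_predense {T : Set (List (ℕ × K))} {bb : ℕ → ℕ → CQ δ → Prop} (hb : RName bb)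
    {cL : List (ℕ × K) → ZFSet.{u}} (hcL : Function.Injective cL) {q : CQ δ} {t : List (ℕ × K)}
    (hA : Alivet T bb q t) : Predense δ (pdB T bb cL (ZFSet.pair q.val (cL t))) := by
  refine ⟨fun d hd => ?_, fun e α hα he => ?_⟩
  · obtain ⟨r, rfl, -⟩ := (mem_pdB hcL).1 hd
    exact r.val_mem
  · by_cases h1 : Compat e q.val
    · obtain ⟨αq, hαq, hq⟩ := q.val_mem
      obtain ⟨e', he', h2, h3⟩ := h1.exists_level he hq
      have hl1 : max α αq < δ := max_lt hα hαq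
      have hle : CQ.of e' ⟨_, hl1, he'⟩ ≤ q := by
        rw [CQ.le_iff, CQ.val_of]; exact h3
      obtain ⟨r2, hr2, hOK, a, ha⟩ := hA.step hb hle
      have hr2' : CLe r2.val e' := by
        have := hr2
        rwa [CQ.le_iff, CQ.val_of] at this
      refine ⟨r2.val, (mem_pdB hcL).2 ⟨r2, rfl, Or.inl ⟨hr2.trans hle, hOK, a, ha⟩⟩, ?_⟩
      obtain ⟨β, -, hβ⟩ := r2.val_mem
      exact ⟨r2.val, β, hβ, hr2'.trans' h2, CLe.rfl'⟩
    · refine ⟨e, (mem_pdB hcL).2 ⟨CQ.of e ⟨α, hα, he⟩, CQ.val_of _ _, Or.inr ?_⟩,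
        pd_compat_self he⟩
      rw [CQ.val_of]
      exact h1

open Classical in
/-- The second branch operation. -/
noncomputable def pdN (T : Set (List (ℕ × K))) (bb : ℕ → ℕ → CQ δ → Prop)
    (cL : List (ℕ × K) → ZFSet.{u}) (z : ZFSet.{u}) : ZFSet.{u} :=
  if h : ∃ w, ∃ (r : CQ δ) (t : List (ℕ × K)) (a : ℕ × K), z = ZFSet.pair r.val (cL t) ∧
    Alivet T bb r (t ++ [a]) ∧ w = cL (t ++ [a]) then h.choose else ∅

theorem pdN_spec {T : Set (List (ℕ × K))} {bb : ℕ → ℕ → CQ δ → Prop}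
    {cL : List (ℕ × K) → ZFSet.{u}} (hcL : Function.Injective cL) {r : CQ δ} {t : List (ℕ × K)}
    (h : ∃ a, Alivet T bb r (t ++ [a])) :
    ∃ a, Alivet T bb r (t ++ [a]) ∧ pdN T bb cL (ZFSet.pair r.val (cL t)) = cL (t ++ [a]) := by
  obtain ⟨a, ha⟩ := h
  have hex : ∃ w, ∃ (r' : CQ δ) (t' : List (ℕ × K)) (a' : ℕ × K),
      ZFSet.pair r.val (cL t) = ZFSet.pair r'.val (cL t') ∧
      Alivet T bb r' (t' ++ [a']) ∧ w = cL (t' ++ [a']) := ⟨_, r, t, a, rfl, ha, rfl⟩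
  obtain ⟨r', t', a', h1, h2, h3⟩ := hex.choose_spec
  rw [ZFSet.pair_inj] at h1
  obtain rfl := CQ.val_inj h1.1
  obtain rfl := hcL h1.2
  refine ⟨a', h2, ?_⟩
  rw [pdN, dif_pos hex]
  exact h3

theorem pd_step {T : Set (List (ℕ × K))} {bb : ℕ → ℕ → CQ δ → Prop} (hb : RName bb)
    {cL : List (ℕ × K) → ZFSet.{u}} (hcL : Function.Injective cL) {Y : Set ZFSet.{u}} (hY : SG δ Y)
    (hB : ∀ z ∈ Y, pdB T bb cL z ∈ Y) (hN : ∀ z ∈ Y, pdN T bb cL z ∈ Y)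
    (hdir : ∀ a b : CQ δ, InF Y a → InF Y b → ∃ c : CQ δ, InF Y c ∧ c ≤ a ∧ c ≤ b)
    {q : CQ δ} {t : List (ℕ × K)} (hq : InF Y q) (ht : cL t ∈ Y) (hA : Alivet T bb q t) :
    ∃ (r : CQ δ) (a : ℕ × K), InF Y r ∧ r ≤ q ∧ OKt T bb r t ∧ cL (t ++ [a]) ∈ Y ∧
      Alivet T bb r (t ++ [a]) := by
  have hD := hB _ (hY.pair _ hq.1 _ ht)
  obtain ⟨d, hd, hdY, hdt⟩ := hY.sg _ hD (pdB_predense hb hcL hA)
  obtain ⟨r, rfl, h | h⟩ := (mem_pdB hcL).1 hd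
  · obtain ⟨hle, hOK, hex⟩ := h
    obtain ⟨a, ha, hNa⟩ := pdN_spec hcL hex
    refine ⟨r, a, ⟨hdY, hdt⟩, hle, hOK, ?_, ha⟩
    rw [← hNa]
    exact hN _ (hY.pair _ hdY _ ht)
  · obtain ⟨c, -, h1, h2⟩ := hdir r q ⟨hdY, hdt⟩ hq
    obtain ⟨γ, -, hγ⟩ := c.val_mem
    exact (h ⟨c.val, γ, hγ, h1, h2⟩).elim

end branch

theorem exists_branchOps {δ : Ordinal.{u}} {K : Type u} (T : Set (List (ℕ × K)))
    {bb : ℕ → ℕ → CQ δ → Prop} (hb : RName bb) : ∃ Φ : ℕ → ZFSet.{u} → ZFSet.{u},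
    ∀ Y : Set ZFSet.{u}, SG δ Y → (∀ n, ∀ x ∈ Y, Φ n x ∈ Y) →
      (∀ a b : CQ δ, InF Y a → InF Y b → ∃ c : CQ δ, InF Y c ∧ c ≤ a ∧ c ≤ b) →
      ∀ q : CQ δ, InF Y q → Alivet T bb q [] →
        ∃ x ∈ proj T, ∀ i, ∃ r : CQ δ, InF Y r ∧ bb i (x i) r := by
  obtain ⟨cL, hcL⟩ := exists_code.{u} (List (ℕ × K))
  refine ⟨fun n z => if n = 0 then pdB T bb cL z else if n = 1 then pdN T bb cL z else cL [], ?_⟩
  intro Y hY hcl hdir q hq hA
  have hB : ∀ z ∈ Y, pdB T bb cL z ∈ Y := by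
    intro z hz
    simpa using hcl 0 z hz
  have hN : ∀ z ∈ Y, pdN T bb cL z ∈ Y := by
    intro z hz
    simpa using hcl 1 z hz
  have h0 : cL [] ∈ Y := by
    simpa using hcl 2 ∅ hY.emp
  let S := {s : CQ δ × List (ℕ × K) // InF Y s.1 ∧ cL s.2 ∈ Y ∧ Alivet T bb s.1 s.2}
  have hstep : ∀ s : S, ∃ s' : S, ∃ a : ℕ × K, s'.1.2 = s.1.2 ++ [a] ∧ OKt T bb s'.1.1 s.1.2 := by
    rintro ⟨⟨q, t⟩, h1, h2, h3⟩
    obtain ⟨r, a, h4, h5, h6, h7, h8⟩ := pd_step hb hcL hY hB hN hdir h1 h2 h3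
    exact ⟨⟨⟨r, t ++ [a]⟩, h4, h7, h8⟩, a, rfl, h6⟩
  choose nx av hnx hOK using hstep
  let sq : ℕ → S := fun n => Nat.rec ⟨⟨q, []⟩, hq, h0, hA⟩ (fun _ s => nx s) n
  have hsq : ∀ n, sq (n + 1) = nx (sq n) := fun n => rfl
  let a : ℕ → ℕ × K := fun n => av (sq n)
  have ht : ∀ n, (sq n).1.2 = List.ofFn (fun i : Fin n => a i) := by
    intro n
    induction n with
    | zero => simp [sq]
    | succ n ih =>
      rw [hsq, hnx, ih, List.ofFn_succ', List.concat_eq_append]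
      rfl
  have hOK' : ∀ n, OKt T bb (sq (n + 1)).1.1 (List.ofFn (fun i : Fin n => a i)) := by
    intro n
    rw [hsq, ← ht n]
    exact hOK (sq n)
  refine ⟨fun i => (a i).1, ⟨fun i => (a i).2, fun n => (hOK' n).1⟩, fun i => ?_⟩
  refine ⟨(sq (i + 1 + 1)).1.1, (sq (i + 1 + 1)).2.1, ?_⟩
  have h := (hOK' (i + 1)).2 i (by simp)
  rw [List.getElem_ofFn] at h
  exact h

end Pool.Agent.H82.OC
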