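import Pool.Agent.H82.OC.TreeUBa

/-!
# OC-A13: guesses exist for universally Baire sets; trees from universally Baire sets

* `exists_guess`.  Let `XB = {q : ℕ → Q // Antitone q ∧ ∀ i, ∃ k j, bb i j (q k)} : Type u` with the topology: `U` is open iff for all
  `x ∈ U` there is `n` such that all `y ∈ XB` which agree with `x` below `n` are in `U` (define the `TopologicalSpace` directly).
  `F : XB → ℕ → ℕ`, `F q i = j` if `bb i j (q k)` for some `k` (unique: two `k`'s, pass to the larger one, `hb.mono`, `hb.uniq`).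
  `F` is continuous (`continuous_pi`; each coordinate is locally constant: the value is determined by `q` below `k + 1`).
  For a decreasing list `l` let `N l = {q ∈ XB : pre q l.length = l}`: open; nonempty if `Q` is nonempty: extend `l` (if `l = []` start
  with any element) by recursion to a decreasing sequence deciding all `bb i` (`hb.dense`).
  `hA` gives `BaireMeasurableSet (F ⁻¹' A)`; Mathlib: `BaireMeasurableSet.residualEq_isOpen`: an open `U` with `F ⁻¹' A =ᵇ U`, so
  `G = {x | x ∈ F ⁻¹' A ↔ x ∈ U}` is residual: (`mem_residual_iff`) it contains `⋂ k, G k`, `G k` open dense (countable family; if it is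
  empty use `univ`).  Let `p : Q`.
  Case 1: `U ∩ N [p]` nonempty: contains a point `q`, and for some `n ≥ 1`, all points agreeing with `q` below `n` are in `U ∩ N [p]`.
  `σ = pre q n`.  Then `Valid A`.   Case 2: `U ∩ N [p] = ∅`: `σ = [p]`, `Valid Aᶜ`.
  `O k = {l | N l ⊆ G k}`.  `Valid`: given `q', x` as in the definition, `q' ∈ XB`, `F q' = x`, `q' ∈ N σ`, `q' ∈ N (pre q' n) ⊆ G k` for all
  `k`, so `q' ∈ G`; in case 1 `q' ∈ U`, so `F q' ∈ A`, in case 2 `q' ∉ U`, so `F q' ∉ A`.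
  `Dns σ (O k)`: let `l` be decreasing, `r ≤` all elements.  `N (l ++ [r])` is nonempty open, so it contains a point `q ∈ G k`, and some
  `n ≥ l.length + 1` such that all points agreeing with `q` below `n` are in `G k`: `l' = pre q n`.
  Element below `σ` and `p`: the last element of `σ` (case 1: `q (n-1) ≤ q 0 = p`).
* `trees_of_UB`: `K = KK Q`, `T = TU A`, `T' = TU Aᶜ`; `isTree_TU`, `proj_TU`, and `exists_guess` + `alive_TU`.
-/

set_option autoImplicit false
set_option linter.unusedVariables false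
set_option linter.unusedSectionVars false
set_option linter.unusedSimpArgs false
set_option linter.deprecated false

universe u v w

open scoped ZFSet

namespace Pool.Agent.H82.OC

open Pool.Agent.H17.Omega

namespace UBb

variable {Q : Type u} [Preorder Q]

/-- The decreasing sequences that decide the name. -/
def XB (bb : ℕ → ℕ → Q → Prop) : Type u := {q : ℕ → Q // Antitone q ∧ ∀ i, ∃ k j, bb i j (q k)}

variable {bb : ℕ → ℕ → Q → Prop}

instance : TopologicalSpace (XB bb) where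
  IsOpen U := ∀ x ∈ U, ∃ n, ∀ y : XB bb, (∀ i < n, y.1 i = x.1 i) → y ∈ U
  isOpen_univ := fun x _ => ⟨0, fun _ _ => trivial⟩
  isOpen_inter := by
    intro U V hU hV x hx
    obtain ⟨n, hn⟩ := hU x hx.1
    obtain ⟨m, hm⟩ := hV x hx.2
    exact ⟨max n m, fun y hy => ⟨hn y fun i hi => hy i (lt_max_of_lt_left hi),
      hm y fun i hi => hy i (lt_max_of_lt_right hi)⟩⟩
  isOpen_sUnion := by
    intro S hS x hx
    obtain ⟨U, hU, hxU⟩ := hx
    obtain ⟨n, hn⟩ := hS U hU x hxU
    exact ⟨n, fun y hy => ⟨U, hU, hn y hy⟩⟩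

theorem isOpen_iff {U : Set (XB bb)} :
    IsOpen U ↔ ∀ x ∈ U, ∃ n, ∀ y : XB bb, (∀ i < n, y.1 i = x.1 i) → y ∈ U := Iff.rfl

theorem agree_of_pre {α : Type v} {q q' : ℕ → α} {n : ℕ} (h : pre q n = pre q' n) :
    ∀ i < n, q i = q' i := by
  intro i hi
  rw [pre, pre, List.map_inj_left] at h
  exact h i (List.mem_range.2 hi)

theorem pre_of_agree {α : Type v} {q q' : ℕ → α} {n : ℕ} (h : ∀ i < n, q i = q' i) :
    pre q n = pre q' n := by
  rw [pre, pre, List.map_inj_left]
  intro i hi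
  exact h i (List.mem_range.1 hi)

@[simp] theorem length_pre {α : Type v} (q : ℕ → α) (n : ℕ) : (pre q n).length = n := by
  simp [pre]

theorem mem_pre {α : Type v} {q : ℕ → α} {n : ℕ} {a : α} : a ∈ pre q n ↔ ∃ i < n, q i = a := by
  simp [pre]

theorem pre_prefix {α : Type v} (q : ℕ → α) {m n : ℕ} (h : m ≤ n) : pre q m <+: pre q n := by
  obtain ⟨k, rfl⟩ := Nat.exists_eq_add_of_le h
  rw [pre, pre, List.range_add, List.map_append]
  exact List.prefix_append _ _

theorem pre_pairwise {q : ℕ → Q} (h : Antitone q) (n : ℕ) :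
    (pre q n).Pairwise (fun a b => b ≤ a) := by
  rw [pre, List.pairwise_map]
  refine List.Pairwise.imp ?_ (List.pairwise_lt_range (n := n))
  intro a b hab
  exact h hab.le

/-! ### The real of a sequence -/

theorem val_uniq (hb : RName bb) (q : XB bb) {i j j' k k' : ℕ} (h : bb i j (q.1 k))
    (h' : bb i j' (q.1 k')) : j = j' := by
  have h1 : bb i j (q.1 (max k k')) := hb.mono _ _ _ _ (q.2.1 (le_max_left k k')) h
  have h2 : bb i j' (q.1 (max k k')) := hb.mono _ _ _ _ (q.2.1 (le_max_right k k')) h'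
  exact hb.uniq _ _ _ _ h1 h2

/-- The real decided by the sequence. -/
noncomputable def FB (q : XB bb) (i : ℕ) : ℕ := (q.2.2 i).choose_spec.choose

theorem FB_spec (q : XB bb) (i : ℕ) : ∃ k, bb i (FB q i) (q.1 k) :=
  ⟨_, (q.2.2 i).choose_spec.choose_spec⟩

theorem FB_eq (hb : RName bb) (q : XB bb) {i j k : ℕ} (h : bb i j (q.1 k)) : FB q i = j := by
  obtain ⟨k', hk'⟩ := FB_spec q i
  exact val_uniq hb q hk' h

theorem FB_cont (hb : RName bb) : Continuous (FB : XB bb → ℕ → ℕ) := by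
  refine continuous_pi fun i => continuous_def.2 fun s _ => ?_
  rw [isOpen_iff]
  intro q hq
  obtain ⟨k, hk⟩ := FB_spec q i
  refine ⟨k + 1, fun y hy => ?_⟩
  have h1 : bb i (FB q i) (y.1 k) := by rw [hy k (Nat.lt_succ_self k)]; exact hk
  show FB y i ∈ s
  rw [FB_eq hb y h1]
  exact hq

/-- Neighbourhoods. -/
def NB (bb : ℕ → ℕ → Q → Prop) (l : List Q) : Set (XB bb) := {q | pre q.1 l.length = l}

theorem NB_open (l : List Q) : IsOpen (NB bb l) := by
  rw [isOpen_iff]
  intro x hx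
  refine ⟨l.length, fun y hy => ?_⟩
  show pre y.1 l.length = l
  rw [pre_of_agree hy]
  exact hx

theorem NB_pre {q y : XB bb} {n : ℕ} (h : y ∈ NB bb (pre q.1 n)) : ∀ i < n, y.1 i = q.1 i := by
  have h1 : pre y.1 (pre q.1 n).length = pre q.1 n := h
  rw [length_pre] at h1
  exact agree_of_pre h1

theorem exists_below (p : Q) : ∀ l : List Q, l.Pairwise (fun a b => b ≤ a) → ∃ e, ∀ a ∈ l, e ≤ a
  | [], _ => ⟨p, by simp⟩
  | [a], _ => ⟨a, by simp⟩
  | a :: b :: l, h => by
    rw [List.pairwise_cons] at h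
    obtain ⟨e, he⟩ := exists_below p (b :: l) h.2
    refine ⟨e, fun c hc => ?_⟩
    rcases List.mem_cons.1 hc with rfl | hc
    · exact (he b (by simp)).trans (h.1 b (by simp))
    · exact he c hc

theorem NB_nonempty (hb : RName bb) (p : Q) {l : List Q} (hl : l.Pairwise (fun a b => b ≤ a)) :
    (NB bb l).Nonempty := by
  obtain ⟨e, he⟩ := exists_below p l hl
  choose f hf1 j hf2 using hb.dense
  let r : ℕ → Q := fun n => Nat.rec e (fun n a => f n a) n
  have hr1 : ∀ n, r (n + 1) = f n (r n) := fun n => rfl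
  have hr : Antitone r := antitone_nat_of_succ_le fun n => by rw [hr1]; exact hf1 _ _
  have hre : ∀ n, r n ≤ e := fun n => hr (Nat.zero_le n)
  let q : ℕ → Q := fun k => if h : k < l.length then l[k] else r (k - l.length)
  have hq : Antitone q := by
    intro a b hab
    simp only [q]
    split_ifs with h1 h2 h2
    · rcases hab.lt_or_eq with h3 | h3
      · exact List.pairwise_iff_getElem.1 hl a b h2 h1 h3
      · subst h3
        exact le_refl _
    · omega
    · exact (hre _).trans (he _ (List.getElem_mem h2))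
    · exact hr (by omega)
  have hd : ∀ i, ∃ k j, bb i j (q k) := by
    intro i
    refine ⟨l.length + (i + 1), j i (r i), ?_⟩
    have h1 : q (l.length + (i + 1)) = f i (r i) := by
      simp only [q]
      rw [dif_neg (by omega)]
      have : l.length + (i + 1) - l.length = i + 1 := by omega
      rw [this]
    rw [h1]
    exact hf2 i (r i)
  refine ⟨⟨q, hq, hd⟩, ?_⟩
  show pre q l.length = l
  apply List.ext_getElem
  · simp
  · intro i h1 h2
    simp only [pre, List.getElem_map, List.getElem_range, q]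
    rw [dif_pos h2]

theorem exists_seq {X : Type u} [TopologicalSpace X] {s : Set X} (h : s ∈ residual X) :
    ∃ G : ℕ → Set X, (∀ k, IsOpen (G k)) ∧ (∀ k, Dense (G k)) ∧ ∀ x, (∀ k, x ∈ G k) → x ∈ s := by
  rw [mem_residual_iff] at h
  obtain ⟨S, h1, h2, h3, h4⟩ := h
  have h5 : (insert Set.univ S).Countable := h3.insert _
  obtain ⟨G, hG⟩ := h5.exists_eq_range (Set.insert_nonempty _ _)
  have h6 : ∀ k, G k = Set.univ ∨ G k ∈ S := by
    intro k
    have : G k ∈ insert Set.univ S := by rw [hG]; exact ⟨k, rfl⟩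
    exact this
  refine ⟨G, fun k => ?_, fun k => ?_, fun x hx => h4 ?_⟩
  · rcases h6 k with h | h
    · rw [h]; exact isOpen_univ
    · exact h1 _ h
  · rcases h6 k with h | h
    · rw [h]; exact dense_univ
    · exact h2 _ h
  · intro t ht
    have : t ∈ Set.range G := by rw [← hG]; exact Set.mem_insert_of_mem _ ht
    obtain ⟨k, rfl⟩ := this
    exact hx k

theorem dns (hb : RName bb) (σ : List Q) {G : Set (XB bb)} (h1 : IsOpen G) (h2 : Dense G) :
    Dns σ {l | NB bb l ⊆ G} := by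
  intro l hl _ r hr
  have h3 : (l ++ [r]).Pairwise (fun a b => b ≤ a) := by
    rw [List.pairwise_append]
    refine ⟨hl, List.pairwise_singleton _ _, fun a ha b hb => ?_⟩
    rw [List.mem_singleton] at hb
    rw [hb]
    exact hr a ha
  obtain ⟨q, hq1, hq2⟩ := h2.inter_open_nonempty _ (NB_open (l ++ [r])) (NB_nonempty hb r h3)
  obtain ⟨n, hn⟩ := isOpen_iff.1 h1 q hq2
  refine ⟨pre q.1 (max n (l ++ [r]).length), pre_pairwise q.2.1 _, ?_, ?_⟩
  · have h4 : pre q.1 (l ++ [r]).length = l ++ [r] := hq1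
    have h5 := pre_prefix q.1 (le_max_right n (l ++ [r]).length)
    rw [h4] at h5
    exact h5
  · intro y hy
    exact hn y fun i hi => NB_pre hy i (lt_max_of_lt_left hi)

theorem valid (hb : RName bb) (A : Set (ℕ → ℕ)) (σ : List Q) (G : ℕ → Set (XB bb))
    (h : ∀ y : XB bb, y ∈ NB bb σ → (∀ k, y ∈ G k) → FB y ∈ A) :
    Valid A ⟨bb, σ, fun k => {l | NB bb l ⊆ G k}⟩ := by
  intro q x hq hx hσ hO
  have hF : FB (⟨q, hq, fun i => ⟨(hx i).choose, x i, (hx i).choose_spec⟩⟩ : XB bb) = x := by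
    funext i
    obtain ⟨k, hk⟩ := hx i
    exact FB_eq hb _ hk
  rw [← hF]
  refine h _ hσ fun k => ?_
  obtain ⟨n, hn⟩ := hO k
  refine hn ?_
  show pre q (pre q n).length = pre q n
  rw [length_pre]

end UBb

section

variable {Q : Type u} [Preorder Q]

open UBb in
theorem exists_guess {A : Set (ℕ → ℕ)} (hA : UB.{u} A) {bb : ℕ → ℕ → Q → Prop} (hb : RName bb)
    (p : Q) : ∃ (σ : List Q) (O : ℕ → Set (List Q)), σ.Pairwise (fun a b => b ≤ a) ∧
      (∃ q ≤ p, ∀ a ∈ σ, q ≤ a) ∧ (∀ k, Dns σ (O k)) ∧ (Valid A ⟨bb, σ, O⟩ ∨ Valid Aᶜ ⟨bb, σ, O⟩) := by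
  obtain ⟨U, hU, hAU⟩ := (hA (XB bb) FB (FB_cont hb)).residualEq_isOpen
  obtain ⟨G, hG1, hG2, hG3⟩ := exists_seq hAU.mem_iff
  by_cases hne : (U ∩ NB bb [p]).Nonempty
  · obtain ⟨q, hqU, hqp⟩ := hne
    obtain ⟨n, hn⟩ := isOpen_iff.1 hU q hqU
    have hq0 : q.1 0 = p := by
      have h1 : pre q.1 1 = [p] := hqp
      simpa [pre] using h1
    refine ⟨pre q.1 n, fun k => {l | NB bb l ⊆ G k}, pre_pairwise q.2.1 _,
      ⟨q.1 n, by rw [← hq0]; exact q.2.1 (Nat.zero_le n), ?_⟩, fun k => dns hb _ (hG1 k) (hG2 k),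
      Or.inl (valid hb A _ G ?_)⟩
    · intro a ha
      obtain ⟨i, hi, rfl⟩ := mem_pre.1 ha
      exact q.2.1 hi.le
    · intro y hy hyG
      exact (hG3 y hyG).2 (hn y (NB_pre hy))
  · refine ⟨[p], fun k => {l | NB bb l ⊆ G k}, List.pairwise_singleton _ _,
      ⟨p, le_refl p, by simp⟩, fun k => dns hb _ (hG1 k) (hG2 k), Or.inr (valid hb Aᶜ _ G ?_)⟩
    intro y hy hyG hyA
    exact hne ⟨y, (hG3 y hyG).1 hyA, hy⟩

variable (Q) in
/-- Trees from universally Baire sets. -/
theorem trees_of_UB {A : Set (ℕ → ℕ)} (hA : UB.{u} A) :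
    ∃ (K : Type u) (T T' : Set (List (ℕ × K))), IsTree T ∧ IsTree T' ∧ proj T ⊆ A ∧ proj T' ⊆ Aᶜ ∧
      ∀ bb : ℕ → ℕ → Q → Prop, RName bb → ∀ p, ∃ q ≤ p, Alivet T bb q [] ∨ Alivet T' bb q [] := by
  refine ⟨KK Q, TU A, TU Aᶜ, isTree_TU A, isTree_TU Aᶜ, proj_TU A, proj_TU Aᶜ, fun bb hb p => ?_⟩
  obtain ⟨σ, O, h1, ⟨q, hq, h2⟩, h3, h4⟩ := exists_guess hA hb p
  refine ⟨q, hq, ?_⟩
  rcases h4 with h4 | h4
  · exact Or.inl (alive_TU (g := ⟨bb, σ, O⟩) hb h4 h1 h3 h2)
  · exact Or.inr (alive_TU (g := ⟨bb, σ, O⟩) hb h4 h1 h3 h2)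

end

end Pool.Agent.H82.OC
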