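import Pool.Agent.H82.OC.SelfGen
import Pool.Agent.H82.OC.TreeUBb
import Pool.Agent.H82.OC.ProjA
import Pool.Agent.H82.OC.ProjB
import Pool.Agent.H82.OC.ProjC
import Pool.Agent.H82.OC.ProjD

/-!
# OC-A18: universally Baire sets are closed under projections

Proof.  Let `X`, `F` be as in the definition of `UB`.  Codes (`exists_codes`): `c1 : Set X → V`, `c2 : Set (Set X) → V` injective with values in
some `V_ γ0`; let `γ = max .. + ω` (limit).  Let `δ > γ` be Woodin, `Q = CQ δ`, `K, T, T'` from `trees_of_UB`.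
`A' = {z | ∃ y, ilv z y ∈ A}`.  `baireMeasurableSet_of_local`: let `V` be open nonempty, `p = ⟨V, _⟩`.

Case 1: some `p' ≤ p` has `Alivet (prT T) (spn F) p' []`.  `mem_proj_of_alive`: `{x ∈ p' | F x ∉ proj (prT T)}` is meager, and
`proj (prT T) ⊆ A'` (`proj_prT`, `proj T ⊆ A`).  So `V' = p'.1`, `IsMeagre (V' \ F⁻¹ A')`.

Case 2: otherwise `Deadt (prT T) (spn F) ξ p []` for some `ξ` (`exists_dead`).  Claim: `B = {x ∈ V | F x ∈ A'}` is meager (so `V' = V` works).
Suppose not.  `S = {Z ⊆ V_ γ : IsX γ Z, ∃ x ∈ B, Gen c1 c2 (El Z) x}` is a condition of level `γ` (`cond_of_nonmeagre`).  Choose for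
`Z ∈ S` a point `xx Z ∈ B`, `Gen c1 c2 (El Z) (xx Z)` and `yy Z` with `ilv (F (xx Z)) (yy Z) ∈ A`; `w Z = ilv (F (xx Z)) (yy Z)`.
`Setup F c1 c2 γ S xx w`.  `bb = wnm δ S w`, `RName bb` (`wnm_rname`).
`D = {q.val : q ∈ CQ δ, Alivet T bb q [] ∨ Alivet T' bb q []}` (a `ZFSet`) is predense (`trees_of_UB`; an element `q ≤ p` is compatible with `p`).
Let `Φd` from `exists_dirOps δ`, `Φb` from `exists_branchOps T' hb`.  `exists_selfgeneric` for `S`, the merged operations
(`Φ (2n) = Φd n`, `Φ (2n+1) = Φb n`) and `P0 = {D, S}` gives `Y`; `SG δ Y`.  There is `d ∈ D ∩ Y`, `trc Y d ∈ d`, `d = q.val`.  By directedness there is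
`c : CQ δ`, `InF Y c`, `c ≤ q`, `CLe c.val S`.
- If `Alivet T bb q []`: `transfer` gives `Deadt (prT T) (evn bb) ξ c []` (`xx Z ∈ B ⊆ V`), but `Alivet T bb c []` (mono), `flat [] = []`:
  contradiction to `not_deadt_of_alivet`.
- If `Alivet T' bb q []`: there is `x ∈ proj T' ⊆ Aᶜ` with: for all `i` some `r`, `InF Y r`, `bb i (x i) r`; directedness with `S` gives
  `r' ≤ r`, `CLe r'.val S`, `InF Y r'`, `bb i (x i) r'`, so (`Compat r'.val S`) for `Z = trc Y r'.val ∈ r'.val`: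
  `x i = w (trc (El Z) S) i = w (trc Y S) i` (`trc_trc`).  So `x = w (trc Y S)` and `trc Y S ∈ S`, hence `x ∈ A`: contradiction.
-/

set_option autoImplicit false
set_option linter.unusedVariables false
set_option linter.unusedSectionVars false
set_option linter.unusedSimpArgs false
set_option linter.deprecated false

universe u v w

open scoped ZFSet

namespace Pool.Agent.H82.OC

open Pool.Agent.H17.Omega

/-- Universally Baire sets are closed under projections, if there is a proper class of Woodin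
cardinals. -/
theorem UB_projection (hW : ManyWoodin.{u}) {A : Set (ℕ → ℕ)} (hA : UB.{u} A) :
    UB.{u} {z | ∃ y, ilv z y ∈ A} := by
  classical
  intro X _ F hF
  -- codes
  obtain ⟨c1, γ1, hc1, hm1⟩ := exists_codes (Set X)
  obtain ⟨c2, γ2, hc2, hm2⟩ := exists_codes (Set (Set X))
  obtain ⟨γ, hγ⟩ : ∃ γ : Ordinal.{u}, γ = max γ1 γ2 + Ordinal.omega0 := ⟨_, rfl⟩
  have hγl : Order.IsSuccLimit γ := by
    rw [hγ]
    exact Ordinal.isSuccLimit_add _ Ordinal.isSuccLimit_omega0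
  have hγ1 : γ1 ≤ γ := by
    rw [hγ]
    exact (le_max_left _ _).trans le_self_add
  have hγ2 : γ2 ≤ γ := by
    rw [hγ]
    exact (le_max_right _ _).trans le_self_add
  have h1 : ∀ U, c1 U ∈ V_ γ := fun U => ZFSet.vonNeumann_subset_of_le hγ1 (hm1 U)
  have h2 : ∀ 𝒰, c2 𝒰 ∈ V_ γ := fun 𝒰 => ZFSet.vonNeumann_subset_of_le hγ2 (hm2 𝒰)
  obtain ⟨δ, hγδ, hδ⟩ := hW γ
  obtain ⟨K, T, T', hT, hT', hTA, hTA', htrees⟩ := trees_of_UB (CQ δ) hA
  refine baireMeasurableSet_of_local fun V hVo hVn => ?_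
  let p : {U : Set X // IsOpen U ∧ U.Nonempty} := ⟨V, hVo, hVn⟩
  by_cases hal : ∃ p' ≤ p, Alivet (prT T) (spn F) p' []
  · obtain ⟨p', hp', hA'⟩ := hal
    refine ⟨p'.1, hp', p'.2.1, p'.2.2, Or.inr ?_⟩
    refine (mem_proj_of_alive hF hA').mono ?_
    rintro x ⟨hx, hxA⟩
    refine ⟨hx, fun hpr => hxA ?_⟩
    obtain ⟨y, hy⟩ := proj_prT hT hpr
    exact ⟨y, hTA hy⟩
  · push Not at hal
    obtain ⟨ξ, hξ⟩ := exists_dead (T := prT T) (bb := spn F) (r := p) (t := []) hal
    refine ⟨V, subset_rfl, hVo, hVn, Or.inl ?_⟩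
    by_contra hnm
    set B : Set X := V ∩ F ⁻¹' {z | ∃ y, ilv z y ∈ A} with hB
    obtain ⟨S, hSdef⟩ : ∃ S : ZFSet.{u}, S =
      ZFSet.sep (fun Z => IsX γ Z ∧ ∃ x ∈ B, Gen c1 c2 (El Z) x) (V_ γ).powerset := ⟨_, rfl⟩
    have hS : IsCond S γ := by
      rw [hSdef]
      exact cond_of_nonmeagre hc2 hγl h1 hnm
    have hch : ∀ Z, Z ∈ S → ∃ x, x ∈ B ∧ Gen c1 c2 (El Z) x := by
      intro Z hZ
      rw [hSdef] at hZ
      obtain ⟨x, hx, hg⟩ := (ZFSet.mem_sep.1 hZ).2.2
      exact ⟨x, hx, hg⟩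
    have hXn : Nonempty X := ⟨hVn.some⟩
    choose! xx hxx using hch
    have hy : ∀ Z, Z ∈ S → ∃ y, ilv (F (xx Z)) y ∈ A := fun Z hZ => (hxx Z hZ).1.2
    choose! yy hyy using hy
    obtain ⟨w, hw⟩ : ∃ w : ZFSet.{u} → ℕ → ℕ, w = fun Z => ilv (F (xx Z)) (yy Z) := ⟨_, rfl⟩
    have hset : Setup F c1 c2 γ S xx w :=
      { cont := hF
        inj1 := hc1
        inj2 := hc2
        mem1 := h1
        mem2 := h2
        hS := hS
        gen := fun Z hZ => (hxx Z hZ).2
        half := fun Z hZ i => by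
          rw [hw]
          have e1 : (2 * i) % 2 = 0 := by omega
          have e2 : (2 * i) / 2 = i := by omega
          simp [ilv, e1, e2] }
    have hbb : RName (wnm δ S w) := wnm_rname hγδ hS w
    obtain ⟨bb, hbbdef⟩ : ∃ bb : ℕ → ℕ → CQ δ → Prop, bb = wnm δ S w := ⟨_, rfl⟩
    rw [← hbbdef] at hbb
    obtain ⟨D, hD⟩ : ∃ D : ZFSet.{u}, D =
      ZFSet.range (fun q : {q : CQ δ // Alivet T bb q [] ∨ Alivet T' bb q []} => q.1.val) :=
      ⟨_, rfl⟩
    have hDpre : Predense δ D := by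
      constructor
      · intro d hd
        rw [hD, ZFSet.mem_range] at hd
        obtain ⟨q, rfl⟩ := hd
        exact q.1.val_mem
      · intro a α hα ha
        obtain ⟨q, hq, hqa⟩ := htrees bb hbb (CQ.of a ⟨α, hα, ha⟩)
        refine ⟨q.val, ?_, ?_⟩
        · rw [hD, ZFSet.mem_range]
          exact ⟨⟨q, hqa⟩, rfl⟩
        · obtain ⟨β, _, hβ⟩ := q.val_mem
          refine ⟨q.val, β, hβ, ?_, CLe.rfl'⟩
          have := CQ.le_iff.1 hq
          rwa [CQ.val_of] at this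
    obtain ⟨Φd, hΦd⟩ := exists_dirOps δ
    obtain ⟨Φb, hΦb⟩ := exists_branchOps T' hbb
    obtain ⟨Y, hYc, hPY, hYclo, hYS, hYg⟩ := exists_selfgeneric hδ hγδ hS
      (fun m => if m % 2 = 0 then Φd (m / 2) else Φb (m / 2)) (P0 := {D, S})
      ((Set.countable_singleton S).insert D)
    have hDY : D ∈ Y := hPY (by simp)
    have hSY : S ∈ Y := hPY (by simp)
    have hYd : ∀ n, ∀ x ∈ Y, Φd n x ∈ Y := by
      intro n x hx
      have h := hYclo.op (2 * n) x hx
      have e1 : (2 * n) % 2 = 0 := by omega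
      have e2 : (2 * n) / 2 = n := by omega
      simpa only [e1, e2, if_true] using h
    have hYb : ∀ n, ∀ x ∈ Y, Φb n x ∈ Y := by
      intro n x hx
      have h := hYclo.op (2 * n + 1) x hx
      have e1 : (2 * n + 1) % 2 = 1 := by omega
      have e2 : (2 * n + 1) / 2 = n := by omega
      simp only [e1, e2] at h
      rwa [if_neg (by norm_num)] at h
    have hSG : SG δ Y := ⟨hYc, hYclo.emp, hYclo.pair, hYg⟩
    have hdir := hΦd Y hSG hYd
    obtain ⟨d, hdD, hdY, hdt⟩ := hYg D hDY hDpre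
    rw [hD, ZFSet.mem_range] at hdD
    obtain ⟨⟨q, hqa⟩, rfl⟩ := hdD
    have hqF : InF Y q := ⟨hdY, hdt⟩
    let sq : CQ δ := CQ.of S ⟨γ, hγδ, hS⟩
    have hsv : sq.val = S := CQ.val_of _ _
    have hsF : InF Y sq := by
      refine ⟨?_, ?_⟩
      · rw [hsv]; exact hSY
      · rw [hsv]; exact hYS
    rcases hqa with hqa | hqa
    · obtain ⟨c, -, hcq, hcs⟩ := hdir q sq hqF hsF
      have hcS : CLe c.val S := by
        have := CQ.le_iff.1 hcs
        rwa [hsv] at this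
      have hdead := transfer hset hγδ hξ (q := c) hcS (fun Z hZ => (hxx _ (hcS.tr Z hZ)).1.1)
      rw [← hbbdef] at hdead
      exact not_deadt_of_alivet hbb (r := c) (t := []) (hqa.mono hcq) hdead
    · obtain ⟨x, hxT, hx⟩ := hΦb Y hSG hYb hdir q hqF hqa
      have hxw : x = w (trc Y S) := by
        funext i
        obtain ⟨r, hrF, hr⟩ := hx i
        obtain ⟨r', hrF', hrr, hrs⟩ := hdir r sq hrF hsF
        have hrS : CLe r'.val S := by
          have := CQ.le_iff.1 hrs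
          rwa [hsv] at this
        have hb := hbb.mono _ _ _ _ hrr hr
        rw [hbbdef] at hb
        rcases hb with hb | hb
        · have h3 := hb.2 _ hrF'.2
          rw [trc_trc hrS.sub] at h3
          exact h3.symm
        · obtain ⟨β, _, hβ⟩ := r'.val_mem
          exact absurd ⟨r'.val, β, hβ, CLe.rfl', hrS⟩ hb.1
      have hxA : x ∈ A := by
        rw [hxw, hw]
        exact hyy _ hYS
      exact hTA' hxT hxA

end Pool.Agent.H82.OC
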