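import Pool.Agent.H82.OC.Defs

/-!
# OC-A4: the formula `Ψ` is `Δ₀`

Use the calculus `Pool.Agent.H17.Omega.D0` (file `H17/Omega/D0.lean`; see the proof of `D0.isPair` there for the
technique with nested `bexZ`/`ballZ`, `D0T.var`, `D0T.lift`, `D0T.last`).

* `d0_app`: `App g x v ↔ (pair x v ∈ g) ∧ ∀ p ∈ g, ∀ q ∈ p, ∀ v' ∈ q, p = pair x v' → v' = v`
  (if `pair x v' ∈ g` take `p = pair x v'`, `q = {x, v'}`).
* `d0_app2`: `App g (pair a b) v ↔ (∃ p ∈ g, ∃ q ∈ p, ∃ t ∈ q, t = pair a b ∧ p = pair t v) ∧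
    ∀ p ∈ g, ∀ q ∈ p, ∀ t ∈ q, ∀ v' ∈ q, t = pair a b → p = pair t v' → v' = v`.
* `d0_psi`: the definition with `v ∈ ⋃₀ d` replaced by `∃ Z ∈ d, v ∈ Z` (`ZFSet.mem_sUnion`).
-/

set_option autoImplicit false
set_option linter.unusedVariables false
set_option linter.unusedSectionVars false
set_option linter.unusedSimpArgs false
set_option linter.deprecated false

universe u v w

open scoped ZFSet

namespace Pool.Agent.H82.OC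

open Pool.Agent.H17.Omega

variable {n : ℕ} {s t r p : (Fin n → ZFSet.{u}) → ZFSet.{u}}

theorem d0_mem_pair (x y : ZFSet.{u}) : ({x, y} : ZFSet.{u}) ∈ ZFSet.pair x y := by
  rw [ZFSet.pair]; simp

theorem d0_app (hs : D0T s) (ht : D0T t) (hr : D0T r) : D0 (fun v => App (s v) (t v) (r v)) := by
  have h2 : D0 (fun v => ∀ p ∈ s v, ∀ q ∈ p, ∀ v' ∈ q, p = ZFSet.pair (t v) v' → v' = r v) := by
    refine D0.ballZ (p := fun v p => ∀ q ∈ p, ∀ v' ∈ q, p = ZFSet.pair (t v) v' → v' = r v) hs ?_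
    refine D0.ballZ (s := fun v => v (Fin.last n)) (p := fun v q => ∀ v' ∈ q,
      v (Fin.last n) = ZFSet.pair (t fun i => v i.castSucc) v' → v' = r fun i => v i.castSucc)
      D0T.last ?_
    refine D0.ballZ (s := fun v => v (Fin.last (n + 1))) (p := fun v v' =>
      v (Fin.last n).castSucc = ZFSet.pair (t fun i => v i.castSucc.castSucc) v' →
        v' = r fun i => v i.castSucc.castSucc) D0T.last ?_
    exact (D0.isPair (D0T.var _) ht.lift.lift.lift D0T.last).imp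
      (D0.eqv D0T.last hr.lift.lift.lift)
  refine ((D0.pairMem ht hr hs).and h2).congr fun v => ?_
  refine and_congr Iff.rfl ⟨fun h v' hv' => ?_, fun h p hp q _ v' _ he => ?_⟩
  · exact h _ hv' _ (d0_mem_pair _ _) v' (by simp) rfl
  · exact h v' (he ▸ hp)

theorem d0_app2 (hs : D0T s) (ht : D0T t) (hr : D0T r) (hp : D0T p) :
    D0 (fun v => App (s v) (ZFSet.pair (t v) (r v)) (p v)) := by
  have h1 : D0 (fun v => ∃ P ∈ s v, ∃ q ∈ P, ∃ T ∈ q, T = ZFSet.pair (t v) (r v) ∧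
      P = ZFSet.pair T (p v)) := by
    refine D0.bexZ (p := fun v P => ∃ q ∈ P, ∃ T ∈ q, T = ZFSet.pair (t v) (r v) ∧
      P = ZFSet.pair T (p v)) hs ?_
    refine D0.bexZ (s := fun v => v (Fin.last n)) (p := fun v q => ∃ T ∈ q,
      T = ZFSet.pair (t fun i => v i.castSucc) (r fun i => v i.castSucc) ∧
        v (Fin.last n) = ZFSet.pair T (p fun i => v i.castSucc)) D0T.last ?_
    refine D0.bexZ (s := fun v => v (Fin.last (n + 1))) (p := fun v T =>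
      T = ZFSet.pair (t fun i => v i.castSucc.castSucc) (r fun i => v i.castSucc.castSucc) ∧
        v (Fin.last n).castSucc = ZFSet.pair T (p fun i => v i.castSucc.castSucc)) D0T.last ?_
    exact (D0.isPair D0T.last ht.lift.lift.lift hr.lift.lift.lift).and
      (D0.isPair (D0T.var _) D0T.last hp.lift.lift.lift)
  have h2 : D0 (fun v => ∀ P ∈ s v, ∀ q ∈ P, ∀ T ∈ q, ∀ v' ∈ q,
      T = ZFSet.pair (t v) (r v) → P = ZFSet.pair T v' → v' = p v) := by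
    refine D0.ballZ (p := fun v P => ∀ q ∈ P, ∀ T ∈ q, ∀ v' ∈ q,
      T = ZFSet.pair (t v) (r v) → P = ZFSet.pair T v' → v' = p v) hs ?_
    refine D0.ballZ (s := fun v => v (Fin.last n)) (p := fun v q => ∀ T ∈ q, ∀ v' ∈ q,
      T = ZFSet.pair (t fun i => v i.castSucc) (r fun i => v i.castSucc) →
        v (Fin.last n) = ZFSet.pair T v' → v' = p fun i => v i.castSucc) D0T.last ?_
    refine D0.ballZ (s := fun v => v (Fin.last (n + 1))) (p := fun v T =>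
      ∀ v' ∈ v (Fin.last (n + 1)),
      T = ZFSet.pair (t fun i => v i.castSucc.castSucc) (r fun i => v i.castSucc.castSucc) →
        v (Fin.last n).castSucc = ZFSet.pair T v' → v' = p fun i => v i.castSucc.castSucc)
      D0T.last ?_
    refine D0.ballZ (s := fun v => v (Fin.last (n + 1)).castSucc) (p := fun v v' =>
      v (Fin.last (n + 2)) = ZFSet.pair (t fun i => v i.castSucc.castSucc.castSucc)
        (r fun i => v i.castSucc.castSucc.castSucc) →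
        v (Fin.last n).castSucc.castSucc = ZFSet.pair (v (Fin.last (n + 2))) v' →
          v' = p fun i => v i.castSucc.castSucc.castSucc)
      (D0T.var _) ?_
    exact (D0.isPair (D0T.var _) ht.lift.lift.lift.lift hr.lift.lift.lift.lift).imp
      ((D0.isPair (D0T.var _) (D0T.var _) D0T.last).imp (D0.eqv D0T.last hp.lift.lift.lift.lift))
  refine (h1.and h2).congr fun v => ?_
  refine and_congr ⟨?_, fun h => ?_⟩ ⟨fun h v' hv' => ?_, fun h P hP q _ T _ v' _ he he2 => ?_⟩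
  · rintro ⟨P, hP, q, _, T, _, rfl, rfl⟩
    exact hP
  · exact ⟨_, h, _, d0_mem_pair _ _, _, by simp, rfl, rfl⟩
  · exact h _ hv' _ (d0_mem_pair _ _) _ (by simp) v' (by simp) rfl rfl
  · subst he
    exact h v' (he2 ▸ hP)

theorem d0_psi : D0 (fun v : Fin 4 → ZFSet.{u} => Psi (v 0) (v 1) (v 2) (v 3)) := by
  have k0 : D0 (fun v : Fin 9 → ZFSet.{u} => App (v 7) (ZFSet.pair (v 6) (v 4)) (v 8) →
      ((∃ Z ∈ v 4, v 8 ∈ Z) → v 8 ∈ v 5) ∧ (v 8 ∈ v 0 ∨ ∀ y ∈ v 0, y ∈ v 2 → v 8 ∉ y)) := by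
    refine (d0_app2 (D0T.var _) (D0T.var _) (D0T.var _) (D0T.var _)).imp ?_
    refine ((D0.bexZ (s := fun v : Fin 9 → ZFSet.{u} => v 4) (p := fun v Z => v 8 ∈ Z)
      (D0T.var _) ?_).imp (D0.mem (D0T.var _) (D0T.var _))).and
      ((D0.mem (D0T.var _) (D0T.var _)).or
      (D0.ballZ (s := fun v : Fin 9 → ZFSet.{u} => v 0) (p := fun v y => y ∈ v 2 → v 8 ∉ y)
        (D0T.var _) ?_))
    · exact D0.mem (D0T.var _) D0T.last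
    · exact (D0.mem D0T.last (D0T.var _)).imp (D0.not (D0.mem (D0T.var _) D0T.last))
  have k1 : D0 (fun v : Fin 8 → ZFSet.{u} => ∀ x ∈ v 1, App (v 7) (ZFSet.pair (v 6) (v 4)) x →
      ((∃ Z ∈ v 4, x ∈ Z) → x ∈ v 5) ∧ (x ∈ v 0 ∨ ∀ y ∈ v 0, y ∈ v 2 → x ∉ y)) :=
    D0.ballZ (s := fun v : Fin 8 → ZFSet.{u} => v 1) (p := fun v x =>
      App (v 7) (ZFSet.pair (v 6) (v 4)) x →
      ((∃ Z ∈ v 4, x ∈ Z) → x ∈ v 5) ∧ (x ∈ v 0 ∨ ∀ y ∈ v 0, y ∈ v 2 → x ∉ y)) (D0T.var _) k0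
  have k2 : D0 (fun v : Fin 7 → ZFSet.{u} => ∀ g ∈ v 0, ∀ x ∈ v 1,
      App g (ZFSet.pair (v 6) (v 4)) x →
      ((∃ Z ∈ v 4, x ∈ Z) → x ∈ v 5) ∧ (x ∈ v 0 ∨ ∀ y ∈ v 0, y ∈ v 2 → x ∉ y)) :=
    D0.ballZ (s := fun v : Fin 7 → ZFSet.{u} => v 0) (p := fun v g => ∀ x ∈ v 1,
      App g (ZFSet.pair (v 6) (v 4)) x →
      ((∃ Z ∈ v 4, x ∈ Z) → x ∈ v 5) ∧ (x ∈ v 0 ∨ ∀ y ∈ v 0, y ∈ v 2 → x ∉ y)) (D0T.var _) k1
  have k3 : D0 (fun v : Fin 6 → ZFSet.{u} => ∀ w0 ∈ v 5, ∀ g ∈ v 0, ∀ x ∈ v 1,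
      App g (ZFSet.pair w0 (v 4)) x →
      ((∃ Z ∈ v 4, x ∈ Z) → x ∈ v 5) ∧ (x ∈ v 0 ∨ ∀ y ∈ v 0, y ∈ v 2 → x ∉ y)) :=
    D0.ballZ (s := fun v : Fin 6 → ZFSet.{u} => v 5) (p := fun v w0 => ∀ g ∈ v 0, ∀ x ∈ v 1,
      App g (ZFSet.pair w0 (v 4)) x →
      ((∃ Z ∈ v 4, x ∈ Z) → x ∈ v 5) ∧ (x ∈ v 0 ∨ ∀ y ∈ v 0, y ∈ v 2 → x ∉ y)) (D0T.var _) k2
  have k4 : D0 (fun v : Fin 5 → ZFSet.{u} => ∃ w ∈ v 4, ∀ w0 ∈ w, ∀ g ∈ v 0, ∀ x ∈ v 1,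
      App g (ZFSet.pair w0 (v 4)) x →
      ((∃ Z ∈ v 4, x ∈ Z) → x ∈ w) ∧ (x ∈ v 0 ∨ ∀ y ∈ v 0, y ∈ v 2 → x ∉ y)) :=
    D0.bexZ (s := fun v : Fin 5 → ZFSet.{u} => v 4) (p := fun v w => ∀ w0 ∈ w, ∀ g ∈ v 0,
      ∀ x ∈ v 1, App g (ZFSet.pair w0 (v 4)) x →
      ((∃ Z ∈ v 4, x ∈ Z) → x ∈ w) ∧ (x ∈ v 0 ∨ ∀ y ∈ v 0, y ∈ v 2 → x ∉ y)) (D0T.var _) k3
  have k5 : D0 (fun v : Fin 4 → ZFSet.{u} => ∃ d ∈ v 3, ∃ w ∈ d, ∀ w0 ∈ w, ∀ g ∈ v 0,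
      ∀ x ∈ v 1, App g (ZFSet.pair w0 d) x →
      ((∃ Z ∈ d, x ∈ Z) → x ∈ w) ∧ (x ∈ v 0 ∨ ∀ y ∈ v 0, y ∈ v 2 → x ∉ y)) :=
    D0.bexZ (s := fun v : Fin 4 → ZFSet.{u} => v 3) (p := fun v d => ∃ w ∈ d, ∀ w0 ∈ w,
      ∀ g ∈ v 0, ∀ x ∈ v 1, App g (ZFSet.pair w0 d) x →
      ((∃ Z ∈ d, x ∈ Z) → x ∈ w) ∧ (x ∈ v 0 ∨ ∀ y ∈ v 0, y ∈ v 2 → x ∉ y)) (D0T.var _) k4
  refine k5.congr fun v => ?_
  simp only [Psi, ZFSet.mem_sUnion]

end Pool.Agent.H82.OC
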