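import Pool.Agent.H82.OC.AEl

/-!
# OC-C5: realisations exist

`Il z` is a strict well-order on `ℕ × Ordinal` (lexicographic product of `Lo z` and `<`; `il_wf`, `il_trans`, `il_trichot`).
`exists_Rlz`.  Choose `h q` for `q ∈ J` by well-founded recursion along `Il C.z` (for `q ∉ J` anything): `h q = μ` such that `μ < κ q.1` and for all
`χ, ms`, all finite lists `s1` of elements of `J` below `q`, and all lists `js` of types:
  `AEl (q.1 :: js) (fun l => Pc V χ ms (s1.map h ++ l)) → AEl js (fun l => Pc V χ ms (s1.map h ++ μ :: l))`.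
For fixed `χ, ms, s1, js` the set of such `μ` is in `𝒰 q.1` (if the premise holds, by definition of `AEl`; otherwise it is everything); there are countably many
`(χ, ms, s1, js)` (`Fml` is countable by `Fml.code_injective`; `J` is countable), and `NormalUF.countable_inter` (`hC.om`).
(Technically: `WellFounded.fix` with the restriction of `h` to `{q' | Il q' q}`, or prove by induction the existence of partial functions.)
`Rlz.ae`: let `s` be sorted in `J`, `AEl (s.map fst) (Pc V χ ms)`.  By induction on the length of `s1` for `s = s1 ++ s2`: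
`AEl (s2.map fst) (fun l => Pc V χ ms (s1.map h ++ l))`; for `s2 = []` this is the claim.
`Rlz.iff`: if not `AEl P` then `AEl ¬P` (`AEl.em`), and `¬ Pc V χ ms l = Pc V χ.not ms l` (`Fml.not χ = .imp χ .bot`), so `¬ P (s.map h)`.
-/

set_option autoImplicit false
set_option linter.unusedVariables false
set_option linter.unusedSectionVars false
set_option linter.unusedSimpArgs false
set_option linter.deprecated false

universe u v w

open scoped ZFSet Ordinal

namespace Pool.Agent.H82.OC

open Pool.Agent.H17.Omega Pool.Agent.H17.Omega.T8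

section

variable {z : ℕ → ℕ} (hz : WOr z)

include hz

theorem il_wf : WellFounded (Il.{u} z) := by
  have : IsWellOrder ℕ (Lo z) := hz
  have h := WellFounded.prod_lex (IsWellFounded.wf (r := Lo z))
    (wellFounded_lt (α := Ordinal.{u}))
  refine Subrelation.wf (r := Prod.Lex (Lo z) (· < ·)) ?_ h
  intro p q hpq
  rw [Prod.lex_def]
  exact hpq

theorem il_trans {p q r : ℕ × Ordinal.{u}} (h : Il z p q) (h' : Il z q r) : Il z p r := by
  have : IsWellOrder ℕ (Lo z) := hz
  rcases h with h | ⟨h1, h2⟩ <;> rcases h' with h' | ⟨h3, h4⟩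
  · exact Or.inl (trans_of (Lo z) h h')
  · exact Or.inl (h3 ▸ h)
  · exact Or.inl (h1 ▸ h')
  · exact Or.inr ⟨h1.trans h3, h2.trans h4⟩

theorem il_irrefl (p : ℕ × Ordinal.{u}) : ¬ Il z p p := by
  have : IsWellOrder ℕ (Lo z) := hz
  rintro (h | ⟨_, h⟩)
  · exact irrefl_of (Lo z) _ h
  · exact lt_irrefl _ h

theorem il_trichot (p q : ℕ × Ordinal.{u}) : Il z p q ∨ p = q ∨ Il z q p := by
  have : IsWellOrder ℕ (Lo z) := hz
  rcases trichotomous_of (Lo z) p.1 q.1 with h | h | h
  · exact Or.inl (Or.inl h)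
  · rcases lt_trichotomy p.2 q.2 with h' | h' | h'
    · exact Or.inl (Or.inr ⟨h, h'⟩)
    · exact Or.inr (Or.inl (Prod.ext h h'))
    · exact Or.inr (Or.inr (Or.inr ⟨h.symm, h'⟩))
  · exact Or.inr (Or.inr (Or.inl h))

/-- Every finite set has a sorted enumeration. -/
theorem exists_sorted {S : Set (ℕ × Ordinal.{u})} (hS : S.Finite) :
    ∃ s : List (ℕ × Ordinal.{u}), s.Pairwise (Il z) ∧ ∀ q, q ∈ s ↔ q ∈ S := by
  classical
  refine Set.Finite.induction_on (motive := fun S _ => ∃ s : List (ℕ × Ordinal.{u}),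
    s.Pairwise (Il z) ∧ ∀ q, q ∈ s ↔ q ∈ S) S hS ⟨[], List.Pairwise.nil, by simp⟩ ?_
  rintro a S ha _ ⟨s, hs, hsS⟩
  refine ⟨s.filter (fun p => Il z p a) ++ a :: s.filter (fun p => Il z a p), ?_, ?_⟩
  · rw [List.pairwise_append]
    refine ⟨hs.filter _, ?_, ?_⟩
    · rw [List.pairwise_cons]
      refine ⟨fun b hb => ?_, hs.filter _⟩
      simpa using (List.mem_filter.1 hb).2
    · intro b hb c hc
      have hb' : Il z b a := by simpa using (List.mem_filter.1 hb).2
      rcases List.mem_cons.1 hc with rfl | hc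
      · exact hb'
      · exact il_trans hz hb' (by simpa using (List.mem_filter.1 hc).2)
  · intro q
    rw [List.mem_append, List.mem_cons, List.mem_filter, List.mem_filter, Set.mem_insert_iff]
    simp only [decide_eq_true_eq]
    constructor
    · rintro (⟨h, _⟩ | h | ⟨h, _⟩)
      · exact Or.inr ((hsS q).1 h)
      · exact Or.inl h
      · exact Or.inr ((hsS q).1 h)
    · rintro (h | h)
      · exact Or.inr (Or.inl h)
      · rcases il_trichot hz q a with h' | h' | h'
        · exact Or.inl ⟨(hsS q).2 h, h'⟩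
        · exact Or.inr (Or.inl h')
        · exact Or.inr (Or.inr ⟨(hsS q).2 h, h'⟩)

/-- Sorted enumerations are unique. -/
theorem sorted_unique {s s' : List (ℕ × Ordinal.{u})} (hs : s.Pairwise (Il z))
    (hs' : s'.Pairwise (Il z)) (h : ∀ q, q ∈ s ↔ q ∈ s') : s = s' := by
  induction s generalizing s' with
  | nil =>
    cases s' with
    | nil => rfl
    | cons b t => exact absurd ((h b).2 List.mem_cons_self) (by simp)
  | cons a t ih =>
    cases s' with
    | nil => exact absurd ((h a).1 List.mem_cons_self) (by simp)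
    | cons b t' =>
      rw [List.pairwise_cons] at hs hs'
      have hab : a = b := by
        by_contra hne
        have h1 : a ∈ t' := by
          rcases List.mem_cons.1 ((h a).1 List.mem_cons_self) with e | e
          · exact absurd e hne
          · exact e
        have h2 : b ∈ t := by
          rcases List.mem_cons.1 ((h b).2 List.mem_cons_self) with e | e
          · exact absurd e.symm hne
          · exact e
        exact il_irrefl hz a (il_trans hz (hs.1 b h2) (hs'.1 a h1))
      subst hab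
      have : t = t' := by
        refine ih hs.2 hs'.2 fun q => ?_
        constructor
        · intro hq
          rcases List.mem_cons.1 ((h q).1 (List.mem_cons_of_mem _ hq)) with e | e
          · subst e
            exact absurd (hs.1 q hq) (il_irrefl hz q)
          · exact e
        · intro hq
          rcases List.mem_cons.1 ((h q).2 (List.mem_cons_of_mem _ hq)) with e | e
          · subst e
            exact absurd (hs'.1 q hq) (il_irrefl hz q)
          · exact e
      rw [this]

end

/-- The requirement on the value `μ` of the realisation at `q`, given the values `G` below `q`. -/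
def rlzGood (C : Ctx.{u}) (V : ℕ → List (ℕ × Ordinal.{u}) → C.M) (J : Set (ℕ × Ordinal.{u}))
    (q : ℕ × Ordinal.{u}) (G : ℕ × Ordinal.{u} → Ordinal.{u}) (μ : Ordinal.{u}) : Prop :=
  μ < C.κ q.1 ∧ ∀ (χ : Fml) (ms : List (ℕ × List (ℕ × ℕ))) (s1 : List (ℕ × Ordinal.{u}))
    (js : List ℕ), (∀ p ∈ s1, p ∈ J ∧ Il C.z p q) →
      AEl C.𝒰 (q.1 :: js) (fun l => Pc V χ ms (s1.map G ++ l)) →
      AEl C.𝒰 js (fun l => Pc V χ ms (s1.map G ++ μ :: l))

theorem rlzGood_exists {φ : Fml} {C : Ctx.{u}} (hC : C.Good φ)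
    (V : ℕ → List (ℕ × Ordinal.{u}) → C.M) {J : Set (ℕ × Ordinal.{u})} (hJ : J.Countable)
    (q : ℕ × Ordinal.{u}) (G : ℕ × Ordinal.{u} → Ordinal.{u}) : ∃ μ, rlzGood C V J q G μ := by
  classical
  have : Countable Fml := Fml.code_injective.countable
  have : Countable J := hJ.to_subtype
  have : Nonempty (Fml × List (ℕ × List (ℕ × ℕ)) × List J × List ℕ) := ⟨(Fml.bot, [], [], [])⟩
  obtain ⟨e, he⟩ := exists_surjective_nat (Fml × List (ℕ × List (ℕ × ℕ)) × List J × List ℕ)
  let A : ℕ → Set Ordinal.{u} := fun n => {μ |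
    AEl C.𝒰 (q.1 :: (e n).2.2.2)
        (fun l => Pc V (e n).1 (e n).2.1 (((e n).2.2.1.map Subtype.val).map G ++ l)) →
      AEl C.𝒰 (e n).2.2.2
        (fun l => Pc V (e n).1 (e n).2.1 (((e n).2.2.1.map Subtype.val).map G ++ μ :: l))}
  have hA : ∀ n, ∀ᶠ ξ in (C.𝒰 q.1 : Filter Ordinal.{u}), ξ ∈ A n := by
    intro n
    by_cases hp : AEl C.𝒰 (q.1 :: (e n).2.2.2)
        (fun l => Pc V (e n).1 (e n).2.1 (((e n).2.2.1.map Subtype.val).map G ++ l))
    · have hp' : ∀ᶠ μ in (C.𝒰 q.1 : Filter Ordinal.{u}), AEl C.𝒰 (e n).2.2.2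
        (fun l => Pc V (e n).1 (e n).2.1 (((e n).2.2.1.map Subtype.val).map G ++ μ :: l)) := hp
      exact hp'.mono fun μ hμ _ => hμ
    · exact Filter.Eventually.of_forall fun μ h => absurd h hp
  have h1 := (hC.meas q.1).countable_inter (hC.om q.1) hA
  obtain ⟨μ, h2, h3⟩ := (h1.and (hC.meas q.1).lt).exists
  refine ⟨μ, h3, ?_⟩
  intro χ ms s1 js hs1 hp
  let s1' : List J := s1.attach.map fun p => ⟨p.1, (hs1 p.1 p.2).1⟩
  have hs1' : s1'.map Subtype.val = s1 := by
    simp only [s1', List.map_map]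
    have : (Subtype.val ∘ fun p : {x // x ∈ s1} => (⟨p.1, (hs1 p.1 p.2).1⟩ : J)) =
        Subtype.val := by
      funext p
      rfl
    rw [this]
    exact List.attach_map_subtype_val s1
  obtain ⟨n, hn⟩ := he (χ, ms, s1', js)
  have := h2 n
  simp only [A, Set.mem_setOf_eq, hn, hs1'] at this
  exact this hp

open Classical in
/-- The recursion step. -/
noncomputable def rlzStep (C : Ctx.{u}) (V : ℕ → List (ℕ × Ordinal.{u}) → C.M)
    (J : Set (ℕ × Ordinal.{u})) (q : ℕ × Ordinal.{u})
    (g : (q' : ℕ × Ordinal.{u}) → Il C.z q' q → Ordinal.{u}) : Ordinal.{u} :=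
  if h : ∃ μ, rlzGood C V J q (fun q' => if hq : Il C.z q' q then g q' hq else 0) μ then
    h.choose else 0

theorem exists_Rlz {φ : Fml} {C : Ctx.{u}} (hC : C.Good φ) (V : ℕ → List (ℕ × Ordinal.{u}) → C.M)
    {J : Set (ℕ × Ordinal.{u})} (hJ : J.Countable) : ∃ h, Rlz C V J h := by
  classical
  have wf := il_wf.{u} hC.wo
  let h : ℕ × Ordinal.{u} → Ordinal.{u} := wf.fix (rlzStep C V J)
  have heq : ∀ q, h q = rlzStep C V J q (fun q' _ => h q') := fun q => wf.fix_eq _ q
  have hgood : ∀ q, rlzGood C V J q h (h q) := by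
    intro q
    have hex := rlzGood_exists hC V hJ q
      (fun q' => if hq : Il C.z q' q then h q' else 0)
    have h1 : rlzGood C V J q (fun q' => if hq : Il C.z q' q then h q' else 0) (h q) := by
      rw [heq q]
      unfold rlzStep
      rw [dif_pos hex]
      exact hex.choose_spec
    refine ⟨h1.1, fun χ ms s1 js hs1 hp => ?_⟩
    have hmap : s1.map (fun q' => if hq : Il C.z q' q then h q' else 0) = s1.map h := by
      refine List.map_congr_left fun p hp => ?_
      simp only [(hs1 p hp).2, dite_true]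
    have h2 := h1.2 χ ms s1 js hs1
    rw [hmap] at h2
    exact h2 hp
  refine ⟨h, fun q _ => (hgood q).1, ?_⟩
  intro s hs hsJ χ ms hAE
  have key : ∀ (s2 s1 : List (ℕ × Ordinal.{u})), s = s1 ++ s2 →
      AEl C.𝒰 (s2.map Prod.fst) (fun l => Pc V χ ms (s1.map h ++ l)) →
      Pc V χ ms (s.map h) := by
    intro s2
    induction s2 with
    | nil =>
      intro s1 he hA
      have hA' : Pc V χ ms (s1.map h ++ []) := hA
      rw [List.append_nil] at hA' he
      rw [he]
      exact hA'
    | cons q s2 ih =>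
      intro s1 he hA
      refine ih (s1 ++ [q]) (by rw [he]; simp) ?_
      have hq := (hgood q).2 χ ms s1 (s2.map Prod.fst) (fun p hp => ⟨hsJ p (by
          rw [he]; exact List.mem_append_left _ hp), by
          rw [he, List.pairwise_append] at hs
          exact hs.2.2 p hp q List.mem_cons_self⟩) hA
      refine AEl.mono (fun l hl => ?_) hq
      rw [List.map_append, List.append_assoc]
      exact hl
  exact key s [] rfl hAE

theorem Rlz.iff {C : Ctx.{u}} {V : ℕ → List (ℕ × Ordinal.{u}) → C.M} {J : Set (ℕ × Ordinal.{u})}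
    {h : ℕ × Ordinal.{u} → Ordinal.{u}} (H : Rlz C V J h) {s : List (ℕ × Ordinal.{u})}
    (hs : s.Pairwise (Il C.z)) (hsJ : ∀ q ∈ s, q ∈ J) (χ : Fml)
    (ms : List (ℕ × List (ℕ × ℕ))) :
    AEl C.𝒰 (s.map Prod.fst) (Pc V χ ms) ↔ Pc V χ ms (s.map h) := by
  refine ⟨H.ae s hs hsJ χ ms, fun hP => ?_⟩
  rcases AEl.em C.𝒰 (s.map Prod.fst) (Pc V χ ms) with h1 | h1
  · exact h1
  · have h2 : AEl C.𝒰 (s.map Prod.fst) (Pc V χ.not ms) := AEl.mono (fun l hl => by
      intro hc
      exact hl hc) h1
    exact absurd hP (fun hP' => H.ae s hs hsJ χ.not ms h2 hP')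

end Pool.Agent.H82.OC
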