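import Pool.Agent.H82.OC.SelfStep
import Pool.Agent.H82.OC.Chain

/-!
# OC-A9: self-generic hulls

Proof.  Let `Ω` be as in `exists_stepOps`; `Φ' (2n) = Ω n`, `Φ' (2n+1) = Φ n`.  By the lifting lemma
(`IsCond.lift`, operations `cura Φ'`, `P0 ∪ {V_ α}`) there is a countable `Y0 ⊇ P0`, `V_ α ∈ Y0`, `Clo (cura Φ') Y0`,
`trc Y0 S ∈ S`.  States: `St = {s : Set V × Ordinal // s.1.Countable ∧ Clo (cura Φ') s.1 ∧ s.2 < δ ∧ V_ s.2 ∈ s.1}`;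
`R s s'`: `s.1 ⊆ s'.1 ∧ s.2 ≤ s'.2 ∧ ∀ x ∈ V_ s.2, x ∈ s'.1 → x ∈ s.1` (reflexive, transitive);
`G s D`: `Predense δ D → ∃ d ∈ D, d ∈ s.1 ∧ d ∈ V_ s.2 ∧ trc s.1 d ∈ d`.
Step: `exists_stepOps` if `D` is predense, otherwise `s' = s`.  `exists_chain` from `s0 = (Y0, α)` gives `s n`;
`Y = ⋃ n, (s n).1`.  `Y ∩ V_ (s n).2 = (s n).1 ∩ V_ (s n).2`.  `Clo Φ Y` (`Φ n = cura Φ' (Nat.pair 0 (2n+1))`; the union is
increasing).  `trc Y S = trc Y0 S` because `⋃₀ S = V_ α`.  If `D ∈ Y` is predense, some `G (s (m+1)) D` gives `d`, and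
`trc Y d = trc (s (m+1)).1 d` because `⋃₀ d ⊆ V_ (s (m+1)).2` (`d ∈ V_ β`, `V_ β` transitive).
-/

set_option autoImplicit false
set_option linter.unusedVariables false
set_option linter.unusedSectionVars false
set_option linter.unusedSimpArgs false
set_option linter.deprecated false

universe u v w

open scoped ZFSet

namespace Pool.Agent.H82.OC

open Pool.Agent.H17.Omega

/-- Self-generic hulls. -/
theorem exists_selfgeneric {δ : Ordinal.{u}} (hδ : IsWoodin δ) {S : ZFSet.{u}} {α : Ordinal.{u}}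
    (hα : α < δ) (hS : IsCond S α) (Φ : ℕ → ZFSet.{u} → ZFSet.{u}) {P0 : Set ZFSet.{u}}
    (hP0 : P0.Countable) : ∃ Y : Set ZFSet.{u}, Y.Countable ∧ P0 ⊆ Y ∧ Clo Φ Y ∧ trc Y S ∈ S ∧
      ∀ D ∈ Y, Predense δ D → ∃ d ∈ D, d ∈ Y ∧ trc Y d ∈ d := by
  obtain ⟨Om, hOm⟩ := exists_stepOps hδ
  obtain ⟨Φ', hΦ'⟩ : ∃ Φ' : ℕ → ZFSet.{u} → ZFSet.{u},
      Φ' = fun m => if m % 2 = 0 then Om (m / 2) else Φ (m / 2) := ⟨_, rfl⟩
  have he : ∀ n, Φ' (2 * n) = Om n := by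
    intro n
    rw [hΦ']
    have h1 : (2 * n) % 2 = 0 := by omega
    have h2 : (2 * n) / 2 = n := by omega
    simp only [h1, h2, if_true]
  have ho : ∀ n, Φ' (2 * n + 1) = Φ n := by
    intro n
    rw [hΦ']
    have h1 : (2 * n + 1) % 2 = 1 := by omega
    have h2 : (2 * n + 1) / 2 = n := by omega
    simp only [h1, h2]
    rw [if_neg (by norm_num)]
  have hstep := hOm Φ' he
  obtain ⟨Y0, hY0c, hPY0, hY0clo, hY0tr⟩ := hS.lift (cura Φ') (P0 := P0 ∪ {V_ α})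
    (hP0.union (Set.countable_singleton _))
  let St := {s : Set ZFSet.{u} × Ordinal.{u} // s.1.Countable ∧ Clo (cura Φ') s.1 ∧ s.2 < δ ∧
    V_ s.2 ∈ s.1}
  let R : St → St → Prop := fun s s' => s.1.1 ⊆ s'.1.1 ∧ s.1.2 ≤ s'.1.2 ∧
    ∀ x ∈ V_ s.1.2, x ∈ s'.1.1 → x ∈ s.1.1
  let G : St → ZFSet.{u} → Prop := fun s D => Predense δ D →
    ∃ d ∈ D, d ∈ s.1.1 ∧ d ∈ V_ s.1.2 ∧ trc s.1.1 d ∈ d
  have hrefl : ∀ s : St, R s s := fun s => ⟨fun _ h => h, le_rfl, fun _ _ h => h⟩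
  have htrans : ∀ a b c : St, R a b → R b c → R a c := by
    intro a b c hab hbc
    refine ⟨fun x hx => hbc.1 (hab.1 hx), hab.2.1.trans hbc.2.1, fun x hx hxc => ?_⟩
    exact hab.2.2 x hx (hbc.2.2 x (ZFSet.vonNeumann_subset_of_le hab.2.1 hx) hxc)
  have hst : ∀ s : St, ∀ D ∈ s.1.1, ∃ s' : St, R s s' ∧ G s' D := by
    intro s D hD
    by_cases hp : Predense δ D
    · obtain ⟨Y', β', h1, h2, h3, h4, h5, h6, h7, d, hd⟩ :=
        hstep s.1.1 s.2.1 s.2.2.1 s.1.2 s.2.2.2.1 s.2.2.2.2 D hD hp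
      exact ⟨⟨(Y', β'), h1, h2, h3, h4⟩, ⟨h5, h6, h7⟩, fun _ => ⟨d, hd⟩⟩
    · exact ⟨s, hrefl s, fun h => absurd h hp⟩
  let s0 : St := ⟨(Y0, α), hY0c, hY0clo, hα, hPY0 (Or.inr rfl)⟩
  obtain ⟨s, hs0, hsR, hsG⟩ := exists_chain (St := St) (fun s => s.1.1) (fun s => s.2.1) R hrefl
    htrans (fun s s' h => h.1) G hst s0
  have hkey : ∀ n x, x ∈ V_ (s n).1.2 → x ∈ (⋃ k, (s k).1.1) → x ∈ (s n).1.1 := by
    intro n x hx hxY
    obtain ⟨k, hk⟩ := Set.mem_iUnion.1 hxY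
    rcases le_total k n with h | h
    · exact (hsR k n h).1 hk
    · exact (hsR n k h).2.2 x hx hk
  have htrc : ∀ n (a : ZFSet.{u}), (∀ x ∈ (⋃₀ a : ZFSet.{u}), x ∈ V_ (s n).1.2) →
      trc (⋃ k, (s k).1.1) a = trc (s n).1.1 a := by
    intro n a ha
    ext x
    rw [mem_trc, mem_trc]
    exact ⟨fun h => ⟨h.1, hkey n x (ha x h.1) h.2⟩, fun h => ⟨h.1, Set.mem_iUnion.2 ⟨n, h.2⟩⟩⟩
  refine ⟨⋃ k, (s k).1.1, Set.countable_iUnion fun k => (s k).2.1, ?_, ?_, ?_, ?_⟩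
  · intro x hx
    refine Set.mem_iUnion.2 ⟨0, ?_⟩
    rw [hs0]
    exact hPY0 (Or.inl hx)
  · refine ⟨Set.mem_iUnion.2 ⟨0, (s 0).2.2.1.emp⟩, ?_, ?_⟩
    · intro x hx y hy
      obtain ⟨a, ha⟩ := Set.mem_iUnion.1 hx
      obtain ⟨b, hb⟩ := Set.mem_iUnion.1 hy
      refine Set.mem_iUnion.2 ⟨max a b, ?_⟩
      exact (s (max a b)).2.2.1.pair _ ((hsR a _ (le_max_left a b)).1 ha) _
        ((hsR b _ (le_max_right a b)).1 hb)
    · intro n x hx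
      obtain ⟨a, ha⟩ := Set.mem_iUnion.1 hx
      refine Set.mem_iUnion.2 ⟨a, ?_⟩
      have h := (s a).2.2.1.op (Nat.pair 0 (2 * n + 1)) x ha
      have e : cura Φ' (Nat.pair 0 (2 * n + 1)) = Φ n := by
        rw [cura, Nat.unpair_pair]
        show Φ' (2 * n + 1) = Φ n
        exact ho n
      rw [e] at h
      exact h
  · have h0 : (s 0).1.2 = α := by rw [hs0]
    have h1 : (s 0).1.1 = Y0 := by rw [hs0]
    rw [htrc 0 S (fun x hx => by rw [h0, ← hS.sUnion_eq]; exact hx), h1]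
    exact hY0tr
  · intro D hD hp
    obtain ⟨n, hn⟩ := Set.mem_iUnion.1 hD
    obtain ⟨m, hm, hG⟩ := hsG n D hn
    obtain ⟨d, hdD, hd1, hd2, hd3⟩ := hG hp
    refine ⟨d, hdD, Set.mem_iUnion.2 ⟨_, hd1⟩, ?_⟩
    rw [htrc (m + 1) d]
    · exact hd3
    · intro x hx
      rw [ZFSet.mem_sUnion] at hx
      obtain ⟨z, hz, hxz⟩ := hx
      have ht := ZFSet.isTransitive_vonNeumann (s (m + 1)).1.2
      exact ht.mem_trans hxz (ht.mem_trans hz hd2)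

end Pool.Agent.H82.OC
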