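import Pool.Agent.H82.OC.Emb
import Pool.Agent.H82.OC.Strong
import Pool.Agent.H82.OC.PsiD0
import Pool.Agent.H82.OC.Lift

/-!
# OC-A6: the semiproperness lemma

Proof.  `D ⊆ V_ δ` (a condition of level `α` is in `V_ (α+1+1)`, `IsCond.mem_vonNeumann`, and `δ` is a limit).  Take `κ`
from `exists_strong`.  `κ + ω` is a limit ordinal.  Suppose there is no such `F`.  Then

  `S = sep (fun X => IsX (κ+ω) X ∧ ¬ Psi X (V_ κ) (Lev κ) (D ∩ V_ κ)) (powerset (V_ (κ+ω)))`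

is a condition of level `κ + ω < δ` (`IsWoodin.add_omega_lt`).  By `hD.pre` there are `d ∈ D` and a common extension
`c` of `S` and `d` (level `γ`).  Take `M, j` for `d` from `exists_strong`.

Lifting lemma (`IsCond.lift`) for `c` with the operations `Φ 0 = j`, `Φ (n+1) z = app (fs z) (sn z)` and
`P0 = {d}`: a countable class `Z` containing `d`, closed under pairing, `j`, `app`, with `trc Z c ∈ c`.  By `CLe.trc_mem`,
`X := trc Z S ∈ S` and `w := trc Z d ∈ d`.  `⋃₀ S = V_ (κ+ω)` (`IsCond.sUnion_eq`), so `x ∈ X ↔ x ∈ V_ (κ+ω) ∧ x ∈ Z`.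

`X ∈ S` gives `¬ Psi X (V_ κ) (Lev κ) (D ∩ V_ κ)`, hence by `ElemEmb.d0` and `d0_psi`
`¬ Psi (j X) (j (V_ κ)) (j (Lev κ)) (j (D ∩ V_ κ))`.  We show the contrary.  `d ∈ j (D ∩ V_ κ)`, `w ∈ d`.
Let `w0 ∈ w`, `g ∈ j X`, `v ∈ j (V_ κ)`, `App g (pair w0 d) v`.  `X` is countable, so `g = j g0`, `g0 ∈ X`
(`ElemEmb.countable_image`).  `g = j g0 ∈ Z`, `w0 ∈ Z`, `d ∈ Z`, so `v = app g (pair w0 d) ∈ Z` (`app_eq`).
(1) `v ∈ ⋃₀ d → v ∈ w`: `mem_trc`.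
(2) if `v ∈ V_ κ`: `v ∈ X` (`V_ κ ⊆ V_ (κ+ω)`) and `v = j v ∈ j X` (`ElemEmb.fix`, `mem_iff`).  If `v ∉ V_ κ`: let `y ∈ j X`,
    `y ∈ j (Lev κ)`; `y = j y0` with `y0 ∈ X` (`countable_image`), `y0 ∈ Lev κ` (`mem_iff`), so `y0 = V_ ν`, `ν < κ` (`mem_Lev`),
    `y0 ∈ V_ κ`, `y = j y0 = y0 = V_ ν`; `v ∈ V_ ν` would imply `v ∈ V_ κ`.
-/

set_option autoImplicit false
set_option linter.unusedVariables false
set_option linter.unusedSectionVars false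
set_option linter.unusedSimpArgs false
set_option linter.deprecated false

universe u v w

open scoped ZFSet

namespace Pool.Agent.H82.OC

open Pool.Agent.H17.Omega

/-- The semiproperness lemma. -/
theorem semiproper {δ : Ordinal.{u}} (hδ : IsWoodin δ) {D : ZFSet.{u}} (hD : Predense δ D)
    {β : Ordinal.{u}} (hβ : β < δ) : ∃ κ, β < κ ∧ κ < δ ∧ Order.IsSuccLimit κ ∧
      ∃ F : ZFSet.{u} → ZFSet.{u}, ∀ X : ZFSet.{u}, IsX (κ + Ordinal.omega0) X →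
        ClF (κ + Ordinal.omega0) F X → Psi X (V_ κ) (Lev κ) (D ∩ V_ κ) := by
  classical
  have hDV : D ⊆ V_ δ := by
    intro d hd
    obtain ⟨α, hα, hc⟩ := hD.cond d hd
    refine ZFSet.vonNeumann_subset_of_le ?_ hc.mem_vonNeumann
    have h1 := hδ.isSuccLimit.succ_lt hα
    have h2 := hδ.isSuccLimit.succ_lt h1
    rw [Order.succ_eq_add_one, Order.succ_eq_add_one] at h2
    exact h2.le
  obtain ⟨κ, hβκ, hκδ, hκl, hstr⟩ := exists_strong hδ hDV hβ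
  refine ⟨κ, hβκ, hκδ, hκl, ?_⟩
  by_contra hcon
  push Not at hcon
  have hlam : Order.IsSuccLimit (κ + Ordinal.omega0) :=
    Ordinal.isSuccLimit_add κ Ordinal.isSuccLimit_omega0
  have hκle : κ ≤ κ + Ordinal.omega0 := le_self_add
  set S : ZFSet.{u} := ZFSet.sep (fun X => IsX (κ + Ordinal.omega0) X ∧
    ¬ Psi X (V_ κ) (Lev κ) (D ∩ V_ κ)) (ZFSet.powerset (V_ (κ + Ordinal.omega0))) with hSdef
  have hSm : ∀ X, X ∈ S ↔ IsX (κ + Ordinal.omega0) X ∧ ¬ Psi X (V_ κ) (Lev κ) (D ∩ V_ κ) := by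
    intro X
    rw [hSdef, ZFSet.mem_sep, ZFSet.mem_powerset]
    exact ⟨fun h => h.2, fun h => ⟨h.1.sub, h⟩⟩
  have hS : IsCond S (κ + Ordinal.omega0) := by
    refine ⟨hlam, fun X hX => ((hSm X).1 hX).1.sub, fun X hX => ((hSm X).1 hX).1.cnt,
      fun X hX => ((hSm X).1 hX).1.emp, fun X hX => ((hSm X).1 hX).1.pair, fun F => ?_⟩
    obtain ⟨X, h1, h2, h3⟩ := hcon F
    exact ⟨X, (hSm X).2 ⟨h1, h3⟩, h2⟩
  obtain ⟨d, hd, c, γ, hc, hcS, hcd⟩ := hD.pre S _ (hδ.add_omega_lt hκδ) hS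
  obtain ⟨M, j, hj, hjκ, hjκ', hdj⟩ := hstr d hd
  let Φ : ℕ → ZFSet.{u} → ZFSet.{u} := fun n z => if n = 0 then j z else app (fs z) (sn z)
  obtain ⟨Z, hZc, hdZ, hcl, hZ⟩ := hc.lift Φ (P0 := {d}) (Set.countable_singleton d)
  have hdZ' : d ∈ Z := hdZ rfl
  have hjZ : ∀ z ∈ Z, j z ∈ Z := fun z hz => by simpa [Φ] using hcl.op 0 z hz
  have happZ : ∀ g ∈ Z, ∀ x ∈ Z, app g x ∈ Z := fun g hg x hx => by
    simpa [Φ] using hcl.op 1 _ (hcl.pair g hg x hx)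
  have hXS : trc Z S ∈ S := hcS.trc_mem hZ
  have hwd : trc Z d ∈ d := hcd.trc_mem hZ
  set X : ZFSet.{u} := trc Z S with hXdef
  obtain ⟨hXX, hnP⟩ := (hSm X).1 hXS
  have hXZ : ∀ x ∈ X, x ∈ Z := fun x hx => (mem_trc.1 hx).2
  have hXm : ∀ x, x ∈ X ↔ x ∈ V_ (κ + Ordinal.omega0) ∧ x ∈ Z := by
    intro x
    rw [hXdef, mem_trc, hS.sUnion_eq]
  have hd0 := hj.d0 d0_psi ![X, V_ κ, Lev κ, D ∩ V_ κ]
  have hd1 : Psi X (V_ κ) (Lev κ) (D ∩ V_ κ) ↔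
      Psi (j X) (j (V_ κ)) (j (Lev κ)) (j (D ∩ V_ κ)) := by simpa using hd0
  apply hnP
  rw [hd1]
  refine ⟨d, hdj, trc Z d, hwd, ?_⟩
  intro w0 hw0 g hg v hv happ
  obtain ⟨g0, hg0, rfl⟩ := hj.countable_image hXX.cnt hg
  have hw0Z : w0 ∈ Z := (mem_trc.1 hw0).2
  have hvZ : v ∈ Z := by
    have h1 := happZ _ (hjZ g0 (hXZ g0 hg0)) _ (hcl.pair w0 hw0Z d hdZ')
    rwa [app_eq happ] at h1
  refine ⟨fun h => mem_trc.2 ⟨h, hvZ⟩, ?_⟩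
  by_cases hvκ : v ∈ V_ κ
  · left
    have h1 : v ∈ X := (hXm v).2 ⟨ZFSet.vonNeumann_subset_of_le hκle hvκ, hvZ⟩
    have h2 := (hj.mem_iff (x := v) (y := X)).2 h1
    rwa [hj.fix hjκ hvκ] at h2
  · right
    intro y hy hyL hvy
    obtain ⟨y0, hy0, rfl⟩ := hj.countable_image hXX.cnt hy
    have hy0L : y0 ∈ Lev κ := hj.mem_iff.1 hyL
    obtain ⟨ν, hν, rfl⟩ := mem_Lev.1 hy0L
    rw [hj.fix hjκ (ZFSet.vonNeumann_mem_of_lt hν)] at hvy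
    exact hvκ (ZFSet.vonNeumann_subset_of_le hν.le hvy)

end Pool.Agent.H82.OC
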