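import Pool.Agent.H82.OC.Defs

/-!
# OC-A11: dead and alive nodes (general lemmas)

All proofs are those of `H17/Omega/Alive.lean` (`OK.mono`, `Dead.mono`, `Dead.reg`, `Dead.mono_ord`, `Alive.mono`,
`Alive.step`) with lists instead of functions and `Ordinal.{u}` (the supremum is over `(ℕ × K) × P : Type u`).
`exists_dead`: for every `r' ≤ r` there are `r'' ≤ r'` and `ξ` with `Deadt T bb ξ r'' t`; take the supremum of the `ξ` over
`P`, `Deadt.mono_ord` and `Deadt.reg`.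
`not_deadt_of_alivet` (used for the projected tree): by induction on `ξ`: if `Alivet T bb r (flat t)` then
`¬ Deadt (prT T) (evn bb) ξ r t`.  Suppose `Deadt (prT T) (evn bb) ξ r t`.  `Alivet.step` at `r`: `r1 ≤ r`, `a1 = (z, k)`,
`Alivet T bb r1 (flat t ++ [a1])`; again: `r2 ≤ r1`, `a2 = (y, k')`, `Alivet T bb r2 (flat t ++ [a1] ++ [a2])`, and
`flat t ++ [a1] ++ [a2] = flat (t ++ [a])` with `a = (z, (y, k, k'))`.  By the definition of `Deadt` at `r2` there is `r3 ≤ r2`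
with: no `r4 ≤ r3` is OK for `t` (in `prT T`, `evn bb`) — impossible: `Alivet.step` below `r3` gives `r4 ≤ r3` OK for
`flat t` in `T`, which implies OK for `t` (`(flat t)[2i].1 = t[i].1`) — or there is `η < ξ` with
`Deadt (prT T) (evn bb) η r3 (t ++ [a])`, which contradicts the induction hypothesis.
-/

set_option autoImplicit false
set_option linter.unusedVariables false
set_option linter.unusedSectionVars false
set_option linter.unusedSimpArgs false
set_option linter.deprecated false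

universe u v w

open scoped ZFSet

namespace Pool.Agent.H82.OC

open Pool.Agent.H17.Omega

section

variable {P : Type u} [Preorder P] {K : Type u} {T : Set (List (ℕ × K))} {bb : ℕ → ℕ → P → Prop}

theorem OKt.mono (hb : RName bb) {r r' : P} {t : List (ℕ × K)} (h : r' ≤ r) (hO : OKt T bb r t) :
    OKt T bb r' t :=
  ⟨hO.1, fun i hi => hb.mono _ _ _ _ h (hO.2 i hi)⟩

theorem Deadt.mono {ξ : Ordinal.{u}} {r r' : P} {t : List (ℕ × K)} (h : r' ≤ r)
    (hD : Deadt T bb ξ r t) : Deadt T bb ξ r' t := by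
  rw [deadt_iff] at hD ⊢
  exact fun r1 hr1 => hD r1 (hr1.trans h)

theorem Deadt.reg {ξ : Ordinal.{u}} {r : P} {t : List (ℕ × K)}
    (h : ∀ r' ≤ r, ∃ r'' ≤ r', Deadt T bb ξ r'' t) : Deadt T bb ξ r t := by
  rw [deadt_iff]
  intro r1 hr1
  obtain ⟨r2, hr2, h2⟩ := h r1 hr1
  rw [deadt_iff] at h2
  obtain ⟨r3, hr3, h3⟩ := h2 r2 le_rfl
  exact ⟨r3, hr3.trans hr2, h3⟩

theorem Deadt.mono_ord {ξ ξ' : Ordinal.{u}} (hξ : ξ ≤ ξ') {r : P} {t : List (ℕ × K)}
    (hD : Deadt T bb ξ r t) : Deadt T bb ξ' r t := by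
  rw [deadt_iff] at hD ⊢
  intro r1 hr1
  obtain ⟨r2, hr2, h2⟩ := hD r1 hr1
  refine ⟨r2, hr2, h2.imp id fun h a => ?_⟩
  obtain ⟨η, hη, h3⟩ := h a
  exact ⟨η, hη.trans_le hξ, h3⟩

theorem Alivet.mono {r r' : P} (h : r' ≤ r) {t : List (ℕ × K)} (hA : Alivet T bb r t) :
    Alivet T bb r' t :=
  fun ξ r'' hr'' => hA ξ r'' (hr''.trans h)

theorem Alivet.step (hb : RName bb) {r : P} {t : List (ℕ × K)} (hA : Alivet T bb r t) {r1 : P}
    (hr1 : r1 ≤ r) : ∃ r2 ≤ r1, OKt T bb r2 t ∧ ∃ a, Alivet T bb r2 (t ++ [a]) := by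
  by_contra hc
  push Not at hc
  -- bounds
  have hex : ∀ (a : ℕ × K) (r2 : P), ∃ ξ : Ordinal.{u}, r2 ≤ r1 → OKt T bb r2 t →
      ∃ r3 ≤ r2, Deadt T bb ξ r3 (t ++ [a]) := by
    intro a r2
    by_cases h : r2 ≤ r1 ∧ OKt T bb r2 t
    · have h1 := hc r2 h.1 h.2 a
      unfold Alivet at h1
      push Not at h1
      obtain ⟨ξ, r3, h3, h4⟩ := h1
      exact ⟨ξ, fun _ _ => ⟨r3, h3, h4⟩⟩
    · exact ⟨0, fun h1 h2 => (h ⟨h1, h2⟩).elim⟩
  choose Ξ hΞ using hex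
  let B : Ordinal.{u} := ⨆ p : (ℕ × K) × P, Ξ p.1 p.2
  have hB : ∀ a r2, Ξ a r2 ≤ B := fun a r2 =>
    Ordinal.le_iSup (fun p : (ℕ × K) × P => Ξ p.1 p.2) (a, r2)
  refine hA (Order.succ B) r1 hr1 ?_
  rw [deadt_iff]
  intro r2 hr2
  by_cases h : ∃ r3 ≤ r2, OKt T bb r3 t
  · obtain ⟨r3, hr3, h3⟩ := h
    refine ⟨r3, hr3, Or.inr fun a => ⟨B, Order.lt_succ B, Deadt.reg fun r4 hr4 => ?_⟩⟩
    obtain ⟨r5, hr5, h5⟩ := hΞ a r4 (hr4.trans (hr3.trans hr2)) (h3.mono hb hr4)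
    exact ⟨r5, hr5, h5.mono_ord (hB a r4)⟩
  · push Not at h
    exact ⟨r2, le_rfl, Or.inl h⟩

theorem exists_dead {r : P} {t : List (ℕ × K)} (h : ∀ r' ≤ r, ¬ Alivet T bb r' t) :
    ∃ ξ : Ordinal.{u}, Deadt T bb ξ r t := by
  have hex : ∀ r' : P, ∃ ξ : Ordinal.{u}, r' ≤ r → ∃ r'' ≤ r', Deadt T bb ξ r'' t := by
    intro r'
    by_cases hr : r' ≤ r
    · have h1 := h r' hr
      unfold Alivet at h1
      push Not at h1
      obtain ⟨ξ, r3, h3, h4⟩ := h1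
      exact ⟨ξ, fun _ => ⟨r3, h3, h4⟩⟩
    · exact ⟨0, fun h1 => (hr h1).elim⟩
  choose Ξ hΞ using hex
  refine ⟨⨆ p : P, Ξ p, Deadt.reg fun r' hr' => ?_⟩
  obtain ⟨r'', h1, h2⟩ := hΞ r' hr'
  exact ⟨r'', h1, h2.mono_ord (Ordinal.le_iSup Ξ r')⟩

theorem flat_append (t : List (ℕ × (ℕ × K × K))) (a : ℕ × (ℕ × K × K)) :
    flat (t ++ [a]) = flat t ++ [(a.1, a.2.2.1)] ++ [(a.2.1, a.2.2.2)] := by
  induction t with
  | nil => simp [flat]
  | cons b t ih =>
    rw [List.cons_append, flat, ih, flat]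
    simp

theorem flat_getElem? (t : List (ℕ × (ℕ × K × K))) :
    ∀ i : ℕ, (flat t)[2 * i]? = (t[i]?).map fun a => (a.1, a.2.2.1) := by
  induction t with
  | nil => intro i; simp [flat]
  | cons b t ih =>
    intro i
    rw [flat]
    cases i with
    | zero => simp
    | succ i =>
      have e : 2 * (i + 1) = 2 * i + 1 + 1 := by ring
      rw [e, List.getElem?_cons_succ, List.getElem?_cons_succ, ih i, List.getElem?_cons_succ]

theorem OKt.of_flat {r : P} {t : List (ℕ × (ℕ × K × K))} (h : OKt T bb r (flat t)) :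
    OKt (prT T) (evn bb) r t := by
  refine ⟨h.1, fun i hi => ?_⟩
  have h1 := flat_getElem? t i
  rw [List.getElem?_eq_getElem hi, Option.map_some] at h1
  obtain ⟨h2, h3⟩ := List.getElem?_eq_some_iff.1 h1
  have h4 := h.2 (2 * i) h2
  rw [h3] at h4
  exact h4

theorem not_deadt_of_alivet (hb : RName bb) {ξ : Ordinal.{u}} {r : P}
    {t : List (ℕ × (ℕ × K × K))} (hA : Alivet T bb r (flat t)) : ¬ Deadt (prT T) (evn bb) ξ r t := by
  induction ξ using WellFoundedLT.induction generalizing r t with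
  | ind ξ ih =>
    intro hD
    obtain ⟨r1, hr1, -, a1, hA1⟩ := hA.step hb le_rfl
    obtain ⟨r2, hr2, -, a2, hA2⟩ := hA1.step hb le_rfl
    have e : flat t ++ [a1] ++ [a2] = flat (t ++ [(a1.1, (a2.1, a1.2, a2.2))]) := by
      rw [flat_append]
    rw [e] at hA2
    rw [deadt_iff] at hD
    obtain ⟨r3, hr3, h3⟩ := hD r2 (hr2.trans hr1)
    rcases h3 with h3 | h3
    · obtain ⟨r4, hr4, hO, -⟩ := hA.step hb (r1 := r3) (hr3.trans (hr2.trans hr1))
      exact h3 r4 hr4 hO.of_flat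
    · obtain ⟨η, hη, h4⟩ := h3 (a1.1, (a2.1, a1.2, a2.2))
      exact ih η hη (hA2.mono hr3) h4

end

end Pool.Agent.H82.OC
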