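import Pool.Agent.H82.OC.TreeG

/-!
# OC-A12: the tree of guesses

* `isTree_TU`: if `s ++ t ∈ TU A` with data `g, x, q, n, m`, the same data work for `s` (`pre`, prefix of a `map` of `range`).
* `proj_TU`: let `x ∈ proj (TU A)` with `b : ℕ → KK Q`.  For every `N` there are data `g, x', q, n, m` for the list of length
  `N`; so `(x i, b i) = (x' i, (g, q i, n i, m i))` for `i < N`.  Hence (`N ≥ 1`) `g = (b 0).1 = (b i).1` does not depend on `N`; let
  `q i = (b i).2.1`, `n i = (b i).2.2.1`, `m i = (b i).2.2.2`.  Apply `Valid A g`: `q` antitone; for `i`: `bb i (x i) (q (m i))`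
  (take `N > i, m i`); `pre q σ.length = σ` (`N ≥ σ.length`); `pre q (n k) ∈ O k` (`N > k`, `N ≥ n k`).
* `alive_TU`.  A node `t` is NICE for `r` if there are `l : List Q` (decreasing, `σ <+: l`, `t.length ≤ l.length`, `r ≤` all
  elements of `l`) and `x n m : ℕ → ℕ` such that, with `q i = l.getD i r`,
  `t = (List.range t.length).map (fun i => (x i, (g, q i, n i, m i)))` and for `i < t.length`: `n i ≤ l.length`,
  `pre q (n i) ∈ O i`, `m i < l.length`, `bb i (x i) (q (m i))`.  Claim: `t` nice for `r` implies `¬ Deadt (TU A) bb ξ r t`.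
  Induction on `ξ`.  Suppose `Deadt`.  Put `k = t.length`.  By density (`hO k`) applied to `l` and `r` there is a decreasing `l'`,
  `l ++ [r] <+: l'`, `l' ∈ O k`.  Its last element `e` is `≤ r` and `≤` all elements of `l'`.  By `hb.dense` there are `r1 ≤ e`, `j` with
  `bb k j r1`.  `l'' = l' ++ [r1]`.  Apply `Deadt` at `r1 ≤ r`: `r2 ≤ r1`.  First alternative: no `r3 ≤ r2` is OK for `t`; but `r2` is
  OK: `t ∈ TU A` (data from niceness; the conditions hold) and `bb i (x i) r2` for `i < k` (`bb i (x i) (q (m i))`, `r2 ≤ q (m i)`,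
  `hb.mono`).  Second: for `a = (j, (g, l''.getD k r1, l'.length, l'.length))` there is `η < ξ` with `Deadt η r2 (t ++ [a])`; but `t ++ [a]` is
  nice for `r2` with `l''` and the extended `x, n, m` (`x k = j`, `n k = m k = l'.length`); contradiction to the induction hypothesis.
  Finally `[]` is nice for `p` with `l = σ`, and for all `r' ≤ p`.
-/

set_option autoImplicit false
set_option linter.unusedVariables false
set_option linter.unusedSectionVars false
set_option linter.unusedSimpArgs false
set_option linter.deprecated false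

universe u v w

open scoped ZFSet

namespace Pool.Agent.H82.OC

open Pool.Agent.H17.Omega

section

variable {Q : Type u} [Preorder Q]

/-- The first `n` values. -/
def pre {α : Type v} (q : ℕ → α) (n : ℕ) : List α := (List.range n).map q

/-- A guess: a name, a finite sequence and countably many sets of finite sequences. -/
structure Gss (Q : Type u) : Type u where
  bb : ℕ → ℕ → Q → Prop
  σ : List Q
  O : ℕ → Set (List Q)

/-- The guess is valid: generic sequences extending `σ` give elements of `A`. -/
def Valid (A : Set (ℕ → ℕ)) (g : Gss Q) : Prop :=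
  ∀ (q : ℕ → Q) (x : ℕ → ℕ), Antitone q → (∀ i, ∃ k, g.bb i (x i) (q k)) →
    pre q g.σ.length = g.σ → (∀ k, ∃ n, pre q n ∈ g.O k) → x ∈ A

/-- The second components of the tree. -/
abbrev KK (Q : Type u) : Type u := Gss Q × (Q × (ℕ × ℕ))

/-- The tree of guesses. -/
def TU (A : Set (ℕ → ℕ)) : Set (List (ℕ × KK Q)) :=
  {t | ∃ (g : Gss Q) (x : ℕ → ℕ) (q : ℕ → Q) (n m : ℕ → ℕ), Valid A g ∧
    t = (List.range t.length).map (fun i => (x i, (g, (q i, (n i, m i))))) ∧
    (∀ i j, i ≤ j → j < t.length → q j ≤ q i) ∧
    (∀ i, i < t.length → ∀ h : i < g.σ.length, q i = g.σ[i]) ∧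
    (∀ i, i < t.length → n i ≤ t.length → pre q (n i) ∈ g.O i) ∧
    ∀ i, i < t.length → m i < t.length → g.bb i (x i) (q (m i))}

/-- `O` is dense below `σ`. -/
def Dns (σ : List Q) (O : Set (List Q)) : Prop :=
  ∀ l : List Q, l.Pairwise (fun a b => b ≤ a) → σ <+: l → ∀ r, (∀ a ∈ l, r ≤ a) →
    ∃ l' : List Q, l'.Pairwise (fun a b => b ≤ a) ∧ (l ++ [r]) <+: l' ∧ l' ∈ O

theorem isTree_TU (A : Set (ℕ → ℕ)) : IsTree (TU A : Set (List (ℕ × KK Q))) := by
  rintro s t ⟨g, x, q, n, m, hV, ht, h1, h2, h3, h4⟩
  have hlen : s.length ≤ (s ++ t).length := by simp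
  refine ⟨g, x, q, n, m, hV, ?_, fun i j hij hj => h1 i j hij (hj.trans_le hlen),
    fun i hi h => h2 i (hi.trans_le hlen) h,
    fun i hi h => h3 i (hi.trans_le hlen) (h.trans hlen),
    fun i hi h => h4 i (hi.trans_le hlen) (h.trans_le hlen)⟩
  have h5 := congrArg (List.take s.length) ht
  rw [List.take_left', ← List.map_take, List.take_range] at h5
  · rw [min_eq_left hlen] at h5
    exact h5
  · rfl

theorem proj_TU (A : Set (ℕ → ℕ)) : proj (TU A : Set (List (ℕ × KK Q))) ⊆ A := by
  rintro x ⟨b, hb⟩
  -- the data for each length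
  have key : ∀ N : ℕ, ∃ (g' : Gss Q) (x' : ℕ → ℕ) (q' : ℕ → Q) (n' m' : ℕ → ℕ), Valid A g' ∧
      (∀ i < N, x i = x' i ∧ b i = (g', (q' i, (n' i, m' i)))) ∧
      (∀ i j, i ≤ j → j < N → q' j ≤ q' i) ∧
      (∀ i, i < N → ∀ h : i < g'.σ.length, q' i = g'.σ[i]) ∧
      (∀ i, i < N → n' i ≤ N → pre q' (n' i) ∈ g'.O i) ∧
      ∀ i, i < N → m' i < N → g'.bb i (x' i) (q' (m' i)) := by
    intro N
    obtain ⟨g', x', q', n', m', hV, ht, h1, h2, h3, h4⟩ := hb N
    have hL : (List.ofFn (fun i : Fin N => (x i, b i))).length = N := List.length_ofFn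
    rw [hL] at ht h1 h2 h3 h4
    refine ⟨g', x', q', n', m', hV, fun i hi => ?_, h1, h2, h3, h4⟩
    have h5 : (List.ofFn (fun i : Fin N => (x i, b i)))[i]? =
        ((List.range N).map (fun i => (x' i, (g', (q' i, (n' i, m' i))))))[i]? := by
      rw [← ht]
    rw [List.getElem?_ofFn, dif_pos hi, List.getElem?_map, List.getElem?_range hi,
      Option.map_some, Option.some_inj, Prod.mk.injEq] at h5
    exact h5
  set g := (b 0).1 with hg
  set q : ℕ → Q := fun i => (b i).2.1 with hq
  set n : ℕ → ℕ := fun i => (b i).2.2.1 with hn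
  set m : ℕ → ℕ := fun i => (b i).2.2.2 with hm
  have key2 : ∀ N : ℕ, 0 < N → ∃ (q' : ℕ → Q), Valid A g ∧
      (∀ i < N, q i = q' i) ∧
      (∀ i j, i ≤ j → j < N → q' j ≤ q' i) ∧
      (∀ i, i < N → ∀ h : i < g.σ.length, q' i = g.σ[i]) ∧
      (∀ i, i < N → n i ≤ N → pre q' (n i) ∈ g.O i) ∧
      ∀ i, i < N → m i < N → g.bb i (x i) (q' (m i)) := by
    intro N hN
    obtain ⟨g', x', q', n', m', hV, h0, h1, h2, h3, h4⟩ := key N
    have hgg : g = g' := by
      rw [hg, (h0 0 hN).2]
    subst hgg
    refine ⟨q', hV, fun i hi => ?_, h1, h2, fun i hi => ?_, fun i hi => ?_⟩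
    · simp only [hq]
      rw [(h0 i hi).2]
    · have e1 : n i = n' i := by
        simp only [hn]
        rw [(h0 i hi).2]
      rw [e1]
      exact h3 i hi
    · have e1 : m i = m' i := by
        simp only [hm]
        rw [(h0 i hi).2]
      rw [e1, (h0 i hi).1]
      exact h4 i hi
  obtain ⟨_, hV, _⟩ := key2 1 one_pos
  refine hV q x ?_ ?_ ?_ ?_
  · intro i j hij
    obtain ⟨q', _, h0, h1, _⟩ := key2 (j + 1) (Nat.succ_pos j)
    rw [h0 i (by omega), h0 j (by omega)]
    exact h1 i j hij (by omega)
  · intro i
    refine ⟨m i, ?_⟩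
    obtain ⟨q', _, h0, _, _, _, h4⟩ := key2 (max i (m i) + 1) (Nat.succ_pos _)
    rw [h0 (m i) (by omega)]
    exact h4 i (by omega) (by omega)
  · obtain ⟨q', _, h0, _, h2, _⟩ := key2 (g.σ.length + 1) (Nat.succ_pos _)
    apply List.ext_getElem
    · simp [pre]
    · intro i hi hi'
      simp only [pre, List.getElem_map, List.getElem_range]
      rw [h0 i (by omega)]
      exact h2 i (by omega) hi'
  · intro k
    refine ⟨n k, ?_⟩
    obtain ⟨q', _, h0, _, _, h3, _⟩ := key2 (max k (n k) + 1) (Nat.succ_pos _)
    have h5 : pre q (n k) = pre q' (n k) := by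
      unfold pre
      apply List.map_congr_left
      intro i hi
      rw [List.mem_range] at hi
      exact h0 i (by omega)
    rw [h5]
    exact h3 k (by omega) (by omega)

/-- nice nodes -/
def TUNice (g : Gss Q) (r : Q) (t : List (ℕ × KK Q)) : Prop :=
  ∃ (l : List Q) (x n m : ℕ → ℕ), l.Pairwise (fun a b => b ≤ a) ∧ g.σ <+: l ∧
    t.length ≤ l.length ∧ (∀ a ∈ l, r ≤ a) ∧
    t = (List.range t.length).map (fun i => (x i, (g, (l.getD i r, (n i, m i))))) ∧
    ∀ i < t.length, n i ≤ l.length ∧ pre (fun i => l.getD i r) (n i) ∈ g.O i ∧ m i < l.length ∧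
      g.bb i (x i) (l.getD (m i) r)

theorem getD_of_prefix {l l' : List Q} (h : l <+: l') {i : ℕ} (hi : i < l.length) (r r' : Q) :
    l'.getD i r' = l.getD i r := by
  obtain ⟨s, rfl⟩ := h
  rw [List.getD_eq_getElem _ _ (by rw [List.length_append]; omega), List.getD_eq_getElem _ _ hi,
    List.getElem_append_left hi]

theorem pre_getD {l : List Q} (r : Q) : pre (fun i => l.getD i r) l.length = l := by
  apply List.ext_getElem
  · simp [pre]
  · intro i hi hi'
    simp only [pre, List.getElem_map, List.getElem_range]
    rw [List.getD_eq_getElem _ _ hi']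

theorem tuNice_not_dead {A : Set (ℕ → ℕ)} {g : Gss Q} (hb : RName g.bb) (hV : Valid A g)
    (hO : ∀ k, Dns g.σ (g.O k)) (ξ : Ordinal.{u}) : ∀ (r : Q) (t : List (ℕ × KK Q)),
      TUNice g r t → ¬ Deadt (TU A : Set (List (ℕ × KK Q))) g.bb ξ r t := by
  induction ξ using WellFoundedLT.induction with
  | _ ξ ih =>
    rintro r t ⟨l, x, n, m, hl, hσ, hlen, hr, ht, hc⟩ hD
    obtain ⟨l', hl', hpre, hl'O⟩ := hO t.length l hl hσ r hr
    -- the last element
    have hrl' : r ∈ l' := hpre.subset (by simp)
    have hne : l' ≠ [] := List.ne_nil_of_mem hrl'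
    have hlast : ∀ a ∈ l', l'.getLast hne ≤ a := by
      intro a ha
      obtain ⟨i, hi, rfl⟩ := List.getElem_of_mem ha
      rw [List.getLast_eq_getElem]
      rcases (Nat.le_sub_one_of_lt hi).eq_or_lt with h | h
      · simp only [h]
        exact le_rfl
      · exact (List.pairwise_iff_getElem.1 hl') i (l'.length - 1) hi (by omega) h
    obtain ⟨r1, hr1, j, hj⟩ := hb.dense t.length (l'.getLast hne)
    have hr1' : ∀ a ∈ l', r1 ≤ a := fun a ha => hr1.trans (hlast a ha)
    rw [deadt_iff] at hD
    obtain ⟨r2, hr2, h2 | h2⟩ := hD r1 (hr1' r hrl')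
    · -- `r2` is good
      refine h2 r2 le_rfl ⟨⟨g, x, fun i => l.getD i r, n, m, hV, ht, ?_, ?_, ?_, ?_⟩, ?_⟩
      · intro i j hij hj
        have hj' : j < l.length := hj.trans_le hlen
        beta_reduce
        rw [List.getD_eq_getElem _ _ hj', List.getD_eq_getElem _ _ (hij.trans_lt hj')]
        rcases hij.eq_or_lt with h | h
        · simp only [h]
          exact le_rfl
        · exact (List.pairwise_iff_getElem.1 hl) i j (hij.trans_lt hj') hj' h
      · intro i hi h
        simp only
        rw [getD_of_prefix hσ h r r, List.getD_eq_getElem _ _ h]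
      · intro i hi _
        exact (hc i hi).2.1
      · intro i hi _
        exact (hc i hi).2.2.2
      · intro i hi
        have e1 : (t[i]).1 = x i := by
          have h5 : t[i]? = ((List.range t.length).map
              (fun i => (x i, (g, (l.getD i r, (n i, m i))))))[i]? := by rw [← ht]
          rw [List.getElem?_map, List.getElem?_range hi, List.getElem?_eq_getElem hi,
            Option.map_some, Option.some_inj] at h5
          rw [h5]
        rw [e1]
        have h6 := hc i hi
        refine hb.mono _ _ _ _ ?_ h6.2.2.2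
        rw [List.getD_eq_getElem _ _ h6.2.2.1]
        exact hr2.trans ((hr1' r hrl').trans (hr _ (List.getElem_mem _)))
    · -- one more step
      have hlen' : l.length + 1 ≤ l'.length := by
        have := hpre.length_le
        simpa using this
      have hll' : l <+: l' := (List.prefix_append l [r]).trans hpre
      set l'' := l' ++ [r1] with hl''
      have hl'l'' : l' <+: l'' := List.prefix_append _ _
      have hll'' : l <+: l'' := hll'.trans hl'l''
      have hlen'' : l''.length = l'.length + 1 := by simp [hl'']
      obtain ⟨η, hη, hD'⟩ := h2 (j, (g, (l''.getD t.length r1, (l'.length, l'.length))))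
      refine ih η hη r2 _ ?_ hD'
      refine ⟨l'', fun i => if i < t.length then x i else j,
        fun i => if i < t.length then n i else l'.length,
        fun i => if i < t.length then m i else l'.length, ?_, hσ.trans hll'', ?_, ?_, ?_, ?_⟩
      · rw [hl'', List.pairwise_append]
        refine ⟨hl', List.pairwise_singleton _ _, ?_⟩
        intro a ha c hc'
        rw [List.mem_singleton] at hc'
        rw [hc']
        exact hr1' a ha
      · rw [List.length_append, List.length_singleton, hlen'']
        omega
      · intro a ha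
        rw [hl'', List.mem_append, List.mem_singleton] at ha
        rcases ha with ha | rfl
        · exact hr2.trans (hr1' a ha)
        · exact hr2
      · rw [List.length_append, List.length_singleton, List.range_succ, List.map_append,
          List.map_singleton]
        congr 1
        · rw [ht, List.length_map, List.length_range]
          apply List.map_congr_left
          intro i hi
          rw [List.mem_range] at hi
          simp only [if_pos hi]
          rw [getD_of_prefix hll'' (hi.trans_le hlen) r r2]
        · simp only [if_neg (lt_irrefl t.length)]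
          have h7 : t.length < l''.length := by omega
          rw [List.getD_eq_getElem _ _ h7, List.getD_eq_getElem _ _ h7]
      · intro i hi
        rw [List.length_append, List.length_singleton] at hi
        by_cases hik : i < t.length
        · simp only [if_pos hik]
          obtain ⟨c1, c2, c3, c4⟩ := hc i hik
          refine ⟨by omega, ?_, by omega, ?_⟩
          · have h8 : pre (fun i => l''.getD i r2) (n i) = pre (fun i => l.getD i r) (n i) := by
              unfold pre
              apply List.map_congr_left
              intro i' hi'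
              rw [List.mem_range] at hi'
              exact getD_of_prefix hll'' (hi'.trans_le c1) r r2
            rw [h8]
            exact c2
          · rw [getD_of_prefix hll'' c3 r r2]
            exact c4
        · simp only [if_neg hik]
          have hik' : i = t.length := by omega
          refine ⟨by omega, ?_, by omega, ?_⟩
          · have h8 : pre (fun i => l''.getD i r2) l'.length = l' := by
              conv_rhs => rw [← pre_getD (l := l') r2]
              unfold pre
              apply List.map_congr_left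
              intro i' hi'
              rw [List.mem_range] at hi'
              exact getD_of_prefix hl'l'' hi' r2 r2
            rw [h8, hik']
            exact hl'O
          · have h9 : l'.length < l''.length := by omega
            rw [List.getD_eq_getElem _ _ h9, hik']
            have h10 : l''[l'.length] = r1 := by
              simp [hl'']
            rw [h10]
            exact hj

theorem alive_TU {A : Set (ℕ → ℕ)} {g : Gss Q} (hb : RName g.bb) (hV : Valid A g)
    (hσ : g.σ.Pairwise (fun a b => b ≤ a)) (hO : ∀ k, Dns g.σ (g.O k)) {p : Q}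
    (hp : ∀ a ∈ g.σ, p ≤ a) : Alivet (TU A : Set (List (ℕ × KK Q))) g.bb p [] := by
  intro ξ r' hr'
  apply tuNice_not_dead hb hV hO ξ
  refine ⟨g.σ, fun _ => 0, fun _ => 0, fun _ => 0, hσ, List.prefix_refl _, Nat.zero_le _,
    fun a ha => hr'.trans (hp a ha), rfl, ?_⟩
  intro i hi
  exact absurd hi (Nat.not_lt_zero i)

end

end Pool.Agent.H82.OC
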