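import Pool.Agent.H82.OC.GenRk
import Pool.Agent.H82.OC.Chn
import Pool.Agent.H82.OC.ProjC
import Pool.Agent.H82.OC.UBcl

/-!
# OC-B8: chains over generic points; `WF` is universally Baire

* `exists_chn_of_hull`: let `Φ'` be as in `exists_chn` for `Φ`.  By `hull_lemma` (operations `Φ'`) all `x` outside of a meager set have a
  countable `Y0 ⊇ P0` with `Clo Φ' Y0`, `Gen c1 c2 Y0 x`.  Take `Y, ξ` from `exists_chn`.  `Gen c1 c2 (Y α) x`: if `c2 𝒰 ∈ Y α` then (`c2 𝒰 ∈ V_ γ`) `c2 𝒰 ∈ Y0`,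
  so there is `U ∈ 𝒰` with `c1 U ∈ Y0 ⊆ Y α`, `x ∈ U`.
* `wfx_of_chn`: let `g` be as in `IsChn.exists_h`.  Let `η0 < ω₁`; take `η ∈ Clh g`, `η0 < η` (`exists_mem_Clh`).  `S = Ords κ (Y η)`; `IsRk` gives
  `WFOn cd x S` (`WFOn_of`).  `col S` maps `S` onto `Iio η`; choose `ρ` with `ρ ν ∈ S`, `col S (ρ ν) = ν` for `ν < η`: strictly monotone on `Iio η`
  (`col_mono`).  `WFOn.of_map`: `WFOn cd x (Iio η)`; `WFOn.mono`.
* `UBS_WFx`: let `F : X → ℕ → ℕ` be continuous; codes `c1, c2` with values in `V_ γ` (`exists_codes` for `Set X`, `Set (Set X)`, take the larger level);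
  `δ > γ` Woodin, `κ, 𝒰` from `exists_normalUF`, `γ < κ`.  `baireMeasurableSet_of_local`: let `V` be open nonempty, `p = ⟨V, _⟩`.
  If `Badt cd F κ U t` for some `U ≤ p` and `t` over `κ`: `V' = U`, `meagre_of_bad`.  Otherwise `NoBad cd F κ p`: with the operations from `exists_rkOps`,
  `exists_chn_of_hull` and `wfx_of_chn`, all `x ∈ V` outside of a meager set satisfy `WFx cd (F x)`: `V' = V`.
-/

set_option autoImplicit false
set_option linter.unusedVariables false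
set_option linter.unusedSectionVars false
set_option linter.unusedSimpArgs false
set_option linter.deprecated false

universe u v w

open scoped ZFSet Ordinal

namespace Pool.Agent.H82.OC

open Pool.Agent.H17.Omega Pool.Agent.H17.Omega.T8

theorem exists_chn_of_hull {X : Type u} [TopologicalSpace X] (c1 : Set X → ZFSet.{u})
    {c2 : Set (Set X) → ZFSet.{u}} (h2 : Function.Injective c2) {γ κ : Ordinal.{u}}
    (m2 : ∀ 𝒰, c2 𝒰 ∈ V_ γ) {𝒰 : Ultrafilter Ordinal.{u}} (h : NormalUF κ 𝒰)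
    (hω : Ordinal.omega0 < κ) (hγ : γ < κ) (Φ : ℕ → ZFSet.{u} → ZFSet.{u}) {P0 : Set ZFSet.{u}}
    (hP0 : P0.Countable) : IsMeagre {x : X | ¬ ∃ (Y : Ordinal.{u} → Set ZFSet.{u})
      (ξ : Ordinal.{u} → Ordinal.{u}), IsChn κ 𝒰 Φ Y ξ ∧ P0 ⊆ Y 0 ∧
        ∀ α : Ordinal.{u}, α < ω₁ → Gen c1 c2 (Y α) x} := by
  obtain ⟨Φ', hΦ'⟩ := exists_chn h hω hγ Φ
  refine (hull_lemma c1 h2 Φ' hP0).mono ?_
  intro x hx hY
  apply hx
  obtain ⟨Y0, hc, hP, hclo, hgen⟩ := hY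
  obtain ⟨Y, ξ, h1, h3, h4⟩ := hΦ' Y0 hc hclo
  refine ⟨Y, ξ, h1, by rw [h3]; exact hP, fun α hα 𝒱 hU hd hm => ?_⟩
  obtain ⟨U, hU1, hU2, hU3⟩ := hgen 𝒱 hU hd (h4 α hα _ (m2 𝒱) hm)
  have h5 : Y 0 ⊆ Y α := h1.sub 0 α zero_le hα
  rw [h3] at h5
  exact ⟨U, hU1, h5 hU2, hU3⟩

theorem wfx_of_chn {cd : Tm.{u} → Tm.{u} → ℕ} (hc : OInv cd) {x : ℕ → ℕ} {κ : Ordinal.{u}}
    {𝒰 : Ultrafilter Ordinal.{u}} {Φ : ℕ → ZFSet.{u} → ZFSet.{u}} {Y : Ordinal.{u} → Set ZFSet.{u}}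
    {ξ : Ordinal.{u} → Ordinal.{u}} (h : IsChn κ 𝒰 Φ Y ξ)
    (hv : ∀ α : Ordinal.{u}, α < ω₁ → ∃ v, IsRk cd x κ (Y α) v) : WFx cd x := by
  obtain ⟨g, hg, hη⟩ := h.exists_h
  intro η0 hη0
  obtain ⟨η, hη1, hη2⟩ := exists_mem_Clh hg hη0
  obtain ⟨v, hv⟩ := hv η hη1.2.1
  have hw : WFOn cd x (Ords κ (Y η)) := WFOn_of v hv.lt
  have himg := (hη η hη1).1
  have hex : ∀ ν < η, ∃ s ∈ Ords κ (Y η), col (Ords κ (Y η)) s = ν := by
    intro ν hν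
    have h1 : ν ∈ Set.Iio η := hν
    rw [← himg] at h1
    exact h1
  have hmem : ∀ ν < η, Function.invFunOn (col (Ords κ (Y η))) (Ords κ (Y η)) ν ∈ Ords κ (Y η) :=
    fun ν hν => Function.invFunOn_mem (hex ν hν)
  have heq : ∀ ν < η, col (Ords κ (Y η))
      (Function.invFunOn (col (Ords κ (Y η))) (Ords κ (Y η)) ν) = ν :=
    fun ν hν => Function.invFunOn_eq (hex ν hν)
  have hρ : StrictMonoOn (Function.invFunOn (col (Ords κ (Y η))) (Ords κ (Y η))) (Set.Iio η) := by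
    intro ν hν ν' hν' hlt
    by_contra hle
    rw [not_lt] at hle
    have h1 := col_mono (S := Ords κ (Y η)) hle
    rw [heq ν hν, heq ν' hν'] at h1
    exact absurd h1 (not_le.2 hlt)
  have h1 : WFOn cd x (Set.Iio η) := WFOn.of_map hc hρ (fun ν hν => hmem ν hν) hw
  exact WFOn.mono (Set.Iio_subset_Iio hη2.le) h1

theorem UBS_WFx (hW : ManyWoodin.{u}) {cd : Tm.{u} → Tm.{u} → ℕ} (hc : OInv cd) :
    UBS.{u} {x : ℕ → ℕ | WFx cd x} := by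
  intro X _ F hF
  obtain ⟨c1, γ1, hc1, hm1⟩ := exists_codes (Set X)
  obtain ⟨c2, γ2, hc2, hm2⟩ := exists_codes (Set (Set X))
  obtain ⟨δ, hδ, hδW⟩ := hW γ2
  obtain ⟨κ, 𝒰, h1, h2, h3, h4, h5⟩ := exists_normalUF hδW hδ
  apply baireMeasurableSet_of_local
  intro V hV hVn
  by_cases hb : ∃ U ≤ (⟨V, hV, hVn⟩ : {U : Set X // IsOpen U ∧ U.Nonempty}),
      ∃ t, TmOn (Set.Iio κ) t ∧ Badt cd F κ U t
  · obtain ⟨U, hU, t, ht, hbad⟩ := hb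
    refine ⟨U.1, hU, U.2.1, U.2.2, Or.inl ?_⟩
    have hmg := meagre_of_bad hc hbad
    refine hmg.mono ?_
    intro x hx
    exact ⟨hx.1, hx.2⟩
  · have hnb : NoBad cd F κ ⟨V, hV, hVn⟩ := fun U hU t ht hbad => hb ⟨U, hU, t, ht, hbad⟩
    refine ⟨V, subset_rfl, hV, hVn, Or.inr ?_⟩
    obtain ⟨Ω, hΩ⟩ := exists_rkOps hF hc1 hc2 hnb
    refine (exists_chn_of_hull c1 hc2 hm2 h5 h2 h1 Ω (P0 := ∅) Set.countable_empty).mono ?_
    rintro x ⟨hxV, hx⟩ hY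
    apply hx
    obtain ⟨Y, ξ, hchn, _, hgen⟩ := hY
    refine wfx_of_chn hc hchn fun α hα => ?_
    obtain ⟨v, hv, _⟩ := hΩ (Y α) (hchn.clo α hα) x hxV (hgen α hα)
    exact ⟨v, hv⟩

end Pool.Agent.H82.OC
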