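import Pool.Agent.H82.OC.LEub
import Pool.Agent.H82.OC.Limit

/-!
# OC-B13: the best solution

`shn n` enumerates all shapes.  `Lx n x y`: `x n < y n ∨ (x n = y n ∧ LEm cd (shn n) x y)`.
* `Lx_total` (for `x, y` with `WFx`), `Lx_trans`: from `LE_total`, `LEm.trans`.
* `exists_min`: every nonempty set `A` of reals with `WFx` has an `Lx n`-least element: take the elements with minimal `x n`; among them there is one
  such that `LEm cd (shn n) x y` for all `y`: otherwise (`LE_total`) for every `x` there is `y` with `LTm cd (shn n) y x`, and one obtains a sequence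
  contradicting `no_LT_chain`.
* `exists_best`.  `A 0 = {x | C x ∧ WFx cd x}`, `A (n+1) = {x ∈ A n | ∀ y ∈ A n, Lx n x y}`.  All `A n` are nonempty (`exists_min`).  Choose
  `xs n ∈ A (n+1)`.  For `k ≥ n`: `xs k ∈ A (n+1)`, so `xs k n = xs n n` (`Lx n` both ways) and for `k, k' ≥ n`: `LEm cd (shn n) (xs k) (xs k')`.
  `x i := xs i i`.  `hlim`: `xs k i = x i` for `k ≥ i`.  `N m :=` some `n` with `shn n = m`.  `limit_WF`: `WFx cd x`, `LEm cd m x (xs k)` for `k ≥ N m`; more
  precisely for every `n` and `k ≥ n`: `LEm cd (shn n) x (xs k)` (compare with a larger `k'` if `N (shn n) > n`: `LEm x (xs k')`, `LEm (xs k') (xs k)`).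
  `C x` since `{x | C x}` is closed and `xs k → x` (pointwise = in the topology of `ℕ → ℕ`: `tendsto_pi_nhds`, discrete).
  So `Lx n x (xs n)` for all `n`.  `x ∈ A n` for all `n` by induction: for `y ∈ A n`, `Lx n x (xs n)`, `Lx n (xs n) y`.
  Now let `y` satisfy `C y`, `WFx cd y`, and `Lx i x y`, `Lx i y x` for `i < n`.  Then `y ∈ A i` for `i ≤ n` by induction (`y ∈ A i`, and for `z ∈ A i`:
  `Lx i y x`, `Lx i x z`), so `Lx n x y`.
* `best_unique`: if `x, y` are both best, then `Lx n x y` and `Lx n y x` for all `n` by strong induction, so `x n = y n`.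
-/

set_option autoImplicit false
set_option linter.unusedVariables false
set_option linter.unusedSectionVars false
set_option linter.unusedSimpArgs false
set_option linter.deprecated false

universe u v w

open scoped ZFSet Ordinal

namespace Pool.Agent.H82.OC

open Pool.Agent.H17.Omega Pool.Agent.H17.Omega.T8

/-- Enumeration of the shapes. -/
def shn (n : ℕ) : Shp := (Encodable.decode n : Option Shp).getD (0, [])

theorem exists_shn (m : Shp) : ∃ n, shn n = m := by
  refine ⟨Encodable.encode m, ?_⟩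
  rw [shn, Encodable.encodek]
  rfl

/-- The `n`-th comparison. -/
def Lx (cd : Tm.{u} → Tm.{u} → ℕ) (n : ℕ) (x y : ℕ → ℕ) : Prop :=
  x n < y n ∨ (x n = y n ∧ LEm cd (shn n) x y)

section

variable {cd : Tm.{u} → Tm.{u} → ℕ} {n : ℕ} {x y z : ℕ → ℕ}

theorem LTm.unifA_le {m : Shp} (h : LTm cd m x y) : LEm cd m x y := by
  obtain ⟨g, hg, hlt⟩ := h
  exact ⟨g, hg, fun ζ η ha => (hlt ζ η ha).le⟩

theorem Lx_total (hW : ManyWoodin.{u}) (hc : OInv cd) (n : ℕ) (hx : WFx cd x) (hy : WFx cd y) :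
    Lx cd n x y ∨ Lx cd n y x := by
  rcases lt_trichotomy (x n) (y n) with h | h | h
  · exact Or.inl (Or.inl h)
  · rcases LE_total hW hc (shn n) hx hy with h' | h'
    · exact Or.inl (Or.inr ⟨h, h'⟩)
    · exact Or.inr (Or.inr ⟨h.symm, h'.unifA_le⟩)
  · exact Or.inr (Or.inl h)

theorem Lx_trans (h : Lx cd n x y) (h' : Lx cd n y z) : Lx cd n x z := by
  rcases h with h | ⟨h1, h2⟩
  · rcases h' with h' | ⟨h1', -⟩
    · exact Or.inl (h.trans h')
    · exact Or.inl (h1' ▸ h)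
  · rcases h' with h' | ⟨h1', h2'⟩
    · exact Or.inl (h1 ▸ h')
    · exact Or.inr ⟨h1.trans h1', h2.trans h2'⟩

theorem Lx_antisymm (h : Lx cd n x y) (h' : Lx cd n y x) :
    x n = y n ∧ LEm cd (shn n) x y := by
  rcases h with h | h
  · rcases h' with h' | ⟨h', -⟩
    · exact absurd h (lt_asymm h')
    · exact absurd h (h' ▸ lt_irrefl _)
  · exact h

theorem exists_min (hW : ManyWoodin.{u}) (hc : OInv cd) (n : ℕ) {A : Set (ℕ → ℕ)}
    (hA : ∀ x ∈ A, WFx cd x) (hne : A.Nonempty) : ∃ x ∈ A, ∀ y ∈ A, Lx cd n x y := by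
  classical
  have hex : ∃ a : ℕ, ∃ x ∈ A, x n = a := by
    obtain ⟨x, hx⟩ := hne
    exact ⟨x n, x, hx, rfl⟩
  obtain ⟨x0, hx0, hx0n⟩ := Nat.find_spec hex
  have hmin : ∀ y ∈ A, Nat.find hex ≤ y n := fun y hy => Nat.find_min' hex ⟨y, hy, rfl⟩
  have key : ∃ x ∈ A, x n = Nat.find hex ∧
      ∀ y ∈ A, y n = Nat.find hex → LEm cd (shn n) x y := by
    by_contra hcon
    push Not at hcon
    have h1 : ∀ x : {x : ℕ → ℕ // x ∈ A ∧ x n = Nat.find hex},
        ∃ y : {x : ℕ → ℕ // x ∈ A ∧ x n = Nat.find hex}, LTm cd (shn n) y.1 x.1 := by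
      rintro ⟨x, hx, hxn⟩
      obtain ⟨y, hy, hyn, hle⟩ := hcon x hx hxn
      refine ⟨⟨y, hy, hyn⟩, ?_⟩
      rcases LE_total hW hc (shn n) (hA x hx) (hA y hy) with h' | h'
      · exact absurd h' hle
      · exact h'
    choose g hg using h1
    let xs : ℕ → {x : ℕ → ℕ // x ∈ A ∧ x n = Nat.find hex} :=
      fun k => Nat.rec ⟨x0, hx0, hx0n⟩ (fun _ b => g b) k
    exact no_LT_chain (xs := fun k => (xs k).1) (cd := cd) (m := shn n) fun k => hg (xs k)
  obtain ⟨x, hx, hxn, hle⟩ := key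
  refine ⟨x, hx, fun y hy => ?_⟩
  rcases lt_or_eq_of_le (hmin y hy) with h | h
  · exact Or.inl (by rw [hxn]; exact h)
  · exact Or.inr ⟨hxn.trans h, hle y hy h.symm⟩

/-- the sets of the proof of `exists_best` -/
def unifA (cd : Tm.{u} → Tm.{u} → ℕ) (C : (ℕ → ℕ) → Prop) : ℕ → Set (ℕ → ℕ)
  | 0 => {x | C x ∧ WFx cd x}
  | n + 1 => {x | x ∈ unifA cd C n ∧ ∀ y ∈ unifA cd C n, Lx cd n x y}

theorem unifA_anti (cd : Tm.{u} → Tm.{u} → ℕ) (C : (ℕ → ℕ) → Prop) {n k : ℕ} (h : n ≤ k) :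
    unifA cd C k ⊆ unifA cd C n := by
  induction h with
  | refl => exact subset_rfl
  | step _ ih => exact fun x hx => ih hx.1

/-- `x` is the best solution of `C`. -/
def Best (cd : Tm.{u} → Tm.{u} → ℕ) (C : (ℕ → ℕ) → Prop) (x : ℕ → ℕ) : Prop :=
  (C x ∧ WFx cd x) ∧ ∀ y, C y ∧ WFx cd y → ∀ n, (∀ i < n, Lx cd i x y ∧ Lx cd i y x) → Lx cd n x y

theorem exists_best (hW : ManyWoodin.{u}) (hc : OInv cd) {C : (ℕ → ℕ) → Prop}
    (hC : IsClosed {x | C x}) (hne : ∃ x, C x ∧ WFx cd x) : ∃ x, Best cd C x := by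
  have hA0 : ∀ n, ∀ x ∈ unifA cd C n, C x ∧ WFx cd x := fun n x hx =>
    unifA_anti cd C (Nat.zero_le n) hx
  have hnonempty : ∀ n, (unifA cd C n).Nonempty := by
    intro n
    induction n with
    | zero => exact hne
    | succ n ih =>
      obtain ⟨x, hx, hx'⟩ := exists_min hW hc n (fun x hx => (hA0 n x hx).2) ih
      exact ⟨x, hx, hx'⟩
  choose xs hxs using fun n => hnonempty (n + 1)
  have hmem : ∀ n k, n ≤ k → xs k ∈ unifA cd C (n + 1) := fun n k h =>
    unifA_anti cd C (Nat.succ_le_succ h) (hxs k)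
  have hcmp : ∀ n k k', n ≤ k → n ≤ k' →
      xs k n = xs k' n ∧ LEm cd (shn n) (xs k) (xs k') := by
    intro n k k' hk hk'
    exact Lx_antisymm ((hmem n k hk).2 _ (hmem n k' hk').1) ((hmem n k' hk').2 _ (hmem n k hk).1)
  choose N hN using exists_shn
  let x : ℕ → ℕ := fun i => xs i i
  have hlim : ∀ i, ∃ n0, ∀ n, n0 ≤ n → xs n i = x i := fun i =>
    ⟨i, fun n hn => (hcmp i n i hn le_rfl).1⟩
  obtain ⟨hxw, hxle⟩ := limit_WF hc (fun n => (hA0 _ _ (hxs n)).2) hlim (N := N) (by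
    intro m n n' hn hn'
    have := (hcmp (N m) n n' hn hn').2
    rwa [hN] at this)
  have hxle' : ∀ n k, n ≤ k → LEm cd (shn n) x (xs k) := by
    intro n k hk
    have h1 := hxle (shn n) (max k (N (shn n))) (le_max_right _ _)
    exact h1.trans (hcmp n _ k (hk.trans (le_max_left _ _)) hk).2
  have hCx : C x := by
    have ht : Filter.Tendsto xs Filter.atTop (nhds x) := by
      rw [tendsto_pi_nhds]
      intro i
      refine tendsto_const_nhds.congr' ?_
      filter_upwards [Filter.eventually_ge_atTop i] with n hn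
      exact ((hcmp i n i hn le_rfl).1).symm
    exact hC.mem_of_tendsto ht (Filter.Eventually.of_forall fun n => (hA0 _ _ (hxs n)).1)
  have hLx : ∀ n, Lx cd n x (xs n) := fun n => Or.inr ⟨rfl, hxle' n n le_rfl⟩
  have hxA : ∀ n, x ∈ unifA cd C n := by
    intro n
    induction n with
    | zero => exact ⟨hCx, hxw⟩
    | succ n ih => exact ⟨ih, fun y hy => Lx_trans (hLx n) ((hxs n).2 y hy)⟩
  refine ⟨x, ⟨hCx, hxw⟩, fun y hy n hi => ?_⟩
  have hyA : ∀ i, i ≤ n → y ∈ unifA cd C i := by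
    intro i
    induction i with
    | zero => intro _; exact hy
    | succ i ih =>
      intro hin
      exact ⟨ih (by omega), fun z hz => Lx_trans (hi i hin).2 ((hxA (i + 1)).2 z hz)⟩
  exact (hxA (n + 1)).2 y (hyA n le_rfl)

theorem best_unique {C : (ℕ → ℕ) → Prop} (hx : Best cd C x) (hy : Best cd C y) : x = y := by
  have h : ∀ n, Lx cd n x y ∧ Lx cd n y x := by
    intro n
    induction n using Nat.strong_induction_on with
    | _ n ih =>
      exact ⟨hx.2 y hy.1 n ih, hy.2 x hx.1 n fun i hi => (ih i hi).symm⟩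
  funext n
  exact (Lx_antisymm (h n).1 (h n).2).1

end

end Pool.Agent.H82.OC
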